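import Pool.Agent.Lib.MP_d308c3_co.K.Defs
import Pool.Agent.Lib.MP_108739_an.F.Ent1

/-! The entropy budget of the last node of one window. -/

set_option autoImplicit false

namespace Pool.Agent.Lib.MP_d308c3_co.K.Bud

open Finset Pool.Agent.Lib.MP_108739_an.F
open scoped Classical

variable {Ω α β : Type}

section tt
variable {c : TT Ω} {Λ : ℝ} {L : ℕ}

theorem nest_le (h : c.Ok Λ L) {i j : ℕ} (hij : i ≤ j) (hj : j ≤ L) (o : Ω) :
    c.lo i o ≤ c.lo j o ∧ c.hi j o ≤ c.hi i o := by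
  induction j, hij using Nat.le_induction with
  | base => exact ⟨le_rfl, le_rfl⟩
  | succ j hij ih =>
    have h1 := ih (by omega)
    have h2 := h.nest j (by omega) o
    exact ⟨h1.1.trans h2.1, h2.2.trans h1.2⟩

theorem det_W (h : c.Ok Λ L) {i j : ℕ} (hij : i ≤ j) (hj : j ≤ L) : Det (c.W j) (c.W i) := by
  intro o o' e
  have e1 : c.lo j o = c.lo j o' := congrArg Prod.fst e
  have e2 : c.hi j o = c.hi j o' := congrArg Prod.snd e
  have a := nest_le h hij hj o
  have b := nest_le h hij hj o'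
  have l := h.lt j hj o
  rcases h.lami i (hij.trans hj) o o' with k | k | k
  · exact k
  · omega
  · omega

theorem N_pos (h : c.Ok Λ L) {i : ℕ} (hi : i ≤ L) (o : Ω) : 0 < c.N i o := by
  have := h.lt i hi o
  unfold TT.N
  exact_mod_cast (by omega : 0 < c.hi i o - c.lo i o)

theorem lgS_pos (h : c.Ok Λ L) : 0 ≤ lg c.S := lg_nonneg (by linarith [h.two])

theorem ov_nonneg (h : c.Ok Λ L) {i : ℕ} (hi : i < L) (o : Ω) : 0 ≤ c.ov i o := by
  unfold TT.ov
  split_ifs
  · exact lg_nonneg ((one_le_div (N_pos h hi o)).2 (h.size (i + 1) hi o))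
  · exact le_rfl

theorem thr_succ (h : c.Ok Λ L) (i : ℕ) : c.thr i = c.S ^ 2 * c.thr (i + 1) := by
  have : c.S ≠ 0 := by linarith [h.two]
  unfold TT.thr
  rw [pow_succ (c.S ^ 2) i]
  field_simp

theorem lg_step (h : c.Ok Λ L) {i : ℕ} (hi : i < L) (o : Ω) :
    lg (c.N i o) - lg (c.N (i + 1) o) ≤ 2 * lg c.S + c.ov i o := by
  have s0 := lgS_pos h
  have S0 : 0 < c.S := by linarith [h.two]
  have n0 := N_pos h hi.le o
  have n1 := N_pos h (i := i + 1) hi o
  unfold TT.ov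
  split_ifs with a
  · have t1 : 0 < c.thr (i + 1) := n1.trans_le (h.size (i + 1) hi o)
    have e := lg_mono n0 (h.size i hi.le o)
    rw [thr_succ h i, lg_mul (by positivity) t1, sq, lg_mul S0 S0] at e
    rw [lg_div t1 n1]
    linarith
  · have e := h.idle i hi o a
    have e1 : c.lo (i + 1) o = c.lo i o := congrArg Prod.fst e
    have e2 : c.hi (i + 1) o = c.hi i o := congrArg Prod.snd e
    have : c.N (i + 1) o = c.N i o := by unfold TT.N; rw [e1, e2]
    rw [this]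
    linarith

theorem lg_N (h : c.Ok Λ L) {i j : ℕ} (hij : i ≤ j) (hj : j ≤ L) (o : Ω) :
    lg (c.N i o / c.N j o) ≤ 2 * ((j : ℝ) - i) * lg c.S + ∑ k ∈ Ico i j, c.ov k o := by
  rw [lg_div (N_pos h (hij.trans hj) o) (N_pos h hj o)]
  induction j, hij using Nat.le_induction with
  | base => simp
  | succ j hij ih =>
    have h1 := ih (by omega)
    have h2 := lg_step h (i := j) (by omega) o
    rw [sum_Ico_succ_top hij]
    push_cast
    linarith

variable [Fintype Ω] {v : Ω → ℝ}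

theorem sum_N (h : c.Ok Λ L) {i j : ℕ} (hij : i ≤ j) (hj : j ≤ L) (o : Ω) :
    ∑ q ∈ vals v (c.W j) (c.W i) o, ((q.2 - q.1 : ℕ) : ℝ) ≤ c.N i o := by
  have dis : ((vals v (c.W j) (c.W i) o : Finset (ℕ × ℕ)) : Set (ℕ × ℕ)).PairwiseDisjoint
      fun q => Ico q.1 q.2 := by
    intro q hq q' hq' hne
    obtain ⟨o1, -, -, rfl⟩ := mem_vals.1 (mem_coe.1 hq)
    obtain ⟨o2, -, -, rfl⟩ := mem_vals.1 (mem_coe.1 hq')
    refine disjoint_left.2 fun z hz hz' => ?_
    have hz1 := mem_Ico.1 hz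
    have hz2 := mem_Ico.1 hz'
    simp only [TT.W] at hz1 hz2
    rcases h.lami j hj o1 o2 with k | k | k
    · exact hne k
    · omega
    · omega
  have sub : (vals v (c.W j) (c.W i) o).biUnion (fun q => Ico q.1 q.2) ⊆
      Ico (c.lo i o) (c.hi i o) := by
    intro z hz
    obtain ⟨q, hq, hz⟩ := mem_biUnion.1 hz
    obtain ⟨o1, -, e, rfl⟩ := mem_vals.1 hq
    have e1 : c.lo i o1 = c.lo i o := congrArg Prod.fst e
    have e2 : c.hi i o1 = c.hi i o := congrArg Prod.snd e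
    have a := nest_le h hij hj o1
    have hz1 := mem_Ico.1 hz
    simp only [TT.W] at hz1
    exact mem_Ico.2 (by omega)
  have := card_le_card sub
  rw [card_biUnion dis] at this
  simp only [Nat.card_Ico] at this
  unfold TT.N
  exact_mod_cast this

/-- Gibbs by sizes -/
theorem H_W (h : c.Ok Λ L) (hv : Nn v) {i j : ℕ} (hij : i ≤ j) (hj : j ≤ L) :
    H v (c.W j) (c.W i) ≤ E v (fun o => ∑ k ∈ Ico i j, c.ov k o) +
      2 * ((j : ℝ) - i) * lg c.S * tot v := by
  refine (gibbs' hv (c.W j) (c.W i) (fun q o => ((q.2 - q.1 : ℕ) : ℝ) / c.N i o)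
    (fun q o o' e => ?_) (fun o _ => ?_) (fun o _ => ?_)).trans ?_
  · have e1 : c.lo i o = c.lo i o' := congrArg Prod.fst e
    have e2 : c.hi i o = c.hi i o' := congrArg Prod.snd e
    simp only [TT.N, e1, e2]
  · exact div_pos (N_pos h hj o) (N_pos h (hij.trans hj) o)
  · rw [← sum_div, div_le_one (N_pos h (hij.trans hj) o)]
    exact sum_N h hij hj o
  · rw [← E_const, ← E_add]
    refine E_mono hv fun o _ => ?_
    have a := lg_N h hij hj o
    have p1 := N_pos h hj o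
    have p0 := N_pos h (hij.trans hj) o
    have e : lg (c.N j o / c.N i o) = - lg (c.N i o / c.N j o) := by
      rw [lg_div p1 p0, lg_div p0 p1]; ring
    change - lg (c.N j o / c.N i o) ≤ _
    linarith

end tt

variable [Fintype Ω] {v w : Ω → ℝ}

theorem H_supp (hv : Nn v) {f : Ω → α} {g : Ω → β}
    (h : ∀ o o', 0 < v o → 0 < v o' → g o = g o' → f o = f o') : H v f g ≤ 0 := by
  have := H_le_card hv (f := f) (g := g) (K := 1) le_rfl fun o ho => by
    have : vals v f g o ⊆ {f o} := fun x hx => by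
      obtain ⟨o', a, b, rfl⟩ := mem_vals.1 hx
      exact mem_singleton.2 (h o' o a ho b)
    exact_mod_cast (card_le_card this).trans (card_singleton _).le
  rwa [lg_one, zero_mul] at this

theorem vals_sub (hs : ∀ o, 0 < v o → 0 < w o) (f : Ω → α) (g : Ω → β) (o : Ω) :
    vals v f g o ⊆ vals w f g o := fun x hx => by
  obtain ⟨o', a, b, e⟩ := mem_vals.1 hx
  exact mem_vals.2 ⟨o', hs o' a, b, e⟩

variable {d : Loc Ω} {Λ η : ℝ}

omit [Fintype Ω] in
theorem lev_mono {c c' : ℕ} (h : c ≤ c') : d.lev c ≤ d.lev c' :=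
  Nat.add_le_add_left (Nat.mul_le_mul_right _ h) _

/-- one macro step -/
theorem H_nd_step (h : d.Ok w Λ η) (hv : Nn v) (hs : ∀ o, 0 < v o → 0 < w o) {c : ℕ}
    (hc : c < d.m) : H v (d.nd (c + 1)) (d.nd c) ≤
      E v (fun o => ∑ k ∈ Ico (d.lev c) (d.lev (c + 1)), d.ov k o) +
        4 * d.U * lg d.S * tot v := by
  have S0 : 0 < d.S := by linarith [h.tt.two]
  have h1 := H_W h.tt hv (lev_mono (d := d) (Nat.le_succ c)) (lev_mono (d := d) hc)
  have h2 : H v (d.W (d.lev (c + 1))) (d.nd c) ≤ H v (d.W (d.lev (c + 1))) (d.W (d.lev c)) :=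
    H_mono hv Det.fst Det.fst
  have h3 : H v (d.Y (c + 1)) (pr (d.nd c) (d.W (d.lev (c + 1)))) ≤ lg (d.S ^ (2 * d.U)) * tot v :=
    H_le_card hv (one_le_pow₀ (by linarith [h.tt.two])) fun o ho =>
      le_trans (by exact_mod_cast card_le_card (vals_sub hs _ _ o)) (h.cells c hc o (hs o ho))
  have h4 : H v (d.Y (c + 1)) (pr (d.W (d.lev (c + 1))) (d.nd c)) ≤
      H v (d.Y (c + 1)) (pr (d.nd c) (d.W (d.lev (c + 1)))) :=
    H_mono hv Det.fst (Det.snd.pr Det.fst)
  have h5 : H v (d.nd (c + 1)) (d.nd c) = H v (d.W (d.lev (c + 1))) (d.nd c) +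
      H v (d.Y (c + 1)) (pr (d.W (d.lev (c + 1))) (d.nd c)) := H_chain hv _ _ _
  have e1 : lg (d.S ^ (2 * d.U)) = 2 * d.U * lg d.S := by
    simp [lg, Real.logb_pow]
  have e2 : ((d.lev (c + 1) : ℕ) : ℝ) - (d.lev c : ℕ) = d.U := by
    unfold Loc.lev; push_cast; ring
  rw [e1] at h3
  simp only [Nat.succ_eq_add_one] at h1
  rw [e2] at h1
  linarith

/-- the node of step `c` given the root data -/
theorem H_nd (h : d.Ok w Λ η) (hv : Nn v) (hs : ∀ o, 0 < v o → 0 < w o) {g : Ω → β}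
    (hg : ∀ o o', 0 < w o → 0 < w o' → g o = g o' → d.nd 0 o = d.nd 0 o') {c : ℕ}
    (hc : c ≤ d.m) : H v (d.nd c) g ≤
      E v (fun o => ∑ k ∈ Ico d.Gr (d.lev c), d.ov k o) + 4 * c * d.U * lg d.S * tot v := by
  induction c with
  | zero =>
    have := H_supp hv (f := d.nd 0) (g := g) fun o o' a b e => hg o o' (hs o a) (hs o' b) e
    simpa [Loc.lev, E] using this
  | succ c ih =>
    have h1 := ih (by omega)
    have h2 := H_nd_step h hv hs (c := c) hc
    have h3 := H_tri hv (d.nd (c + 1)) (d.nd c) g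
    have h4 : H v (d.nd (c + 1)) (pr (d.nd c) g) ≤ H v (d.nd (c + 1)) (d.nd c) :=
      H_mono hv Det.fst Det.fst
    have e : E v (fun o => ∑ k ∈ Ico d.Gr (d.lev (c + 1)), d.ov k o) =
        E v (fun o => ∑ k ∈ Ico d.Gr (d.lev c), d.ov k o) +
          E v (fun o => ∑ k ∈ Ico (d.lev c) (d.lev (c + 1)), d.ov k o) := by
      rw [← E_add]
      congr 1
      funext o
      exact (sum_Ico_consecutive _ (Nat.le_add_right _ _) (lev_mono (Nat.le_succ c))).symm
    rw [e]
    push_cast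
    linarith

/-- the budget: the last node given nothing, for one root node -/
theorem bud (h : d.Ok w Λ η) (hw : Nn w) (hr : d.Root w) {g : Ω → β} :
    H w (d.nd d.m) g ≤ E w (d.ovs (d.lev d.m)) +
      (2 * d.Gr + 4 * d.m * d.U) * lg d.S * tot w := by
  have hG : d.Gr ≤ d.lev d.m := Nat.le_add_right _ _
  have a1 := H_nd (g := d.W d.Gr) h hw (fun _ a => a) (fun o o' a b e => by
    have e1 : d.W (d.lev 0) o = d.W (d.lev 0) o' := by simpa [Loc.lev] using e
    exact Prod.ext e1 (hr o o' a b).2) le_rfl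
  have a2 := H_W h.tt hw (Nat.zero_le d.Gr) hG
  have a3 := H_tri hw (d.nd d.m) (d.W d.Gr) g
  have a4 : H w (d.nd d.m) (pr (d.W d.Gr) g) ≤ H w (d.nd d.m) (d.W d.Gr) :=
    H_mono hw Det.fst Det.fst
  have a5 := H_tri hw (d.W d.Gr) (d.W 0) g
  have a6 : H w (d.W 0) g ≤ 0 := H_supp hw fun o o' a b _ => (hr o o' a b).1
  have a7 : H w (d.W d.Gr) (pr (d.W 0) g) ≤ H w (d.W d.Gr) (d.W 0) := H_mono hw Det.fst Det.fst
  have e : E w (d.ovs (d.lev d.m)) = E w (fun o => ∑ k ∈ Ico 0 d.Gr, d.ov k o) +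
      E w (fun o => ∑ k ∈ Ico d.Gr (d.lev d.m), d.ov k o) := by
    rw [← E_add]
    congr 1
    funext o
    rw [sum_Ico_consecutive _ (Nat.zero_le _) hG, TT.ovs, range_eq_Ico]
  rw [e]
  simp only [Nat.cast_zero, sub_zero] at a2
  linarith

end Pool.Agent.Lib.MP_d308c3_co.K.Bud
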