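import Pool.Agent.Lib.MP_d308c3_co.K.Defs
import Pool.Agent.Lib.MP_d308c3_co.ColC

/-! Column bridge, part A: elementary facts on time trees and the code of a label. -/

set_option autoImplicit false

namespace Pool.Agent.Lib.MP_d308c3_co.K.Cb

open Finset Pool.Agent.Lib.MP_108739_an.F
open Classical

variable {Ω : Type} {c : TT Ω} {Λ : ℝ} {L : ℕ}

theorem nest_le (h : c.Ok Λ L) {i j : ℕ} (hij : i ≤ j) (hj : j ≤ L) (o : Ω) :
    c.lo i o ≤ c.lo j o ∧ c.hi j o ≤ c.hi i o := by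
  induction j, hij using Nat.le_induction with
  | base => exact ⟨le_rfl, le_rfl⟩
  | succ j hij ih =>
    have h1 := ih (by omega)
    have h2 := h.nest j (by omega) o
    exact ⟨h1.1.trans h2.1, h2.2.trans h1.2⟩

theorem detW (h : c.Ok Λ L) {i j : ℕ} (hij : i ≤ j) (hj : j ≤ L) : Det (c.W j) (c.W i) := by
  intro o o' e
  have e1 : c.lo j o = c.lo j o' := congrArg Prod.fst e
  have e2 : c.hi j o = c.hi j o' := congrArg Prod.snd e
  have h1 := nest_le h hij hj o
  have h2 := nest_le h hij hj o'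
  have h3 := h.lt j hj o
  rcases h.lami i (hij.trans hj) o o' with k | k | k
  · exact k
  · omega
  · omega

theorem N_pos (h : c.Ok Λ L) {i : ℕ} (hi : i ≤ L) (o : Ω) : 0 < c.N i o := by
  have := h.lt i hi o
  unfold TT.N
  exact_mod_cast Nat.sub_pos_of_lt this

theorem len_pos (h : c.Ok Λ L) {i : ℕ} (hi : i ≤ L) (o : Ω) : 0 < c.len i o :=
  sub_pos.2 (h.mono (h.lt i hi o))

theorem S_pos (h : c.Ok Λ L) : 0 < c.S := by linarith [h.two]

theorem lgS_pos (h : c.Ok Λ L) : 1 ≤ lg c.S := by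
  rw [← lg_two]; exact lg_mono two_pos h.two

theorem thr_pos (h : c.Ok Λ L) (i : ℕ) : 0 < c.thr i := by
  have h1 := S_pos h
  have h2 : 0 < c.thr L := lt_of_lt_of_le (by positivity) h.big
  unfold TT.thr at h2 ⊢
  have h3 : 0 < c.th := (div_pos_iff_of_pos_right (by positivity)).1 h2
  positivity

theorem thr_succ (h : c.Ok Λ L) (i : ℕ) : c.thr i = c.S ^ 2 * c.thr (i + 1) := by
  have h1 := S_pos h
  unfold TT.thr
  rw [pow_succ (c.S ^ 2)]
  field_simp

theorem N_congr {i : ℕ} {o o' : Ω} (e : c.W i o = c.W i o') : c.N i o = c.N i o' := by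
  have e1 : c.lo i o = c.lo i o' := congrArg Prod.fst e
  have e2 : c.hi i o = c.hi i o' := congrArg Prod.snd e
  unfold TT.N
  rw [e1, e2]

theorem spl_congr {i : ℕ} {o o' : Ω} (e : c.W i o' = c.W i o) (h : c.spl i o) : c.spl i o' := by
  unfold TT.spl at h ⊢
  rwa [N_congr e]

theorem ov_nonneg (h : c.Ok Λ L) {i : ℕ} (hi : i < L) (o : Ω) : 0 ≤ c.ov i o := by
  unfold TT.ov
  split_ifs
  · exact lg_nonneg ((one_le_div (N_pos h hi o)).2 (h.size (i + 1) hi o))
  · exact le_rfl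

theorem ratio_one (h : c.Ok Λ L) {i : ℕ} (hi : i < L) (o : Ω) :
    lg (c.N i o) - lg (c.N (i + 1) o) ≤ 2 * lg c.S + c.ov i o := by
  have h1 := lgS_pos h
  unfold TT.ov
  split_ifs with hs
  · have h2 := lg_mono (N_pos h hi.le o) (h.size i hi.le o)
    have h3 := S_pos h
    rw [thr_succ h, pow_two, lg_mul (by positivity) (thr_pos h _), lg_mul h3 h3] at h2
    rw [lg_div (thr_pos h _) (N_pos h hi o)]
    linarith
  · have e : c.N (i + 1) o = c.N i o := by
      have e0 := h.idle i hi o hs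
      have e1 : c.lo (i + 1) o = c.lo i o := congrArg Prod.fst e0
      have e2 : c.hi (i + 1) o = c.hi i o := congrArg Prod.snd e0
      unfold TT.N
      rw [e1, e2]
    rw [e]
    linarith

theorem ratio_le (h : c.Ok Λ L) (i n : ℕ) (hj : i + n ≤ L) (o : Ω) :
    lg (c.N i o / c.N (i + n) o) ≤ 2 * n * lg c.S + ∑ k ∈ Ico i (i + n), c.ov k o := by
  rw [lg_div (N_pos h (by omega) o) (N_pos h hj o)]
  induction n with
  | zero => simp
  | succ n ih =>
    have h1 := ih (by omega)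
    have h2 := ratio_one h (i := i + n) (by omega) o
    rw [← add_assoc, sum_Ico_succ_top (by omega)]
    push_cast
    linarith

variable [Fintype Ω] {w : Ω → ℝ}

theorem sum_vals (h : c.Ok Λ L) {i j : ℕ} (hij : i ≤ j) (hj : j ≤ L) {f : ℕ → ℝ}
    (hf : Monotone f) (o : Ω) :
    ∑ v ∈ vals w (c.W j) (c.W i) o, (f v.2 - f v.1) ≤ f (c.hi i o) - f (c.lo i o) := by
  have tel : ∀ a b : ℕ, a ≤ b → f b - f a = ∑ n ∈ Ico a b, (f (n + 1) - f n) := fun a b hab =>
    (sum_Ico_sub f hab).symm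
  have e1 : ∀ v ∈ vals w (c.W j) (c.W i) o,
      f v.2 - f v.1 = ∑ n ∈ Ico v.1 v.2, (f (n + 1) - f n) := fun v hv => by
    obtain ⟨o', -, -, rfl⟩ := mem_vals.1 hv
    exact tel _ _ (h.lt j hj o').le
  rw [sum_congr rfl e1, tel _ _ (h.lt i (hij.trans hj) o).le, ← sum_biUnion]
  · refine sum_le_sum_of_subset_of_nonneg (fun n hn => ?_)
      fun n _ _ => sub_nonneg.2 (hf (Nat.le_succ n))
    obtain ⟨v, hv, hn⟩ := mem_biUnion.1 hn
    obtain ⟨o', -, e, rfl⟩ := mem_vals.1 hv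
    have e1 : c.lo i o' = c.lo i o := congrArg Prod.fst e
    have e2 : c.hi i o' = c.hi i o := congrArg Prod.snd e
    have h1 := nest_le h hij hj o'
    rw [mem_Ico] at hn ⊢
    simp only [TT.W] at hn
    omega
  · intro v hv v' hv' hne
    obtain ⟨o1, -, -, rfl⟩ := mem_vals.1 hv
    obtain ⟨o2, -, -, rfl⟩ := mem_vals.1 hv'
    refine disjoint_left.2 fun n h1 h2 => ?_
    rw [mem_Ico] at h1 h2
    simp only [TT.W] at h1 h2
    rcases h.lami j hj o1 o2 with k | k | k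
    · exact hne k
    · omega
    · omega

theorem sum_vals_N (h : c.Ok Λ L) {i j : ℕ} (hij : i ≤ j) (hj : j ≤ L) (o : Ω) :
    ∑ v ∈ vals w (c.W j) (c.W i) o, ((v.2 - v.1 : ℕ) : ℝ) ≤ c.N i o := by
  have h1 := sum_vals (w := w) h hij hj (f := fun n => (n : ℝ)) Nat.mono_cast o
  unfold TT.N
  rw [Nat.cast_sub (h.lt i (hij.trans hj) o).le]
  refine le_trans (le_of_eq (sum_congr rfl fun v hv => ?_)) h1
  obtain ⟨o', -, -, rfl⟩ := mem_vals.1 hv
  exact Nat.cast_sub (h.lt j hj o').le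

/-- code of a window by its size -/
theorem H_W (h : c.Ok Λ L) (hw : Nn w) (i n : ℕ) (hj : i + n ≤ L) :
    H w (c.W (i + n)) (c.W i) ≤
      2 * n * lg c.S * tot w + E w fun o => ∑ k ∈ Ico i (i + n), c.ov k o := by
  refine (gibbs' hw (c.W (i + n)) (c.W i) (fun v o => ((v.2 - v.1 : ℕ) : ℝ) / c.N i o)
    (fun v o o' e => by simp only [N_congr e]) (fun o _ => ?_) (fun o _ => ?_)).trans ?_
  · exact div_pos (N_pos h hj o) (N_pos h (by omega) o)
  · rw [← sum_div, div_le_one (N_pos h (by omega) o)]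
    exact sum_vals_N h (by omega) hj o
  · rw [← E_const, ← E_add]
    refine E_mono hw fun o _ => ?_
    have h1 := ratio_le h i n hj o
    have p1 := N_pos h (i := i) (by omega) o
    have p2 := N_pos h hj o
    rw [lg_div p1 p2] at h1
    change -lg (c.N (i + n) o / c.N i o) ≤ _
    rw [lg_div p2 p1]
    linarith

section lab
variable {d : Loc Ω} {η : ℝ}

omit [Fintype Ω] in
theorem lev_le (d : Loc Ω) {k m : ℕ} (h : k ≤ m) : d.lev k ≤ d.lev m :=
  Nat.add_le_add_left (Nat.mul_le_mul_right _ h) _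

theorem det_nd (h : d.Ok w Λ η) {k n : ℕ} (hk : k ≤ n) (hn : n ≤ d.m) : Det (d.nd n) (d.nd k) := by
  induction n, hk using Nat.le_induction with
  | base => exact Det.rfl
  | succ n hk ih =>
    refine Det.trans (Det.pr (Det.fst.trans
      (detW h.tt (lev_le d (Nat.le_succ n)) (lev_le d hn))) (h.nest n hn)) (ih (by omega))

theorem H_nd (h : d.Ok w Λ η) (hw : Nn w) (hr : d.Root w) (Ev : Ω → Prop) {n : ℕ} (hn : n ≤ d.m) :
    H (res w Ev) (d.nd n) (d.W d.Gr) ≤ 4 * n * d.U * lg d.S * tot (res w Ev) +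
      E (res w Ev) fun o => ∑ k ∈ Ico d.Gr (d.lev n), d.ov k o := by
  have hE := hw.res Ev
  induction n with
  | zero =>
    have h1 : H (res w Ev) (d.nd 0) (d.W d.Gr) ≤ lg (1 : ℕ) * tot (res w Ev) := by
      refine H_le_card hE (by norm_num) fun o ho => Col.card_vals_le (s := {d.nd 0 o})
        (fun o' ho' e => mem_singleton.2 (Prod.ext ?_ ?_)) (by simp)
      · simpa [Loc.nd, pr, Loc.lev] using e
      · exact (hr o' o (res_pos ho').2 (res_pos ho).2).2
    simpa [lg_one, Loc.lev, E] using h1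
  | succ n ih =>
    have h1 := ih (by omega)
    have h2 := H_tri hE (d.nd (n + 1)) (d.nd n) (d.W d.Gr)
    have h3 := H_tri hE (d.nd (n + 1)) (d.W (d.lev (n + 1))) (pr (d.nd n) (d.W d.Gr))
    have e : d.lev (n + 1) = d.lev n + d.U := by unfold Loc.lev; ring
    have h4 : H (res w Ev) (d.W (d.lev (n + 1))) (pr (d.nd n) (d.W d.Gr)) ≤
        H (res w Ev) (d.W (d.lev (n + 1))) (d.W (d.lev n)) :=
      H_mono hE Det.fst (Det.fst.trans Det.fst)
    have h5 := H_W h.tt hE (d.lev n) d.U (by rw [← e]; exact lev_le d hn)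
    rw [← e] at h5
    have h6 : H (res w Ev) (d.nd (n + 1))
        (pr (d.W (d.lev (n + 1))) (pr (d.nd n) (d.W d.Gr))) ≤
        H (res w Ev) (d.Y (n + 1)) (pr (d.nd n) (d.W (d.lev (n + 1)))) :=
      H_mono hE (Det.pr (Det.snd.trans Det.fst) Det.fst)
        (Det.pr (Det.snd.trans Det.fst) Det.fst)
    have hS := h.tt.two
    have h7 : H (res w Ev) (d.Y (n + 1)) (pr (d.nd n) (d.W (d.lev (n + 1)))) ≤
        lg (d.S ^ (2 * d.U)) * tot (res w Ev) :=
      H_le_card hE (one_le_pow₀ (by linarith)) fun o ho =>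
        le_trans (Nat.cast_le.2 (card_le_card (Col.vals_res_sub Ev _ _ o)))
          (h.cells n hn o (res_pos ho).2)
    have h8 : lg (d.S ^ (2 * d.U)) = 2 * d.U * lg d.S := by
      simp [lg, Real.logb_pow]
    have h9 : E (res w Ev) (fun o => ∑ k ∈ Ico d.Gr (d.lev (n + 1)), d.ov k o) =
        E (res w Ev) (fun o => ∑ k ∈ Ico d.Gr (d.lev n), d.ov k o) +
        E (res w Ev) (fun o => ∑ k ∈ Ico (d.lev n) (d.lev (n + 1)), d.ov k o) := by
      rw [← E_add]
      refine congrArg _ (funext fun o => (sum_Ico_consecutive _ (Nat.le_add_right _ _) ?_).symm)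
      exact lev_le d (Nat.le_succ n)
    rw [h8] at h7
    rw [h9]
    push_cast
    linarith

/-- a node has at most `1 / η` active labels -/
theorem card_lab (h : d.Ok w Λ η) (hw : Nn w) (hη : 0 < η) {k : ℕ} (hk : k < d.m) {o : Ω}
    (ho : 0 < w o) (s : Finset (Option (ℕ × ℤ)))
    (hs : ∀ v ∈ s, ∃ o' l, 0 < w o' ∧ d.nd k o' = d.nd k o ∧ d.lab k o' = some l ∧ v = some l) :
    (#s : ℝ) ≤ 1 / η := by
  have h1 := sum_mass_le hw (d.lab k) (d.nd k) s o
  have h2 : ∑ _v ∈ s, η * ms w (d.nd k) o ≤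
      ∑ v ∈ s, tot (res w fun o' => d.lab k o' = v ∧ d.nd k o' = d.nd k o) := by
    refine sum_le_sum fun v hv => ?_
    obtain ⟨o', l, p, e, e2, rfl⟩ := hs v hv
    have k1 := (h.lab k hk).m1 o' l p e2
    rw [ms_det _ _ _ e, e] at k1
    exact k1.trans_eq (congrArg tot (res_congr fun _ => and_comm))
  rw [sum_const, nsmul_eq_mul] at h2
  have hm := ms_pos hw (d.nd k) ho
  rw [le_div_iff₀ hη]
  have : (#s : ℝ) * η * ms w (d.nd k) o ≤ 1 * ms w (d.nd k) o := by linarith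
  exact le_of_mul_le_mul_right this hm

/-- code of step, node and label on an event of selected items -/
theorem H_lab {β : Type} (h : d.Ok w Λ η) (hw : Nn w) (hη : 0 < η) (hη1 : η ≤ 1) (hr : d.Root w)
    (Ev : Ω → Prop) (sc : Ω → ℕ)
    (hs : ∀ o, Ev o → sc o < d.m ∧ ∃ l, d.lab (sc o) o = some l) (n0 : Ω → β) :
    H (res w Ev) (fun o => (sc o, d.nd (sc o) o, d.lab (sc o) o)) (pr (d.W d.Gr) n0) ≤
      (lg (d.m + 1) + lg (1 / η) + 4 * d.m * d.U * lg d.S) * tot (res w Ev) +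
        E (res w Ev) fun o => ∑ k ∈ Ico d.Gr (d.lev d.m), d.ov k o := by
  have hE := hw.res Ev
  have h1 := H_tri hE (fun o => (sc o, d.nd (sc o) o, d.lab (sc o) o)) (d.nd d.m)
    (pr (d.W d.Gr) n0)
  have h2 : H (res w Ev) (d.nd d.m) (pr (d.W d.Gr) n0) ≤ H (res w Ev) (d.nd d.m) (d.W d.Gr) :=
    H_mono hE Det.fst Det.fst
  have h3 := H_nd h hw hr Ev le_rfl
  have h4 := H_tri hE (fun o => (sc o, d.nd (sc o) o, d.lab (sc o) o)) sc
    (pr (d.nd d.m) (pr (d.W d.Gr) n0))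
  have h5 : H (res w Ev) sc (pr (d.nd d.m) (pr (d.W d.Gr) n0)) ≤
      lg ((d.m + 1 : ℕ) : ℝ) * tot (res w Ev) :=
    H_le_card hE (by simp) fun o _ => Col.card_vals_le (s := range (d.m + 1))
      (fun o' ho' _ => mem_range.2 (by have := (hs o' (res_pos ho').1).1; omega)) (by simp)
  have h6 : H (res w Ev) (fun o => (sc o, d.nd (sc o) o, d.lab (sc o) o))
      (pr sc (pr (d.nd d.m) (pr (d.W d.Gr) n0))) ≤ lg (1 / η) * tot (res w Ev) := by
    refine H_le_card hE ((one_le_div hη).2 hη1) fun o ho => ?_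
    obtain ⟨hev, ho'⟩ := res_pos ho
    have hk := (hs o hev).1
    let s := ((univ.filter fun o' => 0 < w o' ∧ d.nd (sc o) o' = d.nd (sc o) o ∧
      ∃ l, d.lab (sc o) o' = some l).image (d.lab (sc o)))
    have c1 := card_lab h hw hη hk ho' s fun v hv => by
      obtain ⟨o', h', rfl⟩ := mem_image.1 hv
      obtain ⟨p, e, l, el⟩ := (mem_filter.1 h').2
      exact ⟨o', l, p, e, el, el⟩
    refine le_trans (Col.card_vals_le (s := s.image fun v => (sc o, d.nd (sc o) o, v))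
      (fun o' p e => ?_) card_image_le) c1
    have e1 : sc o' = sc o := congrArg Prod.fst e
    have e2 : d.nd d.m o' = d.nd d.m o := congrArg (fun x => x.2.1) e
    have e3 := det_nd h hk.le le_rfl _ _ e2
    obtain ⟨l, el⟩ := (hs o' (res_pos p).1).2
    rw [e1] at el
    refine mem_image.2 ⟨d.lab (sc o) o', mem_image_of_mem _
      (mem_filter.2 ⟨mem_univ _, (res_pos p).2, e3, l, el⟩), ?_⟩
    rw [e1, e3]
  push_cast at h5
  linarith

end lab

end Pool.Agent.Lib.MP_d308c3_co.K.Cb
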