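import Pool.Agent.Lib.MP_d308c3_co.K.CbA

/-! Column bridge, part B: the path of one column and its options. -/

set_option autoImplicit false

namespace Pool.Agent.Lib.MP_d308c3_co.K.Cb

open Finset Pool.Agent.Lib.MP_108739_an.F
open Classical

variable {Ω : Type}

theorem cv_eq {C : Col Ω} {x : Bool × ℕ} {o o' : Ω} (e : C.cv x o' = C.cv x o) (h : C.ca x o) :
    C.ca x o' ∧ C.k x o' = C.k x o ∧ C.xl x 0 o' = C.xl x 0 o := by
  unfold Col.cv at e
  rw [if_pos h] at e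
  by_cases h' : C.ca x o'
  · rw [if_pos h'] at e
    have := Option.some.inj e
    exact ⟨h', congrArg Prod.fst this, congrArg Prod.snd this⟩
  · rw [if_neg h'] at e
    exact absurd e (by simp)

noncomputable def base (A : Arr Ω) (x : Bool × ℕ) (o : Ω) : (ℕ × ℕ) × Option (ℤ × ℝ) × Option Pt :=
  (A.d.W 0 o, A.C.cv x o, if A.C.ca x o then none else some (A.d.p o))

noncomputable def path (A : Arr Ω) (x : Bool × ℕ) (g nb : ℕ) :
    Col.Path Ω (ℕ × ℕ) ((ℕ × ℕ) × Option (ℤ × ℝ) × Option Pt) Pt where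
  nb := nb
  pt := A.d.p
  a := A.d.a
  b := A.d.b
  wd := fun j => A.d.W (j * g)
  t := fun q => A.d.tau q.1
  len := A.d.lenW
  N := fun q => ((q.2 - q.1 : ℕ) : ℝ)
  base := base A x
  x0 := fun o => if A.C.ca x o then A.C.xl x 0 o else A.d.a o
  U := fun o => if A.C.ca x o then (2 : ℝ) ^ A.C.k x o else 1

/-- the cell of the split at level `i` -/
noncomputable def cell (A : Arr Ω) (x : Bool × ℕ) (i : ℕ) (h : ℕ × ℕ) := fun o : Ω =>
  if A.d.spl i o ∧ A.C.ca x o then some (A.R.cn i o, A.GG (A.R.cn i o) h x o) else none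

noncomputable def opt (A : Arr Ω) (x : Bool × ℕ) (g j : ℕ) (τ : ℕ × ℕ × ℕ) :=
  pr (cell A x (j * g + τ.1) τ.2) (pr (A.d.W ((j + 1) * g)) (base A x))

variable [Fintype Ω] {A : Arr Ω} {w : Ω → ℝ} {Λ η Bd : ℝ} {Hn K0 : ℕ}

/-- the heights of the cell of level `i` are spread between the scales of block `j` -/
def FineC (A : Arr Ω) (w : Ω → ℝ) (x : Bool × ℕ) (g i : ℕ) (h : ℕ × ℕ) (j : ℕ) (J : ℝ) (o : Ω) :
    Prop :=
  Col.Fine w (A.GG (A.R.cn i o) h x) (A.Vp (A.R.cn i o) h x) (A.unit (A.R.cn i o) h x o)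
    (A.d.len (j * g) o * (2 : ℝ) ^ A.C.k x o) (A.d.len ((j + 1) * g) o * (2 : ℝ) ^ A.C.k x o) J o

omit [Fintype Ω] in
theorem Gr_le (A : Arr Ω) (k : ℕ) : A.d.Gr ≤ A.d.lev k := Nat.le_add_right _ _

theorem path_ok (h : A.Ok w Λ η Hn K0 Bd) (x : Bool × ℕ) {g nb : ℕ} (hg : g * nb = A.d.Gr) :
    (path A x g nb).Ok w := by
  have tt := h.d.tt
  have le1 : ∀ j, j ≤ nb → j * g ≤ A.d.lev A.d.m := fun j hj =>
    le_trans (by rw [← hg, mul_comm]; exact Nat.mul_le_mul_left _ hj) (Gr_le A _)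
  have le2 : ∀ j, j * g ≤ (j + 1) * g := fun j => Nat.mul_le_mul_right _ (Nat.le_succ j)
  have bs : ∀ o o', base A x o = base A x o' → A.C.cv x o = A.C.cv x o' ∧
      (¬ A.C.ca x o → ¬ A.C.ca x o' → A.d.a o = A.d.a o') := fun o o' e =>
    ⟨congrArg (fun y => y.2.1) e, fun n n' => by
      have e3 := congrArg (fun y => y.2.2) e
      simp only [base, if_neg n, if_neg n'] at e3
      exact congrArg Prod.fst (Option.some.inj e3)⟩
  refine ⟨fun j hj => detW tt (le2 j) (le1 _ hj), fun o o' e => ?_, Det.fst, Det.snd,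
    fun o o' e => ?_, fun o o' e => ?_, fun o _ => ?_, fun o _ => ?_,
    fun j hj o _ => len_pos tt (le1 j hj) o, fun j hj o _ => N_pos tt (le1 j hj) o,
    fun j hj o _ => ?_, fun j hj o _ => sum_vals tt (le2 j) (le1 _ hj) tt.mono.monotone o,
    fun j hj o _ => sum_vals_N tt (le2 j) (le1 _ hj) o⟩
  · have e1 : A.d.W (0 * g) o = A.d.W (0 * g) o' := congrArg Prod.fst e
    have e2 : A.d.p o = A.d.p o' := congrArg Prod.snd e
    have e3 : A.C.cv x o = A.C.cv x o' := (h.C.det x 0 o' o (congrArg Prod.fst e2)).1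
    rw [zero_mul] at e1
    have e4 : A.C.ca x o ↔ A.C.ca x o' :=
      ⟨fun k => (cv_eq e3.symm k).1, fun k => (cv_eq e3 k).1⟩
    simp only [path, base, e1, e2, e3, e4]
  · obtain ⟨e1, e2⟩ := bs o o' e
    by_cases k : A.C.ca x o
    · obtain ⟨k1, -, k3⟩ := cv_eq e1.symm k
      simp only [path, if_pos k, if_pos k1, k3]
    · have k' : ¬ A.C.ca x o' := fun k' => k (cv_eq e1 k').1
      simp only [path, if_neg k, if_neg k', e2 k k']
  · obtain ⟨e1, -⟩ := bs o o' e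
    by_cases k : A.C.ca x o
    · obtain ⟨k1, k2, -⟩ := cv_eq e1.symm k
      simp only [path, if_pos k, if_pos k1, k2]
    · have k' : ¬ A.C.ca x o' := fun k' => k (cv_eq e1 k').1
      simp only [path, if_neg k, if_neg k']
  · simp only [path]
    split_ifs <;> positivity
  · simp only [path]
    split_ifs with k
    · have := h.C.inn x 0 o k
      simp only [Nat.cast_zero, sub_zero] at this
      exact ⟨this.2.1, this.2.2.le⟩
    · exact ⟨le_rfl, by linarith⟩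
  · have := nest_le tt (le2 j) (le1 _ hj) o
    have h1 := tt.mono.monotone this.1
    have h2 := tt.mono.monotone this.2
    simp only [path, TT.W, TT.lenW]
    exact ⟨h1, by linarith⟩

theorem fibG (h : A.Ok w Λ η Hn K0 Bd) {x : Bool × ℕ} {i : ℕ} (hi : i < A.d.Gr) {p : ℕ × ℕ}
    {o o' : Ω} (hs : A.d.spl i o) (hc : A.C.ca x o)
    (e : A.GG (A.R.cn i o) p x o' = A.GG (A.R.cn i o) p x o) :
    (∀ k, k ≤ i + 1 + A.g0 → k ≤ A.d.Gr → A.d.W k o' = A.d.W k o) ∧ A.C.cv x o' = A.C.cv x o ∧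
      A.tv (A.R.cn i o) p o' = A.tv (A.R.cn i o) p o ∧ A.d.spl i o' ∧
      A.R.cn i o' = A.R.cn i o ∧ A.live (A.R.cn i o) x o' := by
  have e1 : A.AA (A.R.cn i o) o' = A.AA (A.R.cn i o) o := congrArg (fun y => y.2.1) e
  have e2 : A.tv (A.R.cn i o) p o' = A.tv (A.R.cn i o) p o := congrArg (fun y => y.1.1) e
  have e3 : A.C.cv x o' = A.C.cv x o := congrArg (fun y => y.1.2.1) e
  have k1 : ∀ k, k ≤ i + 1 + A.g0 → k ≤ A.d.Gr → A.d.W k o' = A.d.W k o := fun k h1 h2 =>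
    h.R.back _ o o' k ((le_min h1 h2).trans ((h.R.cn_spec i hi o hs).2.2.2.2 A.g0)) e1
  have k2 := k1 i (by omega) hi.le
  have k3 := spl_congr k2 hs
  have k4 := h.R.cn_det i hi _ _ k2
  exact ⟨k1, e3, e2, k3, k4, k4 ▸ (h.R.cn_spec i hi o' k3).1, (cv_eq e3 hc).1⟩

theorem cell_iff (h : A.Ok w Λ η Hn K0 Bd) {x : Bool × ℕ} {i : ℕ} (hi : i < A.d.Gr) {p : ℕ × ℕ}
    {o : Ω} (hs : A.d.spl i o) (hc : A.C.ca x o) (o' : Ω) :
    cell A x i p o' = cell A x i p o ↔ A.GG (A.R.cn i o) p x o' = A.GG (A.R.cn i o) p x o := by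
  constructor
  · intro e
    unfold cell at e
    rw [if_pos (And.intro hs hc)] at e
    split_ifs at e with k
    have := Option.some.inj e
    have e1 : A.R.cn i o' = A.R.cn i o := congrArg Prod.fst this
    have e2 : A.GG (A.R.cn i o') p x o' = A.GG (A.R.cn i o) p x o := congrArg Prod.snd this
    rwa [e1] at e2
  · intro e
    obtain ⟨-, -, -, k3, k4, k5⟩ := fibG h hi hs hc e
    unfold cell
    rw [if_pos (And.intro hs hc), if_pos (And.intro k3 k5.2), k4, e]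

theorem row_sub (h : A.Ok w Λ η Hn K0 Bd) {i : ℕ} (hi : i < A.d.Gr) (p : ℕ × ℕ) {o : Ω}
    (hs : A.d.spl i o) : A.d.lo i o ≤ A.R.tl (A.R.cn i o) p o ∧
      A.R.tl (A.R.cn i o) p o ≤ A.d.lo (i + 1) o ∧ A.d.hi (i + 1) o ≤ A.R.tr (A.R.cn i o) p o ∧
      A.R.tr (A.R.cn i o) p o ≤ A.d.hi i o := by
  have k := h.R.sub (A.R.cn i o) p o
  obtain ⟨-, e1, e2, -⟩ := h.R.cn_spec i hi o hs
  rwa [e1, e2] at k

theorem lam_pos (h : A.Ok w Λ η Hn K0 Bd) {i : ℕ} (hi : i < A.d.Gr) (p : ℕ × ℕ) {o : Ω}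
    (hs : A.d.spl i o) : 0 < A.R.lam A.d.toTT (A.R.cn i o) p o := by
  have k := row_sub h hi p hs
  have := h.d.tt.lt (i + 1) (le_trans hi (Gr_le A _)) o
  exact sub_pos.2 (h.d.tt.mono (by omega))

theorem opt_of_fine (h : A.Ok w Λ η Hn K0 Bd) {x : Bool × ℕ} {g nb i j : ℕ} (hi : i < A.d.Gr)
    (h1 : j * g ≤ i) (h2 : (j + 1) * g ≤ i + 1 + A.g0) (h3 : (j + 1) * g ≤ A.d.Gr) {p : ℕ × ℕ}
    {o : Ω} (hs : A.d.spl i o) (hc : A.C.ca x o) {J : ℝ} (hf : FineC A w x g i p j J o) :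
    (path A x g nb).Opt w (opt A x g j (i - j * g, p)) j
      (A.R.lam A.d.toTT (A.R.cn i o) p o) J o := by
  have tt := h.d.tt
  have ei : j * g + (i - j * g) = i := by omega
  have hL := Gr_le A A.d.m
  obtain ⟨s1, s2, s3, s4⟩ := row_sub h hi p hs
  have lt1 := tt.lt (i + 1) (by omega) o
  have n1 := nest_le tt h1 (by omega) o
  have m := tt.mono.monotone
  refine ⟨fun o' => if A.d.spl i o' ∧ A.C.ca x o' then A.d.tau (A.R.tl (A.R.cn i o') p o') else 0,
    fun o1 o2 e => ?_, ?_, ?_, ?_, ?_⟩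
  · have e1 : cell A x (j * g + (i - j * g)) p o1 = cell A x (j * g + (i - j * g)) p o2 :=
      congrArg Prod.fst e
    rw [ei] at e1
    by_cases k : A.d.spl i o2 ∧ A.C.ca x o2
    · obtain ⟨-, -, k2, k3, k4, k5⟩ := fibG h hi k.1 k.2 ((cell_iff h hi k.1 k.2 o1).1 e1)
      have k6 : A.R.tl (A.R.cn i o2) p o1 = A.R.tl (A.R.cn i o2) p o2 :=
        congrArg (fun y => y.2.1) k2
      simp only [if_pos k, if_pos (And.intro k3 k5.2), k4, k6]
    · have k' : ¬ (A.d.spl i o1 ∧ A.C.ca x o1) := fun k' => by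
        unfold cell at e1
        rw [if_pos k', if_neg k] at e1
        exact absurd e1 (by simp)
      simp only [if_neg k, if_neg k']
  · simp only [path, TT.W, if_pos (And.intro hs hc)]
    exact m (by omega)
  · simp only [path, TT.W, TT.lenW, if_pos (And.intro hs hc)]
    linarith [m (show A.R.tl (A.R.cn i o) p o ≤ A.d.hi (j * g) o by omega)]
  · simp only [path, TT.W, TT.lenW, Row.lam, if_pos (And.intro hs hc)]
    rcases le_total ((j + 1) * g) i with k | k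
    · have n2 := nest_le tt k (by omega) o
      have a1 := m (show A.d.lo ((j + 1) * g) o ≤ A.R.tl (A.R.cn i o) p o by omega)
      have a2 := m (show A.R.tl (A.R.cn i o) p o ≤ A.d.hi ((j + 1) * g) o by omega)
      exact le_max_of_le_left (abs_le.2 ⟨by linarith, by linarith⟩)
    · rcases k.eq_or_lt with k | k
      · have a1 := m (show A.d.lo ((j + 1) * g) o ≤ A.R.tl (A.R.cn i o) p o by rw [← k]; omega)
        have a2 := m (show A.R.tl (A.R.cn i o) p o ≤ A.d.hi ((j + 1) * g) o by rw [← k]; omega)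
        exact le_max_of_le_left (abs_le.2 ⟨by linarith, by linarith⟩)
      · have n2 := nest_le tt (show i + 1 ≤ (j + 1) * g from k) (by omega) o
        have lt2 := tt.lt ((j + 1) * g) (by omega) o
        have a1 := m (show A.R.tl (A.R.cn i o) p o ≤ A.d.lo ((j + 1) * g) o by omega)
        have a2 := m (show A.d.lo ((j + 1) * g) o ≤ A.R.tr (A.R.cn i o) p o by omega)
        exact le_max_of_le_right (abs_le.2 ⟨by linarith, by linarith⟩)
  · have hG : ∀ o', A.GG (A.R.cn i o) p x o' = A.GG (A.R.cn i o) p x o ↔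
        opt A x g j (i - j * g, p) o' = opt A x g j (i - j * g, p) o := fun o' => by
      constructor
      · intro e
        obtain ⟨k1, k2, -, -, -, k5⟩ := fibG h hi hs hc e
        simp only [opt, pr, ei, base, (cell_iff h hi hs hc o').2 e, k1 _ h2 h3,
          k1 0 (Nat.zero_le _) (Nat.zero_le _), k2, if_pos hc, if_pos k5.2]
      · intro e
        have e1 : cell A x (j * g + (i - j * g)) p o' = cell A x (j * g + (i - j * g)) p o :=
          congrArg Prod.fst e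
        rw [ei] at e1
        exact (cell_iff h hi hs hc o').1 e1
    have := (Col.fine_congr (w := w) (V := A.Vp (A.R.cn i o) p x)
      (V' := (path A x g nb).hv fun o' =>
        if A.d.spl i o' ∧ A.C.ca x o' then A.d.tau (A.R.tl (A.R.cn i o') p o') else 0) hG
      (fun o' e => by
        obtain ⟨-, -, -, k3, k4, k5⟩ := fibG h hi hs hc e
        simp only [Arr.Vp, Col.Path.hv, path, if_pos (And.intro k3 k5.2), if_pos k5.2, k4])
      _ _ _ J).1 hf
    simpa only [Col.Path.R, path, if_pos hc, Arr.unit, TT.len] using this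

theorem fib_bound {γ : Type} (hw : Nn w) (G : Ω → γ) (Bad : Ω → Prop) {c : ℝ} (hc : 0 ≤ c)
    (h : ∀ o0, 0 < w o0 → Bad o0 →
      tot (res w fun o => G o = G o0 ∧ Bad o) ≤ c * ms w G o0) :
    tot (res w Bad) ≤ c * tot w := by
  rw [← E_ind, ← E_fib hw G]
  refine E_le_const hw fun o1 ho1 => ?_
  have hm := ms_pos hw G ho1
  rw [div_le_iff₀ hm, E_ind, res_res]
  by_cases k : ∃ o0, 0 < w o0 ∧ G o0 = G o1 ∧ Bad o0
  · obtain ⟨o0, k1, k2, k3⟩ := k
    have := h o0 k1 k3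
    rwa [ms_det G _ _ k2, k2] at this
  · have : tot (res w fun o => G o = G o1 ∧ Bad o) ≤ tot (res w fun _ => False) :=
      tot_res_mono hw fun o p e => k ⟨o, p, e⟩
    have e : tot (res w fun _ => False) = 0 := by simp [tot, res]
    rw [e] at this
    exact this.trans (by positivity)

/-- saturated but not spread -/
def Bad (A : Arr Ω) (w : Ω → ℝ) (Λ : ℝ) (Jb : ℕ) (τ0 : ℝ) (x : Bool × ℕ) (g i : ℕ) (p : ℕ × ℕ)
    (j : ℕ) (J : ℝ) (o : Ω) : Prop :=
  A.d.spl i o ∧ A.C.ca x o ∧ A.sat (A.R.cn i o) p x w Λ Jb τ0 o ∧ ¬ FineC A w x g i p j J o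

theorem bad_le (h : A.Ok w Λ η Hn K0 Bd) {Jb : ℕ} {τ0 J : ℝ} (hP : 1 ≤ A.P) (hJb : 1 ≤ Jb)
    (hJP : (Jb : ℝ) ≤ A.P) (hτ : 0 ≤ τ0) (hJ : 0 < J) (x : Bool × ℕ) {g i j : ℕ}
    (hi : i < A.d.Gr) (h2 : (j + 1) * g ≤ i + 1 + A.g0) (h3 : (j + 1) * g ≤ A.d.Gr) (p : ℕ × ℕ) :
    tot (res w (Bad A w Λ Jb τ0 x g i p j J)) ≤ 2 * J * (2048 * Λ) * τ0 * tot w := by
  have hΛ : 0 < 2048 * Λ := by linarith [h.one]
  have le2 : j * g ≤ (j + 1) * g := Nat.mul_le_mul_right _ (Nat.le_succ j)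
  refine fib_bound h.nn (cell A x i p) _ (by positivity) fun o0 ho0 hb => ?_
  obtain ⟨hs, hc, ⟨D, d1, d2, d3⟩, -⟩ := hb
  have un : ∀ o, A.GG (A.R.cn i o0) p x o = A.GG (A.R.cn i o0) p x o0 →
      A.unit (A.R.cn i o0) p x o = A.unit (A.R.cn i o0) p x o0 := fun o e => by
    obtain ⟨-, k2, k3, -⟩ := fibG h hi hs hc e
    have a1 : A.R.tl (A.R.cn i o0) p o = A.R.tl (A.R.cn i o0) p o0 := congrArg (fun y => y.2.1) k3
    have a2 : A.R.tr (A.R.cn i o0) p o = A.R.tr (A.R.cn i o0) p o0 := congrArg (fun y => y.2.2) k3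
    simp only [Arr.unit, Row.lam, a1, a2, (cv_eq k2 hc).2.1]
  have key := Col.dens_fibre h.nn (A.GG (A.R.cn i o0) p x) (A.Vp (A.R.cn i o0) p x)
    (u := A.unit (A.R.cn i o0) p x o0) (big := A.d.len (j * g) o0 * (2 : ℝ) ^ A.C.k x o0)
    (small := A.d.len ((j + 1) * g) o0 * (2 : ℝ) ^ A.C.k x o0) (σ := A.sig) (τ := τ0)
    (mul_pos (lam_pos h hi p hs) (by positivity)) hJ hP hΛ hJb hJP (A.Yp (A.R.cn i o0) p x) ho0
    (fun o e => by
      simp only [Arr.Yp, Arr.vp, if_pos (fibG h hi hs hc e).2.2.2.2.2, un o e])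
    ⟨D, by rw [div_le_iff₀ hΛ]; linarith, d2, d3⟩
  have em : ms w (cell A x i p) o0 = ms w (A.GG (A.R.cn i o0) p x) o0 := by
    rw [ms_eq_tot, ms_eq_tot]
    exact congrArg tot (res_congr fun o => cell_iff h hi hs hc o)
  rw [em]
  refine le_trans (tot_res_mono h.nn fun o _ k => ?_) key
  have e := (cell_iff h hi hs hc o).1 k.1
  obtain ⟨k1, k2, -, -, k4, -⟩ := fibG h hi hs hc e
  refine ⟨e, fun hf => k.2.2.2.2 ?_⟩
  unfold FineC TT.len
  rw [k4, un o e, k1 _ h2 h3, k1 _ (le2.trans h2) (le2.trans h3), (cv_eq k2 hc).2.1]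
  exact hf

end Pool.Agent.Lib.MP_d308c3_co.K.Cb
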