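import Pool.Agent.Lib.MP_d308c3_co.K.Defs
import Pool.Agent.Lib.MP_d308c3_co.Rect3
import Pool.Agent.Lib.MP_d308c3_co.Act
import Pool.Agent.Lib.MP_d308c3_co.Tel

set_option autoImplicit false

/-! Cells of one window: saturation and the two activities. -/

namespace Pool.Agent.Lib.MP_d308c3_co.K.CellB

open Finset Pool.Agent.Lib.MP_108739_an.F
open Classical

section tree
variable {Ω : Type} {c : TT Ω} {Λ : ℝ} {L : ℕ}

theorem nest_le (h : c.Ok Λ L) {i j : ℕ} (hij : i ≤ j) (hj : j ≤ L) (o : Ω) :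
    c.lo i o ≤ c.lo j o ∧ c.hi j o ≤ c.hi i o := by
  induction j, hij using Nat.le_induction with
  | base => exact ⟨le_rfl, le_rfl⟩
  | succ j _ ih =>
    have h1 := ih (by omega)
    have h2 := h.nest j (by omega) o
    exact ⟨h1.1.trans h2.1, h2.2.trans h1.2⟩

/-- a deeper window determines the earlier ones -/
theorem W_back (h : c.Ok Λ L) {i j : ℕ} (hij : i ≤ j) (hj : j ≤ L) {o o' : Ω}
    (e : c.W j o' = c.W j o) : c.W i o' = c.W i o := by
  have h1 := nest_le h hij hj o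
  have h2 := nest_le h hij hj o'
  have h3 := h.lt j hj o
  have e1 : c.lo j o' = c.lo j o := congrArg Prod.fst e
  have e2 : c.hi j o' = c.hi j o := congrArg Prod.snd e
  rcases h.lami i (by omega) o' o with h4 | h4 | h4
  · exact h4
  · omega
  · omega

theorem W_cross (h : c.Ok Λ L) {i j : ℕ} (hi : i ≤ L) (hj : j ≤ L) {o o' : Ω}
    (e : c.W j o' = c.W i o) : c.W i o' = c.W i o := by
  have h3 := h.lt i hi o
  have h5 := h.lt i hi o'
  have e1 : c.lo j o' = c.lo i o := congrArg Prod.fst e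
  have e2 : c.hi j o' = c.hi i o := congrArg Prod.snd e
  rcases h.lami i hi o' o with h4 | h4 | h4
  · exact h4
  · rcases le_total i j with k | k
    · have := nest_le h k hj o'
      omega
    · have := nest_le h k hi o'
      omega
  · rcases le_total i j with k | k
    · have := nest_le h k hj o'
      omega
    · have := nest_le h k hi o'
      omega

theorem spl_of_good (h : c.Ok Λ L) {i : ℕ} {o : Ω} (g : c.good i o) : c.spl i o := by
  have h2 := h.two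
  have h0 : 0 < c.S := by linarith
  have h1 : 0 < c.th := by
    have := h.big
    unfold TT.thr at this
    rw [le_div_iff₀ (by positivity)] at this
    exact lt_of_lt_of_le (by positivity) this
  have e : c.thr i = c.S * (c.S * c.thr (i + 1)) := by
    unfold TT.thr
    field_simp
    ring
  have p : 0 < c.thr (i + 1) := by
    unfold TT.thr
    positivity
  unfold TT.good at g
  unfold TT.spl
  rw [e] at g
  have := le_of_mul_le_mul_left g h0
  nlinarith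

theorem spl_det {i : ℕ} {o o' : Ω} (e : c.W i o' = c.W i o) (s : c.spl i o) : c.spl i o' := by
  have e1 : c.lo i o' = c.lo i o := congrArg Prod.fst e
  have e2 : c.hi i o' = c.hi i o := congrArg Prod.snd e
  unfold TT.spl TT.N at *
  rwa [e1, e2]

end tree

variable {Ω : Type} [Fintype Ω] {A : Arr Ω} {w : Ω → ℝ} {Λ η Bd r0 : ℝ} {Hn K0 s Jb : ℕ}

omit [Fintype Ω] in
theorem Gr_le (d : Loc Ω) (c : ℕ) : d.Gr ≤ d.lev c := Nat.le_add_right _ _

omit [Fintype Ω] in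
theorem lev_le (d : Loc Ω) {c c' : ℕ} (h : c ≤ c') : d.lev c ≤ d.lev c' :=
  Nat.add_le_add_left (Nat.mul_le_mul_right _ h) _

theorem st_le_st (hA : A.Ok w Λ η Hn K0 Bd) (r k : ℕ) (o : Ω) : A.R.st r o ≤ A.R.st (r + k) o := by
  induction k with
  | zero => exact le_rfl
  | succ k ih => exact ih.trans (hA.R.st_mono _ o)

theorem st_le_L (hA : A.Ok w Λ η Hn K0 Bd) (r : ℕ) (o : Ω) : A.R.st r o ≤ A.d.lev A.d.m :=
  (hA.R.st_le r o).trans (Gr_le _ _)

/-- every window from the child on lies inside the hull of the pair -/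
theorem in_hull (hA : A.Ok w Λ η Hn K0 Bd) (r : ℕ) (h : ℕ × ℕ) (o : Ω) {i : ℕ}
    (h1 : A.R.st (r + 1) o ≤ i) (h2 : i ≤ A.d.lev A.d.m) :
    A.R.tl r h o ≤ (A.ch r o).1 ∧ (A.ch r o).1 ≤ A.d.lo i o ∧ A.d.lo i o < A.d.hi i o ∧
      A.d.hi i o ≤ (A.ch r o).2 ∧ (A.ch r o).2 ≤ A.R.tr r h o := by
  have a1 := hA.R.sub r h o
  have a2 := nest_le hA.d.tt h1 h2 o
  exact ⟨a1.2.1, a2.1, hA.d.tt.lt i h2 o, a2.2, a1.2.2.1⟩

theorem lam_pos (hA : A.Ok w Λ η Hn K0 Bd) (r : ℕ) (h : ℕ × ℕ) (o : Ω) :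
    0 < A.R.lam A.d.toTT r h o := by
  have a := in_hull hA r h o le_rfl (st_le_L hA _ o)
  exact sub_pos.2 (hA.d.tt.mono (by omega))

omit [Fintype Ω] in
theorem cv_eq {C : Col Ω} {x : Bool × ℕ} {o o' : Ω} (e : C.cv x o' = C.cv x o) (l : C.ca x o) :
    C.ca x o' ∧ C.k x o' = C.k x o ∧ C.xl x 0 o' = C.xl x 0 o := by
  unfold Col.cv at e
  rw [if_pos l] at e
  by_cases l' : C.ca x o'
  · rw [if_pos l'] at e
    have := Option.some.inj e
    exact ⟨l', congrArg Prod.fst this, congrArg Prod.snd this⟩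
  · rw [if_neg l'] at e
    cases e

omit [Fintype Ω] in
theorem tv_eq {r : ℕ} {h : ℕ × ℕ} {o o' : Ω} (e : A.tv r h o' = A.tv r h o) :
    A.R.Wr A.d.toTT r o' = A.R.Wr A.d.toTT r o ∧ A.R.tl r h o' = A.R.tl r h o ∧
      A.R.lam A.d.toTT r h o' = A.R.lam A.d.toTT r h o ∧ (A.al r o → A.al r o') := by
  have e0 : A.R.Wr A.d.toTT r o' = A.R.Wr A.d.toTT r o := congrArg Prod.fst e
  have e1 : A.R.tl r h o' = A.R.tl r h o := congrArg (fun q => q.2.1) e
  have e2 : A.R.tr r h o' = A.R.tr r h o := congrArg (fun q => q.2.2) e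
  refine ⟨e0, e1, by unfold Row.lam; rw [e1, e2], fun l => ?_⟩
  have e3 : A.d.lo (A.R.st r o') o' = A.d.lo (A.R.st r o) o := congrArg Prod.fst e0
  have e4 : A.d.hi (A.R.st r o') o' = A.d.hi (A.R.st r o) o := congrArg Prod.snd e0
  unfold Arr.al Row.al TT.N at *
  rwa [e3, e4]

omit [Fintype Ω] in
theorem OO_eq {r : ℕ} {h : ℕ × ℕ} {x : Bool × ℕ} {o o' : Ω} (e : A.OO r h x o' = A.OO r h x o) :
    A.tv r h o' = A.tv r h o ∧ A.C.cv x o' = A.C.cv x o :=
  ⟨congrArg Prod.fst e, congrArg (fun q => q.2.1) e⟩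

omit [Fintype Ω] in
theorem live_of {r : ℕ} {h : ℕ × ℕ} {x : Bool × ℕ} {o o' : Ω} (e1 : A.tv r h o' = A.tv r h o)
    (e2 : A.C.cv x o' = A.C.cv x o) (l : A.live r x o) : A.live r x o' :=
  ⟨(tv_eq e1).2.2.2 l.1, (cv_eq e2 l.2).1⟩

omit [Fintype Ω] in
theorem live_det (r : ℕ) (h : ℕ × ℕ) (x : Bool × ℕ) : Det (A.OO r h x) (A.live r x) :=
  fun _ _ e => propext ⟨live_of (OO_eq e.symm).1 (OO_eq e.symm).2, live_of (OO_eq e).1 (OO_eq e).2⟩

/-- (RECT) live cells that are active in both directions are saturated -/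
theorem rect (hA : A.Ok w Λ η Hn K0 Bd) (hN : A.Num Λ r0 s Jb) (r : ℕ) (h : ℕ × ℕ) (x : Bool × ℕ)
    {τ e : ℝ} (hτ : 0 ≤ τ) (he : 0 ≤ e) :
    τ * e * e * tot (res w fun o => A.live r x o ∧ A.tA r h x w e o ∧ A.xA r h x w e o ∧
      ¬ A.sat r h x w Λ Jb τ o) ≤ 24 * √(tot w * A.d1 r h x w) + 8 * √(tot w * A.d2 r h x w) +
      16 / Jb * tot w := by
  have hΛ : 0 < Λ := by linarith [hA.one]
  have hw := hA.nn
  have hg : (0 : ℝ) < 2 ^ A.g0 := by positivity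
  have hAA : ∀ o, A.R.tl r h o ≤ (A.ch r o).1 ∧ (A.ch r o).1 ≤ (A.AA r o).1 ∧
      (A.AA r o).1 < (A.AA r o).2 ∧ (A.AA r o).2 ≤ (A.ch r o).2 ∧ (A.ch r o).2 ≤ A.R.tr r h o :=
    fun o => in_hull hA r h o (st_le_st hA (r + 1) A.g0 o) (st_le_L hA _ o)
  have mono := hA.d.tt.mono.monotone
  refine le_trans (mul_le_mul_of_nonneg_left (tot_res_mono hw fun p hp hh => ?_) (by positivity))
    (Rect.rect_live hw (A.OO r h x) (A.AA r) (A.BB x) (A.live r x) (live_det r h x) A.d.a A.d.b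
      (fun o => A.d.tau (A.R.tl r h o)) (A.R.lam A.d.toTT r h) (A.C.xl x 0)
      (fun o => (2 : ℝ) ^ A.C.k x o) (fun o => A.d.tau (A.AA r o).1) (A.BB x)
      (fun o o' l e => ?_) (fun o o' _ _ e => by rw [e]) (fun o o' _ _ e => e)
      (P := A.P) (δ := 1 / 2 ^ A.g0) (σ := A.sig) hN.Jb hΛ hN.P2 ?_ (by positivity) ?_
      (fun o _ _ => ⟨lam_pos hA r h o, by positivity⟩) (fun o _ _ => ?_) (fun o _ l => ?_)
      (fun p o => A.ch r o ≠ A.ch r p) (fun p q hp hq _ e hne => ?_) (A.Yp r h x) (A.Yl r h x)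
      (fun o _ l => if_pos l) (fun o _ l => if_pos l)
      (fun o _ l => (if_neg l).trans (if_neg l).symm) hτ he)
  · obtain ⟨l, h1, h2, h3⟩ := hh
    refine ⟨l, ?_, h1, fun ⟨D, d1, d2, d3⟩ => h3 ⟨D, ?_, d2, d3⟩⟩
    · have e : (2 : ℝ) ^ A.C.k x p / 512 = 2 ^ (A.C.k x p - 9) := by
        rw [zpow_sub₀ two_ne_zero]
        norm_num
      rw [e]
      exact h2
    · rw [div_le_iff₀ (by positivity)] at d1
      linarith
  · have e1 := tv_eq (OO_eq e.symm).1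
    have e2 := cv_eq (OO_eq e.symm).2 l.2
    exact ⟨by rw [e1.2.1], e1.2.2.1.symm, e2.2.2.symm, by rw [e2.2.1]⟩
  · have : (2 : ℝ) ^ 10 ≤ 2 ^ A.g0 := pow_le_pow_right₀ one_le_two hN.g1
    exact one_div_le_one_div_of_le (by norm_num) (by linarith)
  · rw [mul_one_div, div_le_one hg]
    have := mul_le_mul_of_nonneg_right hN.r0_le hg.le
    linarith [hN.g2]
  · have a := hAA o
    refine ⟨mono (by omega), ?_⟩
    unfold Row.lam
    have := mono (show (A.AA r o).1 ≤ A.R.tr r h o by omega)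
    linarith
  · have a0 := hA.C.inn x 0 o l.2
    have a1 := hA.C.inn x A.g0 o l.2
    have e : A.BB x o = A.C.xl x A.g0 o := if_pos l.2
    have e2 : (2 : ℝ) ^ (A.C.k x o - (A.g0 : ℕ)) = 1 / 2 ^ A.g0 * 2 ^ A.C.k x o := by
      rw [zpow_sub₀ two_ne_zero, zpow_natCast]
      ring
    rw [e2] at a1
    simp only [Nat.cast_zero, sub_zero] at a0
    rw [e]
    exact ⟨a1.1, by linarith [a0.2.2, a1.2.1], a1.2.1, a1.2.2.le⟩
  · have a := hAA p
    have a' := hAA q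
    rw [div_le_iff₀ hΛ, mul_comm]
    exact hA.R.sep r h p q hp hq (OO_eq e).1 hne _ _ (mono a.2.1)
      (mono (a.2.2.1.le.trans a.2.2.2.1)) (mono a'.2.1) (mono (a'.2.2.1.le.trans a'.2.2.2.1))

/-- the cell is a function of the pair and the point -/
theorem OO_det (hA : A.Ok w Λ η Hn K0 Bd) (r : ℕ) (h : ℕ × ℕ) (x : Bool × ℕ) :
    Det (pr (A.tv r h) A.d.p) (A.OO r h x) := by
  intro o o' e
  have e1 : A.tv r h o = A.tv r h o' := congrArg Prod.fst e
  have e2 : A.d.p o = A.d.p o' := congrArg Prod.snd e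
  have ea : A.d.a o = A.d.a o' := congrArg Prod.fst e2
  have eb : A.d.b o = A.d.b o' := congrArg Prod.snd e2
  have e3 := (hA.C.det x 0 o' o ea).1
  unfold Arr.OO
  by_cases l : A.live r x o'
  · have l' := live_of e1 e3 l
    have t := tv_eq e1
    have k := cv_eq e3 l.2
    simp only [Arr.Yc, Arr.vc, Arr.Vp, Arr.unit, if_pos l, if_pos l', e1, e3, ea, eb, t.2.1,
      t.2.2.1, k.2.1, k.2.2]
  · have l' : ¬ A.live r x o := fun l' => l (live_of e1.symm e3.symm l')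
    simp only [Arr.Yc, if_neg l, if_neg l', e1, e3, e2]

/-- items below the same child of a split -/
theorem below (hA : A.Ok w Λ η Hn K0 Bd) {i : ℕ} (hi : i < A.d.Gr) (h : ℕ × ℕ) {o o' : Ω}
    (sp : A.d.spl i o) (e : A.d.W (i + 1) o' = A.d.W (i + 1) o) :
    A.ch (A.R.cn i o) o' = A.d.W (i + 1) o ∧ A.tv (A.R.cn i o) h o' = A.tv (A.R.cn i o) h o := by
  have hL : i + 1 ≤ A.d.lev A.d.m := le_trans hi (Gr_le _ _)
  have e1 := W_back hA.d.tt (Nat.le_succ i) hL e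
  have e2 := hA.R.cn_det i hi o' o e1
  have a := hA.R.cn_spec i hi o sp
  have a' := hA.R.cn_spec i hi o' (spl_det e1 sp)
  rw [e2] at a'
  exact ⟨a'.2.2.1.trans e, hA.R.det1 _ h o' o (a'.2.2.1.trans (e.trans a.2.2.1.symm))⟩

/-- (t-ACTIVE) -/
theorem tact (hA : A.Ok w Λ η Hn K0 Bd) (r : ℕ) (h : ℕ × ℕ) (x : Bool × ℕ) {e : ℝ} (he : 0 ≤ e) :
    tot (res w fun o => A.mkc r h w o ∧ ¬ A.tA r h x w e o) ≤ e * A.d.S ^ 4 * tot w := by
  have hw := hA.nn
  have hS : 0 < A.d.S ^ 4 := by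
    have := hA.d.tt.two
    positivity
  have key := Act.act_t hw (A.OO r h x) (pr (A.tv r h) A.d.p) (A.ch r) (OO_det hA r h x)
    (A.mkc r h w) (θ := (A.d.S ^ 4)⁻¹) (by positivity) he fun o ho hm => by
      obtain ⟨i, hi, rfl, hv, o1, ⟨_, w1, p1, n1, hv1⟩, t1⟩ := hm
      have hL : i ≤ A.d.lev A.d.m := hi.le.trans (Gr_le _ _)
      have sp := spl_of_good hA.d.tt hv.1.1
      have a := hA.R.cn_spec i hi o sp
      have m0 : ms w (pr (A.tv (A.R.cn i o) h) A.d.p) o ≤ A.d.mu w A.d.p i o :=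
        tot_res_mono hw fun o' _ e => Prod.ext (W_cross hA.d.tt hL (st_le_L hA _ o')
          ((tv_eq (congrArg Prod.fst e)).1.trans a.2.1)) (Prod.mk.inj e).2
      constructor
      · rw [inv_mul_le_iff₀ hS]
        refine m0.trans (hv.2.trans (mul_le_mul_of_nonneg_left
          (tot_res_mono hw fun o' _ e => ?_) hS.le))
        have b := below hA hi h sp (congrArg Prod.fst e)
        exact ⟨Prod.ext b.2 (Prod.mk.inj e).2, b.1.trans a.2.2.1.symm⟩
      · rw [inv_mul_le_iff₀ hS]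
        have m1 : A.d.mu w A.d.p i o = A.d.mu w A.d.p i o1 :=
          ms_det _ _ _ (Prod.ext w1.symm p1.symm)
        refine m0.trans (m1.trans_le (hv1.2.trans (mul_le_mul_of_nonneg_left
          (tot_res_mono hw fun o' _ e => ?_) hS.le)))
        have b := below hA hi h (spl_det w1 sp) (congrArg Prod.fst e)
        rw [hA.R.cn_det i hi o1 o w1] at b
        refine ⟨Prod.ext (b.2.trans t1) ((congrArg Prod.snd e).trans p1), fun e' => n1 ?_⟩
        exact b.1.symm.trans (e'.trans a.2.2.1)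
  rw [inv_mul_le_iff₀ hS] at key
  exact key.trans_eq (by ring)

theorem nd_back (hA : A.Ok w Λ η Hn K0 Bd) {c c' : ℕ} (h : c ≤ c') (h' : c' ≤ A.d.m) :
    Det (A.d.nd c') (A.d.nd c) := by
  induction c', h using Nat.le_induction with
  | base => exact Det.rfl
  | succ j _ ih =>
    refine Det.trans (fun o o' e => ?_) (ih (by omega))
    exact Prod.ext (W_back hA.d.tt (lev_le _ (Nat.le_succ j)) (lev_le _ h') (congrArg Prod.fst e))
      (hA.d.nest j (by omega) o o' e)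

/-- a scale is used at one macro step only -/
theorem step_uniq (hA : A.Ok w Λ η Hn K0 Bd) {c c' : ℕ} (h : c < c') (h' : c' < A.d.m)
    {l l' : ℕ × ℤ} (hl : l.2 = l'.2) {o1 o2 o : Ω} (p2 : 0 < w o2) (l1 : A.d.lab c o1 = some l)
    (l2 : A.d.lab c' o2 = some l') (x1 : A.d.X2 c l o1 o) (x2 : A.d.nd c' o = A.d.nd c' o2) :
    False := by
  have hw := hA.nn
  have L1 := hA.d.lab c (by omega)
  have L2 := hA.d.lab c' h'
  have m := L2.m2 o2 l' p2 l2
  have ex : ∃ o3, A.d.nd c' o3 = A.d.nd c' o2 ∧ A.d.par c' l' o3 := by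
    by_contra hn
    have : tot (res w fun o' => A.d.nd c' o' = A.d.nd c' o2 ∧ A.d.par c' l' o') = 0 :=
      sum_eq_zero fun o' _ => if_neg fun a => hn ⟨o', a⟩
    have := mul_pos hA.eta.1 (ms_pos hw (A.d.nd c') p2)
    linarith
  obtain ⟨o3, e3, p3⟩ := ex
  have s1 := L2.sep o2 l' o3 l2 e3 p3
  have bk := nd_back hA (show c + 1 ≤ c' from h) h'.le
  have s2 := L1.prog o1 l o o2 l1 x1 (bk _ _ x2.symm)
  have s3 := L1.prog o1 l o o3 l1 x1 (bk _ _ (e3.trans x2.symm))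
  have s4 := abs_sub_le (A.d.a o2) (A.d.a o) (A.d.a o3)
  rw [abs_sub_comm (A.d.a o2) (A.d.a o)] at s4
  rw [← hl] at s1
  rw [zpow_sub₀ two_ne_zero] at s2 s3
  have : (0 : ℝ) < 2 ^ l.2 := by positivity
  norm_num at s2 s3
  linarith

/-- the two sets of a selected label lie in the cell of a selected item that does not straddle -/
theorem OO_of_X2 (hA : A.Ok w Λ η Hn K0 Bd) (hN : A.Num Λ r0 s Jb) (r : ℕ) (h : ℕ × ℕ)
    (x : Bool × ℕ) {c : ℕ} (hc : c < A.d.m) {l : ℕ × ℤ} {o o' : Ω} (lv : A.live r x o)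
    (hl : A.d.lab c o = some l) (hk : A.C.k x o = l.2 + 7) (x2 : A.d.X2 c l o o')
    (hcv : A.C.cv x o' = A.C.cv x o) (ns : ¬ Str r0 (A.vc r h x o + A.sig)) :
    A.OO r h x o' = A.OO r h x o := by
  have hL := lev_le A.d hc.le
  have mono := hA.d.tt.mono.monotone
  have e0 : A.d.W A.d.Gr o' = A.d.W A.d.Gr o :=
    W_back hA.d.tt (Gr_le _ c) hL (congrArg Prod.fst x2.1)
  have e1 : A.tv r h o' = A.tv r h o := hA.R.det1 r h o' o (hA.R.det2 (r + 1) o' o e0)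
  have lv' := live_of e1 hcv lv
  have t := tv_eq e1
  have k := cv_eq hcv lv.2
  have hb := (hA.d.lab c hc).ball o l o o' hl ⟨rfl, Or.inl hl⟩ x2
  have hh := in_hull hA r h o ((hA.R.st_le _ o).trans (Gr_le _ c)) hL
  have l0 := lam_pos hA r h o
  have hP : 0 < A.P := by
    have := hN.P2
    linarith [hA.one]
  have q0 : (0 : ℝ) < 2 ^ l.2 := by positivity
  have d : |(A.vc r h x o + A.sig) - (A.vc r h x o' + A.sig)| ≤ r0 := by
    have u0 : A.unit r h x o = A.R.lam A.d.toTT r h o * (128 * 2 ^ l.2) := by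
      unfold Arr.unit
      rw [hk, zpow_add₀ two_ne_zero, show (2 : ℝ) ^ (7 : ℤ) = 128 by norm_num]
      ring
    have u1 : A.unit r h x o' = A.unit r h x o := by
      unfold Arr.unit
      rw [t.2.2.1, k.2.1]
    set lam := A.R.lam A.d.toTT r h o with hlam
    set t0 := A.d.tau (A.R.tl r h o) with ht0
    set tn := A.d.tau (A.d.lo (A.d.lev c) o) with htn
    have b1 : t0 ≤ tn := mono (by omega)
    have b2 : A.d.tau (A.d.hi (A.d.lev c) o) ≤ t0 + lam := by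
      have := mono (show A.d.hi (A.d.lev c) o ≤ A.R.tr r h o by omega)
      simp only [hlam, Row.lam]
      linarith
    have b3 : tn ≤ A.d.tau (A.d.hi (A.d.lev c) o) := mono (by omega)
    have b4 : A.d.len (A.d.lev c) o ≤ lam := by
      show A.d.tau (A.d.hi (A.d.lev c) o) - tn ≤ lam
      linarith
    have e : A.Vp r h x o - A.Vp r h x o' = ((A.d.b o + tn * A.d.a o) - (A.d.b o' + tn * A.d.a o')) -
        (tn - t0) * (A.d.a o - A.d.a o') := by
      unfold Arr.Vp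
      rw [t.2.1, k.2.2]
      ring
    have b5 : |A.Vp r h x o - A.Vp r h x o'| ≤ 80 * lam * 2 ^ l.2 := by
      rw [e]
      refine (abs_sub _ _).trans ?_
      rw [abs_mul, abs_of_nonneg (sub_nonneg.2 b1)]
      have c1 : (tn - t0) * |A.d.a o - A.d.a o'| ≤ lam * (40 * 2 ^ l.2) :=
        mul_le_mul (by linarith) hb.1 (abs_nonneg _) l0.le
      have c2 : 40 * A.d.len (A.d.lev c) o * 2 ^ l.2 ≤ 40 * lam * 2 ^ l.2 := by gcongr
      linarith [hb.2]
    rw [add_sub_add_right_eq_sub]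
    unfold Arr.vc
    rw [u1, ← sub_div, abs_div, u0, abs_of_pos (by positivity : 0 < lam * (128 * 2 ^ l.2) * A.P),
      div_le_iff₀ (by positivity)]
    have c3 := mul_le_mul_of_nonneg_left hN.P1 (by positivity : 0 ≤ lam * (128 * 2 ^ l.2))
    have c4 : 0 < lam * 2 ^ l.2 := by positivity
    nlinarith
  have e2 : A.Yc r h x o' = A.Yc r h x o := by
    unfold Arr.Yc
    rw [if_pos lv, if_pos lv']
    exact Tel.floor_eq_of_not_st ns d
  unfold Arr.OO
  rw [e1, hcv, e2, if_pos lv, if_pos lv']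

/-- (x-ACTIVE) -/
theorem xact (hA : A.Ok w Λ η Hn K0 Bd) (hN : A.Num Λ r0 s Jb) (r : ℕ) (h : ℕ × ℕ) (x : Bool × ℕ)
    {e : ℝ} (he : 0 ≤ e) :
    η * tot (res w fun o => A.C.sel x o ∧ A.al r o ∧ ¬ Str r0 (A.vc r h x o + A.sig) ∧
      ¬ A.xA r h x w e o) ≤ 3 * A.d.S ^ 2 * e * tot w := by
  have hw := hA.nn
  have hS := hA.d.tt.two
  let own : ℕ × ((ℕ × ℕ) × Finset Pt) × ℕ × ℤ → Ω → Prop := fun i o =>
    i.1 < A.d.m ∧ A.d.nd i.1 o = i.2.1 ∧ A.d.lab i.1 o = some i.2.2 ∧ A.C.ca x o ∧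
      A.C.k x o = i.2.2.2 + 7 ∧ ∀ o', A.d.X2 i.1 i.2.2 o o' → A.C.cv x o' = A.C.cv x o
  let lb : Ω → ℕ × ((ℕ × ℕ) × Finset Pt) × ℕ × ℤ := fun o =>
    (A.C.sc x o, A.d.nd (A.C.sc x o) o, (A.d.lab (A.C.sc x o) o).getD (0, 0))
  have hown : ∀ o, A.C.sel x o → own (lb o) o := by
    intro o ho
    obtain ⟨a1, a2, l, a3, a4, a5⟩ := hA.C.sel x o ho
    simp only [own, lb, a3, Option.getD_some]
    exact ⟨a1, trivial, trivial, a2, a4, a5⟩
  set S := (univ.filter fun o => 0 < w o ∧ A.C.sel x o).image lb with hSd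
  have hSw : ∀ i ∈ S, ∃ o, 0 < w o ∧ own i o := by
    intro i hi
    obtain ⟨o, ho, rfl⟩ := mem_image.1 hi
    exact ⟨o, (mem_filter.1 ho).2.1, hown o (mem_filter.1 ho).2.2⟩
  have hms : ∀ i o, own i o → tot (res w (own i)) ≤ ms w (A.d.nd i.1) o := fun i o ho =>
    tot_res_mono hw fun o' _ a => a.2.1.trans ho.2.1.symm
  have hX : ∀ i o o', own i o → ((A.d.nd i.1 o' = i.2.1 ∧ A.d.lab i.1 o' = some i.2.2) ∨
      (A.d.nd i.1 o' = i.2.1 ∧ A.d.par i.1 i.2.2 o')) → A.d.X2 i.1 i.2.2 o o' := by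
    rintro i o o' ho (a | a)
    · exact ⟨a.1.trans ho.2.1.symm, Or.inl a.2⟩
    · exact ⟨a.1.trans ho.2.1.symm, Or.inr a.2⟩
  have key := Act.act hw (A.OO r h x)
    (fun o o' => (2 : ℝ) ^ (A.C.k x o - 9) ≤ |A.d.a o' - A.d.a o|) S own
    (fun i o => A.d.nd i.1 o = i.2.1 ∧ A.d.lab i.1 o = some i.2.2)
    (fun i o => A.d.nd i.1 o = i.2.1 ∧ A.d.par i.1 i.2.2 o)
    (fun o => A.al r o ∧ ¬ Str r0 (A.vc r h x o + A.sig)) (θ := η) (K := 3 * A.d.S ^ 2)
    hA.eta.1.le he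
    (fun i hi => by
      obtain ⟨o, po, ho⟩ := hSw i hi
      refine (mul_le_mul_of_nonneg_left (hms i o ho) hA.eta.1.le).trans ?_
      have := (hA.d.lab i.1 ho.1).m1 o _ po ho.2.2.1
      rwa [show (fun o' => A.d.nd i.1 o' = A.d.nd i.1 o ∧ A.d.lab i.1 o' = some i.2.2) =
        fun o' => A.d.nd i.1 o' = i.2.1 ∧ A.d.lab i.1 o' = some i.2.2 by rw [ho.2.1]] at this)
    (fun i hi => by
      obtain ⟨o, po, ho⟩ := hSw i hi
      refine (mul_le_mul_of_nonneg_left (hms i o ho) hA.eta.1.le).trans ?_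
      have := (hA.d.lab i.1 ho.1).m2 o _ po ho.2.2.1
      rwa [show (fun o' => A.d.nd i.1 o' = A.d.nd i.1 o ∧ A.d.par i.1 i.2.2 o') =
        fun o' => A.d.nd i.1 o' = i.2.1 ∧ A.d.par i.1 i.2.2 o' by rw [ho.2.1]] at this)
    (fun o _ => by
      set T := S.filter fun i => (A.d.nd i.1 o = i.2.1 ∧ A.d.lab i.1 o = some i.2.2) ∨
        (A.d.nd i.1 o = i.2.1 ∧ A.d.par i.1 i.2.2 o) with hT
      have f1 : ∀ i ∈ T, ∃ o1, 0 < w o1 ∧ own i o1 ∧ A.d.X2 i.1 i.2.2 o1 o ∧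
          A.C.k x o = i.2.2.2 + 7 := by
        intro i hi
        obtain ⟨h1, h2⟩ := mem_filter.1 hi
        obtain ⟨o1, p1, w1⟩ := hSw i h1
        have x1 := hX i o1 o w1 h2
        exact ⟨o1, p1, w1, x1, (cv_eq (w1.2.2.2.2.2 o x1) w1.2.2.2.1).2.1.trans w1.2.2.2.2.1⟩
      have f2 : #T ≤ #(range ⌈2 * A.d.S ^ 2⌉₊) := by
        refine card_le_card_of_injOn (fun i => i.2.2.1) (fun i hi => ?_) fun i hi j hj e => ?_
        · obtain ⟨o1, _, w1, _⟩ := f1 i hi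
          exact mem_coe.2 (mem_range.2 (Nat.lt_ceil.2
            ((hA.d.lab i.1 w1.1).idx o1 _ w1.2.2.1)))
        · obtain ⟨o1, p1, w1, x1, k1⟩ := f1 i hi
          obtain ⟨o2, p2, w2, x2, k2⟩ := f1 j hj
          have q : i.2.2.2 = j.2.2.2 := by omega
          have ec : i.1 = j.1 := by
            rcases lt_trichotomy i.1 j.1 with c | c | c
            · exact (step_uniq hA c w2.1 q p2 w1.2.2.1 w2.2.2.1 x1 x2.1).elim
            · exact c
            · exact (step_uniq hA c w1.1 q.symm p1 w2.2.2.1 w1.2.2.1 x2 x1.1).elim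
          refine Prod.ext ec (Prod.ext ?_ (Prod.ext e q))
          rw [← w1.2.1, ← w2.2.1, ← x1.1, ← x2.1, ec]
      rw [card_range] at f2
      have f3 := (Nat.ceil_lt_add_one (show 0 ≤ 2 * A.d.S ^ 2 by positivity)).le
      have f4 : (#T : ℝ) ≤ ⌈2 * A.d.S ^ 2⌉₊ := by exact_mod_cast f2
      have f5 : (#T : ℝ) ≤ 3 * A.d.S ^ 2 := by nlinarith
      convert f5)
    (by positivity)
    (fun i _ o o' _ _ ho g y => OO_of_X2 hA hN r h x ho.1 ⟨g.1, ho.2.2.2.1⟩ ho.2.2.1 ho.2.2.2.2.1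
      (hX i o o' ho y) (ho.2.2.2.2.2 o' (hX i o o' ho y)) g.2)
    (fun i _ o p o1 o2 _ _ _ _ ho _ e y1 y2 => by
      have b1 := (hA.d.lab i.1 ho.1).sep o1 _ o2 y1.2 (y2.1.trans y1.1.symm) y2.2
      rw [(cv_eq (OO_eq e).2 ho.2.2.2.1).2.1, ho.2.2.2.2.1,
        show i.2.2.2 + 7 - 9 = i.2.2.2 - 2 by ring, zpow_sub₀ two_ne_zero]
      by_contra hn
      simp only [not_or, not_le] at hn
      have b2 := abs_sub_le (A.d.a o1) (A.d.a p) (A.d.a o2)
      rw [abs_sub_comm (A.d.a p)] at b2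
      have : (0 : ℝ) < 2 ^ i.2.2.2 := by positivity
      have b3 := hn.1
      have b4 := hn.2
      norm_num at b3 b4
      linarith)
  refine le_trans (mul_le_mul_of_nonneg_left (tot_res_mono hw fun o ho a => ?_) hA.eta.1.le) key
  exact ⟨⟨lb o, mem_image_of_mem lb (mem_filter.2 ⟨mem_univ _, ho, a.1⟩), hown o a.1⟩,
    ⟨a.2.1, a.2.2.1⟩, a.2.2.2⟩

end Pool.Agent.Lib.MP_d308c3_co.K.CellB
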