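import Pool.Agent.Lib.MP_d308c3_co.K.Defs
import Pool.Agent.Lib.MP_d308c3_co.Cell.Chain

/-! The two chains over the cells of one window. -/

namespace Pool.Agent.Lib.MP_d308c3_co.K

open Finset Pool.Agent.Lib.MP_108739_an.F Cell
open scoped Classical

variable {Ω : Type}

namespace Row
variable {R : Row Ω} {c : TT Ω} {w : Ω → ℝ} {Λ Λ' : ℝ} {Gr Hn L : ℕ}

theorem Ok.det_succ (h : R.Ok c w Λ Gr Hn) (r : ℕ) : Det (R.Wr c (r + 1)) (R.Wr c r) :=
  fun o o' e => congrArg Prod.fst (h.det1 r (0, 0) o o' e)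

theorem Ok.det_le (h : R.Ok c w Λ Gr Hn) {r r' : ℕ} (hr : r ≤ r') : Det (R.Wr c r') (R.Wr c r) := by
  induction r', hr using Nat.le_induction with
  | base => exact Det.rfl
  | succ n _ ih => exact (h.det_succ n).trans ih

theorem Ok.sub_le (h : R.Ok c w Λ Gr Hn) {r r' : ℕ} (hr : r ≤ r') (o : Ω) :
    (R.Wr c r o).1 ≤ (R.Wr c r' o).1 ∧ (R.Wr c r' o).2 ≤ (R.Wr c r o).2 := by
  induction r', hr using Nat.le_induction with
  | base => exact ⟨le_rfl, le_rfl⟩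
  | succ n _ ih =>
    obtain ⟨a, b, d, e⟩ := h.sub n (0, 0) o
    exact ⟨ih.1.trans (a.trans b), (d.trans e).trans ih.2⟩

theorem Ok.al_le (h : R.Ok c w Λ Gr Hn) {r r' : ℕ} (hr : r ≤ r') {o : Ω} (ha : R.al c Gr r' o) :
    R.al c Gr r o := by
  induction r', hr using Nat.le_induction with
  | base => exact ha
  | succ n _ ih => exact ih (h.al_mono n o ha)

theorem Ok.lt (h : R.Ok c w Λ Gr Hn) (ht : c.Ok Λ' L) (hL : Gr ≤ L) (r : ℕ) (o : Ω) :
    (R.Wr c r o).1 < (R.Wr c r o).2 := ht.lt _ ((h.st_le r o).trans hL) o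

theorem Ok.halve (h : R.Ok c w Λ Gr Hn) (r j : ℕ) {o : Ω} (ha : R.al c Gr (r + j) o) :
    2 ^ j * c.lenW (R.Wr c (r + j) o) ≤ c.lenW (R.Wr c r o) := by
  induction j with
  | zero => simp
  | succ j ih =>
    have h1 := h.half (r + j) o ha
    have h2 := ih (h.al_mono _ o ha)
    have h3 : (0 : ℝ) < 2 ^ j := by positivity
    calc (2 : ℝ) ^ (j + 1) * c.lenW (R.Wr c (r + (j + 1)) o)
        = 2 ^ j * (2 * c.lenW (R.Wr c (r + j + 1) o)) := by rw [pow_succ, mul_assoc, add_assoc]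
      _ ≤ 2 ^ j * c.lenW (R.Wr c (r + j) o) := by gcongr
      _ ≤ _ := h2

theorem Ok.len_le_lam (h : R.Ok c w Λ Gr Hn) (ht : c.Ok Λ' L) (r : ℕ) (q : ℕ × ℕ) (o : Ω) :
    c.lenW (R.Wr c (r + 1) o) ≤ R.lam c r q o := by
  obtain ⟨-, b, d, -⟩ := h.sub r q o
  have := ht.mono.monotone b
  have := ht.mono.monotone d
  unfold TT.lenW lam
  linarith

theorem Ok.lam_le_len (h : R.Ok c w Λ Gr Hn) (ht : c.Ok Λ' L) (r : ℕ) (q : ℕ × ℕ) (o : Ω) :
    R.lam c r q o ≤ c.lenW (R.Wr c r o) := by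
  obtain ⟨a, -, -, e⟩ := h.sub r q o
  have := ht.mono.monotone a
  have := ht.mono.monotone e
  unfold TT.lenW lam
  linarith

theorem Ok.lam_pos (h : R.Ok c w Λ Gr Hn) (ht : c.Ok Λ' L) (hL : Gr ≤ L) (r : ℕ) (q : ℕ × ℕ)
    (o : Ω) : 0 < R.lam c r q o :=
  lt_of_lt_of_le (sub_pos.2 (ht.mono (h.lt ht hL (r + 1) o))) (h.len_le_lam ht r q o)

theorem al_det (R : Row Ω) (c : TT Ω) (Gr r : ℕ) : Det (R.Wr c r) (R.al c Gr r) := by
  intro o o' e
  have e1 : c.lo (R.st r o) o = c.lo (R.st r o') o' := congrArg Prod.fst e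
  have e2 : c.hi (R.st r o) o = c.hi (R.st r o') o' := congrArg Prod.snd e
  unfold al TT.N
  rw [e1, e2]

end Row

theorem Col.ca_det (C : Col Ω) (x : Bool × ℕ) : Det (C.cv x) (C.ca x) := by
  intro o o' e
  unfold Col.cv at e
  by_cases a : C.ca x o <;> by_cases b : C.ca x o' <;> simp_all

theorem Col.cv_eq (C : Col Ω) {x : Bool × ℕ} {o o' : Ω} (a : C.ca x o) (e : C.cv x o = C.cv x o') :
    C.ca x o' ∧ C.k x o = C.k x o' ∧ C.xl x 0 o = C.xl x 0 o' := by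
  have b : C.ca x o' := C.ca_det x o o' e ▸ a
  unfold Col.cv at e
  rw [if_pos a, if_pos b] at e
  exact ⟨b, by simpa using e⟩

namespace Arr

/-- the rows with pair index `h` -/
noncomputable def rowD (A : Arr Ω) (h : ℕ × ℕ) : RowD Ω ((ℕ × ℕ) × ℕ × ℕ) (ℕ × ℕ) where
  live := A.al
  tau := fun r => A.tv r h
  lam := fun r => A.R.lam A.d.toTT r h
  t0 := fun r o => A.d.tau (A.R.tl r h o)
  ch := A.ch
  A := A.AA
  tA := fun r o => A.d.tau (A.AA r o).1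

/-- the columns of the grid `Γ` -/
noncomputable def colD (A : Arr Ω) (Γ : Bool) : ColD Ω (Option (ℤ × ℝ)) where
  live := fun k => A.C.ca (Γ, k)
  xi := fun k => A.C.cv (Γ, k)
  x0 := fun k o => if A.C.ca (Γ, k) o then A.C.xl (Γ, k) 0 o else 0
  U := fun k o => if A.C.ca (Γ, k) o then (2 : ℝ) ^ A.C.k (Γ, k) o else 1
  B := fun k o => some (0, A.BB (Γ, k) o)
  xB := fun k => A.BB (Γ, k)

variable [Fintype Ω] {A : Arr Ω} {w : Ω → ℝ} {Λ η Bd r0 : ℝ} {Hn K0 s Jb : ℕ}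

omit [Fintype Ω] in
theorem Gr_le (A : Arr Ω) : A.d.Gr ≤ A.d.lev A.d.m := Nat.le_add_right _ _

theorem rowD_ok (hA : A.Ok w Λ η Hn K0 Bd) (hs : A.g0 + 1 ≤ s) (h : ℕ × ℕ) :
    (A.rowD h).Ok un s (2 / 2 ^ s) (1 / 2 ^ A.g0) := by
  have hR := hA.R
  have ht := hA.d.tt
  have hm := ht.mono.monotone
  refine ⟨fun r o a => hR.al_le (Nat.le_add_right r s) a, fun r o => hR.lam_pos ht A.Gr_le r h o,
    fun r o o' e => Row.al_det _ _ _ r o o' (congrArg Prod.fst e), fun r o o' e => ?_,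
    fun r o o' e => ?_, fun r o o' e => ?_, fun r o _ => ?_, fun r o o' _ _ _ e => ?_,
    fun r o a => ?_, fun r o a => ?_, fun r o _ => ?_⟩
  · have e1 : A.R.tl r h o = A.R.tl r h o' := congrArg (fun z => z.2.1) e
    have e2 : A.R.tr r h o = A.R.tr r h o' := congrArg (fun z => z.2.2) e
    show A.R.lam A.d.toTT r h o = A.R.lam A.d.toTT r h o'
    unfold Row.lam
    rw [e1, e2]
  · have e1 : A.R.tl r h o = A.R.tl r h o' := congrArg (fun z => z.2.1) e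
    show A.d.tau (A.R.tl r h o) = A.d.tau (A.R.tl r h o')
    rw [e1]
  · show A.d.tau (A.AA r o).1 = A.d.tau (A.AA r o').1
    rw [show A.AA r o = A.AA r o' from e]
  · obtain ⟨-, b, d, -⟩ := hR.sub r h o
    obtain ⟨f, g⟩ := hR.sub_le (Nat.le_add_right (r + 1) A.g0) o
    have l := hR.lt ht A.Gr_le (r + 1 + A.g0) o
    have h1 := hm (b.trans f)
    have h2 := hm (l.le.trans (g.trans d))
    show 0 ≤ A.d.tau (A.AA r o).1 - A.d.tau (A.R.tl r h o) ∧
      A.d.tau (A.AA r o).1 - A.d.tau (A.R.tl r h o) ≤ A.R.lam A.d.toTT r h o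
    unfold Row.lam AA
    constructor <;> linarith
  · have e1 : A.R.Wr A.d.toTT (r + s) o = A.R.Wr A.d.toTT (r + s) o' := congrArg Prod.fst e
    exact ⟨hR.det1 r h o o' (hR.det_le (by omega) o o' e1), hR.det_le (by omega) o o' e1⟩
  · obtain ⟨j, rfl⟩ : ∃ j, s = 1 + j := ⟨s - 1, by omega⟩
    have h1 := hR.halve (r + 1) j (o := o) (by rw [add_assoc]; exact a)
    have h2 := hR.len_le_lam ht r h o
    have h3 := hR.lam_le_len ht (r + (1 + j)) h o
    rw [add_assoc] at h1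
    have h4 : (0 : ℝ) < 2 ^ j := by positivity
    show A.R.lam A.d.toTT (r + (1 + j)) h o ≤ 2 / 2 ^ (1 + j) * A.R.lam A.d.toTT r h o
    rw [pow_add, pow_one, div_mul_cancel_left₀ two_ne_zero, inv_mul_eq_div, le_div_iff₀ h4]
    nlinarith
  · have h1 := hR.halve (r + 1) A.g0 (o := o) (hR.al_le (by omega) a)
    have h2 := hR.len_le_lam ht r h o
    obtain ⟨b, d, -, -⟩ := hR.sub (r + s) h o
    obtain ⟨f, -⟩ := hR.sub_le (show r + 1 + A.g0 ≤ r + s by omega) o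
    obtain ⟨-, g⟩ := hR.sub_le (show r + 1 + A.g0 ≤ r + s + 1 by omega) o
    have l := hR.lt ht A.Gr_le (r + s + 1) o
    have h3 := hm (f.trans b)
    have h5 := hm (d.trans (l.le.trans g))
    have h4 : (0 : ℝ) < 2 ^ A.g0 := by positivity
    show |A.d.tau (A.AA r o).1 - A.d.tau (A.R.tl (r + s) h o)| ≤
      1 / 2 ^ A.g0 * A.R.lam A.d.toTT r h o
    unfold AA
    rw [one_div, inv_mul_eq_div, le_div_iff₀ h4, abs_sub_comm, abs_of_nonneg (sub_nonneg.2 h3)]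
    unfold TT.lenW at h1 h2
    nlinarith
  · obtain ⟨-, b', d', -⟩ := hR.sub r h o
    obtain ⟨b, d, -, -⟩ := hR.sub (r + s) h o
    obtain ⟨f, -⟩ := hR.sub_le (show r + 1 ≤ r + s by omega) o
    obtain ⟨-, g⟩ := hR.sub_le (show r + 1 ≤ r + s + 1 by omega) o
    have l := hR.lt ht A.Gr_le (r + s + 1) o
    have h3 := hm (b'.trans (f.trans b))
    have h5 := hm (d.trans (l.le.trans (g.trans d')))
    show |A.d.tau (A.R.tl r h o) - A.d.tau (A.R.tl (r + s) h o)| ≤ A.R.lam A.d.toTT r h o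
    unfold Row.lam
    rw [abs_sub_comm, abs_of_nonneg (sub_nonneg.2 h3)]
    linarith

theorem colD_ok (hA : A.Ok w Λ η Hn K0 Bd) (hs : A.g0 + 1 ≤ s) (Γ : Bool) :
    (A.colD Γ).Ok w un A.d.a s (2 / 2 ^ s) (1 / 2 ^ A.g0) (2 ^ A.g0) := by
  have hC := hA.C
  refine ⟨fun k o a => (hC.chain Γ k s o a).1, fun k o => ?_,
    fun k o o' e => A.C.ca_det (Γ, k) o o' (congrArg Prod.snd e), fun k o o' e => ?_,
    fun k o o' e => ?_, fun k o o' e => ?_, fun k o a => ?_, fun k o a => ?_,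
    fun k o o' a b _ e => ?_, fun k o a => ?_, fun k o a => ?_⟩
  · simp only [colD]
    split_ifs <;> positivity
  · simp only [colD] at e ⊢
    by_cases a : A.C.ca (Γ, k) o
    · obtain ⟨b, e1, -⟩ := A.C.cv_eq a e
      rw [if_pos a, if_pos b, e1]
    · rw [if_neg a, if_neg fun b => a (A.C.cv_eq b e.symm).1]
  · simp only [colD] at e ⊢
    by_cases a : A.C.ca (Γ, k) o
    · obtain ⟨b, -, e1⟩ := A.C.cv_eq a e
      rw [if_pos a, if_pos b, e1]
    · rw [if_neg a, if_neg fun b => a (A.C.cv_eq b e.symm).1]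
  · simpa [colD] using e
  · simp only [colD] at a ⊢
    obtain ⟨-, h1, h2⟩ := hC.inn (Γ, k) 0 o a
    rw [if_pos a, if_pos a]
    simp only [Nat.cast_zero, sub_zero] at h2
    constructor <;> linarith
  · simp only [colD, BB] at a ⊢
    obtain ⟨h0, h1, h2⟩ := hC.inn (Γ, k) A.g0 o a
    rw [if_pos a, if_pos a, if_pos a]
    rw [zpow_sub₀ two_ne_zero, zpow_natCast] at h2
    refine ⟨h0, h1, ?_⟩
    rw [one_div, inv_mul_eq_div]
    linarith
  · simp only [colD, BB] at a b e ⊢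
    obtain ⟨e1, e2⟩ := hC.chain2 Γ k s A.g0 o o' a e.symm (by omega)
    rw [if_pos (hC.chain Γ k s o a).1, if_pos (hC.chain Γ k s o' b).1, e1, e2]
    exact ⟨rfl, rfl⟩
  · simp only [colD] at a ⊢
    obtain ⟨b, h1⟩ := hC.chain Γ k s o a
    rw [if_pos a, if_pos b]
    have h2 : (2 : ℝ) ^ (A.C.k (Γ, k + s) o + s) ≤ 2 ^ A.C.k (Γ, k) o :=
      zpow_le_zpow_right₀ one_le_two h1
    rw [zpow_add₀ two_ne_zero, zpow_natCast] at h2
    have h3 : (0 : ℝ) < 2 ^ s := by positivity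
    have h4 : (0 : ℝ) < 2 ^ A.C.k (Γ, k) o := by positivity
    rw [div_mul_eq_mul_div, le_div_iff₀ h3]
    linarith
  · simp only [colD, BB] at a ⊢
    refine ⟨(vals w (A.C.xl (Γ, k) A.g0) (A.C.cv (Γ, k)) o).image fun v => some (0, v), ?_,
      fun o' p b _ e => ?_⟩
    · exact_mod_cast card_image_le.trans (hC.card (Γ, k) A.g0 o a)
    · rw [if_pos b]
      exact mem_image_of_mem _ (mem_vals.2 ⟨o', p, e, rfl⟩)

omit [Fintype Ω] in
theorem live_det (A : Arr Ω) (r : ℕ) (h : ℕ × ℕ) (x : Bool × ℕ) : Det (A.OO r h x) (A.live r x) := by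
  intro o o' e
  have e1 : (if A.live r x o then none else some (A.d.p o)) =
      (if A.live r x o' then none else some (A.d.p o')) := congrArg (fun z => z.2.2.2) e
  by_cases a : A.live r x o <;> by_cases b : A.live r x o' <;> simp_all

theorem I_live (hw : Nn w) {α β γ : Type} {f : Ω → α} {g : Ω → β} {k : Ω → γ} {L : Ω → Prop}
    (hL : Det k L) (h0 : DetS (res w fun o => ¬ L o) k f ∨ DetS (res w fun o => ¬ L o) k g) :
    I w f g k ≤ I (res w L) f g k := by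
  have hn : Nn (res w fun o => ¬ L o) := hw.res _
  have e1 : H w f k = H (res w L) f k + H (res w fun o => ¬ L o) f k := by
    rw [← H_split_ev]
    exact H_congr Det.fst Det.fst (Det.rfl.pr hL) Det.fst
  have e2 := H_res_add_le hw L f (pr g k)
  have e3 : H w f (pr g k) = H (res w L) f (pr g k) + H (res w fun o => ¬ L o) f (pr g k) := by
    rw [← H_split_ev]
    exact H_congr Det.fst Det.fst (Det.rfl.pr (Det.snd.trans hL)) Det.fst
  have e4 : I (res w fun o => ¬ L o) f g k ≤ 0 := by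
    rcases h0 with h0 | h0
    · refine (I_le_H hn f g k).trans ((H_monoS hn (f' := un) (g' := k)
        ((DetS.of Det.snd).trans h0) (DetS.of Det.rfl)).trans_eq (H_det hn Det.un))
    · rw [I_symm hn]
      exact (I_le_H hn g f k).trans ((H_monoS hn (f' := un) (g' := k)
        ((DetS.of Det.snd).trans h0) (DetS.of Det.rfl)).trans_eq (H_det hn Det.un))
  unfold I at e4 ⊢
  linarith

theorem I_congrS (hw : Nn w) {α β γ α' β' γ' : Type} {f : Ω → α} {g : Ω → β} {k : Ω → γ}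
    {f' : Ω → α'} {g' : Ω → β'} {k' : Ω → γ'} (f1 : DetS w f f') (f2 : DetS w f' f)
    (g1 : DetS w g g') (g2 : DetS w g' g) (k1 : DetS w k k') (k2 : DetS w k' k) :
    I w f g k = I w f' g' k' := by
  have p : ∀ {α β α' β' : Type} {f : Ω → α} {g : Ω → β} {f' : Ω → α'} {g' : Ω → β'},
      DetS w f f' → DetS w g g' → DetS w (pr f g) (pr f' g') := fun h1 h2 =>
    ((DetS.of Det.fst).trans h1).pr ((DetS.of Det.snd).trans h2)
  unfold I
  rw [H_congrS hw (p f1 k1) (p f2 k2) k1 k2,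
    H_congrS hw (p f1 (p g1 k1)) (p f2 (p g2 k2)) (p g1 k1) (p g2 k2)]

omit [Fintype Ω] in
theorem unit_live {r k : ℕ} {h : ℕ × ℕ} {Γ : Bool} {o : Ω} (a : A.C.ca (Γ, k) o) :
    Cell.unit (A.rowD h) (A.colD Γ) r k o = A.unit r h (Γ, k) o := by
  simp only [Cell.unit, rowD, colD, unit, if_pos a]

omit [Fintype Ω] in
theorem Vp_live {r k : ℕ} {h : ℕ × ℕ} {Γ : Bool} {o : Ω} (a : A.C.ca (Γ, k) o) :
    Cell.Vp (A.rowD h) (A.colD Γ) A.d.a A.d.b r k o = A.Vp r h (Γ, k) o := by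
  simp only [Cell.Vp, rowD, colD, Vp, if_pos a]

omit [Fintype Ω] in
theorem Vl_live {r k : ℕ} {h : ℕ × ℕ} {Γ : Bool} {o : Ω} (a : A.C.ca (Γ, k) o) :
    Cell.Vl (A.rowD h) (A.colD Γ) A.d.a A.d.b r k o = A.Vl r (Γ, k) o := by
  simp only [Cell.Vl, rowD, colD, Vl, if_pos a]

omit [Fintype Ω] in
theorem Yc_live {r k : ℕ} {h : ℕ × ℕ} {Γ : Bool} {o : Ω} (a : A.live r (Γ, k) o) :
    Cell.Yc (A.rowD h) (A.colD Γ) A.d.a A.d.b A.P A.sig r k o = A.Yc r h (Γ, k) o := by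
  simp only [Cell.Yc, Yc, vc, if_pos a, unit_live a.2, Vp_live a.2]

omit [Fintype Ω] in
theorem Yp_live {r k : ℕ} {h : ℕ × ℕ} {Γ : Bool} {o : Ω} (a : A.live r (Γ, k) o) :
    Cell.Yp (A.rowD h) (A.colD Γ) A.d.a A.d.b A.P A.sig r k o = A.Yp r h (Γ, k) o := by
  simp only [Cell.Yp, Yp, vp, if_pos a, unit_live a.2, Vp_live a.2]

omit [Fintype Ω] in
theorem Yl_live {r k : ℕ} {h : ℕ × ℕ} {Γ : Bool} {o : Ω} (a : A.live r (Γ, k) o) :
    Cell.Yl (A.rowD h) (A.colD Γ) A.d.a A.d.b A.P A.sig r k o = A.Yl r h (Γ, k) o := by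
  simp only [Cell.Yl, Yl, vl, if_pos a, unit_live a.2, Vl_live a.2]

omit [Fintype Ω] in
theorem OO_live {r k : ℕ} {h : ℕ × ℕ} {Γ : Bool} {o o' : Ω} (a : A.live r (Γ, k) o)
    (b : A.live r (Γ, k) o') : A.OO r h (Γ, k) o = A.OO r h (Γ, k) o' ↔
      Cell.O (A.rowD h) (A.colD Γ) un A.d.a A.d.b A.P A.sig r k o =
        Cell.O (A.rowD h) (A.colD Γ) un A.d.a A.d.b A.P A.sig r k o' := by
  rw [O_eq, Yc_live a, Yc_live b]
  simp only [OO, if_pos a, if_pos b, Prod.mk.injEq, and_true, un, true_and, rowD, colD]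

/-- off the live items the conditioning contains the point, hence the slope cell -/
theorem BB_dead (hA : A.Ok w Λ η Hn K0 Bd) (r : ℕ) (h : ℕ × ℕ) (x : Bool × ℕ) :
    DetS (res w fun o => ¬ A.live r x o) (A.OO r h x) (A.BB x) := by
  intro o o' p q e
  have a := (res_pos p).1
  have b := (res_pos q).1
  have e1 : (if A.live r x o then none else some (A.d.p o)) =
      (if A.live r x o' then none else some (A.d.p o')) := congrArg (fun z => z.2.2.2) e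
  rw [if_neg a, if_neg b] at e1
  have e2 : A.d.a o = A.d.a o' := congrArg Prod.fst (Option.some.inj e1)
  obtain ⟨e3, e4⟩ := hA.C.det x A.g0 o' o e2
  unfold BB
  rw [A.C.ca_det x o o' e3, e4]

theorem d1_le (hA : A.Ok w Λ η Hn K0 Bd) (r k : ℕ) (h : ℕ × ℕ) (Γ : Bool) :
    A.d1 r h (Γ, k) w ≤ Cell.d1 (A.rowD h) (A.colD Γ) un A.d.a A.d.b A.P A.sig r k w := by
  refine (I_live hA.nn (A.live_det r h (Γ, k)) (Or.inr ((BB_dead hA r h (Γ, k)).pr ?_))).trans_eq ?_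
  · intro o o' p q _
    simp only [Yp, if_neg (res_pos p).1, if_neg (res_pos q).1]
  · refine I_congrS (hA.nn.res _) (DetS.of Det.rfl) (DetS.of Det.rfl) ?_ ?_ ?_ ?_
    · intro o o' p q e
      obtain ⟨e1, e2⟩ := Prod.mk.inj e
      refine Prod.ext ?_ ?_
      · simp only [pr, colD, e1]
      · simpa only [pr, Yp_live (res_pos p).1, Yp_live (res_pos q).1] using e2
    · intro o o' p q e
      obtain ⟨e1, e2⟩ := Prod.mk.inj e
      refine Prod.ext ?_ ?_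
      · simpa [pr, colD] using e1
      · simpa only [pr, Yp_live (res_pos p).1, Yp_live (res_pos q).1] using e2
    · exact fun o o' p q e => (OO_live (res_pos p).1 (res_pos q).1).1 e
    · exact fun o o' p q e => (OO_live (res_pos p).1 (res_pos q).1).2 e

theorem d2_le (hA : A.Ok w Λ η Hn K0 Bd) (r k : ℕ) (h : ℕ × ℕ) (Γ : Bool) :
    A.d2 r h (Γ, k) w ≤ Cell.d2 (A.rowD h) (A.colD Γ) un A.d.a A.d.b A.P A.sig r k w := by
  refine (I_live hA.nn (A.live_det r h (Γ, k)) (Or.inl (BB_dead hA r h (Γ, k)))).trans_eq ?_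
  refine I_congrS (hA.nn.res _) ?_ ?_ ?_ ?_ ?_ ?_
  · intro o o' _ _ e
    simp only [colD, e]
  · intro o o' _ _ e
    simpa [colD] using e
  · intro o o' p q e
    obtain ⟨e1, e2⟩ := Prod.mk.inj e
    refine Prod.ext e1 ?_
    simpa only [pr, Yl_live (res_pos p).1, Yl_live (res_pos q).1] using e2
  · intro o o' p q e
    obtain ⟨e1, e2⟩ := Prod.mk.inj e
    refine Prod.ext e1 ?_
    simpa only [pr, Yl_live (res_pos p).1, Yl_live (res_pos q).1] using e2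
  · exact fun o o' p q e => (OO_live (res_pos p).1 (res_pos q).1).1 e
  · exact fun o o' p q e => (OO_live (res_pos p).1 (res_pos q).1).2 e

theorem stc_le (hw : Nn w) (r k : ℕ) (h : ℕ × ℕ) (Γ : Bool) :
    stc (A.rowD h) (A.colD Γ) A.d.a A.d.b A.P A.sig r k w r0 ≤ A.sC r h (Γ, k) w r0 := by
  unfold stc wt sC
  rw [res_res]
  refine tot_res_mono hw fun o _ e => ?_
  have h1 := e.2
  rw [unit_live e.1.2, Vp_live e.1.2] at h1
  exact h1

theorem stp_le (hw : Nn w) (r k : ℕ) (h : ℕ × ℕ) (Γ : Bool) :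
    stp (A.rowD h) (A.colD Γ) A.d.a A.d.b A.P A.sig r k w r0 ≤ A.sP r h (Γ, k) w r0 := by
  unfold stp wt sP
  rw [res_res]
  refine tot_res_mono hw fun o _ e => ?_
  have h1 := e.2
  rw [unit_live e.1.2, Vp_live e.1.2] at h1
  exact h1

theorem stl_le (hw : Nn w) (r k : ℕ) (h : ℕ × ℕ) (Γ : Bool) :
    stl (A.rowD h) (A.colD Γ) A.d.a A.d.b A.P A.sig r k w r0 ≤ A.sL r h (Γ, k) w r0 := by
  unfold stl wt sL
  rw [res_res]
  refine tot_res_mono hw fun o _ e => ?_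
  have h1 := e.2
  rw [unit_live e.1.2, Vl_live e.1.2] at h1
  exact h1

omit [Fintype Ω] in
theorem Num.facts (hN : A.Num Λ r0 s Jb) : 1 ≤ A.P ∧ r0 ≤ 1 ∧ 2 / 2 ^ s * A.P ^ 2 ≤ r0 / 2 ∧
    1 / 2 ^ A.g0 * A.P ≤ r0 / 2 ∧ 1 / A.P ≤ r0 / 2 := by
  have h0 : (1 : ℝ) ≤ Jb := by exact_mod_cast hN.Jb
  have h1 : 1 ≤ A.P := h0.trans hN.P3
  have h2 : (0 : ℝ) < 2 ^ s := by positivity
  have h3 : (0 : ℝ) < 2 ^ A.g0 := by positivity
  refine ⟨h1, by linarith [hN.r0_le], ?_, ?_, ?_⟩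
  · rw [div_mul_eq_mul_div, div_le_iff₀ h2]
    linarith [hN.s2]
  · rw [div_mul_eq_mul_div, div_le_iff₀ h3]
    linarith [hN.g2]
  · rw [div_le_iff₀ (by linarith)]
    linarith [hN.P1]

/-- chain along the columns -/
theorem chain_col (hA : A.Ok w Λ η Hn K0 Bd) (hN : A.Num Λ r0 s Jb) (r : ℕ) (h : ℕ × ℕ) (Γ : Bool)
    (K : ℕ) : ∑ k ∈ range K, A.d1 r h (Γ, k) w ≤ s * H w (A.AA r) (A.tv r h) +
      ∑ k ∈ range K, (A.sC r h (Γ, k) w r0 + A.sP r h (Γ, k) w r0) := by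
  obtain ⟨n1, n2, n3, -, -⟩ := hN.facts
  have h1 := Cell.chain_col (b := A.d.b) (σ := A.sig) hA.nn (rowD_ok hA hN.s1 h)
    (colD_ok hA hN.s1 Γ) n1 n2 (n3.trans (by linarith [hN.r0_pos])) r K
  refine (sum_le_sum fun k _ => d1_le hA r k h Γ).trans (h1.trans (add_le_add ?_
    (sum_le_sum fun k _ => add_le_add (stc_le hA.nn r k h Γ) (stp_le hA.nn r k h Γ))))
  exact mul_le_mul_of_nonneg_left ((H_mono (hA.nn.res _) Det.fst Det.snd).trans
    (Tel.H_res_le hA.nn _ _ _)) (Nat.cast_nonneg s)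

/-- chain along the rows -/
theorem chain_row (hA : A.Ok w Λ η Hn K0 Bd) (hN : A.Num Λ r0 s Jb) (h : ℕ × ℕ) (x : Bool × ℕ)
    (G : ℕ) : ∑ r ∈ range G, A.d2 r h x w ≤ s * (A.g0 * tot w) +
      ∑ r ∈ range G, (A.sC r h x w r0 + A.sL r h x w r0) := by
  obtain ⟨Γ, k⟩ := x
  obtain ⟨n1, n2, n3, n4, n5⟩ := hN.facts
  have n6 : (2 : ℝ) / 2 ^ s ≤ 2 / 2 ^ s * A.P ^ 2 :=
    le_mul_of_one_le_right (by positivity) (one_le_pow₀ n1)
  have h1 := Cell.chain_row (b := A.d.b) (σ := A.sig) (r0 := r0) hA.nn (rowD_ok hA hN.s1 h)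
    (colD_ok hA hN.s1 Γ) n1 (one_le_pow₀ one_le_two) n2 (by linarith) (by linarith) k G
  rw [lg_two_pow] at h1
  exact (sum_le_sum fun r _ => d2_le hA r k h Γ).trans (h1.trans (add_le_add le_rfl
    (sum_le_sum fun r _ => add_le_add (stc_le hA.nn r k h Γ) (stl_le hA.nn r k h Γ))))

/-- the later windows cost `g0 + 1` times the entropy of the last window -/
theorem ahead (hA : A.Ok w Λ η Hn K0 Bd) (h : ℕ × ℕ) (G : ℕ) :
    ∑ r ∈ range G, H w (A.AA r) (A.tv r h) ≤ (A.g0 + 1) * H w (A.d.W A.d.Gr) un := by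
  have h1 := Tel.ahead hA.nn (A.R.Wr A.d.toTT) hA.R.det_succ (1 + A.g0) G (A.d.W A.d.Gr) hA.R.det2
  have h2 : H w (A.d.W A.d.Gr) (A.R.Wr A.d.toTT 0) ≤ H w (A.d.W A.d.Gr) un :=
    H_mono hA.nn Det.fst Det.un
  refine (sum_le_sum fun r _ => ?_).trans (h1.trans ?_)
  · rw [← add_assoc]
    exact H_mono hA.nn Det.fst fun o o' e => congrArg Prod.fst e
  · push_cast
    rw [add_comm]
    exact mul_le_mul_of_nonneg_left h2 (by positivity)

end Arr

end Pool.Agent.Lib.MP_d308c3_co.K
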