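import Pool.Agent.Lib.MP_d308c3_co.K.CellB
import Pool.Agent.Lib.MP_d308c3_co.K.Chains

set_option autoImplicit false

/-! The sum over all cells of the selected, marked, unsaturated mass. -/

namespace Pool.Agent.Lib.MP_d308c3_co.K.CellB

open Finset Pool.Agent.Lib.MP_108739_an.F
open Classical

variable {Ω : Type} [Fintype Ω] {A : Arr Ω} {w : Ω → ℝ} {Λ η Bd r0 : ℝ} {Hn K0 s Jb : ℕ}

theorem sqrt_le_am {t d ed : ℝ} (ht : 0 ≤ t) (hd : 0 ≤ d) (he : 0 < ed) :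
    2 * √(t * d) ≤ ed * t + d / ed := by
  have h1 : t * d = (ed * t) * (d / ed) := by field_simp
  rw [h1, Real.sqrt_mul (by positivity)]
  have a := Real.mul_self_sqrt (show 0 ≤ ed * t by positivity)
  have b := Real.mul_self_sqrt (show 0 ≤ d / ed by positivity)
  nlinarith [sq_nonneg (√(ed * t) - √(d / ed))]

/-- the selected, marked, unsaturated mass of a cell -/
noncomputable def bad (A : Arr Ω) (w : Ω → ℝ) (Λ : ℝ) (Jb : ℕ) (τ : ℝ) (r : ℕ) (h : ℕ × ℕ)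
    (x : Bool × ℕ) : ℝ :=
  tot (res w fun o => A.C.sel x o ∧ A.mkc r h w o ∧ ¬ A.sat r h x w Λ Jb τ o)

theorem cell_one (hA : A.Ok w Λ η Hn K0 Bd) (hN : A.Num Λ r0 s Jb) (r : ℕ) (h : ℕ × ℕ)
    (x : Bool × ℕ) {τ e ed : ℝ} (hτ : 0 < τ) (he : 0 < e) (hed : 0 < ed) :
    bad A w Λ Jb τ r h x ≤
      (e * A.d.S ^ 4 + 3 * A.d.S ^ 2 * e / η + (16 * ed + 16 / Jb) / (τ * e * e)) * tot w +
        A.sC r h x w r0 + 12 / (ed * (τ * e * e)) * (A.d1 r h x w + A.d2 r h x w) := by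
  have hw := hA.nn
  have hη := hA.eta.1
  have h1 := rect hA hN r h x hτ.le he.le
  have h2 := tact hA r h x he.le
  have h3 := xact hA hN r h x he.le
  have t0 := tot_nonneg hw
  have i1 : 0 ≤ A.d1 r h x w := I_nonneg hw _ _ _
  have i2 : 0 ≤ A.d2 r h x w := I_nonneg hw _ _ _
  have s1 := sqrt_le_am t0 i1 hed
  have s2 := sqrt_le_am t0 i2 hed
  have q : 0 < τ * e * e := by positivity
  have h4 : bad A w Λ Jb τ r h x ≤
      tot (res w fun o => A.mkc r h w o ∧ ¬ A.tA r h x w e o) +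
      (tot (res w fun o => A.C.sel x o ∧ A.al r o ∧ ¬ Str r0 (A.vc r h x o + A.sig) ∧
        ¬ A.xA r h x w e o) + (A.sC r h x w r0 +
      tot (res w fun o => A.live r x o ∧ A.tA r h x w e o ∧ A.xA r h x w e o ∧
        ¬ A.sat r h x w Λ Jb τ o))) := by
    refine le_trans ?_ (add_le_add le_rfl (add_le_add le_rfl (tot_res_or hw _ _)))
    refine le_trans ?_ (add_le_add le_rfl (tot_res_or hw _ _))
    refine le_trans (tot_res_mono hw fun o _ a => ?_) (tot_res_or hw _ _)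
    obtain ⟨a1, a2, a3⟩ := a
    have al : A.al r o := by
      obtain ⟨i, hi, rfl, hv, _⟩ := a2
      exact (hA.R.cn_spec i hi o (spl_of_good hA.d.tt hv.1.1)).1
    by_cases c1 : A.tA r h x w e o
    · by_cases c2 : Str r0 (A.vc r h x o + A.sig)
      · exact Or.inr (Or.inr (Or.inl c2))
      · by_cases c3 : A.xA r h x w e o
        · exact Or.inr (Or.inr (Or.inr ⟨⟨al, (hA.C.sel x o a1).2.1⟩, c1, c3, a3⟩))
        · exact Or.inr (Or.inl ⟨a1, al, c2, c3⟩)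
    · exact Or.inl ⟨a2, c1⟩
  rw [← le_div_iff₀' hη] at h3
  have h5 : τ * e * e * tot (res w fun o => A.live r x o ∧ A.tA r h x w e o ∧ A.xA r h x w e o ∧
      ¬ A.sat r h x w Λ Jb τ o) ≤ (16 * ed + 16 / Jb) * tot w +
        12 / ed * (A.d1 r h x w + A.d2 r h x w) := by
    have e1 : 12 / ed * (A.d1 r h x w + A.d2 r h x w) =
        12 * (A.d1 r h x w / ed) + 12 * (A.d2 r h x w / ed) := by ring
    have e2 : 0 ≤ A.d2 r h x w / ed := by positivity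
    rw [e1]
    linarith
  rw [← le_div_iff₀' q] at h5
  have e3 : ((16 * ed + 16 / Jb) * tot w + 12 / ed * (A.d1 r h x w + A.d2 r h x w)) / (τ * e * e) =
      (16 * ed + 16 / Jb) / (τ * e * e) * tot w +
        12 / (ed * (τ * e * e)) * (A.d1 r h x w + A.d2 r h x w) := by
    field_simp
  have e4 : 3 * A.d.S ^ 2 * e * tot w / η = 3 * A.d.S ^ 2 * e / η * tot w := by ring
  rw [e3] at h5
  rw [e4] at h3
  linarith

/-- sum over all cells -/
noncomputable def cs (G Hn K0 : ℕ) (F : ℕ → ℕ × ℕ → Bool × ℕ → ℝ) : ℝ :=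
  ∑ x ∈ (univ : Finset Bool) ×ˢ range K0, ∑ r ∈ range G, ∑ h ∈ range Hn ×ˢ range Hn, F r h x

theorem cs_add (G Hn K0 : ℕ) (F F' : ℕ → ℕ × ℕ → Bool × ℕ → ℝ) :
    cs G Hn K0 (fun r h x => F r h x + F' r h x) = cs G Hn K0 F + cs G Hn K0 F' := by
  simp only [cs, sum_add_distrib]

theorem cs_mul (G Hn K0 : ℕ) (c : ℝ) (F : ℕ → ℕ × ℕ → Bool × ℕ → ℝ) :
    cs G Hn K0 (fun r h x => c * F r h x) = c * cs G Hn K0 F := by
  simp only [cs, mul_sum]

theorem cs_const (G Hn K0 : ℕ) (c : ℝ) :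
    cs G Hn K0 (fun _ _ _ => c) = 2 * K0 * G * Hn ^ 2 * c := by
  simp only [cs, sum_const, card_product, card_range, card_univ, Fintype.card_bool, nsmul_eq_mul]
  push_cast
  ring

theorem cs_mono {G Hn K0 : ℕ} {F F' : ℕ → ℕ × ℕ → Bool × ℕ → ℝ} (h : ∀ r k x, F r k x ≤ F' r k x) :
    cs G Hn K0 F ≤ cs G Hn K0 F' :=
  sum_le_sum fun _ _ => sum_le_sum fun _ _ => sum_le_sum fun _ _ => h _ _ _

theorem cs_col (G Hn K0 : ℕ) (F : ℕ → ℕ × ℕ → Bool × ℕ → ℝ) : cs G Hn K0 F =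
    ∑ Γ : Bool, ∑ h ∈ range Hn ×ˢ range Hn, ∑ r ∈ range G, ∑ k ∈ range K0, F r h (Γ, k) := by
  unfold cs
  rw [sum_product]
  refine sum_congr rfl fun Γ _ => ?_
  rw [sum_comm]
  simp only [sum_comm (s := range K0)]
  rw [sum_comm]

theorem cs_row (G Hn K0 : ℕ) (F : ℕ → ℕ × ℕ → Bool × ℕ → ℝ) : cs G Hn K0 F =
    ∑ x ∈ (univ : Finset Bool) ×ˢ range K0, ∑ h ∈ range Hn ×ˢ range Hn, ∑ r ∈ range G, F r h x :=
  sum_congr rfl fun _ _ => sum_comm

theorem cs_d1 (hA : A.Ok w Λ η Hn K0 Bd) (hN : A.Num Λ r0 s Jb) (G : ℕ) :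
    cs G Hn K0 (fun r h x => A.d1 r h x w) ≤
      2 * Hn ^ 2 * (s * ((A.g0 + 1) * H w (A.d.W A.d.Gr) un)) +
        cs G Hn K0 fun r h x => A.sC r h x w r0 + A.sP r h x w r0 := by
  rw [cs_col, cs_col]
  have e : 2 * (Hn : ℝ) ^ 2 * (s * ((A.g0 + 1) * H w (A.d.W A.d.Gr) un)) = ∑ _Γ : Bool,
      ∑ _h ∈ range Hn ×ˢ range Hn, (s * ((A.g0 + 1) * H w (A.d.W A.d.Gr) un)) := by
    simp only [sum_const, card_product, card_range, card_univ, Fintype.card_bool, nsmul_eq_mul]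
    push_cast
    ring
  rw [e, ← sum_add_distrib]
  refine sum_le_sum fun Γ _ => ?_
  rw [← sum_add_distrib]
  refine sum_le_sum fun h _ => ?_
  refine (sum_le_sum fun r _ => Arr.chain_col hA hN r h Γ K0).trans ?_
  rw [sum_add_distrib, ← mul_sum]
  exact add_le_add (mul_le_mul_of_nonneg_left (Arr.ahead hA h G) (Nat.cast_nonneg s)) le_rfl

theorem cs_d2 (hA : A.Ok w Λ η Hn K0 Bd) (hN : A.Num Λ r0 s Jb) (G : ℕ) :
    cs G Hn K0 (fun r h x => A.d2 r h x w) ≤ 2 * K0 * Hn ^ 2 * (s * (A.g0 * tot w)) +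
        cs G Hn K0 fun r h x => A.sC r h x w r0 + A.sL r h x w r0 := by
  rw [cs_row, cs_row]
  have e : 2 * (K0 : ℝ) * Hn ^ 2 * (s * (A.g0 * tot w)) = ∑ _x ∈ (univ : Finset Bool) ×ˢ range K0,
      ∑ _h ∈ range Hn ×ˢ range Hn, (s * (A.g0 * tot w)) := by
    simp only [sum_const, card_product, card_range, card_univ, Fintype.card_bool, nsmul_eq_mul]
    push_cast
    ring
  rw [e, ← sum_add_distrib]
  refine sum_le_sum fun x _ => ?_
  rw [← sum_add_distrib]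
  exact sum_le_sum fun h _ => Arr.chain_row hA hN h x G

/-- the same cells with another offset -/
def off (A : Arr Ω) (σ : ℝ) : Arr Ω := { A with sig := σ }

theorem off_ok (hA : A.Ok w Λ η Hn K0 Bd) (σ : ℝ) : (off A σ).Ok w Λ η Hn K0 Bd :=
  ⟨hA.nn, hA.one, hA.eta, hA.d, hA.R, hA.C⟩

omit [Fintype Ω] in
theorem off_num (hN : A.Num Λ r0 s Jb) (σ : ℝ) : (off A σ).Num Λ r0 s Jb :=
  ⟨hN.r0_pos, hN.r0_le, hN.P1, hN.P2, hN.P3, hN.Jb, hN.g1, hN.g2, hN.s1, hN.s2⟩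

/-- a good offset -/
theorem ex_off (hw : Nn w) (A : Arr Ω) (hr : 0 < r0) (G Hn K0 : ℕ) : ∃ σ : ℝ,
    cs G Hn K0 (fun r h x => (off A σ).sC r h x w r0 + (off A σ).sP r h x w r0 +
      (off A σ).sL r h x w r0) ≤ 9 * r0 * (2 * K0 * G * Hn ^ 2) * tot w := by
  have hK : 1 ≤ ⌈1 / r0⌉₊ := Nat.ceil_pos.2 (by positivity)
  have hK' : (0 : ℝ) < ⌈1 / r0⌉₊ := by exact_mod_cast hK
  obtain ⟨j, _, h⟩ := Tel.ex_offset ((((univ : Finset Bool) ×ˢ range K0) ×ˢ range G ×ˢ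
    (range Hn ×ˢ range Hn)) ×ˢ (univ : Finset (Fin 3))) (fun _ => w) (fun _ _ => hw)
    (fun i => ![A.vc i.1.2.1 i.1.2.2 i.1.1, A.vp i.1.2.1 i.1.2.2 i.1.1, A.vl i.1.2.1 i.1.2.2 i.1.1] i.2)
    hK hr.le
  refine ⟨j / ⌈1 / r0⌉₊, le_trans (le_of_eq ?_) (h.trans ?_)⟩
  · rw [sum_product, sum_product]
    refine sum_congr rfl fun x _ => ?_
    rw [sum_product]
    refine sum_congr rfl fun r _ => sum_congr rfl fun k _ => ?_
    rw [Fin.sum_univ_three]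
    rfl
  · simp only [sum_const, card_product, card_range, card_univ, Fintype.card_bool, nsmul_eq_mul,
      Fintype.card_fin]
    have h1 : 1 / (⌈1 / r0⌉₊ : ℝ) ≤ r0 := by
      rw [div_le_iff₀ hK', ← div_le_iff₀' hr]
      exact Nat.le_ceil _
    have h2 : (0 : ℝ) ≤ 2 * K0 * G * Hn ^ 2 * tot w := by
      have := tot_nonneg hw
      positivity
    push_cast
    nlinarith

/-- (CELLS) for a good offset the bad mass of all cells is small -/
theorem cell_sum (hA : A.Ok w Λ η Hn K0 Bd) (hN : A.Num Λ r0 s Jb) (G : ℕ) {τ e ed : ℝ}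
    (hτ : 0 < τ) (he : 0 < e) (hed : 0 < ed) : ∃ σ : ℝ,
    cs G Hn K0 (bad (off A σ) w Λ Jb τ) ≤ 2 * K0 * G * Hn ^ 2 *
      (e * A.d.S ^ 4 + 3 * A.d.S ^ 2 * e / η + (16 * ed + 16 / Jb) / (τ * e * e) + 9 * r0 +
        216 * r0 / (ed * (τ * e * e))) * tot w +
      24 * Hn ^ 2 * s / (ed * (τ * e * e)) *
        ((A.g0 + 1) * H w (A.d.W A.d.Gr) un + K0 * A.g0 * tot w) := by
  have hw := hA.nn
  obtain ⟨σ, h0⟩ := ex_off hw A hN.r0_pos G Hn K0
  refine ⟨σ, ?_⟩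
  have hA' := off_ok hA σ
  have hN' := off_num hN σ
  have h1 := cs_mono (G := G) (Hn := Hn) (K0 := K0) fun r h x => cell_one hA' hN' r h x hτ he hed
  have h2 := cs_d1 hA' hN' G
  have h3 := cs_d2 hA' hN' G
  rw [cs_add, cs_add, cs_const, cs_mul, cs_add] at h1
  rw [cs_add] at h2 h3
  rw [cs_add, cs_add] at h0
  have z : ∀ F : ℕ → ℕ × ℕ → Bool × ℕ → Ω → Prop,
      0 ≤ cs G Hn K0 fun r h x => tot (res w (F r h x)) := fun F =>
    sum_nonneg fun _ _ => sum_nonneg fun _ _ => sum_nonneg fun _ _ => tot_nonneg (hw.res _)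
  have z1 : 0 ≤ cs G Hn K0 fun r h x => (off A σ).sP r h x w r0 := z _
  have z2 : 0 ≤ cs G Hn K0 fun r h x => (off A σ).sL r h x w r0 := z _
  have q : 0 < 12 / (ed * (τ * e * e)) := by positivity
  have h4 := mul_le_mul_of_nonneg_left (add_le_add h2 h3) q.le
  have h5 := mul_le_mul_of_nonneg_left h0 q.le
  have h6 := mul_nonneg q.le z1
  have h7 := mul_nonneg q.le z2
  have e1 : (off A σ).d = A.d := rfl
  have e2 : (off A σ).g0 = A.g0 := rfl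
  rw [e1] at h1 h4
  rw [e2] at h4
  have e3 : 216 * r0 / (ed * (τ * e * e)) = 12 / (ed * (τ * e * e)) * (18 * r0) := by ring
  have e4 : 24 * (Hn : ℝ) ^ 2 * s / (ed * (τ * e * e)) = 12 / (ed * (τ * e * e)) * (2 * Hn ^ 2 * s) := by
    ring
  rw [e3, e4]
  refine h1.trans ?_
  nlinarith

end Pool.Agent.Lib.MP_d308c3_co.K.CellB
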