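import Pool.Agent.Lib.MP_108739_an.F.Defs
import Pool.Agent.Lib.MP_d308c3_co.Cut
import Pool.Agent.Lib.MP_d308c3_co.Expo
import Pool.Agent.Lib.MP_d308c3_co.Dens

/-! Definitions for the bound `n^(1+ε)` on halving lines: runs, time trees, local data, cells. -/

namespace Pool.Agent.Lib.MP_d308c3_co.K

open Finset Pool.Agent.Lib.MP_108739_an.F
open scoped Classical

noncomputable section

abbrev Pt := ℝ × ℝ

/-! ## runs -/

/-- a finite point set and a sequence of lines with increasing times, none through a point -/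
structure Run where
  X : Finset Pt
  t : ℕ → ℝ
  m : ℕ → ℝ
  mono : StrictMono t
  off : ∀ k, ∀ p ∈ X, m k ≠ p.2 + t k * p.1

/-- point `p` lies above the line of state `k` -/
def Run.U (x : Run) : ℕ → Pt → Prop := Cut.St Prod.fst Prod.snd x.t x.m

def Fam (x : Run) (i j : ℕ) : ℝ := (Cut.Phi x.U x.X i j : ℝ)

/-- the lacunary bound for a window function `F` with boundary times `τ` -/
def LtW (F : ℕ → ℕ → ℝ) (τ : ℕ → ℝ) (e C : ℝ) : Prop :=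
  ∀ (k : ℕ → ℕ) (n : ℕ) (z : ℝ), (∀ i j, i ≤ j → j ≤ n → k i ≤ k j) →
    ((τ (k n) < z ∧ ∀ j < n, 2 * (z - τ (k (j + 1))) ≤ z - τ (k j)) ∨
      (z < τ (k 0) ∧ ∀ j < n, 2 * (τ (k j) - z) ≤ τ (k (j + 1)) - z)) →
    ∑ j ∈ range n, F (k j) (k (j + 1)) ≤ C * (n : ℝ) ^ e * F (k 0) (k n)

/-- vertical cut -/
def dn (e : Bool × ℝ) (p : Pt) : Prop := if e.1 then p.1 ≤ e.2 else p.1 < e.2

/-! ## time trees (`T = S ^ 2`) -/

structure TT (Ω : Type) where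
  tau : ℕ → ℝ
  lo : ℕ → Ω → ℕ
  hi : ℕ → Ω → ℕ
  /-- the step from level `i` to level `i + 1` ends in a class window -/
  cls : ℕ → Ω → Prop
  th : ℝ
  S : ℝ

namespace TT
variable {Ω : Type} (c : TT Ω)

def W (i : ℕ) : Ω → ℕ × ℕ := fun o => (c.lo i o, c.hi i o)
def N (i : ℕ) (o : Ω) : ℝ := ((c.hi i o - c.lo i o : ℕ) : ℝ)
def lenW (q : ℕ × ℕ) : ℝ := c.tau q.2 - c.tau q.1
def len (i : ℕ) (o : Ω) : ℝ := c.lenW (c.W i o)
def thr (i : ℕ) : ℝ := c.th / (c.S ^ 2) ^ i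
def spl (i : ℕ) (o : Ω) : Prop := c.thr (i + 1) < c.N i o
def good (i : ℕ) (o : Ω) : Prop := c.thr i ≤ c.S * c.N i o
def clean (i : ℕ) (o : Ω) : Prop := c.good i o ∧ c.good (i + 1) o ∧ c.cls i o
def slot (i : ℕ) (o : Ω) : Prop := c.spl i o ∧ c.good (i + 1) o ∧ ¬ c.cls i o
def ov (i : ℕ) (o : Ω) : ℝ := if c.spl i o then lg (c.thr (i + 1) / c.N (i + 1) o) else 0
def ovs (L : ℕ) (o : Ω) : ℝ := ∑ i ∈ range L, c.ov i o

def shift (k : ℕ) : TT Ω :=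
  ⟨c.tau, fun i => c.lo (k + i), fun i => c.hi (k + i), fun i => c.cls (k + i), c.thr k, c.S⟩

structure Ok (Λ : ℝ) (L : ℕ) : Prop where
  two : 2 ≤ c.S
  big : c.S ^ 2 ≤ c.thr L
  mono : StrictMono c.tau
  lt : ∀ i ≤ L, ∀ o, c.lo i o < c.hi i o
  nest : ∀ i < L, ∀ o, c.lo i o ≤ c.lo (i + 1) o ∧ c.hi (i + 1) o ≤ c.hi i o
  lami : ∀ i ≤ L, ∀ o o', c.W i o = c.W i o' ∨ c.hi i o ≤ c.lo i o' ∨ c.hi i o' ≤ c.lo i o
  size : ∀ i ≤ L, ∀ o, c.N i o ≤ c.thr i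
  idle : ∀ i < L, ∀ o, ¬ c.spl i o → c.W (i + 1) o = c.W i o
  half : ∀ i < L, ∀ o, c.spl i o → 2 ≤ c.N (i + 1) o → 2 * c.len (i + 1) o ≤ c.len i o
  cls_det : ∀ i < L, ∀ o o', c.W (i + 1) o = c.W (i + 1) o' → c.cls i o → c.cls i o'
  sep : ∀ i < L, ∀ o o', c.cls i o → c.cls i o' → c.W i o = c.W i o' →
    c.hi (i + 1) o ≤ c.lo (i + 1) o' →
    c.tau (c.hi (i + 1) o') - c.tau (c.lo (i + 1) o) ≤
      Λ * (c.tau (c.lo (i + 1) o') - c.tau (c.hi (i + 1) o))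

variable [Fintype Ω] (w : Ω → ℝ) (p : Ω → Pt)

/-- mass of the items with the same level `i` window and the same point -/
def mu (i : ℕ) (o : Ω) : ℝ := ms w (pr (c.W i) p) o
def gain (i j : ℕ) (o : Ω) : ℝ := lg (c.mu w p i o / c.mu w p j o)
/-- clean step to a child of posterior mass at least `T ^ (-2)` -/
def hv (i : ℕ) (o : Ω) : Prop := c.clean i o ∧ c.mu w p i o ≤ c.S ^ 4 * c.mu w p (i + 1) o
/-- `o'` is a partner of `o` at level `i` -/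
def prt (i : ℕ) (o o' : Ω) : Prop :=
  0 < w o' ∧ c.W i o' = c.W i o ∧ p o' = p o ∧ c.W (i + 1) o' ≠ c.W (i + 1) o ∧ c.hv w p i o'
/-- marked row -/
def mkd (i : ℕ) (o : Ω) : Prop := c.hv w p i o ∧ ∃ o', c.prt w p i o o'
/-- number of blocks of `g` levels, among the first `nb`, without a marked row -/
def unm (g nb : ℕ) (o : Ω) : ℕ :=
  #((range nb).filter fun j => ∀ i ∈ Ico (j * g) ((j + 1) * g), ¬ c.mkd w p i o)

end TT

/-! ## items of a run -/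

structure Geo (Ω : Type) where
  x : Run
  s : ℕ → ℕ
  atm : Ω → ℕ
  pt : Ω → Pt

namespace Geo
variable {Ω : Type} (G : Geo Ω)

def Ph (Y : Finset Pt) (i j : ℕ) : ℝ := (Cut.Phi G.x.U Y (G.s i) (G.s j) : ℝ)
def Psi (g : ℝ) (q : (ℕ × ℕ) × Finset Pt) : ℝ :=
  G.Ph q.2 q.1.1 q.1.2 * ((q.1.2 - q.1.1 : ℕ) : ℝ) ^ g

structure Ok (c : TT Ω) (L : ℕ) : Prop where
  mono : StrictMono G.s
  tau : ∀ j, c.tau j = G.x.t (G.s j)
  inj : ∀ o o', G.atm o = G.atm o' → G.pt o = G.pt o' → o = o'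
  mem : ∀ o, G.pt o ∈ Cut.Ch G.x.U G.x.X (G.s (G.atm o)) (G.s (G.atm o + 1))
  win : ∀ i ≤ L, ∀ o, c.lo i o ≤ G.atm o ∧ G.atm o < c.hi i o

/-- `Y` assigns to every item a cell of a partition of the points, one partition per window -/
def Node (c : TT Ω) (i : ℕ) (Y : Ω → Finset Pt) : Prop :=
  (∀ o, G.pt o ∈ Y o ∧ Y o ⊆ G.x.X) ∧ ∀ o o', c.W i o' = c.W i o → G.pt o' ∈ Y o → Y o' = Y o

end Geo

/-! ## labels of one macro step -/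

section lab
variable {Ω κ κ' : Type} [Fintype Ω]

/-- `o'` lies in the node of `o` and in `X'(l) ∪ X''(l)` -/
def XX (nd : Ω → κ) (lab : Ω → Option (ℕ × ℤ)) (par : ℕ × ℤ → Ω → Prop) (l : ℕ × ℤ) (o o' : Ω) :
    Prop := nd o' = nd o ∧ (lab o' = some l ∨ par l o')

/-- active labels of the nodes `nd`; `nd'` are the next nodes, `t0` the first time and `ln` the
length of the window of the node -/
structure LabOk (w a b t0 ln : Ω → ℝ) (S η : ℝ) (nd : Ω → κ) (nd' : Ω → κ')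
    (lab : Ω → Option (ℕ × ℤ)) (par : ℕ × ℤ → Ω → Prop) : Prop where
  idx : ∀ o l, lab o = some l → (l.1 : ℝ) < 2 * S ^ 2
  m1 : ∀ o l, 0 < w o → lab o = some l →
    η * ms w nd o ≤ tot (res w fun o' => nd o' = nd o ∧ lab o' = some l)
  m2 : ∀ o l, 0 < w o → lab o = some l →
    η * ms w nd o ≤ tot (res w fun o' => nd o' = nd o ∧ par l o')
  sep : ∀ o l o', lab o = some l → nd o' = nd o → par l o' → (2 : ℝ) ^ l.2 ≤ |a o - a o'|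
  ball : ∀ o l o1 o2, lab o = some l → XX nd lab par l o o1 → XX nd lab par l o o2 →
    |a o1 - a o2| ≤ 40 * (2 : ℝ) ^ l.2 ∧
      |(b o1 + t0 o * a o1) - (b o2 + t0 o * a o2)| ≤ 40 * ln o * (2 : ℝ) ^ l.2
  prog : ∀ o l o1 o2, lab o = some l → XX nd lab par l o o1 → nd' o2 = nd' o1 →
    |a o1 - a o2| ≤ (2 : ℝ) ^ (l.2 - 2)

end lab

/-! ## one window of the end game: `Gr` rows, then `m` macro steps of `U` levels -/

structure Loc (Ω : Type) extends TT Ω where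
  a : Ω → ℝ
  b : Ω → ℝ
  Y : ℕ → Ω → Finset Pt
  lab : ℕ → Ω → Option (ℕ × ℤ)
  par : ℕ → ℕ × ℤ → Ω → Prop
  U : ℕ
  Gr : ℕ
  m : ℕ

namespace Loc
variable {Ω : Type} (d : Loc Ω)

def p : Ω → Pt := pr d.a d.b
def lev (c : ℕ) : ℕ := d.Gr + c * d.U
def nd (c : ℕ) : Ω → (ℕ × ℕ) × Finset Pt := pr (d.W (d.lev c)) (d.Y c)
def X2 (c : ℕ) (l : ℕ × ℤ) (o o' : Ω) : Prop := XX (d.nd c) (d.lab c) (d.par c) l o o'

variable [Fintype Ω] (w : Ω → ℝ)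

structure Ok (Λ η : ℝ) : Prop where
  tt : d.toTT.Ok Λ (d.lev d.m)
  det0 : Det (pr (d.W 0) d.p) (d.Y 0)
  nest : ∀ c < d.m, Det (d.nd (c + 1)) (d.Y c)
  cells : ∀ c < d.m, ∀ o, 0 < w o →
    (#(vals w (d.Y (c + 1)) (pr (d.nd c) (d.W (d.lev (c + 1)))) o) : ℝ) ≤ d.S ^ (2 * d.U)
  lab : ∀ c < d.m, LabOk w d.a d.b (fun o => d.tau (d.lo (d.lev c) o)) (d.len (d.lev c)) d.S η
    (d.nd c) (d.nd (c + 1)) (d.lab c) (d.par c)

/-- all items of positive weight lie in one root node -/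
def Root : Prop := ∀ o o', 0 < w o → 0 < w o' → d.W 0 o = d.W 0 o' ∧ d.Y 0 o = d.Y 0 o'

/-- mass of the macro steps without an active label -/
def fail : ℝ := ∑ c ∈ range d.m, tot (res w fun o => d.lab c o = none)

end Loc

/-- periodic macro steps exist for every period `k0 * m * U` -/
def MacH {Ω : Type} [Fintype Ω] (c : TT Ω) (a b w : Ω → ℝ) (Λ η δ : ℝ) (U k0 L : ℕ) : Prop :=
  ∀ m n : ℕ, 1 ≤ m → n * (k0 * m * U) + m * U ≤ L →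
    ∃ (Y : ℕ → ℕ → Ω → Finset Pt) (lab : ℕ → ℕ → Ω → Option (ℕ × ℤ))
      (par : ℕ → ℕ → ℕ × ℤ → Ω → Prop),
      (∀ k < n, Loc.Ok ⟨c.shift (k * (k0 * m * U) + m * U), a, b, Y k, lab k, par k, U,
        (k0 - 1) * m * U, m⟩ w Λ η) ∧
      ∑ k ∈ range n, ∑ j ∈ range m, tot (res w fun o => lab k j o = none) ≤
        (δ * n * m + δ * L / (k0 * U)) * tot w

/-! ## rows: split count and pair index -/

structure Row (Ω : Type) where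
  /-- level at which the window after `r` splits is read off -/
  st : ℕ → Ω → ℕ
  /-- number of splits below level `i` -/
  cn : ℕ → Ω → ℕ
  tl : ℕ → ℕ × ℕ → Ω → ℕ
  tr : ℕ → ℕ × ℕ → Ω → ℕ

namespace Row
variable {Ω : Type} (R : Row Ω) (c : TT Ω)

def Wr (r : ℕ) : Ω → ℕ × ℕ := fun o => c.W (R.st r o) o
/-- row `r` is alive: the window after `r` splits is split again below level `Gr` -/
def al (Gr r : ℕ) (o : Ω) : Prop := c.thr Gr < c.N (R.st r o) o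
def tv (r : ℕ) (h : ℕ × ℕ) : Ω → (ℕ × ℕ) × ℕ × ℕ := fun o => (R.Wr c r o, R.tl r h o, R.tr r h o)
def lam (r : ℕ) (h : ℕ × ℕ) (o : Ω) : ℝ := c.tau (R.tr r h o) - c.tau (R.tl r h o)

structure Ok (w : Ω → ℝ) (Λ : ℝ) (Gr Hn : ℕ) : Prop where
  st_le : ∀ r o, R.st r o ≤ Gr
  st_mono : ∀ r o, R.st r o ≤ R.st (r + 1) o
  dead : ∀ r o, ¬ R.al c Gr r o → R.Wr c r o = c.W Gr o
  back : ∀ r o o' i, i ≤ R.st r o → R.Wr c r o' = R.Wr c r o → c.W i o' = c.W i o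
  det1 : ∀ r h, Det (R.Wr c (r + 1)) (R.tv c r h)
  det2 : ∀ r, Det (c.W Gr) (R.Wr c r)
  sub : ∀ r h o, (R.Wr c r o).1 ≤ R.tl r h o ∧ R.tl r h o ≤ (R.Wr c (r + 1) o).1 ∧
    (R.Wr c (r + 1) o).2 ≤ R.tr r h o ∧ R.tr r h o ≤ (R.Wr c r o).2
  al_mono : ∀ r o, R.al c Gr (r + 1) o → R.al c Gr r o
  half : ∀ r o, R.al c Gr (r + 1) o → 2 * c.lenW (R.Wr c (r + 1) o) ≤ c.lenW (R.Wr c r o)
  sep : ∀ r h o o', 0 < w o → 0 < w o' → R.tv c r h o' = R.tv c r h o →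
    R.Wr c (r + 1) o' ≠ R.Wr c (r + 1) o → ∀ s s' : ℝ,
    c.tau (R.Wr c (r + 1) o).1 ≤ s → s ≤ c.tau (R.Wr c (r + 1) o).2 →
    c.tau (R.Wr c (r + 1) o').1 ≤ s' → s' ≤ c.tau (R.Wr c (r + 1) o').2 →
    R.lam c r h o ≤ Λ * |s - s'|
  cn_spec : ∀ i < Gr, ∀ o, c.spl i o → R.al c Gr (R.cn i o) o ∧ R.Wr c (R.cn i o) o = c.W i o ∧
    R.Wr c (R.cn i o + 1) o = c.W (i + 1) o ∧ R.cn i o < Gr ∧
    ∀ k, min (i + 1 + k) Gr ≤ R.st (R.cn i o + 1 + k) o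
  cn_det : ∀ i < Gr, Det (c.W i) (R.cn i)
  cn_inj : ∀ i i' o, i < i' → i' < Gr → c.spl i o → R.cn i o < R.cn i' o
  pair : ∀ i < Gr, ∀ o o', 0 < w o → 0 < w o' → c.clean i o → c.clean i o' →
    c.W i o' = c.W i o → c.W (i + 1) o' ≠ c.W (i + 1) o →
    ∃ h ∈ range Hn ×ˢ range Hn, R.tv c (R.cn i o) h o' = R.tv c (R.cn i o) h o

end Row

/-! ## columns: branching cells of two dyadic grids -/

structure Col (Ω : Type) where
  ca : Bool × ℕ → Ω → Prop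
  k : Bool × ℕ → Ω → ℤ
  /-- left end of the descendant of depth `e` -/
  xl : Bool × ℕ → ℕ → Ω → ℝ
  sel : Bool × ℕ → Ω → Prop
  sc : Bool × ℕ → Ω → ℕ

namespace Col
variable {Ω : Type} (C : Col Ω)

def cv (x : Bool × ℕ) : Ω → Option (ℤ × ℝ) := fun o =>
  if C.ca x o then some (C.k x o, C.xl x 0 o) else none
def nsel (K0 : ℕ) (o : Ω) : ℕ := #(((univ : Finset Bool) ×ˢ range K0).filter fun x => C.sel x o)

structure Ok [Fintype Ω] (d : Loc Ω) (w : Ω → ℝ) (K0 : ℕ) (Bd : ℝ) : Prop where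
  inn : ∀ x e o, C.ca x o → C.xl x 0 o ≤ C.xl x e o ∧ C.xl x e o ≤ d.a o ∧
    d.a o < C.xl x e o + (2 : ℝ) ^ (C.k x o - e)
  card : ∀ x e o, C.ca x o → #(vals w (C.xl x e) (C.cv x) o) ≤ 2 ^ e
  chain : ∀ Γ κ s o, C.ca (Γ, κ + s) o → C.ca (Γ, κ) o ∧ C.k (Γ, κ + s) o + s ≤ C.k (Γ, κ) o
  chain2 : ∀ Γ κ s e o o', C.ca (Γ, κ + s) o → C.cv (Γ, κ + s) o' = C.cv (Γ, κ + s) o → e ≤ s →
    C.cv (Γ, κ) o' = C.cv (Γ, κ) o ∧ C.xl (Γ, κ) e o' = C.xl (Γ, κ) e o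
  det : ∀ x e o o', d.a o' = d.a o → C.cv x o' = C.cv x o ∧ C.xl x e o' = C.xl x e o
  sel : ∀ x o, C.sel x o → C.sc x o < d.m ∧ C.ca x o ∧ ∃ l, d.lab (C.sc x o) o = some l ∧
    C.k x o = l.2 + 7 ∧ ∀ o', d.X2 (C.sc x o) l o o' → C.cv x o' = C.cv x o
  cnt : ∀ o, C.nsel K0 o ≤ d.m
  mass : E w (fun o => (d.m : ℝ) - C.nsel K0 o) ≤ Bd

end Col

/-! ## cells -/

/-- everything that defines the cells of one window -/
structure Arr (Ω : Type) where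
  d : Loc Ω
  R : Row Ω
  C : Col Ω
  P : ℝ
  g0 : ℕ
  sig : ℝ

/-- `v` is within `r0` of an integer -/
def Str (r0 v : ℝ) : Prop := ∃ z : ℤ, |v - z| ≤ r0

namespace Arr
variable {Ω : Type} (A : Arr Ω) (r : ℕ) (h : ℕ × ℕ) (x : Bool × ℕ)

def al (o : Ω) : Prop := A.R.al A.d.toTT A.d.Gr r o
def tv : Ω → (ℕ × ℕ) × ℕ × ℕ := A.R.tv A.d.toTT r h
def ch : Ω → ℕ × ℕ := A.R.Wr A.d.toTT (r + 1)
def live (o : Ω) : Prop := A.al r o ∧ A.C.ca x o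
def unit (o : Ω) : ℝ := A.R.lam A.d.toTT r h o * (2 : ℝ) ^ A.C.k x o
def AA : Ω → ℕ × ℕ := A.R.Wr A.d.toTT (r + 1 + A.g0)
def BB : Ω → ℝ := fun o => if A.C.ca x o then A.C.xl x A.g0 o else 0
def Vp (o : Ω) : ℝ := A.d.b o + A.d.tau (A.R.tl r h o) * (A.d.a o - A.C.xl x 0 o)
def Vl (o : Ω) : ℝ := A.d.b o + A.d.tau (A.AA r o).1 * (A.d.a o - A.C.xl x 0 o)
/-- the three scaled heights, without the offset -/
def vc (o : Ω) : ℝ := A.Vp r h x o / (A.unit r h x o * A.P)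
def vp (o : Ω) : ℝ := A.Vp r h x o / (A.unit r h x o / A.P)
def vl (o : Ω) : ℝ := A.Vl r x o / (A.unit r h x o / A.P)
def Yc : Ω → ℤ := fun o => if A.live r x o then ⌊A.vc r h x o + A.sig⌋ else 0
def Yp : Ω → ℤ := fun o => if A.live r x o then ⌊A.vp r h x o + A.sig⌋ else 0
def Yl : Ω → ℤ := fun o => if A.live r x o then ⌊A.vl r h x o + A.sig⌋ else 0
def OO : Ω → ((ℕ × ℕ) × ℕ × ℕ) × Option (ℤ × ℝ) × ℤ × Option Pt := fun o =>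
  (A.tv r h o, A.C.cv x o, A.Yc r h x o, if A.live r x o then none else some (A.d.p o))
def GG := pr (A.OO r h x) (pr (A.AA r) (A.BB x))

variable [Fintype Ω] (w : Ω → ℝ)

def d1 : ℝ := I w (A.AA r) (pr (A.BB x) (A.Yp r h x)) (A.OO r h x)
def d2 : ℝ := I w (A.BB x) (pr (A.AA r) (A.Yl r h x)) (A.OO r h x)
/-- straddle masses -/
def sC (r0 : ℝ) : ℝ := tot (res w fun o => Str r0 (A.vc r h x o + A.sig))
def sP (r0 : ℝ) : ℝ := tot (res w fun o => Str r0 (A.vp r h x o + A.sig))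
def sL (r0 : ℝ) : ℝ := tot (res w fun o => Str r0 (A.vl r h x o + A.sig))
def tA (e : ℝ) (o : Ω) : Prop := e * ms w (A.OO r h x) o ≤
  tot (res w fun o' => A.OO r h x o' = A.OO r h x o ∧ A.ch r o' ≠ A.ch r o)
def xA (e : ℝ) (o : Ω) : Prop := e * ms w (A.OO r h x) o ≤
  tot (res w fun o' => A.OO r h x o' = A.OO r h x o ∧
    (2 : ℝ) ^ (A.C.k x o - 9) ≤ |A.d.a o' - A.d.a o|)
/-- row `r` is marked and `h` names its pair -/
def mkc (o : Ω) : Prop := ∃ i < A.d.Gr, A.R.cn i o = r ∧ A.d.hv w A.d.p i o ∧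
  ∃ o', A.d.prt w A.d.p i o o' ∧ A.tv r h o' = A.tv r h o
/-- saturated cell -/
def sat (Λ : ℝ) (Jb : ℕ) (τ0 : ℝ) (o : Ω) : Prop := ∃ D : ℤ, A.P ≤ 2048 * Λ * |(D : ℝ)| ∧
  |(D : ℝ)| ≤ A.P + 2 ∧
  Dens.Near (Dens.sm Jb fun z => lw w (A.Yp r h x) (A.GG r h x) o z)
    (Dens.shift (Dens.sm Jb fun z => lw w (A.Yp r h x) (A.GG r h x) o z) D) τ0

/-- height at the start of block `j` -/
def YB (g j : ℕ) : Ω → ℤ := fun o => if A.C.ca x o then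
  ⌊(A.d.b o + A.d.tau (A.d.lo (j * g) o) * (A.d.a o - A.BB x o)) /
    (A.d.len (j * g) o * (2 : ℝ) ^ A.C.k x o)⌋ else 0
def FF (g j : ℕ) : Ω → (ℕ × ℕ) × Option (ℤ × ℝ) × ℝ × ℤ := fun o =>
  (A.d.W (j * g) o, A.C.cv x o, A.BB x o, A.YB x g j o)
/-- the metric code length of the first `nb` blocks -/
def code (g nb : ℕ) (o : Ω) : ℝ := ∑ j ∈ range nb,
  min (lg (A.d.len (j * g) o / A.d.len ((j + 1) * g) o)) (2 * g * lg A.d.S)

structure Ok (Λ η : ℝ) (Hn K0 : ℕ) (Bd : ℝ) : Prop where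
  nn : Nn w
  one : 1 ≤ Λ
  eta : 0 < η ∧ η ≤ 1
  d : A.d.Ok w Λ η
  R : A.R.Ok A.d.toTT w Λ A.d.Gr Hn
  C : A.C.Ok A.d w K0 Bd

/-- the numerical side conditions -/
structure Num (Λ r0 : ℝ) (s Jb : ℕ) : Prop where
  r0_pos : 0 < r0
  r0_le : r0 ≤ 1 / 2
  P1 : 2 ≤ r0 * A.P
  P2 : 4096 * Λ ≤ A.P
  P3 : (Jb : ℝ) ≤ A.P
  Jb : 1 ≤ Jb
  g1 : 10 ≤ A.g0
  g2 : 2 * A.P ≤ r0 * 2 ^ A.g0
  s1 : A.g0 + 1 ≤ s
  s2 : 4 * A.P ^ 2 ≤ r0 * 2 ^ s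

end Arr

end

end Pool.Agent.Lib.MP_d308c3_co.K
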