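import Pool.Agent.Lib.MP_108739_an.F.Ent1
import Pool.Agent.Lib.MP_d308c3_co.K.Defs

/-! Restriction of a window to the fibres of its root node. -/

set_option autoImplicit false

namespace Pool.Agent.Lib.MP_d308c3_co.K

open Finset Pool.Agent.Lib.MP_108739_an.F
open scoped Classical

namespace Fib

variable {Ω : Type}

theorem W_step {c : TT Ω} {Λ : ℝ} {L : ℕ} (h : c.Ok Λ L) {i : ℕ} (hi : i < L) :
    Det (c.W (i + 1)) (c.W i) := fun o o' e => by
  have e1 : c.lo (i + 1) o = c.lo (i + 1) o' := congrArg Prod.fst e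
  have e2 : c.hi (i + 1) o = c.hi (i + 1) o' := congrArg Prod.snd e
  have a := h.nest i hi o
  have b := h.nest i hi o'
  have l := h.lt (i + 1) hi o
  rcases h.lami i hi.le o o' with r | r | r
  · exact r
  · omega
  · omega

theorem W_det {c : TT Ω} {Λ : ℝ} {L : ℕ} (h : c.Ok Λ L) {i j : ℕ} (hij : i ≤ j) (hj : j ≤ L) :
    Det (c.W j) (c.W i) := by
  induction j, hij using Nat.le_induction with
  | base => exact Det.rfl
  | succ j _ ih => exact (W_step h hj).trans (ih (by omega))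

/-- the root node -/
def rt (d : Loc Ω) : Ω → (ℕ × ℕ) × Finset Pt := pr (d.W 0) (d.Y 0)

theorem lev_mono (d : Loc Ω) {c c' : ℕ} (h : c ≤ c') : d.lev c ≤ d.lev c' :=
  Nat.add_le_add_left (Nat.mul_le_mul_right _ h) _

variable [Fintype Ω] {w : Ω → ℝ} {d : Loc Ω} {Λ η : ℝ}

theorem nd_step (h : d.Ok w Λ η) {c : ℕ} (hc : c < d.m) : Det (d.nd (c + 1)) (d.nd c) :=
  Det.pr (Det.fst.trans (W_det h.tt (lev_mono d (Nat.le_succ c)) (lev_mono d hc))) (h.nest c hc)

theorem nd_det (h : d.Ok w Λ η) {c c' : ℕ} (hc : c ≤ c') (hc' : c' ≤ d.m) :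
    Det (d.nd c') (d.nd c) := by
  induction c', hc using Nat.le_induction with
  | base => exact Det.rfl
  | succ j _ ih => exact (nd_step h hc').trans (ih (by omega))

theorem nd_rt (h : d.Ok w Λ η) {c : ℕ} (hc : c ≤ d.m) : Det (d.nd c) (rt d) :=
  (nd_det h (Nat.zero_le c) hc).trans
    (Det.pr (Det.fst.trans (W_det h.tt (Nat.zero_le _) (lev_mono d (Nat.zero_le _)))) Det.snd)

theorem wp_rt (h : d.Ok w Λ η) {i : ℕ} (hi : i ≤ d.lev d.m) : Det (pr (d.W i) d.p) (rt d) :=
  have a : Det (pr (d.W i) d.p) (d.W 0) := Det.fst.trans (W_det h.tt (Nat.zero_le _) hi)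
  Det.pr a ((Det.pr a Det.snd).trans h.det0)

theorem ms_fib {α β : Type} {f : Ω → α} {r : Ω → β} (h : Det f r) {v : β} {o : Ω} (ho : r o = v) :
    ms (res w fun o => r o = v) f o = ms w f o :=
  ms_res_det (fun _ _ e => by rw [h _ _ e]) ho

theorem tot_fib {α β : Type} {f : Ω → α} {r : Ω → β} (h : Det f r) {v : β} {o : Ω} (ho : r o = v)
    (A : Ω → Prop) : tot (res (res w fun o => r o = v) fun o' => f o' = f o ∧ A o') =
      tot (res w fun o' => f o' = f o ∧ A o') := by
  rw [res_res]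
  exact congrArg tot (res_congr fun o' => ⟨fun a => a.2, fun a => ⟨(h _ _ a.1).trans ho, a⟩⟩)

theorem ok_res (h : d.Ok w Λ η) (v : (ℕ × ℕ) × Finset Pt) :
    d.Ok (res w fun o => rt d o = v) Λ η where
  tt := h.tt
  det0 := h.det0
  nest := h.nest
  cells c hc o ho := le_trans (Nat.cast_le.2 (card_le_card fun y hy => by
    obtain ⟨o', h1, h2, h3⟩ := mem_vals.1 hy
    exact mem_vals.2 ⟨o', (res_pos h1).2, h2, h3⟩)) (h.cells c hc o (res_pos ho).2)
  lab c hc :=
    { idx := (h.lab c hc).idx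
      m1 := fun o l ho hl => by
        rw [ms_fib (nd_rt h hc.le) (res_pos ho).1, tot_fib (nd_rt h hc.le) (res_pos ho).1]
        exact (h.lab c hc).m1 o l (res_pos ho).2 hl
      m2 := fun o l ho hl => by
        rw [ms_fib (nd_rt h hc.le) (res_pos ho).1, tot_fib (nd_rt h hc.le) (res_pos ho).1]
        exact (h.lab c hc).m2 o l (res_pos ho).2 hl
      sep := (h.lab c hc).sep
      ball := (h.lab c hc).ball
      prog := (h.lab c hc).prog }

theorem root_res (v : (ℕ × ℕ) × Finset Pt) : d.Root (res w fun o => rt d o = v) :=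
  fun _ _ ho ho' =>
    have e := (res_pos ho).1.trans (res_pos ho').1.symm
    ⟨congrArg Prod.fst e, congrArg Prod.snd e⟩

theorem mu_res (h : d.Ok w Λ η) {v : (ℕ × ℕ) × Finset Pt} {i : ℕ} (hi : i ≤ d.lev d.m) {o : Ω}
    (ho : rt d o = v) : d.mu (res w fun o => rt d o = v) d.p i o = d.mu w d.p i o :=
  ms_fib (wp_rt h hi) ho

theorem hv_res (h : d.Ok w Λ η) {v : (ℕ × ℕ) × Finset Pt} {i : ℕ} (hi : i < d.lev d.m) {o : Ω}
    (ho : rt d o = v) : d.hv (res w fun o => rt d o = v) d.p i o ↔ d.hv w d.p i o := by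
  unfold TT.hv
  rw [mu_res h hi.le ho, mu_res h hi ho]

theorem mkd_res (h : d.Ok w Λ η) {v : (ℕ × ℕ) × Finset Pt} {i : ℕ} (hi : i < d.lev d.m) {o : Ω}
    (ho : rt d o = v) : d.mkd (res w fun o => rt d o = v) d.p i o ↔ d.mkd w d.p i o := by
  unfold TT.mkd
  rw [hv_res h hi ho]
  refine and_congr_right fun _ => exists_congr fun o' => ?_
  unfold TT.prt
  have key : d.W i o' = d.W i o → d.p o' = d.p o → rt d o' = v := fun a b =>
    (wp_rt h hi.le o' o (Prod.ext a b)).trans ho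
  constructor
  · rintro ⟨a, b, c, e, f⟩
    exact ⟨(res_pos a).2, b, c, e, (hv_res h hi (key b c)).1 f⟩
  · rintro ⟨a, b, c, e, f⟩
    refine ⟨?_, b, c, e, (hv_res h hi (key b c)).2 f⟩
    simpa [res, key b c] using a

theorem unm_res (h : d.Ok w Λ η) {v : (ℕ × ℕ) × Finset Pt} {g nb : ℕ} (hn : nb * g ≤ d.lev d.m)
    {o : Ω} (ho : rt d o = v) :
    d.unm (res w fun o => rt d o = v) d.p g nb o = d.unm w d.p g nb o := by
  unfold TT.unm
  refine congrArg card ?_
  ext j
  simp only [mem_filter]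
  refine and_congr_right fun hj => forall₂_congr fun i hi => not_congr ?_
  have a := (mem_Ico.1 hi).2
  have b : (j + 1) * g ≤ nb * g := Nat.mul_le_mul_right g (mem_range.1 hj)
  exact mkd_res h (by omega) ho

/-- a bound that is linear in the weight passes from single roots to all roots -/
theorem of_roots (hw : Nn w) (h : d.Ok w Λ η) {g nb i : ℕ} (hn : nb * g ≤ d.lev d.m)
    (hi : i ≤ d.lev d.m) (β c1 c2 c3 : ℝ) (F : Ω → ℝ)
    (H : ∀ w' : Ω → ℝ, Nn w' → d.Ok w' Λ η → d.Root w' →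
      E w' (fun o => max 0 (d.gain w' d.p 0 i o - β * d.unm w' d.p g nb o)) ≤
        c1 * tot w' + c2 * E w' F + c3 * d.fail w') :
    E w (fun o => max 0 (d.gain w d.p 0 i o - β * d.unm w d.p g nb o)) ≤
      c1 * tot w + c2 * E w F + c3 * d.fail w := by
  have hT : ∀ o, rt d o ∈ univ.image (rt d) := fun o => mem_image_of_mem _ (mem_univ o)
  have hf : d.fail w = ∑ v ∈ univ.image (rt d), d.fail (res w fun o => rt d o = v) := by
    unfold Loc.fail
    rw [sum_comm]
    refine sum_congr rfl fun c _ => ?_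
    rw [tot_split hT]
    refine sum_congr rfl fun v _ => ?_
    rw [res_res, res_res]
    exact congrArg tot (res_congr fun o => and_comm)
  rw [E_split hT, tot_split hT, E_split hT F, hf, mul_sum, mul_sum, mul_sum, ← sum_add_distrib,
    ← sum_add_distrib]
  refine sum_le_sum fun v _ => le_trans (le_of_eq ?_)
    (H _ (hw.res _) (ok_res h v) (root_res v))
  refine E_congr (hw.res _) fun o ho => ?_
  have e := (res_pos ho).1
  unfold TT.gain
  rw [mu_res h (Nat.zero_le _) e, mu_res h hi e, unm_res h hn e]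

end Fib

end Pool.Agent.Lib.MP_d308c3_co.K
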