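import Pool.Agent.Lib.MP_d308c3_co.K.Defs
import Pool.Agent.Lib.MP_d308c3_co.Top

/-! The statements of the pieces of the proof, one `Prop` each, and their composition. -/

namespace Pool.Agent.Lib.MP_d308c3_co.K

open Finset Pool.Agent.Lib.MP_108739_an.F
open scoped Classical

noncomputable section

/-- counting weight -/
def one (Ω : Type) : Ω → ℝ := fun _ => 1

/-- the power bound for all subsets of the point set of a run -/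
def Run.PWs (x : Run) (g C : ℝ) : Prop :=
  ∀ Z ⊆ x.X, Ex.PW (fun i j => (Cut.Phi x.U Z i j : ℝ)) g C

/-! ## time tree -/

/-- A sec 4: the time tree exists -/
def TTSt : Prop :=
  ∀ γ ε C0 Clt : ℝ, 0 < γ → γ ≤ 1 → 0 < ε → ε ≤ 1 → 1 ≤ C0 → 1 ≤ Clt → ∀ Lt : ℕ, 1 ≤ Lt →
  ∃ C3 : ℝ, 0 ≤ C3 ∧ ∀ S : ℝ, 2 ≤ S → ∀ (M L : ℕ) (τ : ℕ → ℝ) (F : ℕ → ℕ → ℝ) (Ω : Type)
    [Fintype Ω] (atm : Ω → ℕ), StrictMono τ → (S ^ 2) ^ (L + 1) ≤ M → (∀ i j, 0 ≤ F i j) →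
    (∀ i j i' j', i ≤ i' → j' ≤ j → F i' j' ≤ F i j) → Ex.PW F (γ + ε) C0 →
    LtW F τ (γ / 2) Clt → (∀ o, atm o < M) →
    (∀ x, tot (res (one Ω) fun o => atm o = x) ≤ F x (x + 1)) →
    (M : ℝ) ^ (γ - ε) * F 0 M ≤ tot (one Ω) → 0 < tot (one Ω) →
    ∃ c : TT Ω, c.tau = τ ∧ c.th = M ∧ c.S = S ∧ (∀ o, c.W 0 o = (0, M)) ∧
      (∀ i ≤ L, ∀ o, c.lo i o ≤ atm o ∧ atm o < c.hi i o) ∧ c.Ok (96 * Lt) L ∧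
      (∀ i < L, tot (res (one Ω) (c.slot i)) ≤ 2 / Lt * tot (one Ω)) ∧
      E (one Ω) (c.ovs L) ≤ 4 / γ * (3 * ε * lg M + C3 * (L + 1)) * tot (one Ω)

/-- levels that are not good are paid by overshoots -/
def NGSt : Prop :=
  ∀ (Ω : Type) (c : TT Ω) (Λ : ℝ) (L : ℕ) (o : Ω), c.Ok Λ L → c.good 0 o →
    (#((range (L + 1)).filter fun i => ¬ c.good i o) : ℝ) * lg c.S ≤ c.ovs L o

/-- D sec 0 (G3): gain on an event, and entropy of the windows -/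
def G3St : Prop :=
  ∀ (Ω : Type) [Fintype Ω] (c : TT Ω) (w : Ω → ℝ) (Λ : ℝ) (L i j : ℕ), Nn w → c.Ok Λ L →
    i ≤ j → j ≤ L →
    (∀ (p : Ω → Pt) (F : Ω → Prop), E (res w F) (c.gain w p i j) ≤
      ((j - i : ℕ) : ℝ) * (2 * lg c.S) * tot (res w F) +
        E (res w F) (fun o => ∑ k ∈ Ico i j, c.ov k o) + tot w) ∧
    H w (c.W j) (c.W i) ≤
      ((j - i : ℕ) : ℝ) * (2 * lg c.S) * tot w + E w (fun o => ∑ k ∈ Ico i j, c.ov k o)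

/-- D sec 0 (G1): the rows that are not marked gain little -/
def G1P : Prop :=
  ∀ (Ω : Type) [Fintype Ω] (c : TT Ω) (w : Ω → ℝ) (p : Ω → Pt) (Λ : ℝ) (L : ℕ), Nn w →
    c.Ok Λ L → (∀ o, c.good 0 o) →
    E w (fun o => ∑ i ∈ range L, if c.mkd w p i o then 0 else c.gain w p i (i + 1) o) ≤
      5 * E w (c.ovs L) + 2 * lg c.S * ∑ i ∈ range L, tot (res w (c.slot i)) + 6 * L * tot w

def G1St : Prop := NGSt → G3St → G1P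

/-! ## macro steps -/

/-- A sec 5, 6: one macro step of `U` levels for all nodes of level `i` -/
def StepSt : Prop :=
  ∀ γ : ℝ, 0 < γ → γ ≤ 1 → ∃ cu : ℝ, ∀ Λ : ℝ, 1 ≤ Λ → ∃ u U : ℕ, 1 ≤ u ∧ u ≤ U ∧
  (u : ℝ) ≤ cu * √Λ ∧ ∀ ε C0 : ℝ, 0 < ε → ε ≤ 1 → 1 ≤ C0 → ∃ Ct S0 : ℝ, 1 ≤ Ct ∧
  ∀ S : ℝ, S0 ≤ S → ∃ η : ℝ, 0 < η ∧ η ≤ 1 ∧
  ∀ (Ω : Type) [Fintype Ω] (c : TT Ω) (G : Geo Ω) (L i : ℕ) (Y : Ω → Finset Pt), c.S = S →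
    c.Ok Λ L → G.Ok c L → G.x.PWs (γ + ε) C0 → i + U ≤ L → G.Node c i Y →
    ∃ (Y' : Ω → Finset Pt) (lab : Ω → Option (ℕ × ℤ)) (par : ℕ × ℤ → Ω → Prop) (bad : Ω → Prop),
      G.Node c (i + U) Y' ∧ (∀ o, Y' o ⊆ Y o) ∧
      (∀ o, (#(vals (one Ω) Y' (pr (pr (c.W i) Y) (c.W (i + U))) o) : ℝ) ≤ S ^ (2 * U)) ∧
      LabOk (one Ω) (fun o => (G.pt o).1) (fun o => (G.pt o).2) (fun o => c.tau (c.lo i o))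
        (c.len i) S η (pr (c.W i) Y) (pr (c.W (i + U)) Y') lab par ∧
      Det (pr (c.W (i + U)) Y') bad ∧
      (∀ o, ∑ q ∈ vals (one Ω) (pr (c.W (i + U)) Y') (pr (c.W i) Y) o, G.Psi (γ + 2 * ε) q ≤
        Ct * G.Psi (γ + 2 * ε) (pr (c.W i) Y o)) ∧
      (∀ o, ∑ q ∈ vals (res (one Ω) bad) (pr (c.W (i + U)) Y') (pr (c.W i) Y) o,
        G.Psi (γ + 2 * ε) q ≤ S ^ (-(γ / 2)) * G.Psi (γ + 2 * ε) (pr (c.W i) Y o)) ∧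
      tot (res (one Ω) fun o => lab o = none) ≤
        tot (res (one Ω) fun o => ∃ k ∈ Ico i (i + u), ¬ c.clean k o) +
          3 * tot (res (one Ω) bad) + 10 / S * tot (one Ω)

/-- D sec 1: the macro tree -/
def MacP : Prop :=
  ∀ γ δ : ℝ, 0 < γ → γ ≤ 1 → 0 < δ → ∀ k0 : ℕ, 2 ≤ k0 → ∃ (Lt U : ℕ) (δ' ε0 : ℝ), 1 ≤ Lt ∧
  2 / (Lt : ℝ) ≤ δ ∧ 1 ≤ U ∧ 0 < δ' ∧ 0 < ε0 ∧ ∀ ε C0 : ℝ, 0 < ε → ε ≤ ε0 → 1 ≤ C0 →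
  ∃ S0 : ℝ, ∀ S : ℝ, S0 ≤ S → ∃ η : ℝ, 0 < η ∧ η ≤ 1 ∧
  ∀ (Ω : Type) [Fintype Ω] (c : TT Ω) (G : Geo Ω) (L M : ℕ), c.S = S → c.th = M →
    (M : ℝ) ≤ (S ^ 2) ^ (L + 2) → c.Ok (96 * Lt) L → G.Ok c L → (∀ o, c.W 0 o = (0, M)) →
    G.x.PWs (γ + ε) C0 → (M : ℝ) ^ (γ - ε) * G.Ph G.x.X 0 M ≤ tot (one Ω) →
    E (one Ω) (c.ovs L) ≤ δ' * L * lg S * tot (one Ω) →
    (∀ i < L, tot (res (one Ω) (c.slot i)) ≤ 2 / Lt * tot (one Ω)) →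
    MacH c (fun o => (G.pt o).1) (fun o => (G.pt o).2) (one Ω) (96 * Lt) η δ U k0 L

def MacSt : Prop := StepSt → NGSt → MacP

/-! ## rows and columns of one window -/

def RowSt : Prop :=
  ∀ (Ω : Type) (c : TT Ω) (w : Ω → ℝ) (Λ : ℝ) (L Gr Hn : ℕ), Finite Ω → c.Ok Λ L → Gr ≤ L →
    c.S ^ 3 ≤ Hn → ∃ R : Row Ω, R.Ok c w Λ Gr Hn

/-- the scales of the labels that see one item decrease strictly -/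
def UniqSt : Prop :=
  ∀ (Ω : Type) [Fintype Ω] (d : Loc Ω) (w : Ω → ℝ) (Λ η : ℝ), Nn w → 0 < η → d.Ok w Λ η →
    ∀ (c c' : ℕ) (l l' : ℕ × ℤ) (o1 o2 o : Ω), c < c' → c' < d.m → 0 < w o2 →
    d.lab c o1 = some l → d.X2 c l o1 o → d.lab c' o2 = some l' → d.X2 c' l' o2 o → l'.2 < l.2

/-- code length of the nodes -/
def HndP : Prop :=
  ∀ (Ω : Type) [Fintype Ω] (d : Loc Ω) (w : Ω → ℝ) (Λ η : ℝ) (F : Ω → Prop), Nn w →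
    d.Ok w Λ η → (∀ c ≤ d.m, Det (d.nd d.m) (d.nd c)) ∧
    H (res w F) (d.nd d.m) (d.nd 0) ≤ 4 * d.m * d.U * lg d.S * tot (res w F) +
      E (res w F) (fun o => ∑ k ∈ Ico d.Gr (d.lev d.m), d.ov k o)

def HndSt : Prop := G3St → HndP

/-- D sec 2 -/
def ColP : Prop :=
  ∀ (Ω : Type) [Fintype Ω] (d : Loc Ω) (w : Ω → ℝ) (Λ η η' : ℝ) (K0 : ℕ), Nn w → 0 < η →
    η ≤ 1 → 0 < η' → η' ≤ 1 / 2 → 1 ≤ K0 → d.Ok w Λ η →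
    ∃ C : Col Ω, C.Ok d w K0 (d.fail w + (50 * d.S ^ 2 / (η * lg (1 / η')) +
      20 * d.m / (η' * K0)) * (H w (d.nd d.m) un + 3 * tot w))

def ColSt : Prop := UniqSt → ColP

/-! ## cells (D sec 3) -/

def Tel1St : Prop :=
  ∀ (Ω : Type) [Fintype Ω] (A : Arr Ω) (w : Ω → ℝ) (Λ η Bd r0 : ℝ) (Hn K0 s Jb : ℕ),
    A.Ok w Λ η Hn K0 Bd → A.Num Λ r0 s Jb → ∀ (r : ℕ) (h : ℕ × ℕ) (Γ : Bool),
    ∑ κ ∈ range K0, A.d1 r h (Γ, κ) w ≤ s * H w (A.AA r) (A.tv r h) +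
      ∑ κ ∈ range K0, (A.sC r h (Γ, κ) w r0 + A.sP r h (Γ, κ) w r0)

def Tel1bSt : Prop :=
  ∀ (Ω : Type) [Fintype Ω] (A : Arr Ω) (w : Ω → ℝ) (Λ η Bd : ℝ) (Hn K0 : ℕ),
    A.Ok w Λ η Hn K0 Bd → ∀ h : ℕ × ℕ,
    ∑ r ∈ range A.d.Gr, H w (A.AA r) (A.tv r h) ≤ (A.g0 + 1) * H w (A.d.W A.d.Gr) un

def Tel2St : Prop :=
  ∀ (Ω : Type) [Fintype Ω] (A : Arr Ω) (w : Ω → ℝ) (Λ η Bd r0 : ℝ) (Hn K0 s Jb : ℕ),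
    A.Ok w Λ η Hn K0 Bd → A.Num Λ r0 s Jb → ∀ (h : ℕ × ℕ) (x : Bool × ℕ),
    ∑ r ∈ range A.d.Gr, A.d2 r h x w ≤ s * A.g0 * tot w +
      ∑ r ∈ range A.d.Gr, (A.sC r h x w r0 + A.sL r h x w r0)

def ActTSt : Prop :=
  ∀ (Ω : Type) [Fintype Ω] (A : Arr Ω) (w : Ω → ℝ) (Λ η Bd e : ℝ) (Hn K0 : ℕ),
    A.Ok w Λ η Hn K0 Bd → 0 ≤ e → e ≤ 1 / 2 → ∀ (r : ℕ) (h : ℕ × ℕ) (x : Bool × ℕ),
    tot (res w fun o => A.mkc r h w o ∧ A.C.ca x o ∧ ¬ A.tA r h x w e o) ≤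
      e * A.d.S ^ 4 * tot w

def ActXP : Prop :=
  ∀ (Ω : Type) [Fintype Ω] (A : Arr Ω) (w : Ω → ℝ) (Λ η Bd r0 e : ℝ) (Hn K0 s Jb : ℕ),
    A.Ok w Λ η Hn K0 Bd → A.Num Λ r0 s Jb → 0 ≤ e → ∀ (r : ℕ) (h : ℕ × ℕ) (x : Bool × ℕ),
    tot (res w fun o => A.C.sel x o ∧ A.al r o ∧ ¬ Str r0 (A.vc r h x o + A.sig) ∧
      ¬ A.xA r h x w e o) ≤ 3 * A.d.S ^ 2 / η * e * tot w

def ActXSt : Prop := UniqSt → ActXP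

def RectSt : Prop :=
  ∀ (Ω : Type) [Fintype Ω] (A : Arr Ω) (w : Ω → ℝ) (Λ η Bd r0 e τ0 : ℝ) (Hn K0 s Jb : ℕ),
    A.Ok w Λ η Hn K0 Bd → A.Num Λ r0 s Jb → 0 ≤ e → 0 ≤ τ0 →
    ∀ (r : ℕ) (h : ℕ × ℕ) (x : Bool × ℕ),
    τ0 * e * e * tot (res w fun o => A.live r x o ∧ A.tA r h x w e o ∧ A.xA r h x w e o ∧
      ¬ A.sat r h x w Λ Jb τ0 o) ≤
      24 * (√(tot w * A.d1 r h x w) + √(tot w * A.d2 r h x w)) + 16 / Jb * tot w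

/-! ## the column path (D sec 4) and one window -/

def PathP : Prop :=
  ∀ (Ω : Type) [Fintype Ω] (A : Arr Ω) (w : Ω → ℝ) (Λ η Bd r0 τ0 : ℝ) (Hn K0 s Jb g nb : ℕ),
    A.Ok w Λ η Hn K0 Bd → A.Num Λ r0 s Jb → A.d.Root w → 0 ≤ τ0 → 1 ≤ g → g ≤ A.g0 →
    A.d.Gr = nb * g → ∀ (x : Bool × ℕ) (Ev : Ω → Prop), (∀ o, Ev o → A.C.sel x o) →
    E (res w Ev) (fun o => A.d.gain w A.d.p 0 A.d.Gr o -
        2 * g * lg A.d.S * (1 + A.d.unm w A.d.p g nb o)) ≤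
      E (res w Ev) (A.d.ovs (A.d.lev A.d.m)) +
      (100 * nb + 10 + lg A.d.m + lg (1 / η) + 4 * A.d.m * A.d.U * lg A.d.S) * tot (res w Ev) +
      (10 + 10 * nb * lg (2 * g * Hn ^ 2 + 2)) * tot w +
      2 * g * lg A.d.S * ∑ r ∈ range A.d.Gr, ∑ h ∈ range Hn ×ˢ range Hn,
        (tot (res w fun o => Ev o ∧ A.mkc r h w o ∧ ¬ A.sat r h x w Λ Jb τ0 o) +
          20000 * A.d.S ^ (6 * g) * Λ * τ0 * tot w)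

def PathSt : Prop := G3St → HndP → PathP

/-- the window lemma; with `rt = true` only for weights carried by one root node -/
def LocP (rt : Bool) : Prop :=
  ∀ (δ Λ S η : ℝ) (U k0 : ℕ), 0 < δ → 1 ≤ Λ → 2 ≤ S → 0 < η → η ≤ 1 → 1 ≤ U → 2 ≤ k0 →
  ∃ g1 : ℕ, 1 ≤ g1 ∧ ∀ g : ℕ, g1 ≤ g → ∃ m : ℕ, 1 ≤ m ∧ g ∣ m ∧
  ∀ (Ω : Type) [Fintype Ω] (d : Loc Ω) (w : Ω → ℝ), Nn w → d.S = S → d.U = U → d.m = m →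
    d.Gr = (k0 - 1) * m * U → d.Ok w Λ η → (rt = true → d.Root w) →
    E w (fun o => max 0 (d.gain w d.p 0 d.Gr o -
        2 * g * lg S * d.unm w d.p g (d.Gr / g) o)) ≤
      (10 / k0 + δ) * (k0 * m * U * (2 * lg S)) * tot w + 10 * E w (d.ovs (d.lev d.m)) +
        10 * (k0 * U * (2 * lg S)) * d.fail w

def LocSt : Prop :=
  G3St → HndP → RowSt → ColP → Tel1St → Tel1bSt → Tel2St → ActTSt → ActXP → RectSt → PathP →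
    LocP true

def LocGSt : Prop := LocP true → LocP false

/-! ## the end (D sec 5) and the top -/

def EndP : Prop :=
  ∀ γ : ℝ, 0 < γ → γ ≤ 1 → ∃ (δ : ℝ) (k0 : ℕ), 0 < δ ∧ 2 ≤ k0 ∧ ∃ S0 : ℝ,
  ∀ (Λ S η : ℝ) (U : ℕ), 1 ≤ Λ → S0 ≤ S → 0 < η → η ≤ 1 → 1 ≤ U → ∃ L0 : ℕ, ∀ L : ℕ, L0 ≤ L →
  ∀ (Ω : Type) [Fintype Ω] (c : TT Ω) (a b w : Ω → ℝ), Nn w → 0 < tot w → c.S = S →
    c.Ok Λ L → (∀ o o', c.W 0 o = c.W 0 o') → (∀ o, c.N 0 o = c.th) →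
    c.th ≤ (S ^ 2) ^ (L + 2) → (∀ i ≤ L, ∀ o, c.mu w (pr a b) i o ≤ c.N i o) →
    (#(univ.image (pr a b)) : ℝ) * c.th ^ (γ - δ) ≤ tot w →
    E w (c.ovs L) ≤ δ * L * lg S * tot w → (∀ i < L, tot (res w (c.slot i)) ≤ δ * tot w) →
    MacH c a b w Λ η δ U k0 L → False

def EndSt : Prop := G3St → G1P → LocP false → EndP

/-- the hypothesis of `Top.top` -/
def HP : Prop :=
  ∀ γ : ℝ, 0 < γ → γ ≤ 1 → ∃ ε : ℝ, 0 < ε ∧ ∀ C0 : ℝ, 1 ≤ C0 → ∃ M0 : ℕ,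
    ∀ (Z : Finset (ℝ × ℝ)) (t m : ℕ → ℝ) (s : ℕ → ℕ) (M : ℕ), M0 ≤ M → StrictMono t →
      Set.InjOn Prod.fst (Z : Set (ℝ × ℝ)) → Set.InjOn Prod.snd (Z : Set (ℝ × ℝ)) →
      (∀ k, ∀ p ∈ Z, m k ≠ p.2 + t k * p.1) → StrictMono s →
      (∀ Y ⊆ Z, Ex.PW (fun i j => (Cut.Phi (Cut.St Prod.fst Prod.snd t m) Y i j : ℝ)) (γ + ε) C0) →
      0 < Cut.Phi (Cut.St Prod.fst Prod.snd t m) Z (s 0) (s M) →
      (M : ℝ) ^ (γ - ε) * (Cut.Phi (Cut.St Prod.fst Prod.snd t m) Z (s 0) (s M) : ℝ) ≤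
        ((∑ i ∈ range M,
          (Cut.Ch (Cut.St Prod.fst Prod.snd t m) Z (s i) (s (i + 1))).card : ℕ) : ℝ) →
      False

def TopSt : Prop := TTSt → MacP → EndP → HP

/-- the skeleton -/
theorem skel (tt : TTSt) (ng : NGSt) (g3 : G3St) (g1 : G1St) (step : StepSt) (mac : MacSt)
    (row : RowSt) (uq : UniqSt) (hnd : HndSt) (col : ColSt) (t1 : Tel1St) (t1b : Tel1bSt)
    (t2 : Tel2St) (aT : ActTSt) (aX : ActXSt) (rect : RectSt) (path : PathSt) (loc : LocSt)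
    (locG : LocGSt) (en : EndSt) (top : TopSt) :
    ∀ ε : ℝ, 0 < ε → ∀ δ : ℝ, 0 < δ → ∃ N : ℕ, ∀ S : Finset (ℝ × ℝ),
      N ≤ S.card →
      (∀ p ∈ S, ∀ q ∈ S, ∀ r ∈ S, p ≠ q → p ≠ r → q ≠ r →
        (q.1 - p.1) * (r.2 - p.2) - (q.2 - p.2) * (r.1 - p.1) ≠ 0) →
      (((S ×ˢ S).filter (fun x => x.1 ≠ x.2 ∧
          (S.filter (fun r => 0 < (x.2.1 - x.1.1) * (r.2 - x.1.2)
              - (x.2.2 - x.1.2) * (r.1 - x.1.1))).card * 2 + 2 = S.card)).card : ℝ)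
        ≤ δ * (S.card : ℝ) ^ (1 + ε) :=
  Top.top (top tt (mac step ng) (en g3 (g1 ng g3) (locG (loc g3 (hnd g3) row (col uq) t1 t1b t2 aT
    (aX uq) rect (path g3 (hnd g3))))))

end

end Pool.Agent.Lib.MP_d308c3_co.K
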