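import Pool.Agent.Lib.MP_d308c3_co.Grid4
import Pool.Agent.Lib.MP_d308c3_co.K.Fib
import Pool.Agent.Lib.MP_d308c3_co.K.St

/-! Existence of the columns of one window. -/

namespace Pool.Agent.Lib.MP_d308c3_co.K.ColEx

open Finset Pool.Agent.Lib.MP_108739_an.F Pool.Agent.Lib.MP_d308c3_co.Grid
open scoped Classical

noncomputable section

variable {Ω : Type}

def lb (d : Loc Ω) (c : ℕ) (o : Ω) : ℕ × ℤ := (d.lab c o).getD (0, 0)

def toLab (d : Loc Ω) : Lab Ω Unit ((ℕ × ℕ) × Finset Pt) where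
  m := d.m
  n0 := fun _ => ()
  nd := d.nd
  a := d.a
  Act c o := d.lab c o = some (lb d c o)
  q c o := (lb d c o).2
  X1 c o o' := d.nd c o' = d.nd c o ∧ d.lab c o' = some (lb d c o)
  X2 c o o' := d.nd c o' = d.nd c o ∧ d.par c (lb d c o) o'

lemma X_iff {d : Loc Ω} {w : Ω → ℝ} {c : ℕ} {o o' : Ω} :
    (toLab d).X w c o o' ↔ d.X2 c (lb d c o) o o' := and_or_left.symm

lemma act_iff {d : Loc Ω} {c : ℕ} {o : Ω} : ¬ (toLab d).Act c o ↔ d.lab c o = none := by
  change ¬ d.lab c o = some (lb d c o) ↔ _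
  unfold lb
  cases d.lab c o <;> simp

lemma lft_inj {G : Bool} {k z z' : ℤ} (h : lft G k z = lft G k z') : z = z' := by
  have p : (0 : ℝ) < 2 ^ k := by positivity
  have := mul_right_cancel₀ p.ne' h
  exact_mod_cast add_right_cancel this

lemma lft_mono (G : Bool) {k k' : ℤ} (h : k ≤ k') (x : ℝ) :
    lft G k' (cell G k' x) ≤ lft G k (cell G k x) := by
  have p : (0 : ℝ) < 2 ^ k := by positivity
  have e : cell G k (lft G k (cell G k x)) = cell G k x := cell_eq_iff.2 ⟨le_rfl, by linarith⟩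
  rw [← cell_mono h e]
  exact lft_le _ _ _

variable [Fintype Ω] {w : Ω → ℝ} {d : Loc Ω} {Λ η θ : ℝ}

lemma lab_ok (h : d.Ok w Λ η) : (toLab d).Ok w η where
  root _ _ _ := rfl
  nest _ hc := Fib.nd_step h hc
  self _ _ _ _ ha := ⟨rfl, ha⟩
  node _ _ _ _ _ _ x := (X_iff.1 x).1
  mass1 c hc o p ha := (h.lab c hc).m1 o _ p ha
  mass2 c hc o p ha := (h.lab c hc).m2 o _ p ha
  sep c hc _ _ _ o1 o2 x1 x2 := (h.lab c hc).sep o1 _ o2 x1.2 (x2.1.trans x1.1.symm) x2.2
  rng c hc o _ ha o1 o2 x1 x2 := ((h.lab c hc).ball o _ o1 o2 ha (X_iff.1 x1) (X_iff.1 x2)).1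
  pin c hc o _ ha o' x o1 o2 _ _ e1 e2 := by
    have a := abs_le.1 ((h.lab c hc).prog o _ o' o1 ha (X_iff.1 x) e1)
    have b := abs_le.1 ((h.lab c hc).prog o _ o' o2 ha (X_iff.1 x) e2)
    change |d.a o1 - d.a o2| ≤ 2 ^ ((lb d c o).2 - 1)
    rw [show (lb d c o).2 - 1 = (lb d c o).2 - 2 + 1 by ring, zpow_add_one₀ two_ne_zero, abs_le]
    constructor <;> linarith [a.1, a.2, b.1, b.2]

variable (d w θ) in
def kk (x : Bool × ℕ) (o : Ω) : ℤ := (((toLab d).cl w θ x.1 x.2 o).getD (0, 0)).1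

variable (d w θ) in
def cols : Col Ω where
  ca x o := ∃ k z, (toLab d).cl w θ x.1 x.2 o = some (k, z)
  k := kk w d θ
  xl x e o := lft x.1 (kk w d θ x o - e) (cell x.1 (kk w d θ x o - e) (d.a o))
  sel x o := 0 < w o ∧ (toLab d).Sel w θ x.1 x.2 o
  sc x o := if h : (toLab d).Sel w θ x.1 x.2 o then h.choose else 0

lemma kk_eq {x : Bool × ℕ} {o : Ω} {k z : ℤ} (h : (toLab d).cl w θ x.1 x.2 o = some (k, z)) :
    kk w d θ x o = k := by unfold kk; rw [h]; rfl

lemma cv_eq {x : Bool × ℕ} {o : Ω} :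
    (cols w d θ).cv x o = ((toLab d).cl w θ x.1 x.2 o).map fun v => (v.1, lft x.1 v.1 v.2) := by
  unfold Col.cv
  split_ifs with a
  · obtain ⟨k, z, e⟩ := a
    have e2 : z = cell x.1 k (d.a o) := (col_eq_some.1 e).2.2.2
    change some (kk w d θ x o, lft x.1 (kk w d θ x o - ((0 : ℕ) : ℤ))
      (cell x.1 (kk w d θ x o - ((0 : ℕ) : ℤ)) (d.a o))) = _
    rw [kk_eq e, e, e2]
    simp
  · cases e : (toLab d).cl w θ x.1 x.2 o with
    | none => rfl
    | some v => exact absurd ⟨v.1, v.2, e⟩ a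

lemma cl_of_cv {x : Bool × ℕ} {o o' : Ω} (h : (cols w d θ).cv x o' = (cols w d θ).cv x o) :
    (toLab d).cl w θ x.1 x.2 o' = (toLab d).cl w θ x.1 x.2 o := by
  rw [cv_eq, cv_eq] at h
  refine Option.map_injective (fun v v' e => ?_) h
  obtain ⟨e1, e2⟩ := Prod.mk.inj e
  rw [e1] at e2
  exact Prod.ext e1 (lft_inj e2)

lemma cl_det {x : Bool × ℕ} {o o' : Ω} (h : d.a o' = d.a o) :
    (toLab d).cl w θ x.1 x.2 o' = (toLab d).cl w θ x.1 x.2 o := by
  have k : ∀ o o' : Ω, d.a o' = d.a o → ∀ v, (toLab d).cl w θ x.1 x.2 o = some v →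
      (toLab d).cl w θ x.1 x.2 o' = some v := fun o o' h v e =>
    col_det (k := v.1) (z := v.2) e rfl (congrArg _ h)
  exact Option.ext fun v => ⟨k o' o h.symm v, k o o' h v⟩

theorem ok (hw : Nn w) (hη : 0 < η) (h : d.Ok w Λ η) (h0 : 0 < θ) (h1 : θ < 1) {K0 : ℕ}
    (hK : 0 < K0) : (cols w d θ).Ok d w K0 (d.fail w + (18 / (η * lg θ⁻¹) + 16 * d.m / (K0 * θ)) *
      (H w (d.nd d.m) (fun _ => ()) + 3 * tot w)) where
  inn x e o _ := ⟨lft_mono _ (by omega) _, lft_le _ _ _, lt_lft _ _ _⟩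
  card x e o a := by
    obtain ⟨k, z, c⟩ := a
    have p : (0 : ℝ) < 2 ^ (k - e) := by positivity
    let B : ℤ := ⌈lft x.1 k z / 2 ^ (k - e) - off x.1 (k - e)⌉
    refine le_trans (card_le_card (t := (Ico B (B + 2 ^ e)).image (lft x.1 (k - e))) fun v hv => ?_)
      (card_image_le.trans (by simp))
    obtain ⟨o', -, e1, rfl⟩ := mem_vals.1 hv
    have c' := (cl_of_cv e1).trans c
    have e2 : z = cell x.1 k (d.a o') := (col_eq_some.1 c').2.2.2
    refine mem_image.2 ⟨cell x.1 (k - e) (d.a o'), ?_, by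
      change _ = lft x.1 (kk w d θ x o' - e) (cell x.1 (kk w d θ x o' - e) (d.a o'))
      rw [kk_eq c']⟩
    have l1 := lft_mono x.1 (k := k - e) (k' := k) (by omega) (d.a o')
    have l2 := (lft_le x.1 (k - e) (d.a o')).trans_lt (lt_lft x.1 k (d.a o'))
    rw [← e2] at l1 l2
    have e3 : (2 : ℝ) ^ k = 2 ^ e * 2 ^ (k - e) := by
      rw [← zpow_natCast, ← zpow_add₀ two_ne_zero]; congr 1; ring
    rw [mem_Ico, Int.ceil_le, ← sub_lt_iff_lt_add, Int.lt_ceil, sub_le_iff_le_add, div_le_iff₀ p,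
      lt_sub_iff_add_lt, lt_div_iff₀ p]
    refine ⟨l1, ?_⟩
    generalize lft x.1 k z = A at *
    unfold lft at l2
    push_cast
    linarith
  chain G κ s o a := by
    obtain ⟨k, z, c⟩ := a
    obtain ⟨k', c', l⟩ := col_step s c
    refine ⟨⟨_, _, c'⟩, ?_⟩
    change kk w d θ (G, κ + s) o + s ≤ kk w d θ (G, κ) o
    rw [kk_eq (x := (G, κ + s)) c, kk_eq (x := (G, κ)) c']
    exact l
  chain2 G κ s e o o' a e1 le := by
    obtain ⟨k, z, c⟩ := a
    have c' := (cl_of_cv e1).trans c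
    have b : (toLab d).cl w θ G κ o' = (toLab d).cl w θ G κ o := col_back s c c' rfl
    obtain ⟨k', c2, l⟩ := col_step s c
    refine ⟨by rw [cv_eq, cv_eq]; exact congrArg _ b, ?_⟩
    change lft G (kk w d θ (G, κ) o' - e) (cell G (kk w d θ (G, κ) o' - e) (d.a o')) =
      lft G (kk w d θ (G, κ) o - e) (cell G (kk w d θ (G, κ) o - e) (d.a o))
    rw [kk_eq (x := (G, κ)) c2, kk_eq (x := (G, κ)) (b.trans c2)]
    exact congrArg _ (cell_mono (k := k) (by omega)
      ((col_eq_some.1 c').2.2.2.symm.trans (col_eq_some.1 c).2.2.2))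
  det x e o o' a := by
    have c := cl_det (w := w) (θ := θ) (x := x) a
    refine ⟨by rw [cv_eq, cv_eq, c], ?_⟩
    change lft x.1 (kk w d θ x o' - e) (cell x.1 (kk w d θ x o' - e) (d.a o')) =
      lft x.1 (kk w d θ x o - e) (cell x.1 (kk w d θ x o - e) (d.a o))
    unfold kk
    rw [c, a]
  sel x o s := by
    obtain ⟨p, s⟩ := s
    have e : (cols w d θ).sc x o = s.choose := dif_pos s
    obtain ⟨hc, ha, hG, c⟩ := s.choose_spec
    rw [e]
    refine ⟨hc, ⟨_, _, c⟩, _, ha, kk_eq c, fun o' x' => ?_⟩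
    have f := (lab_ok h).fit hc p ha o' (X_iff.2 x')
    rw [hG] at f
    rw [cv_eq, cv_eq, c]
    exact congrArg _ (col_det c rfl f)
  cnt o := le_trans (card_le_card fun x hx =>
    mem_filter.2 ⟨(mem_filter.1 hx).1, (mem_filter.1 hx).2.2⟩) (Lab.nSel_le (L := toLab d) K0 o)
  mass := by
    have a := (lab_ok h).sel hw hη h0 h1 hK
    have b : E w (fun o => (d.m : ℝ) - (cols w d θ).nsel K0 o) ≤
        E w fun o => (#((range d.m).filter fun c => d.lab c o = none) : ℝ) +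
          (((toLab d).nAct o : ℝ) - (toLab d).nSel w θ K0 o) := E_mono hw fun o p => by
      have e1 : (cols w d θ).nsel K0 o = (toLab d).nSel w θ K0 o :=
        congrArg card (filter_congr fun x _ => and_iff_right p)
      have e2 : (toLab d).nAct o + #((range d.m).filter fun c => d.lab c o = none) = d.m := by
        conv_rhs => rw [← card_range d.m,
          ← card_filter_add_card_filter_not (fun c => (toLab d).Act c o)]
        simp only [act_iff]
        rfl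
      have e3 : ((toLab d).nAct o : ℝ) + #((range d.m).filter fun c => d.lab c o = none) = d.m := by
        exact_mod_cast e2
      rw [e1]; linarith
    rw [E_add, E_sub (fun o => ((toLab d).nAct o : ℝ)), E_card] at b
    exact b.trans (add_le_add le_rfl (sub_le_iff_le_add'.2 a))

theorem colP : ColP := fun Ω _ d w Λ η θ K0 hw hη _ h0 h1 hK h => by
  have a := ok hw hη h h0 (by linarith) hK
  refine ⟨_, { a with mass := a.mass.trans (add_le_add le_rfl ?_) }⟩
  have lp : 0 < lg θ⁻¹ := Real.logb_pos one_lt_two ((one_lt_inv₀ h0).2 (by linarith))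
  have s := h.tt.two
  have k : (0 : ℝ) < K0 := by exact_mod_cast hK
  refine mul_le_mul_of_nonneg_right (add_le_add ?_ ?_)
    (add_nonneg (H_nonneg hw _ _) (mul_nonneg (by norm_num) (tot_nonneg hw)))
  · rw [one_div]
    exact div_le_div_of_nonneg_right (by nlinarith) (mul_pos hη lp).le
  · rw [mul_comm θ]
    exact div_le_div_of_nonneg_right (by linarith [Nat.cast_nonneg (α := ℝ) d.m])
      (mul_pos k h0).le

theorem colSt : ColSt := fun _ => colP

theorem uniqSt : UniqSt := fun Ω _ d w Λ η hw hη h c c' l l' o1 o2 o lt hc p a1 x1 a2 x2 => by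
  have pos := (mul_pos hη (ms_pos hw _ p)).trans_le ((h.lab c' hc).m2 o2 l' p a2)
  obtain ⟨o3, -, h3⟩ := exists_ne_zero_of_sum_ne_zero pos.ne'
  obtain ⟨x3, -⟩ := res_pos (lt_of_le_of_ne (hw.res _ o3) h3.symm)
  have dn := Fib.nd_det h (c := c + 1) lt hc.le
  have s := (h.lab c' hc).sep o2 l' o3 a2 x3.1 x3.2
  have u := abs_le.1 ((h.lab c (lt.trans hc)).prog o1 l o o2 a1 x1 (dn _ _ x2.1.symm))
  have v := abs_le.1 ((h.lab c (lt.trans hc)).prog o1 l o o3 a1 x1 (dn _ _ (x3.1.trans x2.1.symm)))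
  have e : |d.a o2 - d.a o3| ≤ 2 ^ (l.2 - 2 + 1) := by
    rw [zpow_add_one₀ two_ne_zero, abs_le]
    constructor <;> linarith [u.1, u.2, v.1, v.2]
  have := (zpow_le_zpow_iff_right₀ one_lt_two).1 (s.trans e)
  omega

end

end Pool.Agent.Lib.MP_d308c3_co.K.ColEx
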