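import Pool.Agent.Lib.MP_d308c3_co.K.Fib
import Pool.Agent.Lib.MP_d308c3_co.Tower

/-! The final sum over windows. -/

set_option autoImplicit false

namespace Pool.Agent.Lib.MP_d308c3_co.K

open Finset Pool.Agent.Lib.MP_108739_an.F
open scoped Classical

namespace End

/-- the bound for one window with constant `Cw` -/
def Win (Cw S Λ η : ℝ) (U k0 g m : ℕ) : Prop :=
  ∀ (Ω : Type) [Fintype Ω] (w : Ω → ℝ) (d : Loc Ω), Nn w → d.S = S → d.U = U → d.m = m →
    d.Gr = (k0 - 1) * m * U → d.Ok w Λ η → d.Root w →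
    E w (fun o => max 0 (d.gain w d.p 0 d.Gr o - 2 * g * lg S * d.unm w d.p g (d.Gr / g) o)) ≤
      Cw * (m * U * lg S) * tot w + Cw * E w (d.ovs (d.lev d.m)) + Cw * (k0 * U * lg S) * d.fail w

variable {Ω : Type}

theorem thr_shift (c : TT Ω) (k i : ℕ) : (c.shift k).thr i = c.thr (k + i) := by
  simp only [TT.thr, TT.shift, pow_add, div_div]

theorem ov_shift (c : TT Ω) (k i : ℕ) (o : Ω) : (c.shift k).ov i o = c.ov (k + i) o := by
  unfold TT.ov TT.spl
  rw [thr_shift]
  rfl

theorem ov_nonneg {c : TT Ω} {Λ : ℝ} {L : ℕ} (h : c.Ok Λ L) {i : ℕ} (hi : i < L) (o : Ω) :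
    0 ≤ c.ov i o := by
  unfold TT.ov
  split_ifs
  · have a := h.lt (i + 1) hi o
    have b : (0 : ℝ) < c.N (i + 1) o := by
      unfold TT.N
      exact_mod_cast Nat.sub_pos_of_lt a
    exact lg_nonneg ((one_le_div b).2 (h.size (i + 1) hi o))
  · exact le_rfl

variable [Fintype Ω] {w : Ω → ℝ}

theorem mkd_shift (c : TT Ω) (p : Ω → Pt) (k i : ℕ) (o : Ω) :
    (c.shift k).mkd w p i o ↔ c.mkd w p (k + i) o := by
  unfold TT.mkd TT.prt TT.hv TT.clean TT.good
  simp only [thr_shift]
  rfl

theorem unm_shift (c : TT Ω) (p : Ω → Pt) {g : ℕ} (hg : 0 < g) (j0 nb : ℕ) (o : Ω) :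
    (c.shift (j0 * g)).unm w p g nb o = Tow.unm (fun i => c.mkd w p i o) g j0 nb := by
  unfold TT.unm Tow.unm
  refine congrArg card ?_
  ext j
  simp only [mem_filter]
  refine and_congr_right fun _ => ⟨fun H ⟨i, e, hm⟩ => ?_, fun H i hi hm => H ⟨j0 * g + i, ?_, ?_⟩⟩
  · have a := Nat.div_add_mod' i g
    have b := Nat.mod_lt i hg
    rw [e, add_mul] at a
    refine H (j * g + i % g) (mem_Ico.2 ⟨by omega, by rw [add_mul]; omega⟩) ?_
    rw [mkd_shift, ← add_assoc, a]
    exact hm
  · obtain ⟨a, b⟩ := mem_Ico.1 hi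
    rw [add_comm, Nat.add_mul_div_right _ _ hg, Nat.div_eq_of_lt_le a b, add_comm]
  · exact (mkd_shift c p _ _ o).1 hm

theorem gain_sum (hw : Nn w) (c : TT Ω) (p : Ω → Pt) {o : Ω} (ho : 0 < w o) (k n : ℕ) :
    ∑ i ∈ range n, c.gain w p (k + i) (k + i + 1) o = c.gain w p k (k + n) o := by
  have hp : ∀ i, 0 < c.mu w p i o := fun i => ms_pos hw _ ho
  induction n with
  | zero => simp [TT.gain, div_self (hp k).ne', lg_one]
  | succ n ih =>
    rw [sum_range_succ, ih]
    unfold TT.gain
    rw [lg_div (hp _) (hp _), lg_div (hp _) (hp _), lg_div (hp _) (hp _), ← add_assoc]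
    ring

theorem gain_nonneg (hw : Nn w) {c : TT Ω} {Λ : ℝ} {L : ℕ} (h : c.Ok Λ L) (p : Ω → Pt) {o : Ω}
    (ho : 0 < w o) {i j : ℕ} (hij : i ≤ j) (hj : j ≤ L) : 0 ≤ c.gain w p i j o :=
  lg_nonneg ((one_le_div (ms_pos hw _ ho)).2
    (ms_mono hw (Det.pr (Det.fst.trans (Fib.W_det h hij hj)) Det.snd) o))

theorem sum_off (f : ℕ → ℝ) {L : ℕ} (hf : ∀ i < L, 0 ≤ f i) (G e l n : ℕ) (hl : l ≤ G)
    (hL : n * G + e ≤ L) :
    ∑ t ∈ range n, ∑ i ∈ range l, f (t * G + e + i) ≤ ∑ i ∈ range L, f i := by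
  have h1 : ∑ t ∈ range n, ∑ i ∈ range l, f (t * G + e + i) ≤
      ∑ t ∈ range n, ∑ i ∈ range G, f (e + (t * G + i)) := by
    refine sum_le_sum fun t ht => ?_
    have a : (t + 1) * G ≤ n * G := Nat.mul_le_mul_right G (mem_range.1 ht)
    rw [add_mul, one_mul] at a
    have e1 : ∀ i, t * G + e + i = e + (t * G + i) := fun i => by omega
    simp only [e1]
    exact sum_le_sum_of_subset_of_nonneg (range_subset_range.2 hl) fun i hi _ =>
      hf _ (by have := mem_range.1 hi; omega)
  rw [← Tow.sum_blocks (fun i => f (e + i))] at h1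
  refine h1.trans ?_
  have h2 : ∑ i ∈ range (e + n * G), f i ≤ ∑ i ∈ range L, f i :=
    sum_le_sum_of_subset_of_nonneg (range_subset_range.2 (by omega)) fun i hi _ =>
      hf _ (mem_range.1 hi)
  rw [sum_range_add] at h2
  have h3 : 0 ≤ ∑ i ∈ range e, f i := sum_nonneg fun i hi => hf _ (by have := mem_range.1 hi; omega)
  linarith

/-- the sum over all windows of one period -/
theorem windows (hw : Nn w) {c : TT Ω} {a b : Ω → ℝ} {Cw Λ η δ : ℝ} {U k0 L g m n : ℕ}
    (hC : 0 ≤ Cw) (hc : c.Ok Λ L) (hM : MacH c a b w Λ η δ U k0 L) (hg : 0 < g) (hgm : g ∣ m)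
    (hm : 1 ≤ m) (hk : 1 ≤ k0) (hU : 1 ≤ U) (hW : Win Cw c.S Λ η U k0 g m)
    (hL : n * (k0 * m * U) + m * U ≤ L)
    (G3 : ∀ i j, i ≤ j → j ≤ L → E w (c.gain w (pr a b) i j) ≤
      E w (fun o => 2 * ((j : ℝ) - i) * lg c.S + ∑ l ∈ Ico i j, c.ov l o) + tot w) :
    E w (c.gain w (pr a b) 0 (n * (k0 * m * U))) ≤
      E w (fun o => ∑ i ∈ range (n * (k0 * m * U)),
        if c.mkd w (pr a b) i o then 0 else c.gain w (pr a b) i (i + 1) o) +
      ((2 + Cw) * (n * m * U) * lg c.S + n) * tot w + (1 + Cw) * E w (c.ovs L) +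
      Cw * lg c.S * (δ * (n * (k0 * m * U)) + δ * L) * tot w +
      2 * lg c.S * E w (fun o =>
        (Tow.cov (fun i => c.mkd w (pr a b) i o) (k0 * m * U) (n * (k0 * m * U)) : ℝ) -
          Tow.cov (fun i => c.mkd w (pr a b) i o) g (n * (k0 * m * U))) := by
  obtain ⟨m', rfl⟩ := hgm
  obtain ⟨Y, lab, par, hOk, hF⟩ := hM (g * m') n hm hL
  have hS : 0 ≤ lg c.S := lg_nonneg (by linarith [hc.two])
  have hg' : (0 : ℝ) < g := by exact_mod_cast hg
  set p : Ω → Pt := pr a b with hp
  have eG : k0 * (g * m') * U = g * (k0 * (m' * U)) := by ring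
  have eH : g * m' * U = g * (m' * U) := by ring
  have eD : k0 * (m' * U) - m' * U = (k0 - 1) * (m' * U) := by rw [Nat.sub_mul, one_mul]
  have eR : (k0 - 1) * (g * m') * U = g * (k0 * (m' * U) - m' * U) := by rw [eD]; ring
  have hd : m' * U ≤ k0 * (m' * U) := Nat.le_mul_of_pos_left _ hk
  set G := k0 * (g * m') * U with hG
  have hHG : g * m' * U ≤ G := by rw [eG, eH]; exact Nat.mul_le_mul_left g hd
  have eL : (k0 - 1) * (g * m') * U + g * m' * U = G := by
    rw [eR, eH, eG, ← mul_add, Nat.sub_add_cancel hd]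
  let D : ℕ → Loc Ω := fun k => ⟨c.shift (k * G + g * m' * U), a, b, Y k, lab k, par k, U,
    (k0 - 1) * (g * m') * U, g * m'⟩
  -- pointwise splitting
  have h1 : E w (c.gain w p 0 (n * G)) ≤ E w fun o =>
      ∑ t ∈ range n, c.gain w p (t * G) (t * G + g * m' * U) o +
      (∑ i ∈ range (n * G), if c.mkd w p i o then 0 else c.gain w p i (i + 1) o) +
      ∑ t ∈ range n, max 0 ((D t).gain w (D t).p 0 (D t).Gr o -
        2 * g * lg c.S * (D t).unm w (D t).p g ((D t).Gr / g) o) +
      2 * lg c.S * ((Tow.cov (fun i => c.mkd w p i o) G (n * G) : ℝ) -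
        Tow.cov (fun i => c.mkd w p i o) g (n * G)) := by
    refine E_mono hw fun o ho => ?_
    have key := Tow.split (fun i => c.mkd w p i o)
      (fun i => if i < L then c.gain w p i (i + 1) o else 0)
      (fun i => by
        split_ifs with hi
        exacts [gain_nonneg hw hc p ho (Nat.le_succ i) hi, le_rfl])
      (β := 2 * g * lg c.S) (by positivity) hg hd n
    rw [← eG, ← eH, ← eR] at key
    have tG : ∀ t ∈ range n, t * G + G ≤ n * G := fun t ht => by
      have : (t + 1) * G ≤ n * G := Nat.mul_le_mul_right G (mem_range.1 ht)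
      rwa [add_mul, one_mul] at this
    have e0 : ∑ i ∈ range (n * G), (if i < L then c.gain w p i (i + 1) o else 0) =
        c.gain w p 0 (n * G) o := by
      have := gain_sum hw c p ho 0 (n * G)
      simp only [zero_add] at this
      rw [← this]
      exact sum_congr rfl fun i hi => if_pos (by have := mem_range.1 hi; omega)
    have e1 : ∑ t ∈ range n, ∑ i ∈ range (g * m' * U),
        (if t * G + i < L then c.gain w p (t * G + i) (t * G + i + 1) o else 0) =
        ∑ t ∈ range n, c.gain w p (t * G) (t * G + g * m' * U) o := by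
      refine sum_congr rfl fun t ht => ?_
      rw [← gain_sum hw c p ho]
      exact sum_congr rfl fun i hi => if_pos (by have := mem_range.1 hi; have := tG t ht; omega)
    have e2 : ∑ i ∈ range (n * G), (if c.mkd w p i o then 0 else
        (if i < L then c.gain w p i (i + 1) o else 0)) =
        ∑ i ∈ range (n * G), if c.mkd w p i o then 0 else c.gain w p i (i + 1) o :=
      sum_congr rfl fun i hi => by
        rw [if_pos (show i < L by have := mem_range.1 hi; omega)]
    have e3 : ∀ t ∈ range n, max 0 (∑ i ∈ range ((k0 - 1) * (g * m') * U),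
        (if t * G + g * m' * U + i < L then
          c.gain w p (t * G + g * m' * U + i) (t * G + g * m' * U + i + 1) o else 0) -
        2 * g * lg c.S * Tow.unm (fun i => c.mkd w p i o) g (t * (k0 * (m' * U)) + m' * U)
          (k0 * (m' * U) - m' * U)) = max 0 ((D t).gain w (D t).p 0 (D t).Gr o -
        2 * g * lg c.S * (D t).unm w (D t).p g ((D t).Gr / g) o) := fun t ht => by
      have a1 : (D t).gain w (D t).p 0 (D t).Gr o =
          c.gain w p (t * G + g * m' * U) (t * G + g * m' * U + (k0 - 1) * (g * m') * U) o := rfl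
      have a2 : (D t).Gr / g = k0 * (m' * U) - m' * U := by
        change (k0 - 1) * (g * m') * U / g = _
        rw [eR, Nat.mul_div_cancel_left _ hg]
      have a3 : t * G + g * m' * U = (t * (k0 * (m' * U)) + m' * U) * g := by rw [eG]; ring
      have a4 : (D t).unm w (D t).p g ((D t).Gr / g) o =
          Tow.unm (fun i => c.mkd w p i o) g (t * (k0 * (m' * U)) + m' * U)
            (k0 * (m' * U) - m' * U) := by
        rw [a2, ← unm_shift c p hg, ← a3]
        rfl
      rw [a1, a4, ← gain_sum hw c p ho]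
      congr 2
      exact sum_congr rfl fun i hi => if_pos (by have := mem_range.1 hi; have := tG t ht; omega)
    have e4 : 2 * g * lg c.S / g = 2 * lg c.S := by field_simp
    rw [e0, e1, e2, sum_congr rfl e3, e4] at key
    exact key
  rw [E_add, E_add, E_add, E_sum, E_sum (range n), E_mul] at h1
  have ovn : ∀ o, ∀ i < L, 0 ≤ c.ov i o := fun o i hi => ov_nonneg hc hi o
  -- heads
  have h2 : ∑ t ∈ range n, E w (fun o => c.gain w p (t * G) (t * G + g * m' * U) o) ≤
      (2 * (n * (g * m' : ℕ) * U) * lg c.S + n) * tot w + E w (c.ovs L) := by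
    have a1 : ∀ t ∈ range n, E w (fun o => c.gain w p (t * G) (t * G + g * m' * U) o) ≤
        (2 * ((g * m' : ℕ) * U) * lg c.S + 1) * tot w +
          E w fun o => ∑ i ∈ range (g * m' * U), c.ov (t * G + 0 + i) o := fun t ht => by
      have b1 := Nat.mul_le_mul_right G (mem_range.1 ht).le
      have b2 := G3 (t * G) (t * G + g * m' * U) (by omega) (by omega)
      rw [E_add, E_const] at b2
      simp only [sum_Ico_eq_sum_range, Nat.add_sub_cancel_left] at b2
      simp only [add_zero]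
      push_cast at b2 ⊢
      linarith
    refine (sum_le_sum a1).trans ?_
    rw [sum_add_distrib, sum_const, card_range, nsmul_eq_mul, ← E_sum]
    have a2 : E w (fun o => ∑ t ∈ range n, ∑ i ∈ range (g * m' * U), c.ov (t * G + 0 + i) o) ≤
        E w (c.ovs L) :=
      E_mono hw fun o _ => sum_off (fun i => c.ov i o) (ovn o) G 0 _ n hHG (by omega)
    linarith
  -- windows
  have h3 : ∑ t ∈ range n, E w (fun o => max 0 ((D t).gain w (D t).p 0 (D t).Gr o -
      2 * g * lg c.S * (D t).unm w (D t).p g ((D t).Gr / g) o)) ≤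
      Cw * (n * (g * m' : ℕ) * U) * lg c.S * tot w + Cw * E w (c.ovs L) +
        Cw * lg c.S * (δ * (n * ((k0 : ℝ) * (g * m' : ℕ) * U)) + δ * L) * tot w := by
    have a1 : ∀ t ∈ range n, E w (fun o => max 0 ((D t).gain w (D t).p 0 (D t).Gr o -
        2 * g * lg c.S * (D t).unm w (D t).p g ((D t).Gr / g) o)) ≤
        Cw * ((g * m' : ℕ) * U * lg c.S) * tot w +
          Cw * E w (fun o => ∑ i ∈ range G, c.ov (t * G + g * m' * U + i) o) +
          Cw * (k0 * U * lg c.S) * ∑ j ∈ range (g * m'), tot (res w fun o => lab t j o = none) :=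
      fun t ht => by
        have hD : (D t).Ok w Λ η := hOk t (mem_range.1 ht)
        have b0 : (D t).lev (D t).m = G := eL
        have b1 : (D t).Gr ≤ (D t).lev (D t).m := Nat.le_add_right _ _
        have b2 := Fib.of_roots hw hD ((Nat.div_mul_le_self _ g).trans b1) b1 (2 * g * lg c.S) _ _ _
          ((D t).ovs ((D t).lev (D t).m)) fun w' h1 h2 h3 => hW Ω w' (D t) h1 rfl rfl rfl rfl h2 h3
        have b3 : (D t).ovs ((D t).lev (D t).m) =
            fun o => ∑ i ∈ range G, c.ov (t * G + g * m' * U + i) o := by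
          funext o
          rw [b0]
          exact sum_congr rfl fun i _ => ov_shift c _ i o
        rw [b3] at b2
        exact b2
    refine (sum_le_sum a1).trans ?_
    rw [sum_add_distrib, sum_add_distrib, sum_const, card_range, nsmul_eq_mul, ← mul_sum, ← mul_sum,
      ← E_sum]
    have a2 : E w (fun o => ∑ t ∈ range n, ∑ i ∈ range G, c.ov (t * G + g * m' * U + i) o) ≤
        E w (c.ovs L) :=
      E_mono hw fun o _ => sum_off (fun i => c.ov i o) (ovn o) G _ _ n le_rfl hL
    have a3 := mul_le_mul_of_nonneg_left a2 hC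
    have a4 := mul_le_mul_of_nonneg_left hF (show 0 ≤ Cw * (k0 * U * lg c.S) by positivity)
    have k1 : (0 : ℝ) < k0 := by exact_mod_cast hk
    have k2 : (0 : ℝ) < U := by exact_mod_cast hU
    have a5 : Cw * (k0 * U * lg c.S) * ((δ * n * (g * m' : ℕ) + δ * L / (k0 * U)) * tot w) =
        Cw * lg c.S * (δ * (n * ((k0 : ℝ) * (g * m' : ℕ) * U)) + δ * L) * tot w := by
      field_simp
    rw [a5] at a4
    linarith
  linarith

end End

end Pool.Agent.Lib.MP_d308c3_co.K
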