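import Pool.Agent.Lib.MP_d308c3_co.K.Row
import Pool.Agent.Lib.MP_d308c3_co.Gain

/-! Gains along a time tree: total gain, gain on events, gain on rows that are not marked. -/

set_option autoImplicit false

namespace Pool.Agent.Lib.MP_d308c3_co.K

open Finset Pool.Agent.Lib.MP_108739_an.F
open scoped Classical

namespace TT
variable {Ω : Type} {c : TT Ω} {Λ : ℝ} {L : ℕ}

theorem Ok.N_pos (h : c.Ok Λ L) {i : ℕ} (hi : i ≤ L) (o : Ω) : 0 < c.N i o := by
  unfold N
  exact_mod_cast Nat.sub_pos_of_lt (h.lt i hi o)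

theorem Ok.one_le_lg (h : c.Ok Λ L) : 1 ≤ lg c.S := lg_two ▸ lg_mono two_pos h.two

theorem Ok.lg_thr (h : c.Ok Λ L) (i : ℕ) : lg (c.thr i) = 2 * lg c.S + lg (c.thr (i + 1)) := by
  have := h.S_pos
  rw [h.thr_succ i, lg_mul (by positivity) (h.thr_pos _), sq, lg_mul this this]
  ring

theorem Ok.ov_nonneg (h : c.Ok Λ L) {i : ℕ} (hi : i < L) (o : Ω) : 0 ≤ c.ov i o := by
  unfold ov
  split_ifs
  · exact lg_nonneg ((one_le_div (h.N_pos hi o)).2 (h.size _ hi o))
  · exact le_rfl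

theorem Ok.pot_nonneg (h : c.Ok Λ L) {i : ℕ} (hi : i ≤ L) (o : Ω) :
    0 ≤ lg (c.thr i / c.N i o) := lg_nonneg ((one_le_div (h.N_pos hi o)).2 (h.size _ hi o))

theorem Ok.pot_ge (h : c.Ok Λ L) {i : ℕ} (hi : i ≤ L) {o : Ω} (hg : ¬ c.good i o) :
    lg c.S ≤ lg (c.thr i / c.N i o) :=
  lg_mono h.S_pos ((le_div_iff₀ (h.N_pos hi o)).2 (not_le.1 hg).le)

theorem Ok.pot_le (h : c.Ok Λ L) {i : ℕ} (hi : i ≤ L) {o : Ω} (hg : c.good i o) :
    lg (c.thr i / c.N i o) ≤ lg c.S :=
  lg_mono (div_pos (h.thr_pos i) (h.N_pos hi o)) ((div_le_iff₀ (h.N_pos hi o)).2 hg)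

/-- one step of the size -/
theorem Ok.lgN_step (h : c.Ok Λ L) {i : ℕ} (hi : i < L) (o : Ω) :
    lg (c.N i o / c.N (i + 1) o) ≤ (if c.spl i o then 2 * lg c.S else 0) + c.ov i o := by
  unfold ov
  have p1 := h.N_pos hi.le o
  have p2 := h.N_pos (i := i + 1) hi o
  split_ifs with a
  · have := lg_mono p1 (h.size i hi.le o)
    rw [lg_div p1 p2, lg_div (h.thr_pos _) p2]
    linarith [h.lg_thr i]
  · rw [N_congr (h.idle i hi o a), div_self p1.ne', lg_one, add_zero]

theorem Ok.lgN_le (h : c.Ok Λ L) {i j : ℕ} (hij : i ≤ j) (hj : j ≤ L) (o : Ω) :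
    lg (c.N i o / c.N j o) ≤ 2 * ((j : ℝ) - i) * lg c.S + ∑ k ∈ Ico i j, c.ov k o := by
  induction j, hij using Nat.le_induction with
  | base => rw [div_self (h.N_pos hj o).ne', lg_one]; simp
  | succ j hij ih =>
    have h1 := ih (by omega)
    have h2 := h.lgN_step (i := j) hj o
    have p1 := h.N_pos (i := i) (by omega) o
    have p2 := h.N_pos (i := j) (by omega) o
    have p3 := h.N_pos hj o
    have h3 := h.one_le_lg
    rw [sum_Ico_succ_top hij]
    rw [lg_div p1 p2] at h1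
    rw [lg_div p2 p3] at h2
    rw [lg_div p1 p3]
    push_cast
    split_ifs at h2 <;> nlinarith

/-- the levels that are not good are paid by the overshoots -/
theorem Ok.not_good (h : c.Ok Λ L) {n : ℕ} (hn : n ≤ L) (o : Ω) :
    ∑ i ∈ range n, (if c.good i o then 0 else lg c.S) + lg (c.thr n / c.N n o) ≤
      lg (c.thr 0 / c.N 0 o) + c.ovs n o := by
  induction n with
  | zero => simp [ovs]
  | succ n ih =>
    have h1 := ih (by omega)
    have h3 := h.one_le_lg
    unfold ovs at h1 ⊢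
    rw [sum_range_succ, sum_range_succ]
    have h2 : (if c.good n o then 0 else lg c.S) + lg (c.thr (n + 1) / c.N (n + 1) o) ≤
        lg (c.thr n / c.N n o) + c.ov n o := by
      unfold ov
      by_cases a : c.spl n o
      · rw [if_pos a]
        split_ifs with b
        · linarith [h.pot_nonneg (i := n) (by omega) o]
        · linarith [h.pot_ge (i := n) (by omega) b]
      · have p := h.N_pos (i := n) (by omega) o
        rw [if_neg a, N_congr (h.idle n hn o a), lg_div (h.thr_pos _) p, lg_div (h.thr_pos _) p]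
        have := h.lg_thr n
        split_ifs <;> linarith
    linarith

/-- the size lost on steps that are not clean -/
theorem Ok.unclean (h : c.Ok Λ L) {n : ℕ} (hn : n ≤ L) (o : Ω) :
    ∑ i ∈ range n, (if c.clean i o then 0 else lg (c.N i o / c.N (i + 1) o)) ≤
      2 * lg (c.thr 0 / c.N 0 o) + 5 * c.ovs n o +
        2 * lg c.S * ∑ i ∈ range n, (if c.slot i o then (1 : ℝ) else 0) := by
  have h1 := h.not_good hn o
  have h2 := h.pot_nonneg hn o
  have h3 := h.one_le_lg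
  have h4 : ∑ i ∈ range n, (if c.clean i o then 0 else lg (c.N i o / c.N (i + 1) o)) ≤
      ∑ i ∈ range n, (2 * (if c.good i o then 0 else lg c.S) + 3 * c.ov i o +
        2 * lg c.S * (if c.slot i o then (1 : ℝ) else 0)) := by
    refine sum_le_sum fun i hi => ?_
    have hi' : i < L := (mem_range.1 hi).trans_le hn
    have k1 := h.lgN_step hi' o
    have k2 := h.ov_nonneg hi' o
    have k3 : 0 ≤ (if c.good i o then 0 else lg c.S) := by split_ifs <;> linarith
    have k4 : 0 ≤ 2 * lg c.S * (if c.slot i o then (1 : ℝ) else 0) := by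
      split_ifs <;> linarith
    by_cases a : c.clean i o
    · rw [if_pos a]; linarith
    rw [if_neg a]
    by_cases s : c.spl i o
    swap
    · rw [if_neg s] at k1; linarith
    rw [if_pos s] at k1
    by_cases g1 : c.good i o
    swap
    · rw [if_neg g1]; linarith
    by_cases g2 : c.good (i + 1) o
    · have sl : c.slot i o := ⟨s, g2, fun b => a ⟨g1, g2, b⟩⟩
      rw [if_pos sl]; linarith
    · have := h.pot_ge (i := i + 1) hi' g2
      have e : c.ov i o = lg (c.thr (i + 1) / c.N (i + 1) o) := if_pos s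
      linarith
  rw [sum_add_distrib, sum_add_distrib, ← mul_sum, ← mul_sum, ← mul_sum] at h4
  unfold ovs at h1 ⊢
  linarith

theorem Ok.det (h : c.Ok Λ L) {i j : ℕ} (hij : i ≤ j) (hj : j ≤ L) : Det (c.W j) (c.W i) :=
  fun _ _ e => h.W_back hij hj e

theorem Ok.card_kids' (h : c.Ok Λ L) {i : ℕ} (hi : i < L) (o : Ω) (A : Finset (ℕ × ℕ))
    (hA : ∀ v ∈ A, ∃ o', c.W i o' = c.W i o ∧ c.good (i + 1) o' ∧ c.W (i + 1) o' = v) :
    (#A : ℝ) ≤ c.S ^ 3 := by
  rw [← card_image_of_injOn (f := Prod.fst)]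
  · refine h.card_kids hi o _ fun y hy => ?_
    obtain ⟨v, hv, rfl⟩ := mem_image.1 hy
    obtain ⟨o1, a, b, rfl⟩ := hA v hv
    exact ⟨o1, a, b, rfl⟩
  · intro u hu v hv e
    obtain ⟨o1, -, -, rfl⟩ := hA u hu
    obtain ⟨o2, -, -, rfl⟩ := hA v hv
    exact h.eq_of_lo (i := i + 1) hi e

variable [Fintype Ω] {w : Ω → ℝ} (p : Ω → Pt)

theorem mu_pos (hw : Nn w) (i : ℕ) {o : Ω} (ho : 0 < w o) : 0 < c.mu w p i o := ms_pos hw _ ho

theorem gain_add (hw : Nn w) (i j k : ℕ) {o : Ω} (ho : 0 < w o) :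
    c.gain w p i j o + c.gain w p j k o = c.gain w p i k o := by
  unfold gain
  rw [lg_div (mu_pos p hw i ho) (mu_pos p hw j ho), lg_div (mu_pos p hw j ho) (mu_pos p hw k ho),
    lg_div (mu_pos p hw i ho) (mu_pos p hw k ho)]
  ring

theorem gain_self (hw : Nn w) (i : ℕ) {o : Ω} (ho : 0 < w o) : c.gain w p i i o = 0 := by
  unfold gain
  rw [div_self (mu_pos p hw i ho).ne', lg_one]

theorem gain_sum (hw : Nn w) (i n : ℕ) {o : Ω} (ho : 0 < w o) :
    ∑ k ∈ range n, c.gain w p (i + k) (i + k + 1) o = c.gain w p i (i + n) o := by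
  induction n with
  | zero => rw [sum_range_zero, add_zero, gain_self p hw i ho]
  | succ n ih => rw [sum_range_succ, ih, gain_add p hw _ _ _ ho, add_assoc]

theorem Ok.mu_eq (h : c.Ok Λ L) {i j : ℕ} (hij : i ≤ j) (hj : j ≤ L) :
    c.mu w p j = ms w (pr (c.W j) (pr (c.W i) p)) :=
  ms_congr (Det.fst.pr ((Det.fst.trans (h.det hij hj)).pr Det.snd))
    (Det.fst.pr (Det.snd.trans Det.snd))

theorem Ok.gain_nonneg (h : c.Ok Λ L) (hw : Nn w) {i j : ℕ} (hij : i ≤ j) (hj : j ≤ L) {o : Ω}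
    (ho : 0 < w o) : 0 ≤ c.gain w p i j o := by
  unfold gain
  rw [h.mu_eq p hij hj]
  exact Gain.gain_nonneg hw _ _ ho

/-- the sizes of the level `j` windows inside a level `i` window -/
theorem Ok.sum_vals (h : c.Ok Λ L) {i j : ℕ} (hij : i ≤ j) (hj : j ≤ L) {β : Type} {g : Ω → β}
    (hg : Det g (c.W i)) (o : Ω) :
    ∑ v ∈ vals w (c.W j) g o, ((v.2 - v.1 : ℕ) : ℝ) ≤ c.N i o := by
  have hD : Ex.Dis (vals w (c.W j) g o) Prod.fst Prod.snd (c.lo i o) (c.hi i o) := by
    refine ⟨fun v hv => ?_, fun v hv => ?_, fun v hv => ?_, fun v hv u hu hne => ?_⟩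
    · obtain ⟨o', -, -, rfl⟩ := mem_vals.1 hv
      exact h.lt j hj o'
    · obtain ⟨o', -, e, rfl⟩ := mem_vals.1 hv
      have e1 : c.lo i o' = c.lo i o := congrArg Prod.fst (hg _ _ e)
      exact e1 ▸ (h.nest_le hij hj o').1
    · obtain ⟨o', -, e, rfl⟩ := mem_vals.1 hv
      have e1 : c.hi i o' = c.hi i o := congrArg Prod.snd (hg _ _ e)
      exact e1 ▸ (h.nest_le hij hj o').2
    · obtain ⟨o1, -, -, rfl⟩ := mem_vals.1 hv
      obtain ⟨o2, -, -, rfl⟩ := mem_vals.1 hu
      exact (h.lami j hj o1 o2).resolve_left hne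
  unfold N
  exact_mod_cast hD.sum_len

/-- cost of the level `j` window on an event, given anything that determines the level `i` window -/
theorem Ok.code_ev (h : c.Ok Λ L) (hw : Nn w) {i j : ℕ} (hij : i ≤ j) (hj : j ≤ L) {β : Type}
    {g : Ω → β} (hg : Det g (c.W i)) (F : Ω → Prop) :
    E (res w F) (fun o => lg (ms w g o / ms w (pr (c.W j) g) o)) ≤
      E (res w F) (fun o => lg (c.N i o / c.N j o)) + tot w := by
  have a := Gain.gain_le hw F (c.W j) g (fun v o => ((v.2 - v.1 : ℕ) : ℝ) / c.N i o)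
    (fun v o o' e => by simp only [N_congr (hg _ _ e)])
    (fun v o => div_nonneg (Nat.cast_nonneg _) (h.N_pos (hij.trans hj) o).le)
    (fun o _ _ => div_pos (h.N_pos hj o) (h.N_pos (hij.trans hj) o))
    (fun o _ => by
      rw [← sum_div, div_le_one (h.N_pos (hij.trans hj) o)]
      exact h.sum_vals hij hj hg o)
  refine a.trans (add_le_add_left (le_of_eq (E_congr (hw.res F) fun o _ => ?_)) _)
  have p1 := h.N_pos (hij.trans hj) o
  have p2 := h.N_pos hj o
  change - lg (c.N j o / c.N i o) = _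
  rw [lg_div p2 p1, lg_div p1 p2]
  ring

/-- G3 -/
theorem Ok.gain_ev (h : c.Ok Λ L) (hw : Nn w) {i j : ℕ} (hij : i ≤ j) (hj : j ≤ L)
    (F : Ω → Prop) : E (res w F) (c.gain w p i j) ≤
      2 * ((j : ℝ) - i) * lg c.S * tot (res w F) +
        E (res w F) (fun o => ∑ k ∈ Ico i j, c.ov k o) + tot w := by
  have a := h.code_ev hw hij hj (g := pr (c.W i) p) Det.fst F
  rw [← h.mu_eq p hij hj] at a
  have b := E_mono (hw.res F) fun o _ => h.lgN_le hij hj o
  rw [E_add, E_const] at b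
  exact a.trans (add_le_add_left b _)

/-- G1, one row -/
theorem Ok.gain_row (h : c.Ok Λ L) (hw : Nn w) {i : ℕ} (hi : i < L) :
    E w (fun o => if c.mkd w p i o then 0 else c.gain w p i (i + 1) o) ≤
      E w (fun o => if c.clean i o then 0 else lg (c.N i o / c.N (i + 1) o)) + 6 * tot w := by
  have hS := h.S_pos
  have h2 := h.two
  have hK : 1 ≤ c.S ^ 3 := one_le_pow₀ (by linarith)
  have a := Gain.unmarked hw (c.W (i + 1)) (pr (c.W i) p) (fun o => 0 < w o ∧ c.clean i o)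
    (fun o => 0 < w o ∧ c.clean i o) (θ := (c.S ^ 4)⁻¹) (K := c.S ^ 3) (by positivity) hK
    (fun _ a => a) fun o => by
      refine h.card_kids' hi o _ fun v hv => ?_
      simp only [mem_image, mem_filter, mem_univ, true_and] at hv
      obtain ⟨o1, h1, rfl⟩ := hv
      exact ⟨o1, congrArg Prod.fst h1.1, h1.2.2.2.1, rfl⟩
  have b := h.code_ev hw (Nat.le_succ i) hi (g := pr (c.W i) p) Det.fst
    fun o => ¬ (0 < w o ∧ c.clean i o)
  have e := h.mu_eq (w := w) p (Nat.le_succ i) hi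
  rw [Nat.succ_eq_add_one] at b e
  have th : ∀ x y : ℝ, (c.S ^ 4)⁻¹ * x ≤ y → x ≤ c.S ^ 4 * y := fun x y hxy =>
    (inv_mul_le_iff₀ (by positivity)).1 hxy
  have l1 : E w (fun o => if c.mkd w p i o then 0 else c.gain w p i (i + 1) o) ≤
      E (res w fun o => ¬ Gain.Marked w (c.W (i + 1)) (pr (c.W i) p)
        (fun o => 0 < w o ∧ c.clean i o) (fun o => 0 < w o ∧ c.clean i o) (c.S ^ 4)⁻¹ o)
        fun o => lg (ms w (pr (c.W i) p) o / ms w (pr (c.W (i + 1)) (pr (c.W i) p)) o) := by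
    refine sum_le_sum fun o _ => ?_
    rcases (hw o).eq_or_lt with z | z
    · simp [res, ← z]
    have g0 := mul_nonneg z.le (h.gain_nonneg p hw (Nat.le_succ i) hi z)
    have ge : lg (ms w (pr (c.W i) p) o / ms w (pr (c.W (i + 1)) (pr (c.W i) p)) o) =
        c.gain w p i (i + 1) o := by rw [← e]; rfl
    simp only [res, ge]
    split_ifs with m1 m2 m2
    · rw [mul_zero, zero_mul]
    · rw [mul_zero]; exact g0
    · refine absurd ?_ m1
      obtain ⟨a1, a2, o', a3, a4, a5, a6⟩ := m2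
      rw [← e] at a2 a6
      refine ⟨⟨a1.2, th _ _ a2⟩, o', a4.1, congrArg Prod.fst a3, congrArg Prod.snd a3, a5, a4.2, ?_⟩
      rw [← ms_det (w := w) _ _ _ a3] at a6
      exact th _ _ a6
    · exact le_rfl
  have l2 : E (res w fun o => ¬ (0 < w o ∧ c.clean i o)) (fun o => lg (c.N i o / c.N (i + 1) o)) =
      E w (fun o => if c.clean i o then 0 else lg (c.N i o / c.N (i + 1) o)) := by
    refine sum_congr rfl fun o _ => ?_
    rcases (hw o).eq_or_lt with z | z
    · simp [res, ← z]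
    · by_cases a : c.clean i o <;> simp [res, z, a]
  have l3 : (c.S ^ 4)⁻¹ * c.S ^ 3 * lg (c.S ^ 3) ≤ 3 := by
    have e3 : lg (c.S ^ 3) = 3 * lg c.S := by simp [lg, Real.logb_pow]
    have := lg_le_self hS.le
    rw [e3, mul_assoc, inv_mul_le_iff₀ (by positivity)]
    nlinarith [pow_pos hS 3]
  have l4 := mul_le_mul_of_nonneg_right l3 (tot_nonneg hw)
  linarith

/-- G1 -/
theorem Ok.gain_unmarked (h : c.Ok Λ L) (hw : Nn w) {n : ℕ} (hn : n ≤ L) :
    E w (fun o => ∑ i ∈ range n, if c.mkd w p i o then 0 else c.gain w p i (i + 1) o) ≤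
      2 * E w (fun o => lg (c.thr 0 / c.N 0 o)) + 5 * E w (c.ovs n) +
        2 * lg c.S * ∑ i ∈ range n, tot (res w (c.slot i)) + 6 * n * tot w := by
  have a := sum_le_sum fun i (hi : i ∈ range n) => h.gain_row p hw ((mem_range.1 hi).trans_le hn)
  rw [sum_add_distrib, ← E_sum, sum_const, card_range, nsmul_eq_mul] at a
  have b := E_mono hw fun o _ => h.unclean hn o
  rw [E_add, E_add, E_mul, E_mul, E_mul, E_sum, E_sum] at b
  have e : ∀ i, E w (fun o => if c.slot i o then (1 : ℝ) else 0) = tot (res w (c.slot i)) :=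
    fun i => E_ind _
  rw [sum_congr rfl fun i _ => e i] at b
  linarith

/-- G3 in one expectation -/
theorem Ok.g3 (h : c.Ok Λ L) (hw : Nn w) {i j : ℕ} (hij : i ≤ j) (hj : j ≤ L) (A : Ω → Prop) :
    E (res w A) (c.gain w p i j) ≤
      E (res w A) (fun o => 2 * ((j : ℝ) - i) * lg c.S + ∑ l ∈ Ico i j, c.ov l o) + tot w := by
  rw [E_add, E_const]
  exact h.gain_ev p hw hij hj A

omit [Fintype Ω] in
theorem Ok.ovs_mono (h : c.Ok Λ L) {n n' : ℕ} (hn : n ≤ n') (hL : n' ≤ L) (o : Ω) :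
    c.ovs n o ≤ c.ovs n' o :=
  sum_le_sum_of_subset_of_nonneg (range_mono hn) fun _ hi _ =>
    h.ov_nonneg ((mem_range.1 hi).trans_le hL) o

/-- G1 for a good root -/
theorem Ok.g1 (h : c.Ok Λ L) (hw : Nn w) (h0 : ∀ o, c.good 0 o) {n : ℕ} (hn : n ≤ L) :
    E w (fun o => ∑ i ∈ range n, if c.mkd w p i o then 0 else c.gain w p i (i + 1) o) ≤
      5 * E w (c.ovs L) + 2 * lg c.S * ∑ i ∈ range L, tot (res w (c.slot i)) +
        (2 * lg c.S + 6 * L) * tot w := by
  have a := h.gain_unmarked p hw hn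
  have b := E_le_const hw fun o _ => h.pot_le (Nat.zero_le L) (h0 o)
  have d := E_mono hw fun o _ => h.ovs_mono hn le_rfl o
  have e : ∑ i ∈ range n, tot (res w (c.slot i)) ≤ ∑ i ∈ range L, tot (res w (c.slot i)) :=
    sum_le_sum_of_subset_of_nonneg (range_mono hn) fun i _ _ => tot_nonneg (hw.res _)
  have f := mul_le_mul_of_nonneg_left e (show 0 ≤ 2 * lg c.S by linarith [h.one_le_lg])
  have g : (n : ℝ) * tot w ≤ L * tot w :=
    mul_le_mul_of_nonneg_right (Nat.cast_le.2 hn) (tot_nonneg hw)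
  linarith

/-- G2 -/
theorem gain_ge (hw : Nn w) {n : ℕ} {K : ℝ} (hK : 1 ≤ K)
    (h0 : ∀ o o', c.W 0 o = c.W 0 o') {Z : Finset Pt} (hp : ∀ o, p o ∈ Z) (hZ : (#Z : ℝ) ≤ K)
    (hm : ∀ o, 0 < w o → c.mu w p n o ≤ c.thr n) :
    (lg (tot w / K) - lg (c.thr n)) * tot w ≤ E w (c.gain w p 0 n) := by
  have a := H_le_card hw (f := p) (g := un) hK fun o _ => le_trans (Nat.cast_le.2
    (card_le_card fun v hv => by obtain ⟨o', -, -, rfl⟩ := mem_vals.1 hv; exact hp o')) hZ
  have e : c.mu w p 0 = ms w (pr p un) :=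
    ms_congr (Det.snd.pr Det.un) (Det.pr (fun o o' _ => h0 o o') Det.fst)
  have b : E w (fun o => (lg (tot w / K) + lg K - lg (c.thr n)) -
      lg (ms w un o / ms w (pr p un) o)) ≤ E w (c.gain w p 0 n) := by
    refine E_mono hw fun o ho => ?_
    have p0 : 0 < tot w := ms_un (w := w) o ▸ ms_pos hw un ho
    have p1 := mu_pos (c := c) p hw 0 ho
    have p2 := mu_pos (c := c) p hw n ho
    have := lg_mono p2 (hm o ho)
    unfold gain
    rw [← e, ms_un, lg_div p0 p1, lg_div p1 p2, lg_div p0 (by linarith)]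
    linarith
  rw [E_sub, E_const] at b
  unfold H at a
  linarith

end TT

/-- items with one point and one window are at most as many as the atoms of the window -/
theorem Geo.Ok.mu_le {Ω : Type} [Fintype Ω] {G : Geo Ω} {c : TT Ω} {L i : ℕ} (hG : G.Ok c L)
    (hi : i ≤ L) {w : Ω → ℝ} (hw : ∀ o, w o ≤ 1) (o : Ω) : c.mu w G.pt i o ≤ c.N i o := by
  have e0 : c.mu w G.pt i o =
      ∑ x ∈ univ.filter fun x => pr (c.W i) G.pt x = pr (c.W i) G.pt o, w x := by
    rw [sum_filter]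
    exact sum_congr rfl fun x _ => by congr
  rw [e0]
  unfold TT.N
  refine (sum_le_card_nsmul _ _ 1 fun x _ => hw x).trans ?_
  rw [nsmul_eq_mul, mul_one, ← Nat.card_Ico, Nat.cast_le]
  refine card_le_card_of_injOn G.atm (fun x hx => ?_) fun x hx y hy e => ?_
  · have e : c.W i x = c.W i o := congrArg Prod.fst (mem_filter.1 (mem_coe.1 hx)).2
    have e1 : c.lo i x = c.lo i o := congrArg Prod.fst e
    have e2 : c.hi i x = c.hi i o := congrArg Prod.snd e
    have := hG.win i hi x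
    exact mem_coe.2 (mem_Ico.2 ⟨e1 ▸ this.1, e2 ▸ this.2⟩)
  · have e1 : G.pt x = G.pt o := congrArg Prod.snd (mem_filter.1 (mem_coe.1 hx)).2
    have e2 : G.pt y = G.pt o := congrArg Prod.snd (mem_filter.1 (mem_coe.1 hy)).2
    exact hG.inj x y e (e1.trans e2.symm)

end Pool.Agent.Lib.MP_d308c3_co.K
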