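import Pool.Agent.Lib.MP_108739_an.F.Ent1
import Pool.Agent.Lib.MP_d308c3_co.K.Defs

set_option autoImplicit false

/-! The total gain along the time tree is large (G2). -/

namespace Pool.Agent.Lib.MP_d308c3_co.K

open Finset Pool.Agent.Lib.MP_108739_an.F
open scoped Classical

/-- (G2) -/
theorem gain_low {Ω : Type} [Fintype Ω] (c : TT Ω) (p : Ω → Pt) {w : Ω → ℝ} {Λ y : ℝ} {L i : ℕ}
    (hw : Nn w) (ht : 0 < tot w) (hc : c.Ok Λ L) (h0 : ∀ o o', c.W 0 o = c.W 0 o') (hi : i ≤ L)
    (hmu : ∀ o, c.mu w p i o ≤ c.N i o) (hcard : (#(univ.image p) : ℝ) * c.th ^ y ≤ tot w) :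
    (y * lg c.th - lg (c.thr i)) * tot w ≤ E w (c.gain w p 0 i) := by
  have h2 := hc.two
  have hth : 0 < c.th := by
    have := hc.big
    unfold TT.thr at this
    rw [le_div_iff₀ (by positivity)] at this
    exact lt_of_lt_of_le (by positivity) this
  have hne : (univ.image p).Nonempty := by
    by_contra hn
    rw [not_nonempty_iff_eq_empty, image_eq_empty, univ_eq_empty_iff] at hn
    simp [tot] at ht
  have hT : (0 : ℝ) < #(univ.image p) := by exact_mod_cast hne.card_pos
  have h1 := H_le_mem hw (τ := p) (fun o => mem_image_of_mem p (mem_univ o)) (un : Ω → Unit)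
  have e1 : ms w (pr p un) = ms w (pr (c.W 0) p) :=
    ms_congr (Det.pr (fun o o' _ => h0 o o') Det.fst) (Det.snd.pr Det.un)
  have h3 : lg #(univ.image p) + y * lg c.th ≤ lg (tot w) := by
    have := lg_mono (by positivity) hcard
    rw [lg_mul hT (by positivity)] at this
    have e : lg (c.th ^ y) = y * lg c.th := by
      unfold lg
      rw [Real.logb_rpow_eq_mul_logb_of_pos hth]
    linarith
  have h4 : E w (fun o => (lg (tot w) - lg (c.thr i)) - lg (ms w un o / ms w (pr p un) o)) ≤
      E w (c.gain w p 0 i) := by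
    refine E_mono hw fun o ho => ?_
    have a0 := ms_pos hw (pr (c.W 0) p) ho
    have a1 := ms_pos hw (pr (c.W i) p) ho
    have a2 := lg_mono a1 ((hmu o).trans (hc.size i hi o))
    unfold TT.gain TT.mu
    rw [ms_un, e1, lg_div ht a0, lg_div a0 a1]
    linarith
  rw [E_sub, E_const] at h4
  have h5 := mul_le_mul_of_nonneg_right h3 ht.le
  unfold H at h1
  nlinarith

/-- (G2) with the threshold written out -/
theorem gain_low' {Ω : Type} [Fintype Ω] (c : TT Ω) (p : Ω → Pt) {w : Ω → ℝ} {Λ y : ℝ} {L i : ℕ}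
    (hw : Nn w) (ht : 0 < tot w) (hc : c.Ok Λ L) (h0 : ∀ o o', c.W 0 o = c.W 0 o') (hi : i ≤ L)
    (hmu : ∀ o, c.mu w p i o ≤ c.N i o) (hcard : (#(univ.image p) : ℝ) * c.th ^ y ≤ tot w) :
    (i * (2 * lg c.S) - (1 - y) * lg c.th) * tot w ≤ E w (c.gain w p 0 i) := by
  have h2 := hc.two
  have hth : 0 < c.th := by
    have := hc.big
    unfold TT.thr at this
    rw [le_div_iff₀ (by positivity)] at this
    exact lt_of_lt_of_le (by positivity) this
  have e : lg (c.thr i) = lg c.th - i * (2 * lg c.S) := by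
    unfold TT.thr
    rw [lg_div hth (by positivity)]
    unfold lg
    rw [Real.logb_pow, Real.logb_pow]
    push_cast
    ring
  have := gain_low c p hw ht hc h0 hi hmu hcard
  rw [e] at this
  exact le_of_eq_of_le (by ring) this

end Pool.Agent.Lib.MP_d308c3_co.K
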