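import Pool.Agent.Lib.MP_d308c3_co.K.Defs

/-! The numerical conditions of the window lemma. -/

set_option autoImplicit false

namespace Pool.Agent.Lib.MP_d308c3_co.K

open Pool.Agent.Lib.MP_108739_an.F

/-- the constants of one window; `m = g * m'`, `K0 = m * φ` -/
structure LocNum (Λ S η : ℝ) (U k0 Hn g : ℕ) (η' : ℝ) (φ : ℕ) (e τ ed r0 P : ℝ)
    (Jb g0 s m' : ℕ) : Prop where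
  e1 : 0 < η'
  e2 : η' ≤ 1 / 2
  f1 : 1 ≤ φ
  m1 : 1 ≤ m'
  pe : 0 < e
  pt : 0 < τ
  pd : 0 < ed
  r0_pos : 0 < r0
  r0_le : r0 ≤ 1 / 2
  P1 : 2 ≤ r0 * P
  P2 : 4096 * Λ ≤ P
  P3 : (Jb : ℝ) ≤ P
  J1 : 1 ≤ Jb
  g1 : 10 ≤ g0
  g2 : 2 * P ≤ r0 * 2 ^ g0
  g3 : g ≤ g0
  s1 : g0 + 1 ≤ s
  s2 : 4 * P ^ 2 ≤ r0 * 2 ^ s
  n1 : 200 * ((k0 : ℝ) * m' * U) + 21 + 2 * lg (g * m') + 2 * lg (1 / η) + 4 * g * lg S ≤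
    4 * (g * m' * U * lg S)
  n2 : 40 * (φ : ℝ) * (1 + k0 * m' * U * lg (2 * g * Hn ^ 2 + 2)) ≤ g * m' * U * lg S
  n3 : 8 * (g : ℝ) * φ * k0 * Hn ^ 2 * (e * S ^ 4 + 3 * S ^ 2 * e / η +
    (16 * ed + 16 / Jb) / (τ * e * e) + 9 * r0 + 216 * r0 / (ed * (τ * e * e)) +
    20000 * S ^ (6 * g) * Λ * τ) ≤ 1
  n4 : 4 * lg S * (24 * Hn ^ 2 * s / (ed * (τ * e * e))) * (g0 + 1) * φ * (2 * k0 + 5) ≤ m'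
  n6 : 4 * (k0 : ℝ) * U * lg S * (50 * S ^ 2 / (η * lg (1 / η')) + 20 / (η' * φ)) *
    (2 * k0 + 5) ≤ 1

def LocNumSt : Prop :=
  ∀ (Λ S η : ℝ) (U k0 Hn : ℕ), 1 ≤ Λ → 2 ≤ S → 0 < η → η ≤ 1 → 1 ≤ U → 2 ≤ k0 → 1 ≤ Hn →
  ∃ g1 : ℕ, 1 ≤ g1 ∧ ∀ g : ℕ, g1 ≤ g → ∃ (η' : ℝ) (φ : ℕ) (e τ ed r0 P : ℝ) (Jb g0 s m' : ℕ),
    LocNum Λ S η U k0 Hn g η' φ e τ ed r0 P Jb g0 s m'

end Pool.Agent.Lib.MP_d308c3_co.K
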