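import Pool.Agent.Lib.MP_d308c3_co.K.St
import Pool.Agent.Lib.MP_d308c3_co.K.End
import Pool.Agent.Lib.MP_d308c3_co.K.CellSum
import Pool.Agent.Lib.MP_d308c3_co.K.LocNumSt
import Pool.Agent.Lib.MP_d308c3_co.Cell.Supp

/-! The window lemma from the column path, the columns and the sum over cells. -/

set_option autoImplicit false

namespace Pool.Agent.Lib.MP_d308c3_co.K

open Finset Pool.Agent.Lib.MP_108739_an.F
open scoped Classical

namespace LocA

variable {Ω : Type} [Fintype Ω] {w : Ω → ℝ}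

theorem E_res_eq (A : Ω → Prop) (F : Ω → ℝ) :
    E (res w A) F = E w fun o => if A o then F o else 0 := by
  unfold E res
  exact sum_congr rfl fun o _ => by by_cases h : A o <;> simp [h]

/-- code length of the last node of a window with one root -/
theorem bud (G3 : G3St) (Hd : HndP) (hw : Nn w) {d : Loc Ω} {Λ η : ℝ} (hd : d.Ok w Λ η)
    (hr : d.Root w) : H w (d.nd d.m) un ≤
      (2 * d.Gr + 4 * d.m * d.U) * lg d.S * tot w + E w (d.ovs (d.lev d.m)) := by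
  have b1 : d.Gr ≤ d.lev d.m := Nat.le_add_right _ _
  have h1 := H_tri hw (d.nd d.m) (d.nd 0) (un : Ω → Unit)
  have h2 : H w (d.nd d.m) (pr (d.nd 0) un) ≤ H w (d.nd d.m) (d.nd 0) := H_mono hw Det.fst Det.fst
  have h3 := (Hd Ω d w Λ η (fun _ => True) hw hd).2
  have e1 : res w (fun _ => True) = w := by funext o; simp [res]
  rw [e1] at h3
  have h4 := (G3 Ω d.toTT w Λ _ 0 d.Gr hw hd.tt (Nat.zero_le _) b1).2
  have h5 : H w (d.nd 0) un ≤ H w (d.W d.Gr) (d.W 0) := by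
    refine Cell.H_monoS hw (fun o o' ho ho' e => Prod.ext ?_ (hr o o' ho ho').2)
      fun o o' ho ho' _ => (hr o o' ho ho').1
    have : d.lev 0 = d.Gr := by simp [Loc.lev]
    change d.W (d.lev 0) o = d.W (d.lev 0) o'
    rw [this]
    exact congrArg Prod.fst e
  have h6 : E w (fun o => ∑ k ∈ Ico 0 d.Gr, d.ov k o) +
      E w (fun o => ∑ k ∈ Ico d.Gr (d.lev d.m), d.ov k o) = E w (d.ovs (d.lev d.m)) := by
    rw [← E_add]
    refine congrArg (E w) (funext fun o => ?_)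
    rw [sum_Ico_consecutive _ (Nat.zero_le _) b1, ← range_eq_Ico]
    rfl
  rw [Nat.sub_zero] at h4
  linarith

/-- sum over the selected columns -/
theorem sel_sum (hw : Nn w) (C : Col Ω) (K0 m : ℕ) (hc : ∀ o, C.nsel K0 o ≤ m) (A : Ω → Prop)
    {F : Ω → ℝ} (hF : ∀ o, 0 < w o → 0 ≤ F o) :
    ∑ x ∈ (univ : Finset Bool) ×ˢ range K0, E (res w fun o => C.sel x o ∧ A o) F ≤ m * E w F := by
  simp only [E_res_eq]
  rw [← E_sum, ← E_mul]
  refine E_mono hw fun o ho => ?_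
  refine (sum_le_sum (g := fun x => if C.sel x o then F o else 0) fun x _ => ?_).trans ?_
  · have := hF o ho
    by_cases a : C.sel x o <;> by_cases b : A o <;> simp [a, b, this]
  rw [← sum_filter, sum_const, nsmul_eq_mul]
  exact mul_le_mul_of_nonneg_right (by exact_mod_cast hc o) (hF o ho)

theorem sel_pos (C : Col Ω) (K0 : ℕ) (Z : Ω → ℝ) :
    ∑ x ∈ (univ : Finset Bool) ×ˢ range K0, E (res w fun o => C.sel x o ∧ 0 < Z o) Z =
      E w fun o => C.nsel K0 o * max 0 (Z o) := by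
  simp only [E_res_eq]
  rw [← E_sum]
  refine congrArg (E w) (funext fun o => ?_)
  unfold Col.nsel
  rw [← nsmul_eq_mul, ← sum_const, sum_filter]
  refine sum_congr rfl fun x _ => ?_
  by_cases a : C.sel x o
  · by_cases b : 0 < Z o
    · simp [a, b, max_eq_right b.le]
    · simp [a, b, max_eq_left (not_lt.1 b)]
  · simp [a]

/-- the final linear arithmetic -/
theorem arith {z y t ov fl m m' g φ k U ℓ nb Gr c1 c2 c3 ζ c4 g0 κ Hn cs bd hW hN tF : ℝ}
    (ht : 0 ≤ t) (hov : 0 ≤ ov) (hfl : 0 ≤ fl) (hm' : 1 ≤ m') (hg : 1 ≤ g) (hφ : 1 ≤ φ)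
    (hk : 2 ≤ k) (hU : 1 ≤ U) (hℓ : 1 ≤ ℓ) (em : m = g * m') (eG : Gr = (k - 1) * m * U)
    (hζ : 0 ≤ ζ + c3) (hc4 : 0 ≤ c4) (hg0 : 0 ≤ g0) (hκ : 0 ≤ κ)
    (n1 : 2 * c1 + 4 * g * ℓ + 1 ≤ 12 * (m * U * ℓ)) (n2 : 4 * φ * c2 ≤ m * U * ℓ)
    (n3 : 8 * g * φ * k * Hn ^ 2 * (ζ + c3) ≤ 1)
    (n4 : 4 * ℓ * c4 * (g0 + 1) * φ * (2 * k + 5) ≤ m') (n6 : 4 * k * U * ℓ * κ * (2 * k + 5) ≤ 1)
    (h1 : m * z ≤ 2 * y + m * (Gr * (2 * ℓ) * tF + ov + t)) (h2 : m * tF ≤ 2 * bd)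
    (h3 : bd = fl + κ * (hN + 3 * t)) (h4 : hN ≤ (2 * Gr + 4 * m * U) * ℓ * t + ov)
    (h5 : hW ≤ hN)
    (h6 : y ≤ m * ov + (c1 + 2 * g * ℓ) * (m * t) + 2 * (m * φ) * (c2 * t) +
      2 * g * ℓ * (cs + 2 * (m * φ) * Gr * Hn ^ 2 * (c3 * t)))
    (h7 : cs ≤ 2 * (m * φ) * Gr * Hn ^ 2 * ζ * t + c4 * ((g0 + 1) * hW + m * φ * g0 * t))
    (_hnb : nb = nb) :
    z ≤ 20 * (m * U * ℓ) * t + 10 * ov + 10 * (k * U * (2 * ℓ)) * fl := by
  have m1 : 1 ≤ m := by rw [em]; nlinarith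
  have m0 : 0 < m := by linarith
  set X := m * U * ℓ with hX
  have x1 : m ≤ X := by
    have : 1 ≤ U * ℓ := by nlinarith
    rw [hX]; nlinarith
  have B : hN + 3 * t ≤ (2 * k + 5) * (X * t + ov) := by
    have e : (2 * Gr + 4 * m * U) * ℓ * t = (2 * k + 2) * (X * t) := by rw [eG, hX]; ring
    have a : t ≤ X * t := by nlinarith
    nlinarith
  have hY : 0 ≤ X * t + ov := by positivity
  -- the light part
  have p1 : Gr * (2 * ℓ) * tF ≤ 4 * k * U * ℓ * fl + (X * t + ov) := by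
    have a0 : 0 ≤ (k - 1) * U * (2 * ℓ) := by
      have : 0 ≤ k - 1 := by linarith
      positivity
    have a1 : Gr * (2 * ℓ) * tF = (k - 1) * U * (2 * ℓ) * (m * tF) := by rw [eG]; ring
    have a2 := mul_le_mul_of_nonneg_left h2 a0
    have a3 : bd ≤ fl + κ * ((2 * k + 5) * (X * t + ov)) := by
      rw [h3]
      have := mul_le_mul_of_nonneg_left B hκ
      linarith
    have a4 := mul_le_mul_of_nonneg_left a3 a0
    have a5 := mul_le_mul_of_nonneg_right n6 hY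
    have a6 : 0 ≤ U * ℓ * fl := by positivity
    have a7 : 0 ≤ U * ℓ * (κ * ((2 * k + 5) * (X * t + ov))) := by positivity
    nlinarith
  -- the cells
  have p2 : 4 * g * ℓ * (2 * (m * φ) * Gr * Hn ^ 2 * ((ζ + c3) * t)) ≤ m * (X * t) := by
    have a1 : 4 * g * ℓ * (2 * (m * φ) * Gr * Hn ^ 2 * ((ζ + c3) * t)) =
        8 * g * φ * (k - 1) * Hn ^ 2 * (ζ + c3) * (m * (X * t)) := by rw [eG, hX]; ring
    have a2 : 0 ≤ 8 * g * φ * Hn ^ 2 * (ζ + c3) := by positivity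
    have a3 : 8 * g * φ * (k - 1) * Hn ^ 2 * (ζ + c3) ≤ 1 := by nlinarith
    rw [a1]
    exact mul_le_of_le_one_left (by positivity) a3
  have p3 : 4 * g * ℓ * (c4 * ((g0 + 1) * hW)) ≤ m * (X * t + ov) := by
    have a0 : 0 ≤ 4 * g * ℓ * c4 * (g0 + 1) := by positivity
    have a1 : hW ≤ (2 * k + 5) * (X * t + ov) := by linarith
    have a2 := mul_le_mul_of_nonneg_left a1 a0
    have a3 : 4 * ℓ * c4 * (g0 + 1) * (2 * k + 5) ≤ m' := by
      have : 0 ≤ 4 * ℓ * c4 * (g0 + 1) * (2 * k + 5) := by positivity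
      nlinarith
    have a4 := mul_le_mul_of_nonneg_right a3 (show 0 ≤ g * (X * t + ov) by positivity)
    rw [em]
    linarith
  have p4 : 4 * g * ℓ * (c4 * (m * φ * g0 * t)) ≤ m * (X * t) := by
    have a3 : 4 * ℓ * c4 * g0 * φ ≤ m' := by
      have b1 : 0 ≤ 4 * ℓ * c4 * φ := by positivity
      have b2 : g0 ≤ (g0 + 1) * (2 * k + 5) := by nlinarith
      nlinarith
    have a4 := mul_le_mul_of_nonneg_right a3 (show 0 ≤ g * (m * t) by positivity)
    have a5 : m' * (g * (m * t)) = m * (m * t) := by rw [em]; ring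
    have a6 : m * (m * t) ≤ m * (X * t) :=
      mul_le_mul_of_nonneg_left (mul_le_mul_of_nonneg_right x1 ht) m0.le
    nlinarith
  have p5 := mul_le_mul_of_nonneg_right n1 (show 0 ≤ m * t by positivity)
  have p6 := mul_le_mul_of_nonneg_right n2 (show 0 ≤ m * t by positivity)
  have p7 := mul_le_mul_of_nonneg_left h7 (show 0 ≤ 4 * g * ℓ by positivity)
  have p8 := mul_le_mul_of_nonneg_left p1 m0.le
  have p9 : 0 ≤ m * (k * U * ℓ * fl) := by positivity
  have p10 : 0 ≤ m * ov := by positivity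
  have p11 : 0 ≤ m * (X * t) := by positivity
  refine le_of_mul_le_mul_left ?_ m0
  nlinarith

end LocA

open LocA in
theorem locA (Nm : LocNumSt) (G3 : G3St) (Hd : HndP) (Rw : RowSt) (Cl : ColP) (Pa : PathP) :
    LocP true := by
  intro δ Λ S η U k0 hδ hΛ hS hη hη1 hU hk
  set Hn : ℕ := ⌈S ^ 3⌉₊ with hHn
  have hH1 : S ^ 3 ≤ Hn := Nat.le_ceil _
  have hH2 : 1 ≤ Hn := Nat.ceil_pos.2 (by positivity)
  obtain ⟨g1, hg1, Nm⟩ := Nm Λ S η U k0 Hn hΛ hS hη hη1 hU hk hH2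
  refine ⟨g1, hg1, fun g hg => ?_⟩
  obtain ⟨η', φ, e, τ, ed, r0, P, Jb, g0, s, m', N⟩ := Nm g hg
  have g1' : 1 ≤ g := hg1.trans hg
  have mp : 1 ≤ g * m' := Nat.mul_pos g1' N.m1
  refine ⟨g * m', mp, dvd_mul_right _ _, fun Ω _ d w hw eS eU em eG hd hr => ?_⟩
  replace hr := hr rfl
  subst eS eU
  have b1 : d.Gr ≤ d.lev d.m := Nat.le_add_right _ _
  obtain ⟨R, hR⟩ := Rw Ω d.toTT w Λ _ d.Gr Hn inferInstance hd.tt b1 hH1
  obtain ⟨C, hC⟩ := Cl Ω d w Λ η η' (g * m' * φ) hw hη hη1 N.e1 N.e2 (Nat.mul_pos mp N.f1) hd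
  have hA0 : Arr.Ok ⟨d, R, C, P, g0, 0⟩ w Λ η Hn (g * m' * φ) _ := ⟨hw, hΛ, ⟨hη, hη1⟩, hd, hR, hC⟩
  have hN0 : Arr.Num (⟨d, R, C, P, g0, 0⟩ : Arr Ω) Λ r0 s Jb :=
    ⟨N.r0_pos, N.r0_le, N.P1, N.P2, N.P3, N.J1, N.g1, N.g2, N.s1, N.s2⟩
  obtain ⟨σ, hσ⟩ := CellB.cell_sum hA0 hN0 d.Gr N.pt N.pe N.pd
  have hA := CellB.off_ok hA0 σ
  have hN := CellB.off_num hN0 σ
  set A := CellB.off (⟨d, R, C, P, g0, 0⟩ : Arr Ω) σ with hAd
  set nb := (k0 - 1) * m' * d.U with hnb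
  have eG' : d.Gr = nb * g := by rw [eG, hnb]; ring
  have eq : d.Gr / g = nb := by rw [eG', Nat.mul_div_cancel _ g1']
  rw [eq]
  have hℓ : 1 ≤ lg d.S := by
    have := lg_mono two_pos hS
    rwa [lg_two] at this
  set Z : Ω → ℝ := fun o => d.gain w d.p 0 d.Gr o - 2 * g * lg d.S * d.unm w d.p g nb o with hZ
  have ovn : ∀ o, 0 ≤ d.ovs (d.lev d.m) o := fun o =>
    sum_nonneg fun i hi => End.ov_nonneg hd.tt (mem_range.1 hi) o
  have ht := tot_nonneg hw
  set X := (univ : Finset Bool) ×ˢ range (g * m' * φ) with hX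
  have cX : (#X : ℝ) = 2 * ((g * m' : ℕ) * φ) := by
    rw [hX, card_product, card_range]; simp
  set c1 : ℝ := 100 * nb + 10 + lg d.m + lg (1 / η) + 4 * d.m * d.U * lg d.S with hc1
  set c2 : ℝ := 10 + 10 * nb * lg (2 * g * Hn ^ 2 + 2) with hc2
  set c3 : ℝ := 20000 * d.S ^ (6 * g) * Λ * τ with hc3
  have mR : (1 : ℝ) ≤ d.m := by rw [em]; exact_mod_cast mp
  have c1n : 0 ≤ c1 := by
    have a1 : 0 ≤ lg (d.m : ℝ) := lg_nonneg mR
    have a2 : 0 ≤ lg (1 / η) := lg_nonneg (by rw [le_div_iff₀ hη]; linarith)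
    positivity
  -- the column paths
  have h6 : E w (fun o => C.nsel (g * m' * φ) o * max 0 (Z o)) ≤
      d.m * E w (d.ovs (d.lev d.m)) + (c1 + 2 * g * lg d.S) * (d.m * tot w) +
        2 * ((g * m' : ℕ) * φ) * (c2 * tot w) + 2 * g * lg d.S *
          (CellB.cs d.Gr Hn (g * m' * φ) (CellB.bad A w Λ Jb τ) +
            2 * ((g * m' : ℕ) * φ) * d.Gr * Hn ^ 2 * (c3 * tot w)) := by
    rw [← sel_pos]
    have a1 : ∀ x ∈ X, E (res w fun o => C.sel x o ∧ 0 < Z o) Z ≤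
        E (res w fun o => C.sel x o ∧ 0 < Z o) (d.ovs (d.lev d.m)) +
        (c1 + 2 * g * lg d.S) * E (res w fun o => C.sel x o ∧ 0 < Z o) (fun _ => 1) +
        c2 * tot w + 2 * g * lg d.S * (∑ r ∈ range d.Gr, ∑ h ∈ range Hn ×ˢ range Hn,
          CellB.bad A w Λ Jb τ r h x + d.Gr * Hn ^ 2 * (c3 * tot w)) := fun x _ => by
      have p := Pa Ω A w Λ η _ r0 τ Hn _ s Jb g nb hA hN hr N.pt.le g1' N.g3 eG' x
        (fun o => C.sel x o ∧ 0 < Z o) fun o h => h.1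
      have e1 : E (res w fun o => C.sel x o ∧ 0 < Z o) (fun o => A.d.gain w A.d.p 0 A.d.Gr o -
          2 * g * lg A.d.S * (1 + A.d.unm w A.d.p g nb o)) =
          E (res w fun o => C.sel x o ∧ 0 < Z o) Z -
            2 * g * lg d.S * tot (res w fun o => C.sel x o ∧ 0 < Z o) := by
        rw [← E_const, ← E_sub]
        refine congrArg (E _) (funext fun o => ?_)
        change d.gain w d.p 0 d.Gr o - 2 * g * lg d.S * (1 + d.unm w d.p g nb o) = _
        simp only [hZ]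
        ring
      have e2 : ∑ r ∈ range A.d.Gr, ∑ h ∈ range Hn ×ˢ range Hn,
          (tot (res w fun o => (C.sel x o ∧ 0 < Z o) ∧ A.mkc r h w o ∧ ¬ A.sat r h x w Λ Jb τ o) +
            20000 * A.d.S ^ (6 * g) * Λ * τ * tot w) ≤
          ∑ r ∈ range d.Gr, ∑ h ∈ range Hn ×ˢ range Hn, CellB.bad A w Λ Jb τ r h x +
            d.Gr * Hn ^ 2 * (c3 * tot w) := by
        have e3 : (d.Gr : ℝ) * Hn ^ 2 * (c3 * tot w) =
            ∑ _r ∈ range d.Gr, ∑ _h ∈ range Hn ×ˢ range Hn, c3 * tot w := by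
          simp only [sum_const, card_product, card_range, nsmul_eq_mul]
          push_cast
          ring
        rw [e3, ← sum_add_distrib]
        refine sum_le_sum fun r _ => ?_
        rw [← sum_add_distrib]
        exact sum_le_sum fun h _ =>
          add_le_add (tot_res_mono hw fun o _ a => ⟨a.1.1, a.2⟩) le_rfl
      have e4 := mul_le_mul_of_nonneg_left e2 (show 0 ≤ 2 * g * lg d.S by positivity)
      rw [e1] at p
      rw [E_const, one_mul]
      have p' : E (res w fun o => C.sel x o ∧ 0 < Z o) Z -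
          2 * g * lg d.S * tot (res w fun o => C.sel x o ∧ 0 < Z o) ≤
          E (res w fun o => C.sel x o ∧ 0 < Z o) (d.ovs (d.lev d.m)) +
          c1 * tot (res w fun o => C.sel x o ∧ 0 < Z o) + c2 * tot w +
          2 * g * lg d.S * ∑ r ∈ range A.d.Gr, ∑ h ∈ range Hn ×ˢ range Hn,
          (tot (res w fun o => (C.sel x o ∧ 0 < Z o) ∧ A.mkc r h w o ∧ ¬ A.sat r h x w Λ Jb τ o) +
            20000 * A.d.S ^ (6 * g) * Λ * τ * tot w) := p
      linarith
    refine (sum_le_sum a1).trans ?_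
    rw [sum_add_distrib, sum_add_distrib, sum_add_distrib, ← mul_sum, ← mul_sum, ← mul_sum,
      sum_add_distrib, sum_const, sum_const, nsmul_eq_mul, nsmul_eq_mul, cX]
    have a2 := sel_sum hw C _ _ hC.cnt (fun o => 0 < Z o) fun o _ => ovn o
    have a3 := sel_sum hw C _ _ hC.cnt (fun o => 0 < Z o) (F := fun _ => 1) fun _ _ => zero_le_one
    rw [E_const (w := w), one_mul] at a3
    have a4 := mul_le_mul_of_nonneg_left a3 (show 0 ≤ c1 + 2 * g * lg d.S by positivity)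
    unfold CellB.cs
    linarith
  -- few selected columns
  set Fw : Ω → Prop := fun o => (d.m : ℝ) / 2 ≤ d.m - C.nsel (g * m' * φ) o with hFw
  have h2 := (markov hw (F := fun o => (d.m : ℝ) - C.nsel (g * m' * φ) o)
    (fun o _ => sub_nonneg.2 (by exact_mod_cast hC.cnt o)) (d.m / 2)).trans hC.mass
  have h1 : d.m * E w (fun o => max 0 (Z o)) ≤
      2 * E w (fun o => C.nsel (g * m' * φ) o * max 0 (Z o)) +
        d.m * (d.Gr * (2 * lg d.S) * tot (res w Fw) + E w (d.ovs (d.lev d.m)) + tot w) := by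
    have a1 := (G3 Ω d.toTT w Λ _ 0 d.Gr hw hd.tt (Nat.zero_le _) b1).1 d.p Fw
    have a2 : E (res w Fw) (fun o => ∑ k ∈ Ico 0 d.Gr, d.ov k o) ≤ E w (d.ovs (d.lev d.m)) := by
      refine (E_mono (hw.res _) fun o _ => ?_).trans (E_res_le hw Fw fun o _ => ovn o)
      rw [← range_eq_Ico]
      exact sum_le_sum_of_subset_of_nonneg (range_subset_range.2 b1) fun i hi _ =>
        End.ov_nonneg hd.tt (mem_range.1 hi) o
    rw [Nat.sub_zero] at a1
    have a3 : d.m * E w (fun o => max 0 (Z o)) ≤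
        2 * E w (fun o => C.nsel (g * m' * φ) o * max 0 (Z o)) +
          d.m * E (res w Fw) (d.gain w d.p 0 d.Gr) := by
      rw [E_res_eq, ← E_mul, ← E_mul, ← E_mul, ← E_add]
      refine E_mono hw fun o ho => ?_
      have q1 := le_max_left 0 (Z o)
      have q2 : (0 : ℝ) ≤ C.nsel (g * m' * φ) o := Nat.cast_nonneg _
      split_ifs with q
      · have q3 : max 0 (Z o) ≤ d.gain w d.p 0 d.Gr o :=
          max_le (End.gain_nonneg hw hd.tt _ ho (Nat.zero_le _) b1)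
            (sub_le_self _ (by positivity))
        nlinarith
      · have q3 : (d.m : ℝ) ≤ 2 * C.nsel (g * m' * φ) o := by
          have := not_le.1 q
          linarith
        nlinarith
    have a4 := mul_le_mul_of_nonneg_left (a1.trans (add_le_add (add_le_add le_rfl a2) le_rfl))
      (show (0 : ℝ) ≤ d.m by positivity)
    linarith
  have h4 := bud G3 Hd hw hd hr
  have h5 : H w (d.W d.Gr) un ≤ H w (d.nd d.m) un :=
    H_mono hw (Det.fst.trans (Det.fst.trans (Fib.W_det hd.tt b1 le_rfl))) Det.rfl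
  have gR : (1 : ℝ) ≤ g := by exact_mod_cast g1'
  have m'R : (1 : ℝ) ≤ m' := by exact_mod_cast N.m1
  have φR : (1 : ℝ) ≤ φ := by exact_mod_cast N.f1
  have kR : (2 : ℝ) ≤ k0 := by exact_mod_cast hk
  have UR : (1 : ℝ) ≤ d.U := by exact_mod_cast hU
  have emR : (d.m : ℝ) = g * m' := by rw [em]; push_cast; ring
  have eGR : (d.Gr : ℝ) = (k0 - 1) * d.m * d.U := by
    rw [eG, em]; push_cast [Nat.cast_sub (show 1 ≤ k0 by omega)]; ring
  have nbR : (nb : ℝ) ≤ k0 * m' * d.U := by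
    rw [hnb]; push_cast [Nat.cast_sub (show 1 ≤ k0 by omega)]
    have : (0 : ℝ) ≤ m' * d.U := by positivity
    nlinarith
  have := N.pe; have := N.pt; have := N.pd; have := N.r0_pos; have := N.e1
  have lη : 0 ≤ lg (1 / η') := lg_nonneg (by rw [le_div_iff₀ N.e1]; linarith [N.e2])
  have lH : 0 ≤ lg (2 * g * Hn ^ 2 + 2 : ℝ) := lg_nonneg (by
    have : (0 : ℝ) ≤ 2 * g * Hn ^ 2 := by positivity
    linarith)
  have fin := arith (z := E w fun o => max 0 (Z o)) (nb := nb) (tF := tot (res w Fw))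
    (fl := d.fail w) (c1 := c1) (c2 := c2) (c3 := c3) (g0 := g0) (Hn := Hn)
    (ζ := e * d.S ^ 4 + 3 * d.S ^ 2 * e / η + (16 * ed + 16 / Jb) / (τ * e * e) + 9 * r0 +
      216 * r0 / (ed * (τ * e * e)))
    (c4 := 24 * Hn ^ 2 * s / (ed * (τ * e * e)))
    (κ := 50 * d.S ^ 2 / (η * lg (1 / η')) + 20 / (η' * φ))
    (cs := CellB.cs d.Gr Hn (g * m' * φ) (CellB.bad A w Λ Jb τ))
    ht (E_nonneg hw fun o _ => ovn o) (sum_nonneg fun _ _ => tot_nonneg (hw.res _)) m'R gR φR kR UR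
    hℓ emR eGR (by positivity) (by positivity) (by positivity) (by positivity)
    (by have := N.n1; rw [hc1, emR]; linarith)
    (by
      have a := N.n2
      have b := mul_le_mul_of_nonneg_right nbR lH
      have c := mul_le_mul_of_nonneg_left b (show (0 : ℝ) ≤ 40 * φ by positivity)
      rw [hc2, emR]; linarith)
    N.n3 N.n4 N.n6 h1 (bd := d.fail w + (50 * d.S ^ 2 / (η * lg (1 / η')) + 20 / (η' * φ)) *
      (H w (d.nd d.m) un + 3 * tot w))
    (by
      have a : 20 * (d.m : ℝ) / (η' * (g * m' * φ : ℕ)) = 20 / (η' * φ) := by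
        rw [emR]; push_cast; field_simp
      rw [a] at h2
      linarith)
    rfl h4 h5 (by rw [emR] at h6 ⊢; push_cast at h6; exact h6)
    (by rw [emR]; push_cast at hσ; exact hσ) rfl
  have e5 : (10 / (k0 : ℝ) + δ) * (k0 * (g * m' : ℕ) * d.U * (2 * lg d.S)) * tot w =
      20 * (d.m * d.U * lg d.S) * tot w + δ * (k0 * d.m * d.U * (2 * lg d.S)) * tot w := by
    rw [← em]; field_simp; ring
  have e6 : 0 ≤ δ * (k0 * d.m * d.U * (2 * lg d.S)) * tot w := by positivity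
  rw [e5]
  linarith

end Pool.Agent.Lib.MP_d308c3_co.K
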