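import Pool.Agent.Lib.MP_d308c3_co.K.Defs
import Pool.Agent.Lib.MP_108739_an.F.Ent1

/-! Existence of the constants of one window. -/

namespace Pool.Agent.Lib.MP_d308c3_co.K.Nm

open Pool.Agent.Lib.MP_108739_an.F

theorem ex_pow (y : ℝ) (n0 : ℕ) : ∃ n : ℕ, n0 ≤ n ∧ y ≤ 2 ^ n := by
  obtain ⟨n, hn⟩ := pow_unbounded_of_one_lt y (one_lt_two (α := ℝ))
  exact ⟨max n0 n, le_max_left _ _, hn.le.trans (pow_le_pow_right₀ one_le_two (le_max_right _ _))⟩

/-- the constants of the cells: every failure term is at most `x` -/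
theorem ex_cell {x S η Λ Q : ℝ} (hx : 0 < x) (hS : 0 < S) (hη : 0 < η) (hΛ : 0 < Λ) (hQ : 0 < Q)
    (g : ℕ) : ∃ (e τ ed r0 P : ℝ) (Jb g0 s : ℕ), 0 < e ∧ e ≤ 1 / 2 ∧ 0 < τ ∧ 0 < ed ∧ g ≤ g0 ∧
      (∀ (Ω : Type) (A : Arr Ω), A.P = P → A.g0 = g0 → A.Num Λ r0 s Jb) ∧
      e * S ^ 4 + 3 * S ^ 2 * e / η + (16 * ed + 16 / Jb) / (τ * e * e) + 9 * r0 +
        216 * r0 / (ed * (τ * e * e)) + Q * Λ * τ ≤ x := by
  set K : ℝ := S ^ 4 + 3 * S ^ 2 / η with hK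
  have K0 : 0 < K := by positivity
  set e : ℝ := min (1 / 2) (x / 6 / K) with he
  have e0 : 0 < e := lt_min (by norm_num) (by positivity)
  have e1 : e * K ≤ x / 6 := (le_div_iff₀ K0).1 (min_le_right _ _)
  set τ : ℝ := x / 6 / (Q * Λ) with hτ
  have τ0 : 0 < τ := by positivity
  have τ1 : Q * Λ * τ = x / 6 := by rw [hτ]; field_simp
  set y : ℝ := τ * e * e with hy
  have y0 : 0 < y := by positivity
  set ed : ℝ := x / 6 * y / 16 with hed
  have d0 : 0 < ed := by positivity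
  obtain ⟨Jb, hJ⟩ := exists_nat_ge (max 1 (1 / ed))
  have J1 : (1 : ℝ) ≤ Jb := (le_max_left _ _).trans hJ
  have J2 : 1 / (Jb : ℝ) ≤ ed := by
    have := (le_max_right _ _).trans hJ
    rw [div_le_iff₀ d0] at this
    rw [div_le_iff₀ (by linarith)]
    linarith
  set r0 : ℝ := min (1 / 2) (min (x / 6 / 9) (x / 6 * (ed * y) / 216)) with hr
  have r1 : 0 < r0 := lt_min (by norm_num) (lt_min (by positivity) (by positivity))
  have r2 : r0 ≤ x / 6 / 9 := (min_le_right _ _).trans (min_le_left _ _)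
  have r3 : r0 ≤ x / 6 * (ed * y) / 216 := (min_le_right _ _).trans (min_le_right _ _)
  set P : ℝ := max (2 / r0) (max (4096 * Λ) Jb) with hP
  obtain ⟨g0, g1, g2⟩ := ex_pow (2 * P / r0) (max 10 g)
  obtain ⟨s, s1, s2⟩ := ex_pow (4 * P ^ 2 / r0) (g0 + 1)
  refine ⟨e, τ, ed, r0, P, Jb, g0, s, e0, min_le_left _ _, τ0, d0, (le_max_right _ _).trans g1,
    fun Ω A a b => ⟨r1, min_le_left _ _, ?_, ?_, ?_, by exact_mod_cast J1, ?_, ?_, ?_, ?_⟩, ?_⟩
  · rw [a, mul_comm]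
    exact (div_le_iff₀ r1).1 (le_max_left _ _)
  · rw [a]
    exact (le_max_left _ _).trans (le_max_right _ _)
  · rw [a]
    exact (le_max_right _ _).trans (le_max_right _ _)
  · rw [b]
    exact (le_max_left _ _).trans g1
  · rw [a, b, mul_comm r0]
    exact (div_le_iff₀ r1).1 g2
  · rw [b]
    exact s1
  · rw [a, mul_comm r0]
    exact (div_le_iff₀ r1).1 s2
  · have a1 : e * S ^ 4 + 3 * S ^ 2 * e / η = e * K := by rw [hK]; ring
    have a2 : (16 * ed + 16 / Jb) / y ≤ x / 3 := by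
      rw [div_le_iff₀ y0]
      have : (16 : ℝ) / Jb = 16 * (1 / Jb) := by ring
      rw [this]
      linarith
    have a3 : 216 * r0 / (ed * y) ≤ x / 6 := by
      rw [div_le_iff₀ (mul_pos d0 y0)]
      linarith
    linarith

/-- the logarithm loses against the block length -/
theorem ex_g1 (c B : ℝ) (hB : 0 ≤ B) : ∃ g1 : ℕ, 1 ≤ g1 ∧ ∀ g : ℕ, g1 ≤ g →
    c * lg (2 * g * B + 2) ≤ g := by
  rcases le_or_gt c 0 with hc | hc
  · refine ⟨1, le_rfl, fun g _ => le_trans (mul_nonpos_of_nonpos_of_nonneg hc (lg_nonneg ?_))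
      (Nat.cast_nonneg g)⟩
    have : (0 : ℝ) ≤ 2 * g * B := by positivity
    linarith
  obtain ⟨g1, h1⟩ := exists_nat_ge (max 1 (max (2 * c * lg (2 * B + 2)) (16 * c ^ 2)))
  have a1 : (1 : ℝ) ≤ g1 := (le_max_left _ _).trans h1
  refine ⟨g1, by exact_mod_cast a1, fun g hg => ?_⟩
  have hg' : (g1 : ℝ) ≤ g := by exact_mod_cast hg
  have b1 : (1 : ℝ) ≤ g := a1.trans hg'
  have b2 : 2 * c * lg (2 * B + 2) ≤ g := ((le_max_left _ _).trans (le_max_right _ _)).trans (h1.trans hg')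
  have b3 : 16 * c ^ 2 ≤ g := ((le_max_right _ _).trans (le_max_right _ _)).trans (h1.trans hg')
  have q0 : 0 < √(g : ℝ) := Real.sqrt_pos.2 (by linarith)
  have q1 : √(g : ℝ) * √(g : ℝ) = g := Real.mul_self_sqrt (by linarith)
  have q2 : 4 * c ≤ √(g : ℝ) := Real.le_sqrt_of_sq_le (by linarith)
  have c1 : lg (2 * g * B + 2) ≤ lg (2 * B + 2) + 2 * √(g : ℝ) := by
    have d1 : lg (2 * g * B + 2) ≤ lg ((2 * B + 2) * (√(g : ℝ) * √(g : ℝ))) :=
      lg_mono (by positivity) (by rw [q1]; nlinarith)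
    rw [lg_mul (by positivity) (by positivity), lg_mul q0 q0] at d1
    linarith [lg_le_self q0.le]
  nlinarith

/-- a multiple of `g` above a given bound -/
theorem ex_mult (y : ℝ) {g : ℕ} (hg : 1 ≤ g) : ∃ m : ℕ, 1 ≤ m ∧ g ∣ m ∧ g ≤ m ∧ y ≤ m := by
  obtain ⟨n, hn⟩ := exists_nat_ge y
  refine ⟨g * (n + 1), by nlinarith, dvd_mul_right _ _, by nlinarith, hn.trans ?_⟩
  exact_mod_cast (by nlinarith : n ≤ g * (n + 1))

/-- the branching threshold and the number of columns per macro step -/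
theorem ex_col {x : ℝ} (hx : 0 < x) (a b : ℝ) : ∃ (θ : ℝ) (k1 : ℕ), 0 < θ ∧
    θ ≤ 1 / 2 ∧ 1 ≤ k1 ∧ a / lg (1 / θ) + b / (θ * k1) ≤ x := by
  obtain ⟨n, hn⟩ := exists_nat_ge (max 1 (2 * a / x))
  have n1 : (1 : ℝ) ≤ n := (le_max_left _ _).trans hn
  have n2 : 2 * a / x ≤ n := (le_max_right _ _).trans hn
  have p0 : (0 : ℝ) < 1 / 2 ^ n := by positivity
  obtain ⟨k, hk⟩ := exists_nat_ge (max 1 (2 * b / (x * (1 / 2 ^ n))))
  have k1 : (1 : ℝ) ≤ k := (le_max_left _ _).trans hk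
  have k2 : 2 * b / (x * (1 / 2 ^ n)) ≤ k := (le_max_right _ _).trans hk
  refine ⟨1 / 2 ^ n, k, p0, ?_, by exact_mod_cast k1, ?_⟩
  · refine one_div_le_one_div_of_le two_pos ?_
    exact le_self_pow₀ one_le_two (by exact_mod_cast (by linarith : (0 : ℝ) < n).ne')
  · rw [one_div_one_div, lg_two_pow]
    rw [div_le_iff₀ hx] at n2
    rw [div_le_iff₀ (mul_pos hx p0)] at k2
    have a1 : a / n ≤ x / 2 := by rw [div_le_iff₀ (by linarith)]; linarith
    have a2 : b / (1 / 2 ^ n * k) ≤ x / 2 := by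
      rw [div_le_iff₀ (mul_pos p0 (by linarith))]
      linarith
    linarith

end Pool.Agent.Lib.MP_d308c3_co.K.Nm
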