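import Pool.Agent.Lib.MP_d308c3_co.K.LocNumSt
import Pool.Agent.Lib.MP_d308c3_co.K.Num

/-! The constants of one window exist. -/

namespace Pool.Agent.Lib.MP_d308c3_co.K

open Pool.Agent.Lib.MP_108739_an.F

/-- an arrangement that carries only the two numbers -/
def Nm.dummy (P : ℝ) (g0 : ℕ) : Arr Unit :=
  ⟨⟨⟨fun _ => 0, fun _ _ => 0, fun _ _ => 0, fun _ _ => True, 0, 0⟩, fun _ => 0, fun _ => 0,
      fun _ _ => ∅, fun _ _ => none, fun _ _ _ => True, 0, 0, 0⟩,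
    ⟨fun _ _ => 0, fun _ _ => 0, fun _ _ _ => 0, fun _ _ _ => 0⟩,
    ⟨fun _ _ => True, fun _ _ => 0, fun _ _ _ => 0, fun _ _ => True, fun _ _ => 0⟩, P, g0, 0⟩

theorem locNum : LocNumSt := by
  intro Λ S η U k0 Hn hΛ hS hη hη1 hU hk hH
  have l1 : 1 ≤ lg S := lg_two ▸ lg_mono two_pos hS
  have U1 : (1 : ℝ) ≤ U := by exact_mod_cast hU
  have k2 : (2 : ℝ) ≤ k0 := by exact_mod_cast hk
  have H1 : (1 : ℝ) ≤ Hn := by exact_mod_cast hH
  have c0 : 0 < 4 * (k0 : ℝ) * U * lg S * (2 * k0 + 5) := by positivity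
  obtain ⟨θ, φ, t0, t1, f1, hc⟩ := Nm.ex_col (one_div_pos.2 c0) (50 * S ^ 2 / η) 20
  have F1 : (1 : ℝ) ≤ φ := by exact_mod_cast f1
  obtain ⟨g1, a1, a2⟩ := Nm.ex_g1 (80 * φ * k0) (Hn ^ 2) (by positivity)
  refine ⟨max g1 (400 * k0), a1.trans (le_max_left _ _), fun g hg => ?_⟩
  have b1 := a2 g ((le_max_left _ _).trans hg)
  have b2 : 400 * (k0 : ℝ) ≤ g := by exact_mod_cast (le_max_right _ _).trans hg
  have g0' : (0 : ℝ) < g := by linarith
  have x0 : 0 < 8 * (g : ℝ) * φ * k0 * Hn ^ 2 := by positivity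
  obtain ⟨e, τ, ed, r0, P, Jb, g0, s, e0, -, τ0, d0, g3, hN, hx⟩ := Nm.ex_cell
    (one_div_pos.2 x0) (show 0 < S by linarith) hη (show 0 < Λ by linarith)
    (show 0 < 20000 * S ^ (6 * g) by positivity) g
  have N := hN Unit (Nm.dummy P g0) rfl rfl
  obtain ⟨m, hm⟩ := exists_nat_ge (max (max (4 : ℝ) (80 * φ)) (max (2 * (21 + 2 * lg (1 / η)))
    (4 * lg S * (24 * Hn ^ 2 * s / (ed * (τ * e * e))) * (g0 + 1) * φ * (2 * k0 + 5))))
  have m1 : (4 : ℝ) ≤ m := ((le_max_left _ _).trans (le_max_left _ _)).trans hm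
  have m2 : 80 * (φ : ℝ) ≤ m := ((le_max_right _ _).trans (le_max_left _ _)).trans hm
  have m3 : 2 * (21 + 2 * lg (1 / η)) ≤ m := ((le_max_left _ _).trans (le_max_right _ _)).trans hm
  have m4 := ((le_max_right _ _).trans (le_max_right _ _)).trans hm
  have p1 : (1 : ℝ) ≤ U * lg S := one_le_mul_of_one_le_of_one_le U1 l1
  have p2 : (g : ℝ) * m ≤ g * m * U * lg S := by
    rw [mul_assoc]
    exact le_mul_of_one_le_right (by positivity) p1
  have p3 : (m : ℝ) ≤ g * m := le_mul_of_one_le_left (by positivity) (by linarith)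
  have p4 : (g : ℝ) * m * U ≤ g * m * U * lg S := le_mul_of_one_le_right (by positivity) l1
  refine ⟨θ, φ, e, τ, ed, r0, P, Jb, g0, s, m, t0, t1, f1, by exact_mod_cast (by linarith : (1 : ℝ) ≤ m),
    e0, τ0, d0, N.r0_pos, N.r0_le, N.P1, N.P2, N.P3, N.Jb, N.g1, N.g2, g3, N.s1, N.s2,
    ?_, ?_, ?_, m4, ?_⟩
  · have q1 : lg ((g : ℝ) * m) ≤ g * m := lg_le_self (by positivity)
    have q2 : 400 * (k0 : ℝ) * (m * U) ≤ g * (m * U) := by gcongr
    have q3 : 4 * (g * lg S) ≤ m * (g * lg S) := by gcongr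
    have q4 : (m : ℝ) * (g * lg S) ≤ m * (g * lg S) * U :=
      le_mul_of_one_le_right (by positivity) U1
    nlinarith
  · have q2 : 80 * (φ : ℝ) * k0 * lg (2 * g * Hn ^ 2 + 2) * (m * U) ≤ g * (m * U) := by gcongr
    nlinarith
  · rw [le_div_iff₀ x0] at hx
    linarith
  · rw [le_div_iff₀ c0, div_div] at hc
    linarith

end Pool.Agent.Lib.MP_d308c3_co.K
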