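import Pool.Agent.Lib.MP_d308c3_co.K.Defs
import Pool.Agent.Lib.MP_d308c3_co.LxT

/-! The clean descendants of a window of a time tree form a family of the kind `LxT.Anc`. -/

set_option autoImplicit false

namespace Pool.Agent.Lib.MP_d308c3_co.K.LxK

open Finset LxT
open scoped Classical

variable {Ω : Type} {c : TT Ω} {Λ : ℝ} {L : ℕ}

theorem th_pos (h : c.Ok Λ L) : 0 < c.th := by
  have h1 := h.two
  have h2 : 0 < c.thr L := lt_of_lt_of_le (by positivity) h.big
  have h3 : 0 < (c.S ^ 2) ^ L := by positivity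
  exact (div_pos_iff_of_pos_right h3).1 h2

theorem thr_pos (h : c.Ok Λ L) (i : ℕ) : 0 < c.thr i := by
  have h1 := h.two
  exact div_pos (th_pos h) (by positivity)

theorem thr_add (h : c.Ok Λ L) (i k : ℕ) : c.thr (i + k) * c.S ^ (2 * k) = c.thr i := by
  have h1 := h.two
  have h2 : c.S ≠ 0 := by linarith
  unfold TT.thr
  rw [pow_add, ← pow_mul c.S 2 k]
  field_simp

theorem thr_anti (h : c.Ok Λ L) {i j : ℕ} (hij : i ≤ j) : c.thr j ≤ c.thr i := by
  obtain ⟨k, rfl⟩ := Nat.exists_eq_add_of_le hij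
  rw [← thr_add h i k]
  exact le_mul_of_one_le_right (thr_pos h _).le (one_le_pow₀ (by linarith [h.two]))

theorem one_le_N (h : c.Ok Λ L) {i : ℕ} (hi : i ≤ L) (o : Ω) : 1 ≤ c.N i o := by
  have := h.lt i hi o
  unfold TT.N
  exact_mod_cast Nat.sub_pos_of_lt this

theorem nest_le (h : c.Ok Λ L) {i j : ℕ} (hij : i ≤ j) (hj : j ≤ L) (o : Ω) :
    c.lo i o ≤ c.lo j o ∧ c.hi j o ≤ c.hi i o := by
  induction j, hij using Nat.le_induction with
  | base => exact ⟨le_rfl, le_rfl⟩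
  | succ j _ ih =>
    have h1 := ih (by omega)
    have h2 := h.nest j hj o
    exact ⟨h1.1.trans h2.1, h2.2.trans h1.2⟩

/-- a window determines its ancestors -/
theorem W_det (h : c.Ok Λ L) {i j : ℕ} (hij : i ≤ j) (hj : j ≤ L) {o o' : Ω}
    (e : c.W j o = c.W j o') : c.W i o = c.W i o' := by
  have h1 := nest_le h hij hj o
  have h2 := nest_le h hij hj o'
  have h3 := h.lt j hj o
  have e1 : c.lo j o = c.lo j o' := congrArg Prod.fst e
  have e2 : c.hi j o = c.hi j o' := congrArg Prod.snd e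
  rcases h.lami i (hij.trans hj) o o' with a | a | a
  · exact a
  · omega
  · omega

theorem N_congr {i : ℕ} {o o' : Ω} (e : c.W i o = c.W i o') : c.N i o = c.N i o' := by
  have e1 : c.lo i o = c.lo i o' := congrArg Prod.fst e
  have e2 : c.hi i o = c.hi i o' := congrArg Prod.snd e
  unfold TT.N
  rw [e1, e2]

theorem good_congr {i : ℕ} {o o' : Ω} (e : c.W i o = c.W i o') (h : c.good i o) : c.good i o' := by
  unfold TT.good at h ⊢
  rwa [← N_congr e]

theorem clean_congr (h : c.Ok Λ L) {i : ℕ} (hi : i < L) {o o' : Ω}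
    (e : c.W (i + 1) o = c.W (i + 1) o') (k : c.clean i o) : c.clean i o' :=
  ⟨good_congr (W_det h (Nat.le_succ i) hi e) k.1, good_congr e k.2.1, h.cls_det i hi o o' e k.2.2⟩

theorem spl_of_good (h : c.Ok Λ L) {i : ℕ} (hi : i ≤ L) {o : Ω} (g : c.good i o) : c.spl i o := by
  have h1 := thr_add h i 1
  have h2 := h.two
  have h3 := one_le_N h hi o
  have h4 := thr_pos h (i + 1)
  unfold TT.good at g
  unfold TT.spl
  by_contra hn
  push Not at hn
  have h5 : c.S * c.N i o ≤ c.S * c.thr (i + 1) := mul_le_mul_of_nonneg_left hn (by linarith)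
  have h6 : c.thr (i + 1) * c.S ^ (2 * 1) = c.S * c.thr (i + 1) * c.S := by ring
  have h7 : 0 < c.S * c.thr (i + 1) := by positivity
  nlinarith

theorem S_le_of_good (h : c.Ok Λ L) {i : ℕ} (hi : i ≤ L) {o : Ω} (g : c.good i o) : c.S ≤ c.N i o := by
  have h1 := (h.big.trans (thr_anti h hi)).trans g
  have h2 := h.two
  rw [sq] at h1
  exact le_of_mul_le_mul_left h1 (by linarith)

theorem half_of_clean (h : c.Ok Λ L) {i : ℕ} (hi : i < L) {o : Ω} (k : c.clean i o) :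
    2 * c.len (i + 1) o ≤ c.len i o :=
  h.half i hi o (spl_of_good h hi.le k.1) (h.two.trans (S_le_of_good h hi k.2.1))

/-- a window has at most `S ^ 3` good children -/
theorem card_good (h : c.Ok Λ L) {i : ℕ} (hi : i < L) (q : ℕ × ℕ) (A : Finset Ω)
    (hA : ∀ o ∈ A, c.W i o = q ∧ c.good (i + 1) o) : (#(A.image (c.W (i + 1))) : ℝ) ≤ c.S ^ 3 := by
  have h2 := h.two
  rcases A.eq_empty_or_nonempty with rfl | ⟨o0, h0⟩
  · simp only [image_empty, card_empty, Nat.cast_zero]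
    positivity
  have hD : Ex.Dis (A.image (c.W (i + 1))) Prod.fst Prod.snd q.1 q.2 := by
    refine ⟨fun d hd => ?_, fun d hd => ?_, fun d hd => ?_, fun d hd d' hd' e => ?_⟩
    · obtain ⟨o, -, rfl⟩ := mem_image.1 hd
      exact h.lt _ hi o
    · obtain ⟨o, ho, rfl⟩ := mem_image.1 hd
      rw [← (hA o ho).1]
      exact (h.nest i hi o).1
    · obtain ⟨o, ho, rfl⟩ := mem_image.1 hd
      rw [← (hA o ho).1]
      exact (h.nest i hi o).2
    · obtain ⟨o, -, rfl⟩ := mem_image.1 hd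
      obtain ⟨o', -, rfl⟩ := mem_image.1 hd'
      exact (h.lami _ hi o o').resolve_left e
  have h3 : ∑ d ∈ A.image (c.W (i + 1)), ((d.2 - d.1 : ℕ) : ℝ) ≤ c.thr i := by
    have a := h.size i hi.le o0
    have b : ((∑ d ∈ A.image (c.W (i + 1)), (d.2 - d.1) : ℕ) : ℝ) ≤ ((q.2 - q.1 : ℕ) : ℝ) := by
      exact_mod_cast hD.sum_len
    rw [← (hA o0 h0).1] at b
    push_cast at b
    exact b.trans a
  have h4 : (#(A.image (c.W (i + 1))) : ℝ) * c.thr (i + 1) ≤
      c.S * ∑ d ∈ A.image (c.W (i + 1)), ((d.2 - d.1 : ℕ) : ℝ) := by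
    rw [mul_sum, ← nsmul_eq_mul]
    refine card_nsmul_le_sum _ _ _ fun d hd => ?_
    obtain ⟨o, ho, rfl⟩ := mem_image.1 hd
    exact (hA o ho).2
  have h5 := thr_add h i 1
  have h6 := thr_pos h (i + 1)
  have h7 := h4.trans (mul_le_mul_of_nonneg_left h3 (by linarith))
  rw [← h5] at h7
  refine le_of_mul_le_mul_right (h7.trans_eq (by ring)) h6

variable [Fintype Ω]

/-- the level `i + u` windows below `q` that are clean at every step -/
noncomputable def JJ (c : TT Ω) (i u : ℕ) (q : ℕ × ℕ) : Finset (ℕ × ℕ) :=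
  (univ.filter fun o => c.W i o = q ∧ ∀ n < u, c.clean (i + n) o).image (c.W (i + u))

theorem mem_JJ (h : c.Ok Λ L) {i u : ℕ} (hu : i + u ≤ L) {q : ℕ × ℕ} {o : Ω} :
    c.W (i + u) o ∈ JJ c i u q ↔ c.W i o = q ∧ ∀ n < u, c.clean (i + n) o := by
  refine ⟨fun k => ?_, fun k => mem_image_of_mem _ (mem_filter.2 ⟨mem_univ _, k⟩)⟩
  obtain ⟨o', k', e⟩ := mem_image.1 k
  obtain ⟨-, a, b⟩ := mem_filter.1 k'
  exact ⟨(W_det h (Nat.le_add_right i u) hu e).symm.trans a, fun n hn =>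
    clean_congr h (by omega) (W_det h (by omega) hu e) (b n hn)⟩

/-- ancestor of a level `i + u` window, `n` levels below `i` -/
noncomputable def anc (c : TT Ω) (i u n : ℕ) (j : ℕ × ℕ) : ℕ × ℕ :=
  if h : ∃ o, c.W (i + u) o = j then c.W (i + n) h.choose else j

theorem anc_eq (h : c.Ok Λ L) {i u n : ℕ} (hu : i + u ≤ L) (hn : n ≤ u) (o : Ω) :
    anc c i u n (c.W (i + u) o) = c.W (i + n) o := by
  have he : ∃ o', c.W (i + u) o' = c.W (i + u) o := ⟨o, rfl⟩
  rw [anc, dif_pos he]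
  exact W_det h (by omega) hu he.choose_spec

theorem anc_ok (h : c.Ok Λ L) {i u : ℕ} (hu : i + u ≤ L) (q : ℕ × ℕ) :
    Anc (JJ c i u q) (fun n j => (anc c i u n j).1) (fun n j => (anc c i u n j).2) c.tau u
      ⌊c.S ^ 3⌋₊ Λ q.1 q.2 := by
  have ex : ∀ j ∈ JJ c i u q, ∃ o, c.W (i + u) o = j ∧ c.W i o = q ∧ ∀ n < u, c.clean (i + n) o := by
    intro j hj
    obtain ⟨o, k, e⟩ := mem_image.1 hj
    exact ⟨o, e, (mem_filter.1 k).2⟩
  have wn : ∀ n j, win (fun n j => (anc c i u n j).1) (fun n j => (anc c i u n j).2) n j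
      = anc c i u n j := fun _ _ => rfl
  refine ⟨h.mono, fun j hj => ?_, fun j hj => ?_, fun j hj j' hj' e => ?_, fun n hn j hj => ?_,
    fun n hn j hj j' hj' e => ?_, fun n hn j hj => ?_, fun n hn j hj j' hj' e e' d => ?_,
    fun n hn j hj => ?_⟩
  · obtain ⟨o, rfl, a, -⟩ := ex j hj
    rw [anc_eq h hu (Nat.zero_le u), ← a]
    exact ⟨rfl, rfl⟩
  · obtain ⟨o, rfl, -, -⟩ := ex j hj
    rw [anc_eq h hu le_rfl]
    exact h.lt _ hu o
  · obtain ⟨o, rfl, -, -⟩ := ex j hj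
    obtain ⟨o', rfl, -, -⟩ := ex j' hj'
    rwa [wn, wn, anc_eq h hu le_rfl, anc_eq h hu le_rfl] at e
  · obtain ⟨o, rfl, -, -⟩ := ex j hj
    rw [anc_eq h hu hn.le, anc_eq h hu hn]
    exact h.nest (i + n) (by omega) o
  · obtain ⟨o, rfl, -, -⟩ := ex j hj
    obtain ⟨o', rfl, -, -⟩ := ex j' hj'
    rw [wn, wn, anc_eq h hu hn, anc_eq h hu hn] at e
    rw [wn, wn, anc_eq h hu hn.le, anc_eq h hu hn.le]
    exact W_det h (by omega) (by omega) e
  · obtain ⟨o, rfl, -, a⟩ := ex j hj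
    rw [anc_eq h hu hn.le, anc_eq h hu hn]
    exact half_of_clean h (show i + n < L by omega) (a n hn)
  · obtain ⟨o, rfl, -, a⟩ := ex j hj
    obtain ⟨o', rfl, -, a'⟩ := ex j' hj'
    rw [wn, wn, anc_eq h hu hn, anc_eq h hu hn] at e'
    rw [wn, wn, anc_eq h hu hn.le, anc_eq h hu hn.le] at e
    simp only [anc_eq h hu hn] at d ⊢
    have k : c.hi (i + n + 1) o ≤ c.lo (i + n + 1) o' := by
      have := h.lt (i + n + 1) (by omega) o'
      rcases h.lami (i + n + 1) (by omega) o o' with b | b | b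
      · exact absurd b e'
      · exact b
      · exact absurd (b.trans d) (not_le.2 this)
    exact ⟨k, h.sep (i + n) (by omega) o o' (a n hn).2.2 (a' n hn).2.2 e k⟩
  · refine Nat.le_floor (le_trans ?_ (card_good h (show i + n < L by omega) (anc c i u n j)
      (univ.filter fun o => c.W (i + n) o = anc c i u n j ∧ c.good (i + n + 1) o)
      fun o ho => (mem_filter.1 ho).2))
    refine Nat.cast_le.2 (card_le_card fun x hx => ?_)
    obtain ⟨j', hj', rfl⟩ := mem_image.1 hx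
    obtain ⟨b1, b2⟩ := mem_filter.1 hj'
    obtain ⟨o, rfl, -, a⟩ := ex j' b1
    rw [wn, wn, anc_eq h hu hn.le] at b2
    rw [wn, anc_eq h hu hn]
    exact mem_image_of_mem _ (mem_filter.2 ⟨mem_univ _, b2, (a n hn).2.1⟩)

/-- ancestors of clean windows are good -/
theorem anc_good (h : c.Ok Λ L) {i u n : ℕ} (hu : i + u ≤ L) (hn : n < u) {q j : ℕ × ℕ}
    (hj : j ∈ JJ c i u q) :
    c.thr (i + n) / c.S ≤ (((anc c i u n j).2 - (anc c i u n j).1 : ℕ) : ℝ) := by
  obtain ⟨o, k, rfl⟩ := mem_image.1 hj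
  rw [anc_eq h hu hn.le, div_le_iff₀ (by linarith [h.two]), mul_comm]
  exact ((mem_filter.1 k).2.2 n hn).1

theorem anc_top (h : c.Ok Λ L) {i u : ℕ} (hu : i + u ≤ L) {q j : ℕ × ℕ} (hj : j ∈ JJ c i u q) :
    anc c i u u j = j := by
  obtain ⟨o, -, rfl⟩ := mem_image.1 hj
  exact anc_eq h hu le_rfl o

end Pool.Agent.Lib.MP_d308c3_co.K.LxK
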