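import Pool.Agent.Lib.MP_d308c3_co.K.LxK
import Pool.Agent.Lib.MP_d308c3_co.Mac.Defs
import Pool.Agent.Lib.MP_d308c3_co.LX.Main

/-! The annulus lemma on the time tree. -/

set_option autoImplicit false

namespace Pool.Agent.Lib.MP_d308c3_co.K.LxK

open Finset LxT Cut
open scoped Classical

/-- the raw annulus lemma -/
def LXraw : Prop := ∀ (Y : Finset Pt) (t m : ℕ → ℝ) (k0 k1 : ℕ) (x : ℝ) (J : Finset (ℕ × ℕ))
  (lo hi : ℕ × ℕ → ℕ) (DT DD : ℕ × ℕ → ℕ × ℕ) (dlo dhi : ℕ × ℕ → ℕ) (Rows : ℕ × ℕ → Finset ℝ)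
  (Lam : ℝ) (ell R A Bl : ℕ), Monotone t → (∀ k, ∀ p ∈ Y, m k ≠ p.2 + t k * p.1) →
  Ex.Dis J lo hi k0 k1 →
  (∀ j ∈ J, k0 ≤ dlo (DD j) ∧ dlo (DD j) ≤ lo j ∧ hi j ≤ dhi (DD j) ∧ dhi (DD j) ≤ k1) →
  1 ≤ Lam → Lam ≤ 2 ^ ell → (∀ d, (Rows d).card ≤ R) →
  (∀ j ∈ J, ∀ lam ∈ Rows (DD j), 0 < lam ∧ 64 * Lam * (t (dhi (DD j)) - t (dlo (DD j))) ≤ lam) →
  (∀ j ∈ J, ∀ j' ∈ J, DT j ≠ DT j' → ∃ lam, lam ∈ Rows (DD j) ∧ lam ∈ Rows (DD j') ∧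
    lam ≤ Lam * |t (lo j) - t (lo j')| ∧ |t (lo j) - t (lo j')| ≤ lam) →
  (∀ d, (J.filter fun j => DT j = d).card ≤ A) → 3 * J.card < 2 ^ Bl →
  ∃ P1 P2 Rest Q, Mac.LXout (St Prod.fst Prod.snd t m) Y Prod.fst J lo hi x (24 * R * Bl * (ell + 10))
    ((2000 * (R + 1) ^ 2 * (Bl + 1) ^ 3 * ((A + 1) * Phi (St Prod.fst Prod.snd t m) Y k0 k1
      + ∑ d ∈ J.image DD, Phi (St Prod.fst Prod.snd t m) Y (dlo d) (dhi d)) : ℕ) : ℝ) P1 P2 Rest Q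

theorem lxraw : LXraw := by
  intro Y t m k0 k1 x J lo hi DT DD dlo dhi Rows Lam ell R A Bl ht _ hD hj hL hl hR hrow hsep hA hB
  obtain ⟨P1, P2, Rest, Q, a, b, d, e⟩ := LX.lx Prod.fst Prod.snd t m Y k0 k1
    (fun _ _ _ h _ => ht h) x J lo hi DT DD dlo dhi Rows Lam ell R A Bl
    (fun j k => ⟨(hj j k).1, (hj j k).2.1, (hD.lt j k).le, (hj j k).2.2⟩) hD.dis hL hl
    (fun j _ => hR _) hrow hsep (fun d => (congrArg card (Finset.ext fun x => by simp only [mem_filter])).trans_le (hA d)) hB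
  refine ⟨P1, P2, Rest, Q, fun j k => (a j k).2.2, b, d, Nat.cast_le.2 ?_⟩
  refine e.trans_eq (congrArg _ (congrArg _ (sum_congr ?_ fun _ _ => rfl)))
  exact Finset.ext fun x => by simp only [mem_image]

variable {Ω : Type} {c : TT Ω} {Λ : ℝ} {L : ℕ}

/-- a window has at most `S ^ (2 k + 1)` good descendants `k` levels down -/
theorem card_good_add (h : c.Ok Λ L) {i k : ℕ} (hi : i + k ≤ L) (q : ℕ × ℕ) (A : Finset Ω)
    (hA : ∀ o ∈ A, c.W i o = q ∧ c.good (i + k) o) :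
    (#(A.image (c.W (i + k))) : ℝ) ≤ c.S ^ (2 * k + 1) := by
  have h2 := h.two
  rcases A.eq_empty_or_nonempty with rfl | ⟨o0, h0⟩
  · simp only [image_empty, card_empty, Nat.cast_zero]
    positivity
  have hD : Ex.Dis (A.image (c.W (i + k))) Prod.fst Prod.snd q.1 q.2 := by
    refine ⟨fun d hd => ?_, fun d hd => ?_, fun d hd => ?_, fun d hd d' hd' e => ?_⟩
    · obtain ⟨o, -, rfl⟩ := mem_image.1 hd
      exact h.lt _ hi o
    · obtain ⟨o, ho, rfl⟩ := mem_image.1 hd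
      rw [← (hA o ho).1]
      exact (nest_le h (Nat.le_add_right i k) hi o).1
    · obtain ⟨o, ho, rfl⟩ := mem_image.1 hd
      rw [← (hA o ho).1]
      exact (nest_le h (Nat.le_add_right i k) hi o).2
    · obtain ⟨o, -, rfl⟩ := mem_image.1 hd
      obtain ⟨o', -, rfl⟩ := mem_image.1 hd'
      exact (h.lami _ hi o o').resolve_left e
  have h3 : ∑ d ∈ A.image (c.W (i + k)), ((d.2 - d.1 : ℕ) : ℝ) ≤ c.thr i := by
    have a := h.size i (by omega) o0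
    have b : ((∑ d ∈ A.image (c.W (i + k)), (d.2 - d.1) : ℕ) : ℝ) ≤ ((q.2 - q.1 : ℕ) : ℝ) := by
      exact_mod_cast hD.sum_len
    rw [← (hA o0 h0).1] at b
    push_cast at b
    exact b.trans a
  have h4 : (#(A.image (c.W (i + k))) : ℝ) * c.thr (i + k) ≤
      c.S * ∑ d ∈ A.image (c.W (i + k)), ((d.2 - d.1 : ℕ) : ℝ) := by
    rw [mul_sum, ← nsmul_eq_mul]
    refine card_nsmul_le_sum _ _ _ fun d hd => ?_
    obtain ⟨o, ho, rfl⟩ := mem_image.1 hd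
    exact (hA o ho).2
  have h5 := thr_add h i k
  have h6 := thr_pos h (i + k)
  have h7 := h4.trans (mul_le_mul_of_nonneg_left h3 (by linarith))
  rw [← h5] at h7
  refine le_of_mul_le_mul_right (h7.trans_eq (by ring)) h6

variable [Fintype Ω]

theorem card_JJ (h : c.Ok Λ L) {i u : ℕ} (hu : i + u ≤ L) (q : ℕ × ℕ) :
    (#(JJ c i u q) : ℝ) ≤ c.S ^ (2 * u + 1) := by
  rcases u with _ | u
  · have h2 := h.two
    have : #(JJ c i 0 q) ≤ 1 := card_le_one.2 fun x hx y hy => by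
      obtain ⟨o, k, rfl⟩ := mem_image.1 hx
      obtain ⟨o', k', rfl⟩ := mem_image.1 hy
      exact (mem_filter.1 k).2.1.trans (mem_filter.1 k').2.1.symm
    have h3 : (#(JJ c i 0 q) : ℝ) ≤ 1 := by exact_mod_cast this
    simp only [mul_zero, zero_add, pow_one]
    linarith
  · exact card_good_add h hu q _ fun o ho =>
      ⟨(mem_filter.1 ho).2.1, ((mem_filter.1 ho).2.2 u (Nat.lt_succ_self u)).2.1⟩

theorem dis_JJ (h : c.Ok Λ L) {i u : ℕ} (hu : i + u ≤ L) (q : ℕ × ℕ) {s : ℕ → ℕ}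
    (hs : StrictMono s) : Ex.Dis (JJ c i u q) (fun j => s j.1) (fun j => s j.2) (s q.1) (s q.2) := by
  have hD := (anc_ok h hu q).dis
  refine ⟨fun j hj => hs ?_, fun j hj => hs.monotone ?_, fun j hj => hs.monotone ?_,
    fun j hj k hk e => (hD.dis j hj k hk e).imp (fun a => hs.monotone ?_) fun a => hs.monotone ?_⟩
  · simpa only [anc_top h hu hj] using hD.lt j hj
  · simpa only [anc_top h hu hj] using hD.lo_le j hj
  · simpa only [anc_top h hu hj] using hD.le_hi j hj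
  · simpa only [anc_top h hu hj, anc_top h hu hk] using a
  · simpa only [anc_top h hu hj, anc_top h hu hk] using a

/-- bound for the number of listed scales -/
noncomputable def rQ (S : ℝ) (l1 Bl ell : ℕ) : ℕ := 24 * (l1 * ⌊S ^ 3⌋₊) * Bl * (ell + 10)

/-- the unweighted bound, without the factor `Phi` of the node; `ρ = N S / thr (i + l1 + g1)` -/
noncomputable def sig (S C1 ρ g : ℝ) (l1 g12 Bl : ℕ) : ℝ :=
  2000 * (l1 * S ^ 3 + 1) ^ 2 * (Bl + 1) ^ 3 * (S ^ (3 * g12) + 1 + C1 * ρ ^ g)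

theorem LXout_mono {I W1 : Type} {U : ℕ → I → Prop} {Y : Finset I} {a : I → ℝ} {J1 : Finset W1}
    {lo1 hi1 : W1 → ℕ} {x σ σ' : ℝ} {r r' : ℕ} {P1 P2 : W1 → Finset ℝ} {Rest : W1 → ℝ → Prop}
    {Q : W1 → Finset ℤ} (h : Mac.LXout U Y a J1 lo1 hi1 x r σ P1 P2 Rest Q) (hr : r ≤ r')
    (hσ : σ ≤ σ') : Mac.LXout U Y a J1 lo1 hi1 x r' σ' P1 P2 Rest Q :=
  ⟨fun j hj => (h.card j hj).trans hr, h.sep, h.list, h.sum.trans hσ⟩

theorem lxout {G : Geo Ω} (h : c.Ok Λ L) (hG : G.Ok c L) (hΛ : 1 ≤ Λ) {ell : ℕ}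
    (hell : Λ ≤ 2 ^ ell) {i l1 g1 g2 Bl : ℕ} (hu : i + (l1 + g1 + g2) ≤ L) (hg1 : 64 * Λ ≤ 2 ^ g1)
    (hg2 : 1 ≤ g2) (hB : 3 * c.S ^ (2 * (l1 + g1 + g2) + 1) < 2 ^ Bl) {Y : Finset Pt}
    (hY : Y ⊆ G.x.X) {g C ε : ℝ} (hg : 0 ≤ g) (hC : 0 ≤ C) (hε : 0 < ε)
    (hP : Ex.PW (fun i j => (Phi G.x.U Y i j : ℝ)) g C) (q : ℕ × ℕ) (x : ℝ) :
    ∃ P1 P2 Rest Q, Mac.LXout G.x.U Y Prod.fst (JJ c i (l1 + g1 + g2) q) (fun j => G.s j.1)
      (fun j => G.s j.2) x (rQ c.S l1 Bl ell)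
      (sig c.S (C * 8 ^ g / (1 - 2 ^ (-ε))) (((q.2 - q.1 : ℕ) : ℝ) / (c.thr (i + (l1 + g1)) / c.S))
        (g + ε) l1 (g1 + g2) Bl * G.Ph Y q.1 q.2) P1 P2 Rest Q := by
  set u := l1 + g1 + g2 with hud
  have hA := anc_ok h hu q
  have h2 := h.two
  have hs := hG.mono.monotone
  have hl2 : l1 + g1 ≤ u := by omega
  obtain ⟨P1, P2, Rest, Q, k⟩ := lxraw Y G.x.t G.x.m (G.s q.1) (G.s q.2) x (JJ c i u q)
    (fun j => G.s j.1) (fun j => G.s j.2) (anc c i u l1) (anc c i u (l1 + g1)) (fun j => G.s j.1)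
    (fun j => G.s j.2)
    (rows (JJ c i u q) (fun n j => (anc c i u n j).1) (fun n j => (anc c i u n j).2) c.tau l1 (l1 + g1))
    Λ ell (l1 * ⌊c.S ^ 3⌋₊) (⌊c.S ^ 3⌋₊ ^ (g1 + g2)) Bl G.x.mono.monotone
    (fun k p hp => G.x.off k p (hY hp)) (dis_JJ h hu q hG.mono)
    (fun j hj => by
      have a := hA.nest_le (Nat.zero_le _) hl2 hj
      have b := hA.nest_le hl2 le_rfl hj
      have d := hA.root j hj
      simp only [anc_top h hu hj] at b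
      exact ⟨hs (d.1 ▸ a.1), hs b.1, hs b.2, hs (d.2 ▸ a.2)⟩)
    hΛ hell (hA.card_rows (by omega) _)
    (fun j hj lam hl => by simpa only [hG.tau] using hA.rows_big hl2 hg1 hj hl)
    (fun j hj j' hj' e => by
      have a := hA.rows_sep (zero_le_one.trans hΛ) (Nat.le_add_right l1 g1) hl2 hj hj' e
      simp only [hG.tau, anc_top h hu hj, anc_top h hu hj'] at a
      exact a)
    (fun d => hA.card_fib (by omega) d)
    (by
      have a := card_JJ h hu q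
      have b : ((3 * #(JJ c i u q) : ℕ) : ℝ) < ((2 ^ Bl : ℕ) : ℝ) := by
        push_cast
        linarith
      exact_mod_cast b)
  refine ⟨P1, P2, Rest, Q, LXout_mono k le_rfl ?_⟩
  have hF : ∀ i j, 0 ≤ G.Ph Y i j := fun _ _ => Nat.cast_nonneg _
  have a1 := hA.sum_anc hl2 (F := G.Ph Y) (hP.comp hs) hF hg hC hε
    (div_pos (thr_pos h (i + (l1 + g1))) (by linarith : 0 < c.S))
    fun j hj => anc_good h hu (by omega) hj
  have a2 : (⌊c.S ^ 3⌋₊ : ℝ) ≤ c.S ^ 3 := Nat.floor_le (by positivity)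
  have a3 : (⌊c.S ^ 3⌋₊ : ℝ) ^ (g1 + g2) ≤ c.S ^ (3 * (g1 + g2)) := by
    rw [pow_mul]
    exact pow_le_pow_left₀ (Nat.cast_nonneg _) a2 _
  have a4 := hF q.1 q.2
  unfold sig
  push_cast
  rw [mul_assoc (2000 * (l1 * c.S ^ 3 + 1) ^ 2 * ((Bl : ℝ) + 1) ^ 3)]
  refine mul_le_mul (by gcongr) ?_ (by positivity) (by positivity)
  rw [add_mul (c.S ^ (3 * (g1 + g2)) + 1)]
  exact add_le_add (mul_le_mul_of_nonneg_right (add_le_add a3 le_rfl) a4) a1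

/-- the share of the annulus lemma -/
noncomputable def sLX (S C1 g : ℝ) (l1 g12 g2 u Bl : ℕ) : ℝ :=
  2000 * (l1 * S ^ 3 + 1) ^ 2 * (Bl + 1) ^ 3 *
    ((S ^ (3 * g12) + 1) * (S / S ^ (2 * u)) ^ g + C1 * (S / S ^ (2 * g2)) ^ g)

omit [Fintype Ω] in
theorem sig_weight (h : c.Ok Λ L) {i l1 g1 g2 : ℕ} (Bl : ℕ) {N C1 g : ℝ} (hg : 0 ≤ g)
    (hN : c.thr i ≤ c.S * N) :
    c.thr (i + (l1 + g1 + g2)) ^ g *
        sig c.S C1 (N / (c.thr (i + (l1 + g1)) / c.S)) g l1 (g1 + g2) Bl ≤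
      sLX c.S C1 g l1 (g1 + g2) g2 (l1 + g1 + g2) Bl * N ^ g := by
  have h2 := h.two
  have hS : 0 < c.S := by linarith
  have p0 := thr_pos h i
  have p1 := thr_pos h (i + (l1 + g1))
  have p2 := thr_pos h (i + (l1 + g1 + g2))
  have hN0 : 0 < N := (mul_pos_iff_of_pos_left hS).1 (p0.trans_le hN)
  have e1 := thr_add h i (l1 + g1 + g2)
  have e2 := thr_add h (i + (l1 + g1)) g2
  rw [add_assoc i] at e2
  have b1 : c.thr (i + (l1 + g1 + g2)) ^ g ≤ (c.S / c.S ^ (2 * (l1 + g1 + g2))) ^ g * N ^ g := by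
    rw [← Real.mul_rpow (by positivity) hN0.le]
    refine Real.rpow_le_rpow p2.le ?_ hg
    rw [div_mul_eq_mul_div, le_div_iff₀ (by positivity), e1]
    exact hN
  have b2 : c.thr (i + (l1 + g1 + g2)) ^ g * (N / (c.thr (i + (l1 + g1)) / c.S)) ^ g
      = (c.S / c.S ^ (2 * g2)) ^ g * N ^ g := by
    rw [← Real.mul_rpow p2.le (by positivity), ← Real.mul_rpow (by positivity) hN0.le, ← e2]
    congr 1
    field_simp
  unfold sig sLX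
  set K := 2000 * ((l1 : ℝ) * c.S ^ 3 + 1) ^ 2 * ((Bl : ℝ) + 1) ^ 3 with hK
  have hK0 : 0 ≤ K := by positivity
  have b3 := mul_le_mul_of_nonneg_left b1 (show 0 ≤ c.S ^ (3 * (g1 + g2)) + 1 by positivity)
  calc _ = K * ((c.S ^ (3 * (g1 + g2)) + 1) * c.thr (i + (l1 + g1 + g2)) ^ g
        + C1 * (c.thr (i + (l1 + g1 + g2)) ^ g * (N / (c.thr (i + (l1 + g1)) / c.S)) ^ g)) := by ring
    _ ≤ K * ((c.S ^ (3 * (g1 + g2)) + 1) * ((c.S / c.S ^ (2 * (l1 + g1 + g2))) ^ g * N ^ g)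
        + C1 * ((c.S / c.S ^ (2 * g2)) ^ g * N ^ g)) := by
        rw [b2]
        exact mul_le_mul_of_nonneg_left (add_le_add b3 le_rfl) hK0
    _ = _ := by ring

theorem rpow_small {S γ g : ℝ} {u n : ℕ} (hS : 1 ≤ S) (h0 : 0 < γ) (hg : γ ≤ g)
    (hn : (n : ℝ) ≤ γ * (2 * u - 1)) : (S / S ^ (2 * u)) ^ g ≤ 1 / S ^ n := by
  have hS0 : 0 < S := by linarith
  have h1 : 0 ≤ 2 * (u : ℝ) - 1 := by
    by_contra h
    have : γ * (2 * u - 1) < 0 := mul_neg_of_pos_of_neg h0 (not_le.1 h)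
    linarith [(Nat.cast_nonneg n : (0 : ℝ) ≤ n)]
  have e : S / S ^ (2 * u) = S ^ (1 - ((2 * u : ℕ) : ℝ)) := by
    rw [Real.rpow_sub hS0, Real.rpow_one, Real.rpow_natCast]
  rw [e, ← Real.rpow_mul hS0.le, one_div, ← Real.rpow_natCast, ← Real.rpow_neg hS0.le]
  refine Real.rpow_le_rpow_of_exponent_le hS ?_
  push_cast
  nlinarith

/-- numerical choice -/
theorem sLX_small {γ g C1 : ℝ} {l1 g12 g2 u : ℕ} (ell : ℕ) (h0 : 0 < γ) (hg : γ ≤ g) (hC : 0 ≤ C1)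
    (hl : l1 ≤ u) (h1 : 17 ≤ γ * (2 * g2 - 1)) (h2 : 3 * g12 + 17 ≤ γ * (2 * u - 1)) :
    ∃ S0 : ℝ, ∀ S, S0 ≤ S → ∃ Bl : ℕ, 3 * S ^ (2 * u + 1) < 2 ^ Bl ∧
      sLX S C1 g l1 g12 g2 u Bl ≤ 1 / S ^ 7 ∧ (rQ S l1 Bl ell : ℝ) ≤ S ^ 5 := by
  refine ⟨2 + 2000 * (u + 1) ^ 2 * (4 * u + 7) ^ 3 * (2 + C1) + 48 * u * (2 * u + 3) * (ell + 10),
    fun S hS => ⟨(2 * u + 3) * ⌈S⌉₊, ?_⟩⟩
  have k1 : (0 : ℝ) ≤ 2000 * (u + 1) ^ 2 * (4 * u + 7) ^ 3 * (2 + C1) := by positivity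
  have k2 : (0 : ℝ) ≤ 48 * u * (2 * u + 3) * (ell + 10) := by positivity
  have s2 : 2 ≤ S := by linarith
  have s0 : 0 < S := by linarith
  have c1 : S ≤ ⌈S⌉₊ := Nat.le_ceil S
  have c2 : (⌈S⌉₊ : ℝ) ≤ 2 * S := by linarith [Nat.ceil_lt_add_one s0.le]
  have hl' : (l1 : ℝ) ≤ u := by exact_mod_cast hl
  have hu0 : (0 : ℝ) ≤ u := Nat.cast_nonneg u
  have c3 : (((2 * u + 3) * ⌈S⌉₊ : ℕ) : ℝ) ≤ (2 * u + 3) * (2 * S) := by
    push_cast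
    gcongr
  refine ⟨?_, ?_, ?_⟩
  · have a : S ≤ 2 ^ ⌈S⌉₊ := c1.trans (by exact_mod_cast Nat.lt_two_pow_self.le)
    have b : S ^ (2 * u + 3) ≤ 2 ^ ((2 * u + 3) * ⌈S⌉₊) := by
      rw [mul_comm (2 * u + 3), pow_mul (2 : ℝ)]
      exact pow_le_pow_left₀ s0.le a _
    refine lt_of_lt_of_le ?_ b
    have d : 0 < S ^ (2 * u + 1) := by positivity
    have e : S ^ (2 * u + 3) = S ^ 2 * S ^ (2 * u + 1) := by ring
    rw [e]
    exact mul_lt_mul_of_pos_right (by nlinarith) d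
  · have s1 : 1 ≤ S := by linarith
    have a1 := rpow_small (n := 3 * g12 + 17) s1 h0 hg (by push_cast; exact h2)
    have a2 := rpow_small (n := 17) s1 h0 hg (by push_cast; exact h1)
    have a3 : 1 ≤ S ^ (3 * g12) := one_le_pow₀ s1
    have a4 : 1 ≤ S ^ 3 := one_le_pow₀ s1
    have b1 : (S ^ (3 * g12) + 1) * (S / S ^ (2 * u)) ^ g ≤ 2 / S ^ 17 := by
      refine (mul_le_mul (show _ ≤ 2 * S ^ (3 * g12) by linarith) a1 (by positivity)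
        (by positivity)).trans_eq ?_
      rw [pow_add]
      field_simp
    have b2 : (S ^ (3 * g12) + 1) * (S / S ^ (2 * u)) ^ g + C1 * (S / S ^ (2 * g2)) ^ g
        ≤ (2 + C1) / S ^ 17 := by
      rw [add_div, div_eq_mul_one_div C1]
      exact add_le_add b1 (mul_le_mul_of_nonneg_left a2 hC)
    have b3 : (l1 : ℝ) * S ^ 3 + 1 ≤ (u + 1) * S ^ 3 := by nlinarith
    have b4 : (((2 * u + 3) * ⌈S⌉₊ : ℕ) : ℝ) + 1 ≤ (4 * u + 7) * S := by nlinarith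
    unfold sLX
    calc _ ≤ 2000 * ((u + 1) * S ^ 3) ^ 2 * ((4 * u + 7) * S) ^ 3 * ((2 + C1) / S ^ 17) := by
          gcongr
      _ = 2000 * (u + 1) ^ 2 * (4 * u + 7) ^ 3 * (2 + C1) / S ^ 8 := by field_simp
      _ ≤ S / S ^ 8 := by gcongr; linarith
      _ = 1 / S ^ 7 := by field_simp
  · have a2 : (⌊S ^ 3⌋₊ : ℝ) ≤ S ^ 3 := Nat.floor_le (by positivity)
    unfold rQ
    rw [Nat.cast_mul, Nat.cast_mul]
    calc _ ≤ 24 * (u * S ^ 3) * ((2 * u + 3) * (2 * S)) * (ell + 10) := by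
          push_cast at c3 ⊢
          gcongr
      _ = 48 * u * (2 * u + 3) * (ell + 10) * S ^ 4 := by ring
      _ ≤ S * S ^ 4 := by gcongr; linarith
      _ = S ^ 5 := by ring

end Pool.Agent.Lib.MP_d308c3_co.K.LxK
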