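import Pool.Agent.Lib.MP_d308c3_co.K.Chains

/-! Choice of the offset and the sum of the defects over all cells. -/

namespace Pool.Agent.Lib.MP_d308c3_co.K

open Finset Pool.Agent.Lib.MP_108739_an.F
open scoped Classical

variable {Ω : Type}

/-- all cells of one window -/
def cells (G Hn K0 : ℕ) : Finset (ℕ × (ℕ × ℕ) × Bool × ℕ) :=
  range G ×ˢ (range Hn ×ˢ range Hn) ×ˢ (univ : Finset Bool) ×ˢ range K0

theorem card_cells (G Hn K0 : ℕ) : (#(cells G Hn K0) : ℝ) = 2 * G * Hn ^ 2 * K0 := by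
  simp only [cells, card_product, card_range, card_univ, Fintype.card_bool]
  push_cast
  ring

namespace Arr

/-- the same arrangement with another offset -/
def off (A : Arr Ω) (σ : ℝ) : Arr Ω := { A with sig := σ }

variable [Fintype Ω] {A : Arr Ω} {w : Ω → ℝ} {Λ η Bd r0 : ℝ} {Hn K0 s Jb : ℕ}

theorem Ok.off (hA : A.Ok w Λ η Hn K0 Bd) (σ : ℝ) : (A.off σ).Ok w Λ η Hn K0 Bd :=
  ⟨hA.nn, hA.one, hA.eta, hA.d, hA.R, hA.C⟩

omit [Fintype Ω] in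
theorem Num.off (hN : A.Num Λ r0 s Jb) (σ : ℝ) : (A.off σ).Num Λ r0 s Jb :=
  ⟨hN.r0_pos, hN.r0_le, hN.P1, hN.P2, hN.P3, hN.Jb, hN.g1, hN.g2, hN.s1, hN.s2⟩

/-- an offset with few straddling items -/
theorem ex_off (A : Arr Ω) (hw : Nn w) (hr : 0 < r0) (S : Finset (ℕ × (ℕ × ℕ) × Bool × ℕ)) :
    ∃ σ : ℝ, ∑ z ∈ S, ((A.off σ).sC z.1 z.2.1 z.2.2 w r0 + (A.off σ).sP z.1 z.2.1 z.2.2 w r0 +
      (A.off σ).sL z.1 z.2.1 z.2.2 w r0) ≤ 9 * r0 * #S * tot w := by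
  obtain ⟨K, hK⟩ := exists_nat_ge (1 / r0)
  have hK0 : (0 : ℝ) < K := lt_of_lt_of_le (by positivity) hK
  have hK1 : 1 ≤ K := by exact_mod_cast hK0
  have hK2 : 1 / (K : ℝ) ≤ r0 := by
    rw [div_le_iff₀ hK0]
    rw [div_le_iff₀ hr] at hK
    linarith
  obtain ⟨j, -, hj⟩ := Tel.ex_offset (S ×ˢ (univ : Finset (Fin 3))) (fun _ => w) (fun _ _ => hw)
    (fun z => ![A.vc z.1.1 z.1.2.1 z.1.2.2, A.vp z.1.1 z.1.2.1 z.1.2.2,
      A.vl z.1.1 z.1.2.1 z.1.2.2] z.2) hK1 hr.le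
  refine ⟨j / K, ?_⟩
  rw [sum_product] at hj
  simp only [Fin.sum_univ_three, Matrix.cons_val_zero, Matrix.cons_val_one, Matrix.cons_val,
    sum_const, card_product, card_univ, Fintype.card_fin, nsmul_eq_mul] at hj
  refine le_trans (le_of_eq (sum_congr rfl fun z _ => rfl)) (hj.trans ?_)
  have h1 : (0 : ℝ) ≤ #S * tot w := mul_nonneg (Nat.cast_nonneg _) (tot_nonneg hw)
  push_cast
  nlinarith

theorem s_nonneg (hw : Nn w) (r : ℕ) (h : ℕ × ℕ) (x : Bool × ℕ) :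
    0 ≤ A.sC r h x w r0 ∧ 0 ≤ A.sP r h x w r0 ∧ 0 ≤ A.sL r h x w r0 :=
  ⟨tot_nonneg (hw.res _), tot_nonneg (hw.res _), tot_nonneg (hw.res _)⟩

theorem sum_d1 (hA : A.Ok w Λ η Hn K0 Bd) (hN : A.Num Λ r0 s Jb) (G Hm K : ℕ) :
    ∑ z ∈ cells G Hm K, A.d1 z.1 z.2.1 z.2.2 w ≤
      2 * Hm ^ 2 * s * ((A.g0 + 1) * H w (A.d.W A.d.Gr) un) +
        ∑ z ∈ cells G Hm K, (A.sC z.1 z.2.1 z.2.2 w r0 + A.sP z.1 z.2.1 z.2.2 w r0) := by
  have h1 : ∑ r ∈ range G, ∑ h ∈ range Hm ×ˢ range Hm, ∑ _Γ : Bool,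
      (s : ℝ) * H w (A.AA r) (A.tv r h) ≤ 2 * Hm ^ 2 * s * ((A.g0 + 1) * H w (A.d.W A.d.Gr) un) := by
    rw [sum_comm]
    have h2 := sum_le_card_nsmul (range Hm ×ˢ range Hm)
      (fun h => ∑ r ∈ range G, ∑ _Γ : Bool, (s : ℝ) * H w (A.AA r) (A.tv r h))
      (2 * s * ((A.g0 + 1) * H w (A.d.W A.d.Gr) un)) fun h _ => by
        have h3 := mul_le_mul_of_nonneg_left (ahead hA h G) (show (0 : ℝ) ≤ 2 * s by positivity)
        refine le_trans (le_of_eq ?_) h3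
        rw [mul_sum]
        refine sum_congr rfl fun r _ => ?_
        simp only [sum_const, card_univ, Fintype.card_bool, nsmul_eq_mul]
        push_cast
        ring
    refine h2.trans_eq ?_
    simp only [card_product, card_range, nsmul_eq_mul]
    push_cast
    ring
  refine le_trans ?_ (add_le_add h1 le_rfl)
  unfold cells
  rw [sum_product, sum_product, ← sum_add_distrib]
  refine sum_le_sum fun r _ => ?_
  rw [sum_product (s := range Hm ×ˢ range Hm), sum_product (s := range Hm ×ˢ range Hm),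
    ← sum_add_distrib]
  refine sum_le_sum fun h _ => ?_
  rw [sum_product, sum_product, ← sum_add_distrib]
  exact sum_le_sum fun Γ _ => chain_col hA hN r h Γ K

theorem sum_d2 (hA : A.Ok w Λ η Hn K0 Bd) (hN : A.Num Λ r0 s Jb) (G Hm K : ℕ) :
    ∑ z ∈ cells G Hm K, A.d2 z.1 z.2.1 z.2.2 w ≤ 2 * Hm ^ 2 * s * (K * (A.g0 * tot w)) +
      ∑ z ∈ cells G Hm K, (A.sC z.1 z.2.1 z.2.2 w r0 + A.sL z.1 z.2.1 z.2.2 w r0) := by
  unfold cells
  rw [sum_product_right (s := range G), sum_product_right (s := range G)]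
  have h1 : ∑ _y ∈ (range Hm ×ˢ range Hm) ×ˢ (univ : Finset Bool) ×ˢ range K,
      (s : ℝ) * (A.g0 * tot w) = 2 * Hm ^ 2 * s * (K * (A.g0 * tot w)) := by
    simp only [sum_const, card_product, card_range, card_univ, Fintype.card_bool, nsmul_eq_mul]
    push_cast
    ring
  rw [← h1, ← sum_add_distrib]
  exact sum_le_sum fun y _ => chain_row hA hN y.1 y.2 G

/-- a good offset: straddles and defects summed over all cells -/
theorem ex_good (hA : A.Ok w Λ η Hn K0 Bd) (hN : A.Num Λ r0 s Jb) (G Hm K : ℕ) : ∃ σ : ℝ,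
    ∑ z ∈ cells G Hm K, (A.off σ).sC z.1 z.2.1 z.2.2 w r0 ≤ 9 * r0 * #(cells G Hm K) * tot w ∧
    ∑ z ∈ cells G Hm K, ((A.off σ).d1 z.1 z.2.1 z.2.2 w + (A.off σ).d2 z.1 z.2.1 z.2.2 w) ≤
      2 * Hm ^ 2 * s * ((A.g0 + 1) * H w (A.d.W A.d.Gr) un + K * (A.g0 * tot w)) +
        18 * r0 * #(cells G Hm K) * tot w := by
  obtain ⟨σ, h0⟩ := A.ex_off hA.nn hN.r0_pos (cells G Hm K)
  have h1 := sum_d1 (hA.off σ) (hN.off σ) G Hm K
  have h2 := sum_d2 (hA.off σ) (hN.off σ) G Hm K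
  have a1 := sum_nonneg fun z (_ : z ∈ cells G Hm K) =>
    (s_nonneg (A := A.off σ) (r0 := r0) hA.nn z.1 z.2.1 z.2.2).1
  have a2 := sum_nonneg fun z (_ : z ∈ cells G Hm K) =>
    (s_nonneg (A := A.off σ) (r0 := r0) hA.nn z.1 z.2.1 z.2.2).2.1
  have a3 := sum_nonneg fun z (_ : z ∈ cells G Hm K) =>
    (s_nonneg (A := A.off σ) (r0 := r0) hA.nn z.1 z.2.1 z.2.2).2.2
  simp only [sum_add_distrib] at h0 h1 h2 ⊢
  have e1 : (A.off σ).g0 = A.g0 := rfl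
  have e2 : (A.off σ).d = A.d := rfl
  rw [e1, e2] at h1
  rw [e1] at h2
  exact ⟨σ, by linarith, by linarith⟩

end Arr

end Pool.Agent.Lib.MP_d308c3_co.K
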