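import Pool.Agent.Lib.MP_d308c3_co.K.Defs

/-! Rows of a time tree: split counts and pair indices. -/

set_option autoImplicit false

namespace Pool.Agent.Lib.MP_d308c3_co.K

open Finset
open scoped Classical

namespace TT
variable {Ω : Type} {c : TT Ω} {Λ : ℝ} {L : ℕ}

theorem N_congr {i j : ℕ} {o o' : Ω} (e : c.W i o = c.W j o') : c.N i o = c.N j o' := by
  have h1 : c.lo i o = c.lo j o' := congrArg Prod.fst e
  have h2 : c.hi i o = c.hi j o' := congrArg Prod.snd e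
  unfold N; rw [h1, h2]

theorem Ok.S_pos (h : c.Ok Λ L) : 0 < c.S := by linarith [h.two]

theorem Ok.th_pos (h : c.Ok Λ L) : 0 < c.th := by
  have h1 := h.big
  have h2 := h.S_pos
  have h3 : 0 < c.thr L := lt_of_lt_of_le (by positivity) h1
  exact (div_pos_iff_of_pos_right (by positivity)).1 h3

theorem Ok.thr_pos (h : c.Ok Λ L) (i : ℕ) : 0 < c.thr i :=
  div_pos h.th_pos (by have := h.S_pos; positivity)

theorem Ok.thr_succ (h : c.Ok Λ L) (i : ℕ) : c.thr i = c.S ^ 2 * c.thr (i + 1) := by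
  have := h.S_pos
  unfold thr; rw [pow_succ (c.S ^ 2) i]; field_simp

theorem Ok.thr_anti (h : c.Ok Λ L) {i j : ℕ} (hij : i ≤ j) : c.thr j ≤ c.thr i :=
  div_le_div_of_nonneg_left h.th_pos.le (by have := h.S_pos; positivity)
    (pow_le_pow_right₀ (by nlinarith [h.two]) hij)

theorem Ok.nest_le (h : c.Ok Λ L) {i j : ℕ} (hij : i ≤ j) (hj : j ≤ L) (o : Ω) :
    c.lo i o ≤ c.lo j o ∧ c.hi j o ≤ c.hi i o := by
  induction j, hij using Nat.le_induction with
  | base => exact ⟨le_rfl, le_rfl⟩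
  | succ j _ ih =>
    have h1 := ih (by omega)
    have h2 := h.nest j (by omega) o
    omega

theorem Ok.eq_of_lo (h : c.Ok Λ L) {i : ℕ} (hi : i ≤ L) {o o' : Ω} (e : c.lo i o = c.lo i o') :
    c.W i o = c.W i o' := by
  have h1 := h.lt i hi o
  have h2 := h.lt i hi o'
  rcases h.lami i hi o o' with e1 | e1 | e1
  · exact e1
  · omega
  · omega

theorem Ok.W_back (h : c.Ok Λ L) {i j : ℕ} (hij : i ≤ j) (hj : j ≤ L) {o o' : Ω}
    (e : c.W j o' = c.W j o) : c.W i o' = c.W i o := by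
  have h1 : c.lo j o' = c.lo j o := congrArg Prod.fst e
  have h2 : c.hi j o' = c.hi j o := congrArg Prod.snd e
  have h3 := h.nest_le hij hj o
  have h4 := h.nest_le hij hj o'
  have h5 := h.lt j hj o
  rcases h.lami i (hij.trans hj) o' o with e1 | e1 | e1
  · exact e1
  · omega
  · omega

theorem Ok.clean_spl (h : c.Ok Λ L) {i : ℕ} {o : Ω} (hc : c.clean i o) :
    c.spl i o := by
  by_contra hn
  have h1 : c.N i o ≤ c.thr (i + 1) := not_lt.1 hn
  have h2 : c.thr i ≤ c.S * c.N i o := hc.1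
  have h3 := h.thr_succ i
  have h4 := h.thr_pos (i + 1)
  have h5 := h.two
  have h6 : c.S * c.N i o ≤ c.S * c.thr (i + 1) := mul_le_mul_of_nonneg_left h1 h.S_pos.le
  nlinarith [mul_pos (mul_pos h.S_pos h4) (show 0 < c.S - 1 by linarith)]

/-- number of splits below level `i` -/
noncomputable def cn (c : TT Ω) (i : ℕ) (o : Ω) : ℕ := #((range i).filter fun j => c.spl j o)

theorem cn_succ (i : ℕ) (o : Ω) : c.cn (i + 1) o = c.cn i o + if c.spl i o then 1 else 0 := by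
  unfold cn
  rw [range_add_one, filter_insert]
  split_ifs
  · rw [card_insert_of_notMem (by simp)]
  · rfl

theorem cn_mono {i j : ℕ} (hij : i ≤ j) (o : Ω) : c.cn i o ≤ c.cn j o :=
  card_le_card (filter_subset_filter _ (range_mono hij))

theorem cn_add (i k : ℕ) (o : Ω) : c.cn (i + k) o ≤ c.cn i o + k := by
  induction k with
  | zero => exact le_rfl
  | succ k ih =>
    have := cn_succ (c := c) (i + k) o
    rw [← add_assoc, this]
    split_ifs <;> omega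

theorem Ok.W_of_cn (h : c.Ok Λ L) {i j : ℕ} (hij : i ≤ j) (hj : j ≤ L) {o : Ω}
    (e : c.cn j o ≤ c.cn i o) : c.W j o = c.W i o := by
  induction j, hij using Nat.le_induction with
  | base => rfl
  | succ j hij ih =>
    have h1 := cn_succ (c := c) j o
    have h2 := cn_mono (c := c) hij o
    have h3 : ¬ c.spl j o := fun a => by rw [if_pos a] at h1; omega
    rw [if_neg h3] at h1
    rw [h.idle j (by omega) o h3, ih (by omega) (by omega)]

theorem Ok.cn_det (h : c.Ok Λ L) {i : ℕ} (hi : i ≤ L) {o o' : Ω} (e : c.W i o' = c.W i o) :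
    c.cn i o' = c.cn i o := by
  unfold cn
  refine congrArg card (filter_congr fun j hj => ?_)
  unfold spl
  rw [N_congr (h.W_back (mem_range.1 hj).le hi e)]

/-- last level up to `Gr` with at most `r` splits below it -/
noncomputable def st (c : TT Ω) (Gr r : ℕ) (o : Ω) : ℕ :=
  Nat.findGreatest (fun i => c.cn i o ≤ r) Gr

variable {Gr r : ℕ} {o o' : Ω}

theorem st_le : c.st Gr r o ≤ Gr := Nat.findGreatest_le _

theorem cn_st : c.cn (c.st Gr r o) o ≤ r :=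
  Nat.findGreatest_spec (P := fun i => c.cn i o ≤ r) (Nat.zero_le Gr) (by simp [cn])

theorem le_st {i : ℕ} (hi : i ≤ Gr) (h : c.cn i o ≤ r) : i ≤ c.st Gr r o :=
  Nat.le_findGreatest (P := fun i => c.cn i o ≤ r) hi h

theorem st_lt (h : c.st Gr r o < Gr) : c.spl (c.st Gr r o) o ∧ c.cn (c.st Gr r o) o = r := by
  have h1 : ¬ c.cn (c.st Gr r o + 1) o ≤ r := fun a => by
    have := le_st (Nat.succ_le_of_lt h) a
    omega
  have h2 := cn_succ (c := c) (c.st Gr r o) o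
  have h3 := cn_st (c := c) (Gr := Gr) (r := r) (o := o)
  by_cases a : c.spl (c.st Gr r o) o
  · rw [if_pos a] at h2; exact ⟨a, by omega⟩
  · rw [if_neg a] at h2; omega

theorem st_mono : c.st Gr r o ≤ c.st Gr (r + 1) o := le_st st_le (cn_st.trans (Nat.le_succ r))

theorem st_cn {i : ℕ} (hi : i < Gr) (hs : c.spl i o) : c.st Gr (c.cn i o) o = i := by
  refine le_antisymm ?_ (le_st hi.le le_rfl)
  by_contra hn
  have h1 := cn_mono (c := c) (Nat.succ_le_of_lt (not_le.1 hn)) o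
  have h2 := cn_succ (c := c) i o
  have h3 := cn_st (c := c) (Gr := Gr) (r := c.cn i o) (o := o)
  rw [if_pos hs] at h2
  rw [Nat.succ_eq_add_one] at h1
  omega

theorem Ok.al_iff (h : c.Ok Λ L) (hG : Gr ≤ L) :
    c.thr Gr < c.N (c.st Gr r o) o ↔ c.st Gr r o < Gr := by
  refine ⟨fun a => lt_of_le_of_ne st_le fun e => ?_, fun a => ?_⟩
  · rw [e] at a
    exact absurd (h.size Gr hG o) (not_le.2 a)
  · exact (h.thr_anti (Nat.succ_le_of_lt a)).trans_lt (st_lt a).1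

theorem Ok.W_next (h : c.Ok Λ L) (hG : Gr ≤ L) (a : c.st Gr r o < Gr) :
    c.W (c.st Gr (r + 1) o) o = c.W (c.st Gr r o + 1) o := by
  have h1 := cn_succ (c := c) (c.st Gr r o) o
  rw [if_pos (st_lt a).1, (st_lt a).2] at h1
  exact h.W_of_cn (le_st (Nat.succ_le_of_lt a) h1.le) (st_le.trans hG) (cn_st.trans h1.ge)

theorem Ok.st_det (h : c.Ok Λ L) (hG : Gr ≤ L)
    (e : c.W (c.st Gr r o') o' = c.W (c.st Gr r o) o) : c.st Gr r o' = c.st Gr r o := by
  have e1 := N_congr e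
  have k : ∀ {x y : Ω}, c.N (c.st Gr r x) x = c.N (c.st Gr r y) y → c.st Gr r y ≤ c.st Gr r x := by
    intro x y e2
    by_contra hn
    have h1 : c.st Gr r x < c.st Gr r y := not_le.1 hn
    have h2 : c.thr (c.st Gr r x + 1) < c.N (c.st Gr r x) x := (st_lt (h1.trans_le st_le)).1
    have h3 := h.size (c.st Gr r y) (st_le.trans hG) y
    have h4 := h.thr_anti (Nat.succ_le_of_lt h1)
    rw [Nat.succ_eq_add_one] at h4
    linarith
  exact le_antisymm (k e1.symm) (k e1)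

theorem Ok.st_of_W (h : c.Ok Λ L) (hG : Gr ≤ L) {j : ℕ} (hj : j ≤ Gr) (e : c.W j o' = c.W j o)
    (h1 : c.st Gr r o ≤ j) (h2 : c.st Gr r o' ≤ j) : c.st Gr r o' = c.st Gr r o := by
  have k : ∀ {x y : Ω}, c.W j y = c.W j x → c.st Gr r x ≤ j → c.st Gr r x ≤ c.st Gr r y := by
    intro x y e2 h3
    refine le_st st_le ?_
    rw [h.cn_det (st_le.trans hG) (h.W_back h3 (hj.trans hG) e2)]
    exact cn_st
  exact le_antisymm (k e.symm h2) (k e h1)

/-- rank of the position `x` among the left ends of the clean children of `q` -/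
noncomputable def rk (c : TT Ω) (i : ℕ) (q : ℕ × ℕ) (x : ℕ) : ℕ :=
  #((range x).filter fun y => ∃ o, c.W i o = q ∧ c.clean i o ∧ c.lo (i + 1) o = y)

def Kid (c : TT Ω) (i : ℕ) (q : ℕ × ℕ) (k : ℕ) (o : Ω) : Prop :=
  c.W i o = q ∧ c.clean i o ∧ c.rk i q (c.lo (i + 1) o) = k

theorem Ok.kid_eq (h : c.Ok Λ L) {i : ℕ} (hi : i < L) {q : ℕ × ℕ} {k : ℕ} (h1 : c.Kid i q k o)
    (h2 : c.Kid i q k o') : c.W (i + 1) o = c.W (i + 1) o' := by
  have m : ∀ {x y : Ω}, c.Kid i q k x → c.Kid i q k y → ¬ c.lo (i + 1) x < c.lo (i + 1) y := by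
    intro x y a b hlt
    have : c.rk i q (c.lo (i + 1) x) < c.rk i q (c.lo (i + 1) y) := by
      refine card_lt_card ⟨filter_subset_filter _ (range_mono hlt.le), fun hs => ?_⟩
      have := hs (mem_filter.2 ⟨mem_range.2 hlt, x, a.1, a.2.1, rfl⟩)
      simp at this
    rw [a.2.2, b.2.2] at this
    exact lt_irrefl _ this
  have := m h1 h2
  have := m h2 h1
  exact h.eq_of_lo (i := i + 1) hi (by omega)

/-- a window has at most `S ^ 3` clean children -/
theorem Ok.card_kids (h : c.Ok Λ L) {i : ℕ} (hi : i < L) (o : Ω) (J : Finset ℕ)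
    (hJ : ∀ y ∈ J, ∃ o', c.W i o' = c.W i o ∧ c.good (i + 1) o' ∧ c.lo (i + 1) o' = y) :
    (#J : ℝ) ≤ c.S ^ 3 := by
  have : Nonempty Ω := ⟨o⟩
  choose! f hf using hJ
  have hD : Ex.Dis J (fun y => c.lo (i + 1) (f y)) (fun y => c.hi (i + 1) (f y)) (c.lo i o)
      (c.hi i o) := by
    refine ⟨fun y _ => h.lt _ hi _, fun y hy => ?_, fun y hy => ?_, fun y hy z hz hne => ?_⟩
    · have e : c.lo i (f y) = c.lo i o := congrArg Prod.fst (hf y hy).1
      exact e ▸ (h.nest i hi (f y)).1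
    · have e : c.hi i (f y) = c.hi i o := congrArg Prod.snd (hf y hy).1
      exact e ▸ (h.nest i hi (f y)).2
    · refine (h.lami (i + 1) hi (f y) (f z)).resolve_left fun e => hne ?_
      have e1 : c.lo (i + 1) (f y) = c.lo (i + 1) (f z) := congrArg Prod.fst e
      rw [← (hf y hy).2.2, e1, (hf z hz).2.2]
  have h1 : ∑ y ∈ J, c.N (i + 1) (f y) ≤ c.N i o := by
    unfold N
    exact_mod_cast hD.sum_len
  have h2 : ∑ _y ∈ J, c.thr (i + 1) ≤ ∑ y ∈ J, c.S * c.N (i + 1) (f y) :=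
    sum_le_sum fun y hy => (hf y hy).2.1
  rw [sum_const, nsmul_eq_mul, ← mul_sum] at h2
  have h3 := h.size i hi.le o
  rw [h.thr_succ i] at h3
  refine le_of_mul_le_mul_right ?_ (h.thr_pos (i + 1))
  have h4 := mul_le_mul_of_nonneg_left (h1.trans h3) h.S_pos.le
  calc _ ≤ c.S * (c.S ^ 2 * c.thr (i + 1)) := h2.trans h4
    _ = _ := by ring

theorem Ok.rk_lt (h : c.Ok Λ L) {i : ℕ} (hi : i < L) (hc : c.clean i o) {Hn : ℕ}
    (hH : c.S ^ 3 ≤ Hn) : c.rk i (c.W i o) (c.lo (i + 1) o) < Hn := by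
  have := h.card_kids hi o (insert (c.lo (i + 1) o) ((range (c.lo (i + 1) o)).filter fun y =>
    ∃ o', c.W i o' = c.W i o ∧ c.clean i o' ∧ c.lo (i + 1) o' = y)) fun y hy => by
      rcases mem_insert.1 hy with rfl | hy
      · exact ⟨o, rfl, hc.2.1, rfl⟩
      · obtain ⟨o', a, b, d⟩ := (mem_filter.1 hy).2
        exact ⟨o', a, b.2.1, d⟩
  rw [card_insert_of_notMem (by simp)] at this
  exact Nat.lt_of_succ_le (by exact_mod_cast this.trans hH)

/-- `v` is the hull of the two clean children of `q` named by `k`, and `u` is one of them -/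
def Pair (c : TT Ω) (i : ℕ) (q u k v : ℕ × ℕ) : Prop :=
  ∃ o1 o2, c.Kid i q k.1 o1 ∧ c.Kid i q k.2 o2 ∧ c.hi (i + 1) o1 ≤ c.lo (i + 1) o2 ∧
    (u = c.W (i + 1) o1 ∨ u = c.W (i + 1) o2) ∧ v = (c.lo (i + 1) o1, c.hi (i + 1) o2)

noncomputable def hull (c : TT Ω) (Gr i : ℕ) (q u k : ℕ × ℕ) : ℕ × ℕ :=
  if e : i < Gr ∧ ∃ v, c.Pair i q u k v then e.2.choose else u

theorem hull_cases (i : ℕ) (q u k : ℕ × ℕ) :
    (i < Gr ∧ c.Pair i q u k (c.hull Gr i q u k)) ∨ c.hull Gr i q u k = u := by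
  unfold hull
  split_ifs with e
  · exact Or.inl ⟨e.1, e.2.choose_spec⟩
  · exact Or.inr rfl

theorem Ok.pair_eq (h : c.Ok Λ L) {i : ℕ} (hi : i < L) {q u u' k v v' : ℕ × ℕ}
    (h1 : c.Pair i q u k v) (h2 : c.Pair i q u' k v') : v = v' := by
  obtain ⟨o1, o2, a1, a2, -, -, rfl⟩ := h1
  obtain ⟨p1, p2, b1, b2, -, -, rfl⟩ := h2
  have e1 : c.lo (i + 1) o1 = c.lo (i + 1) p1 := congrArg Prod.fst (h.kid_eq hi a1 b1)
  have e2 : c.hi (i + 1) o2 = c.hi (i + 1) p2 := congrArg Prod.snd (h.kid_eq hi a2 b2)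
  rw [e1, e2]

theorem Ok.hull_eq (h : c.Ok Λ L) (hG : Gr ≤ L) {i : ℕ} (hi : i < Gr) {q u k v : ℕ × ℕ}
    (h1 : c.Pair i q u k v) : c.hull Gr i q u k = v := by
  have e : i < Gr ∧ ∃ v, c.Pair i q u k v := ⟨hi, v, h1⟩
  unfold hull
  rw [dif_pos e]
  exact h.pair_eq (hi.trans_le hG) e.2.choose_spec h1

/-- the rows of a time tree -/
noncomputable def row (c : TT Ω) (Gr : ℕ) : Row Ω where
  st := c.st Gr
  cn := c.cn
  tl := fun r k o => (c.hull Gr (c.st Gr r o) (c.W (c.st Gr r o) o)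
    (c.W (c.st Gr (r + 1) o) o) k).1
  tr := fun r k o => (c.hull Gr (c.st Gr r o) (c.W (c.st Gr r o) o)
    (c.W (c.st Gr (r + 1) o) o) k).2

theorem Ok.lam_nonneg (h : c.Ok Λ L) {i : ℕ} (hi : i < L) {q : ℕ × ℕ} {k k' : ℕ}
    {o1 o2 : Ω} (a1 : c.Kid i q k o1) (a2 : c.Kid i q k' o2)
    (a3 : c.hi (i + 1) o1 ≤ c.lo (i + 1) o2) : 0 ≤ Λ := by
  have h1 := h.sep i hi o1 o2 a1.2.1.2.2 a2.2.1.2.2 (a1.1.trans a2.1.symm) a3
  have h2 := h.mono.monotone a3
  have h3 := h.mono (h.lt (i + 1) hi o1)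
  have h4 := h.mono (h.lt (i + 1) hi o2)
  by_contra hn
  nlinarith [mul_nonneg (neg_nonneg.2 (not_le.1 hn).le) (sub_nonneg.2 h2)]

theorem Ok.sep_pt (h : c.Ok Λ L) (hΛ : 0 ≤ Λ) {i : ℕ} (hi : i < L) {q : ℕ × ℕ} {k k' : ℕ}
    {o1 o2 : Ω} (a1 : c.Kid i q k o1) (a2 : c.Kid i q k' o2)
    (a3 : c.hi (i + 1) o1 ≤ c.lo (i + 1) o2) {s s' : ℝ} (hs : s ≤ c.tau (c.hi (i + 1) o1))
    (hs' : c.tau (c.lo (i + 1) o2) ≤ s') :
    c.tau (c.hi (i + 1) o2) - c.tau (c.lo (i + 1) o1) ≤ Λ * (s' - s) :=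
  (h.sep i hi o1 o2 a1.2.1.2.2 a2.2.1.2.2 (a1.1.trans a2.1.symm) a3).trans
    (mul_le_mul_of_nonneg_left (by linarith) hΛ)

theorem Ok.row_sub (h : c.Ok Λ L) (hG : Gr ≤ L) (r : ℕ) (k : ℕ × ℕ) (o : Ω) :
    c.lo (c.st Gr r o) o ≤ (c.row Gr).tl r k o ∧
      (c.row Gr).tl r k o ≤ c.lo (c.st Gr (r + 1) o) o ∧
      c.hi (c.st Gr (r + 1) o) o ≤ (c.row Gr).tr r k o ∧
      (c.row Gr).tr r k o ≤ c.hi (c.st Gr r o) o := by
  simp only [row]
  rcases hull_cases (c := c) (Gr := Gr) (c.st Gr r o) (c.W (c.st Gr r o) o)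
    (c.W (c.st Gr (r + 1) o) o) k with ⟨hi, o1, o2, a1, a2, a3, a4, a5⟩ | e
  · rw [a5]
    have hL := hi.trans_le hG
    have b1 : c.lo (c.st Gr r o) o1 = c.lo (c.st Gr r o) o := congrArg Prod.fst a1.1
    have b2 : c.hi (c.st Gr r o) o2 = c.hi (c.st Gr r o) o := congrArg Prod.snd a2.1
    have b3 := h.nest _ hL o1
    have b4 := h.nest _ hL o2
    have b5 := h.lt (c.st Gr r o + 1) hL o1
    have b6 := h.lt (c.st Gr r o + 1) hL o2
    rcases a4 with e | e
    · have e1 : c.lo (c.st Gr (r + 1) o) o = _ := congrArg Prod.fst e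
      have e2 : c.hi (c.st Gr (r + 1) o) o = _ := congrArg Prod.snd e
      simp only [W] at e1 e2 ⊢
      omega
    · have e1 : c.lo (c.st Gr (r + 1) o) o = _ := congrArg Prod.fst e
      have e2 : c.hi (c.st Gr (r + 1) o) o = _ := congrArg Prod.snd e
      simp only [W] at e1 e2 ⊢
      omega
  · rw [e]
    have := h.nest_le (st_mono (c := c) (Gr := Gr) (r := r) (o := o)) (st_le.trans hG) o
    exact ⟨this.1, le_rfl, le_rfl, this.2⟩

theorem Ok.row_sep (h : c.Ok Λ L) (hG : Gr ≤ L) (r : ℕ) (k : ℕ × ℕ) (o o' : Ω)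
    (e : (c.row Gr).tv c r k o' = (c.row Gr).tv c r k o)
    (hne : c.W (c.st Gr (r + 1) o') o' ≠ c.W (c.st Gr (r + 1) o) o) (s s' : ℝ)
    (s1 : c.tau (c.lo (c.st Gr (r + 1) o) o) ≤ s) (s2 : s ≤ c.tau (c.hi (c.st Gr (r + 1) o) o))
    (s3 : c.tau (c.lo (c.st Gr (r + 1) o') o') ≤ s')
    (s4 : s' ≤ c.tau (c.hi (c.st Gr (r + 1) o') o')) :
    (c.row Gr).lam c r k o ≤ Λ * |s - s'| := by
  have e1 : c.W (c.st Gr r o') o' = c.W (c.st Gr r o) o := congrArg Prod.fst e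
  have e2 := h.st_det hG e1
  have e3 : c.hull Gr (c.st Gr r o') (c.W (c.st Gr r o') o') (c.W (c.st Gr (r + 1) o') o') k =
      c.hull Gr (c.st Gr r o) (c.W (c.st Gr r o) o) (c.W (c.st Gr (r + 1) o) o) k :=
    Prod.ext (congrArg (fun z => z.2.1) e) (congrArg (fun z => z.2.2) e)
  rw [e1, e2] at e3
  by_cases hi : c.st Gr r o < Gr
  swap
  · unfold hull at e3
    rw [dif_neg fun a => hi a.1, dif_neg fun a => hi a.1] at e3
    exact absurd e3 hne
  have hL := hi.trans_le hG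
  have n1 := h.W_next hG hi
  have n2 := h.W_next (o := o') hG (e2 ▸ hi)
  rw [e2] at n2
  have l1 : c.lo (c.st Gr (r + 1) o) o = c.lo (c.st Gr r o + 1) o := congrArg Prod.fst n1
  have l2 : c.hi (c.st Gr (r + 1) o) o = c.hi (c.st Gr r o + 1) o := congrArg Prod.snd n1
  have l3 : c.lo (c.st Gr (r + 1) o') o' = c.lo (c.st Gr r o + 1) o' := congrArg Prod.fst n2
  have l4 : c.hi (c.st Gr (r + 1) o') o' = c.hi (c.st Gr r o + 1) o' := congrArg Prod.snd n2
  rw [l1] at s1; rw [l2] at s2; rw [l3] at s3; rw [l4] at s4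
  have hl : (c.row Gr).lam c r k o = c.lenW (c.hull Gr (c.st Gr r o) (c.W (c.st Gr r o) o)
    (c.W (c.st Gr (r + 1) o) o) k) := rfl
  rw [hl]
  rw [n1, n2] at e3 hne
  rw [n1]
  generalize c.st Gr r o = i at *
  have dis := (h.lami (i + 1) hL o' o).resolve_left hne
  have p1 := h.lt (i + 1) hL o
  have p2 := h.lt (i + 1) hL o'
  have cov : ∀ {q v : ℕ × ℕ} {x : Ω}, c.Pair i q (c.W (i + 1) x) k v →
      v.1 ≤ c.lo (i + 1) x ∧ c.hi (i + 1) x ≤ v.2 := by
    rintro q v x ⟨o1, o2, -, -, a3, a4, rfl⟩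
    have b5 := h.lt (i + 1) hL o1
    have b6 := h.lt (i + 1) hL o2
    rcases a4 with e | e <;> simp only [W, Prod.mk.injEq] at e ⊢ <;> omega
  rcases hull_cases (c := c) (Gr := Gr) i (c.W i o) (c.W (i + 1) o) k with ⟨-, A⟩ | A <;>
    rcases hull_cases (c := c) (Gr := Gr) i (c.W i o) (c.W (i + 1) o') k with ⟨-, B⟩ | B
  · obtain ⟨o1, o2, a1, a2, a3, a4, a5⟩ := A
    obtain ⟨q1, q2, b1, b2, -, b4, -⟩ := B
    rw [← h.kid_eq hL a1 b1, ← h.kid_eq hL a2 b2] at b4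
    have hΛ := h.lam_nonneg hL a1 a2 a3
    rw [a5]
    rcases a4 with a | a <;> rcases b4 with b | b
    · exact absurd (b.trans a.symm) hne
    · have t1 : c.hi (i + 1) o = c.hi (i + 1) o1 := congrArg Prod.snd a
      have t2 : c.lo (i + 1) o' = c.lo (i + 1) o2 := congrArg Prod.fst b
      refine (h.sep_pt hΛ hL a1 a2 a3 (t1 ▸ s2) (t2 ▸ s3)).trans
        (mul_le_mul_of_nonneg_left ?_ hΛ)
      rw [abs_sub_comm]; exact le_abs_self _
    · have t1 : c.hi (i + 1) o' = c.hi (i + 1) o1 := congrArg Prod.snd b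
      have t2 : c.lo (i + 1) o = c.lo (i + 1) o2 := congrArg Prod.fst a
      exact (h.sep_pt hΛ hL a1 a2 a3 (t1 ▸ s4) (t2 ▸ s1)).trans
        (mul_le_mul_of_nonneg_left (le_abs_self _) hΛ)
    · exact absurd (b.trans a.symm) hne
  · have := cov A
    rw [← e3, B] at this
    simp only [W] at this
    omega
  · have := cov B
    rw [e3, A] at this
    simp only [W] at this
    omega
  · rw [A, B] at e3
    exact absurd e3 hne

theorem Ok.row_ok (h : c.Ok Λ L) (hG : Gr ≤ L) {Hn : ℕ} (hH : c.S ^ 3 ≤ Hn)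
    (w : Ω → ℝ) : (c.row Gr).Ok c w Λ Gr Hn where
  st_le := fun _ _ => st_le
  st_mono := fun _ _ => st_mono
  dead := fun r o a => by
    have : c.st Gr r o = Gr := le_antisymm st_le (not_lt.1 fun b => a ((h.al_iff hG).2 b))
    change c.W (c.st Gr r o) o = _
    rw [this]
  back := fun r o o' i hi e => by
    have e1 : c.W (c.st Gr r o') o' = c.W (c.st Gr r o) o := e
    rw [h.st_det hG e1] at e1
    exact h.W_back hi (st_le.trans hG) e1
  det1 := fun r k o o' e => by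
    have e1 : c.W (c.st Gr (r + 1) o) o = c.W (c.st Gr (r + 1) o') o' := e
    have e2 := h.st_det hG e1
    have e3 := e1
    rw [e2] at e3
    have e4 : c.st Gr r o = c.st Gr r o' := h.st_of_W hG st_le e3 st_mono (e2 ▸ st_mono)
    have e5 : c.W (c.st Gr r o') o = c.W (c.st Gr r o') o' := h.W_back st_mono (st_le.trans hG) e3
    simp only [Row.tv, Row.Wr, row, e1, e4, e5]
  det2 := fun r o o' e => by
    have e4 : c.st Gr r o = c.st Gr r o' := h.st_of_W hG le_rfl e st_le st_le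
    change c.W (c.st Gr r o) o = c.W (c.st Gr r o') o'
    rw [e4]
    exact h.W_back st_le hG e
  sub := fun r k o => h.row_sub hG r k o
  al_mono := fun r o a => (h.al_iff hG).2 (by
    have h1 : c.st Gr (r + 1) o < Gr := (h.al_iff hG).1 a
    exact st_mono.trans_lt h1)
  half := fun r o a => by
    have h1 : c.st Gr (r + 1) o < Gr := (h.al_iff hG).1 a
    have h2 : c.st Gr r o < Gr := st_mono.trans_lt h1
    have h3 := h.W_next hG h2
    have h4 : c.thr Gr < c.N (c.st Gr (r + 1) o) o := a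
    rw [N_congr h3] at h4
    change 2 * c.lenW (c.W (c.st Gr (r + 1) o) o) ≤ c.lenW (c.W (c.st Gr r o) o)
    rw [h3]
    refine h.half _ (h2.trans_le hG) o (st_lt h2).1 ?_
    nlinarith [h.thr_anti hG, h.big, h.two]
  sep := fun r k o o' _ _ e hne s s' s1 s2 s3 s4 => h.row_sep hG r k o o' e hne s s' s1 s2 s3 s4
  cn_spec := fun i hi o a => by
    have h1 := st_cn hi a
    have h2 : c.st Gr (c.cn i o) o < Gr := h1.symm ▸ hi
    refine ⟨(h.al_iff hG).2 h2, ?_, ?_, ?_, fun k => ?_⟩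
    · change c.W (c.st Gr (c.cn i o) o) o = _
      rw [h1]
    · change c.W (c.st Gr (c.cn i o + 1) o) o = _
      rw [h.W_next hG h2, h1]
    · have := cn_add (c := c) 0 i o
      have e0 : c.cn 0 o = 0 := by simp [cn]
      change c.cn i o < Gr
      rw [zero_add] at this
      omega
    · refine le_st (min_le_right _ _) ((cn_mono (min_le_left _ _) o).trans ?_)
      have := cn_add (c := c) i (1 + k) o
      rw [← add_assoc, ← add_assoc] at this
      exact this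
  cn_det := fun i hi o o' e => h.cn_det (hi.le.trans hG) e
  cn_inj := fun i i' o hi _ a => by
    have h1 := cn_succ (c := c) i o
    rw [if_pos a] at h1
    have h2 := cn_mono (c := c) (Nat.succ_le_of_lt hi) o
    change c.cn i o < c.cn i' o
    rw [Nat.succ_eq_add_one] at h2
    omega
  pair := fun i hi o o' _ _ a a' e hne => by
    have hL := hi.trans_le hG
    have s1 := st_cn hi (h.clean_spl a)
    have s2 := st_cn hi (h.clean_spl a')
    rw [h.cn_det hL.le e] at s2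
    have n1 := h.W_next (r := c.cn i o) (o := o) hG (s1.symm ▸ hi)
    have n2 := h.W_next (r := c.cn i o) (o := o') hG (s2.symm ▸ hi)
    rw [s1] at n1
    rw [s2] at n2
    have k1 : c.Kid i (c.W i o) (c.rk i (c.W i o) (c.lo (i + 1) o)) o := ⟨rfl, a, rfl⟩
    have k2 : c.Kid i (c.W i o) (c.rk i (c.W i o) (c.lo (i + 1) o')) o' := ⟨e, a', rfl⟩
    have r1 := mem_range.2 (h.rk_lt hL a hH)
    have r2 := mem_range.2 (h.rk_lt hL a' hH)
    rw [e] at r2
    have key : ∀ k v, c.Pair i (c.W i o) (c.W (i + 1) o) k v →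
        c.Pair i (c.W i o) (c.W (i + 1) o') k v →
        (c.row Gr).tv c (c.cn i o) k o' = (c.row Gr).tv c (c.cn i o) k o := fun k v p1 p2 => by
      simp only [Row.tv, Row.Wr, row, s1, s2, n1, n2, e, h.hull_eq hG hi p1, h.hull_eq hG hi p2]
    rcases (h.lami (i + 1) hL o' o).resolve_left hne with d | d
    · exact ⟨(_, _), mem_product.2 ⟨r2, r1⟩, key _ _ ⟨o', o, k2, k1, d, Or.inr rfl, rfl⟩
        ⟨o', o, k2, k1, d, Or.inl rfl, rfl⟩⟩
    · exact ⟨(_, _), mem_product.2 ⟨r1, r2⟩, key _ _ ⟨o, o', k1, k2, d, Or.inl rfl, rfl⟩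
        ⟨o, o', k1, k2, d, Or.inr rfl, rfl⟩⟩

end TT

/-- rows exist -/
theorem exists_row {Ω : Type} (c : TT Ω) (w : Ω → ℝ) {Λ : ℝ} {L Gr Hn : ℕ} (h : c.Ok Λ L)
    (_hΛ : 0 ≤ Λ) (hG : Gr ≤ L) (hH : c.S ^ 3 ≤ Hn) : ∃ R : Row Ω, R.Ok c w Λ Gr Hn :=
  ⟨c.row Gr, h.row_ok hG hH w⟩

end Pool.Agent.Lib.MP_d308c3_co.K
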