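import Pool.Agent.Lib.MP_d308c3_co.K.TrB

/-! The tree of nodes with periodic cutting steps, from the single step. -/

namespace Pool.Agent.Lib.MP_d308c3_co.K

open Finset Pool.Agent.Lib.MP_108739_an.F Pool.Agent.Lib.MP_d308c3_co.Wl
open scoped Classical

variable {Ω : Type} [Fintype Ω]

/-- output of one cutting step from level `i` to level `j`, for all nodes at once -/
structure Tr.Stp (G : Geo Ω) (c : TT Ω) (g Ct sb η δ K : ℝ) (u i j : ℕ) (Y Y' : Ω → Finset Pt)
    (lab : Ω → Option (ℕ × ℤ)) (par : ℕ × ℤ → Ω → Prop) (bad : Ω → Prop) : Prop where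
  node : G.Node c j Y'
  sub : ∀ o, Y' o ⊆ Y o
  cells : ∀ o, (#(vals (fun _ => (1 : ℝ)) Y' (pr (pr (c.W i) Y) (c.W j)) o) : ℝ) ≤ K
  labOk : LabOk (fun _ => (1 : ℝ)) (fun o => (G.pt o).1) (fun o => (G.pt o).2)
    (fun o => c.tau (c.lo i o)) (c.len i) c.S η (pr (c.W i) Y) (pr (c.W j) Y') lab par
  share : ∀ o, ∑ v ∈ (fib univ (pr (c.W i) Y) o).image (pr (c.W j) Y'), G.Psi g v ≤
    Ct * G.Psi g (pr (c.W i) Y o)
  badshare : ∀ o, ∑ v ∈ ((fib univ (pr (c.W i) Y) o).filter bad).image (pr (c.W j) Y'),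
    G.Psi g v ≤ sb * G.Psi g (pr (c.W i) Y o)
  miss : tot (res (fun _ => (1 : ℝ)) fun o => lab o = none) ≤
    tot (res (fun _ => (1 : ℝ)) fun o => ∃ k ∈ Ico i (i + u), ¬ c.clean k o) +
      3 * tot (res (fun _ => (1 : ℝ)) bad) + δ * tot fun _ : Ω => (1 : ℝ)

variable {G : Geo Ω} {c : TT Ω} {Λ : ℝ} {L : ℕ}

/-- the sequence of node assignments -/
theorem Tr.ex_seq (h : c.Ok Λ L) (hG : G.Ok c L) {g Ct sb η δ K : ℝ} {u U : ℕ} (mac : ℕ → Prop)
    (hs : ∀ i Y, i + U ≤ L → G.Node c i Y →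
      ∃ Y' lab par bad, Tr.Stp G c g Ct sb η δ K u i (i + U) Y Y' lab par bad) :
    ∃ (Ys : ℕ → Ω → Finset Pt) (lab : ℕ → Ω → Option (ℕ × ℤ)) (par : ℕ → ℕ × ℤ → Ω → Prop)
      (bad : ℕ → Ω → Prop), (Ys 0 = fun _ => G.x.X) ∧
      (∀ k, k * U ≤ L → G.Node c (k * U) (Ys k)) ∧
      (∀ k, ¬ mac k → Ys (k + 1) = Ys k ∧ ∀ o, ¬ bad k o) ∧
      ∀ k, mac k → (k + 1) * U ≤ L → Tr.Stp G c g Ct sb η δ K u (k * U) ((k + 1) * U) (Ys k)
        (Ys (k + 1)) (lab k) (par k) (bad k) := by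
  have key : ∀ (k : ℕ) (Y : Ω → Finset Pt), ∃ (Y' : Ω → Finset Pt) (lab : Ω → Option (ℕ × ℤ))
      (par : ℕ × ℤ → Ω → Prop) (bad : Ω → Prop), (¬ mac k → Y' = Y ∧ ∀ o, ¬ bad o) ∧
      (mac k → (k + 1) * U ≤ L → G.Node c (k * U) Y →
        Tr.Stp G c g Ct sb η δ K u (k * U) ((k + 1) * U) Y Y' lab par bad) := by
    intro k Y
    by_cases a : mac k ∧ (k + 1) * U ≤ L ∧ G.Node c (k * U) Y
    · obtain ⟨a1, a2, a3⟩ := a
      rw [add_mul, one_mul] at a2 ⊢
      obtain ⟨Y', lab, par, bad, hh⟩ := hs (k * U) Y a2 a3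
      exact ⟨Y', lab, par, bad, fun n => absurd a1 n, fun _ _ _ => hh⟩
    · exact ⟨Y, fun _ => none, fun _ _ => False, fun _ => False, fun _ => ⟨rfl, fun _ => id⟩,
        fun a1 a2 a3 => absurd ⟨a1, a2, a3⟩ a⟩
  choose F lab par bad h1 h2 using key
  let Ys : ℕ → Ω → Finset Pt := fun k => Nat.rec (fun _ => G.x.X) (fun k Y => F k Y) k
  have e : ∀ k, Ys (k + 1) = F k (Ys k) := fun _ => rfl
  have hN : ∀ k, k * U ≤ L → G.Node c (k * U) (Ys k) := by
    intro k
    induction k with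
    | zero => exact fun _ => ⟨fun o => ⟨hG.t_pt_mem o, Subset.rfl⟩, fun _ _ _ _ => rfl⟩
    | succ k ih =>
      intro hk
      have hle : k * U ≤ (k + 1) * U := Nat.mul_le_mul_right U (Nat.le_succ k)
      have a := ih (hle.trans hk)
      by_cases m : mac k
      · exact (h2 k (Ys k) m hk a).node
      · rw [e, (h1 k (Ys k) m).1]
        exact a.t_later h hle hk
  refine ⟨Ys, fun k => lab k (Ys k), fun k => par k (Ys k), fun k => bad k (Ys k), rfl, hN,
    fun k m => h1 k (Ys k) m, fun k m hk => h2 k (Ys k) m hk (hN k ?_)⟩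
  exact (Nat.mul_le_mul_right U (Nat.le_succ k)).trans hk

/-- sums over blocks of levels -/
theorem Tr.sum_blocks (f : ℕ → ℝ) (hf : ∀ i, 0 ≤ f i) {u U L : ℕ} (hu : u ≤ U) (T : Finset ℕ)
    (hT : ∀ k ∈ T, (k + 1) * U ≤ L) :
    ∑ k ∈ T, ∑ i ∈ Ico (k * U) (k * U + u), f i ≤ ∑ i ∈ range L, f i := by
  rw [← sum_biUnion]
  · refine sum_le_sum_of_subset_of_nonneg (biUnion_subset.2 fun k hk i hi => ?_) fun i _ _ => hf i
    have h1 := hT k hk
    have h2 := mem_Ico.1 hi
    rw [add_mul, one_mul] at h1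
    exact mem_range.2 (by omega)
  · intro k _ l _ hkl
    refine disjoint_left.2 fun i hi hj => ?_
    have h1 := mem_Ico.1 hi
    have h2 := mem_Ico.1 hj
    rcases lt_or_gt_of_ne hkl with e | e
    · have := Nat.mul_le_mul_right U (Nat.succ_le_of_lt e)
      rw [Nat.succ_mul] at this
      omega
    · have := Nat.mul_le_mul_right U (Nat.succ_le_of_lt e)
      rw [Nat.succ_mul] at this
      omega

theorem Tr.sum_stage (f : ℕ → ℝ) {q m : ℕ} (hm : m ≤ q) (n : ℕ) :
    ∑ k ∈ range n, ∑ j ∈ range m, f ((k + 1) * q + j) =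
      ∑ s ∈ (range n ×ˢ range m).image (fun x : ℕ × ℕ => (x.1 + 1) * q + x.2), f s := by
  rw [sum_image, sum_product]
  rintro ⟨k, j⟩ hx ⟨k', j'⟩ hy e
  have h1 := mem_range.1 (mem_product.1 (mem_coe.1 hx)).2
  have h2 := mem_range.1 (mem_product.1 (mem_coe.1 hy)).2
  simp only at e h1 h2
  have h3 : k = k' := by
    rcases lt_trichotomy k k' with a | a | a
    · have := Nat.mul_le_mul_right q (show k + 1 + 1 ≤ k' + 1 by omega)
      rw [add_mul (k + 1), one_mul] at this
      omega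
    · exact a
    · have := Nat.mul_le_mul_right q (show k' + 1 + 1 ≤ k + 1 by omega)
      rw [add_mul (k' + 1), one_mul] at this
      omega
  subst h3
  exact Prod.ext rfl (by simpa using e)

theorem Tr.macH_of_step (h : c.Ok Λ L) (hG : G.Ok c L) {g C ε Ct sb η δ δ' sl : ℝ} {u U k0 : ℕ}
    (hu : u ≤ U) (hU : 1 ≤ U) (hk0 : 1 ≤ k0) (hg : 0 ≤ g) (hC : 0 ≤ C) (hε : 0 < ε)
    (hP : ∀ Y ⊆ G.x.X, Ex.PW (G.Ph Y) g C) (hCt : C * 8 ^ g / (1 - 2 ^ (-ε)) ≤ Ct)
    (hsb : 0 < sb) (hsb' : sb < Ct)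
    (hs : ∀ i Y, i + U ≤ L → G.Node c i Y → ∃ Y' lab par bad,
      Tr.Stp G c (g + ε) Ct sb η δ' (c.S ^ (2 * U)) u i (i + U) Y Y' lab par bad)
    (h0 : ∀ o o', c.W 0 o = c.W 0 o')
    (h0' : ∀ o, (#((range (L + 1)).filter fun i => ¬ c.good i o) : ℝ) * lg c.S ≤ c.ovs L o)
    (hsl : ∀ i < L, tot (res (fun _ => (1 : ℝ)) (c.slot i)) ≤ sl * tot fun _ : Ω => (1 : ℝ))
    (n1 : u * sl + δ' ≤ δ)
    (n2 : E (fun _ => (1 : ℝ)) (c.ovs L) ≤
      δ / 4 * L / (k0 * U) * lg c.S * tot fun _ : Ω => (1 : ℝ))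
    (n3 : ∀ o, 3 * (lg (Ct * G.Psi (g + ε) (c.W 0 o, G.x.X) / tot fun _ : Ω => (1 : ℝ)) +
      L / U * lg (2 * Ct)) ≤ δ / 2 * L / (k0 * U) * lg (Ct / sb)) (hCt1 : 1 ≤ Ct) (hδ0 : 0 ≤ δ) :
    MacH c (fun o => (G.pt o).1) (fun o => (G.pt o).2) (fun _ => (1 : ℝ)) Λ η δ U k0 L := by
  intro m n hm hL
  have hw : Nn (fun _ : Ω => (1 : ℝ)) := fun _ => zero_le_one
  set q := k0 * m with hq
  have hmq : m ≤ q := Nat.le_mul_of_pos_left m hk0
  have hq0 : 0 < q := by omega
  obtain ⟨Ys, lab, par, bad, y0, yN, yJ, yS⟩ := Tr.ex_seq h hG (fun k => k % q < m) hs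
  have hlev : ∀ k j, k * (q * U) + m * U + ((k0 - 1) * m * U + j * U) = ((k + 1) * q + j) * U := by
    intro k j
    obtain ⟨k1, rfl⟩ := Nat.exists_eq_add_of_le' hk0
    rw [hq, Nat.add_sub_cancel]; ring
  have hst : ∀ k < n, ∀ j ≤ m, ((k + 1) * q + j) * U ≤ L := by
    intro k hk j hj
    refine le_trans ?_ hL
    have : (k + 1) * q + j ≤ n * q + m := add_le_add (Nat.mul_le_mul_right q hk) hj
    calc ((k + 1) * q + j) * U ≤ (n * q + m) * U := Nat.mul_le_mul_right U this
      _ = n * (q * U) + m * U := by ring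
  have hmac : ∀ k j, j < m → ((k + 1) * q + j) % q < m := by
    intro k j hj
    rw [add_comm, Nat.add_mul_mod_self_right, Nat.mod_eq_of_lt (by omega)]
    exact hj
  have hS : ∀ k < n, ∀ j < m, Tr.Stp G c (g + ε) Ct sb η δ' (c.S ^ (2 * U)) u
      (((k + 1) * q + j) * U) (((k + 1) * q + (j + 1)) * U) (Ys ((k + 1) * q + j))
      (Ys ((k + 1) * q + (j + 1))) (lab ((k + 1) * q + j)) (par ((k + 1) * q + j))
      (bad ((k + 1) * q + j)) := fun k hk j hj => yS _ (hmac k j hj) (hst k hk (j + 1) hj)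
  have hjump : ∀ k d, m + d ≤ q → Ys (k * q + m + d) = Ys (k * q + m) := by
    intro k d
    induction d with
    | zero => exact fun _ => rfl
    | succ d ih =>
      intro hd
      rw [← add_assoc, (yJ (k * q + m + d) ?_).1, ih (by omega)]
      rw [add_assoc, add_comm, Nat.add_mul_mod_self_right, Nat.mod_eq_of_lt (by omega)]
      omega
  refine ⟨fun k j => Ys ((k + 1) * q + j), fun k j => lab ((k + 1) * q + j),
    fun k j => par ((k + 1) * q + j), fun k hk => ⟨?_, ?_, fun j hj => ?_, fun j hj o _ => ?_,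
      fun j hj => ?_⟩, ?_⟩
  · refine h.t_shift ?_
    change k * (q * U) + m * U + ((k0 - 1) * m * U + m * U) ≤ L
    rw [hlev]
    exact hst k hk m le_rfl
  · change Det (pr (c.W (k * (q * U) + m * U + 0)) G.pt) (Ys ((k + 1) * q + 0))
    have e1 : (k + 1) * q + 0 = k * q + m + (q - m) := by rw [add_mul, one_mul]; omega
    have e2 : k * (q * U) + m * U + 0 = (k * q + m) * U := by ring
    rw [e1, hjump k (q - m) (by omega), e2]
    refine (yN _ ?_).t_det
    refine le_trans (Nat.mul_le_mul_right U ?_) (hst k hk 0 (Nat.zero_le _))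
    rw [add_mul, one_mul]; omega
  · change Det (pr (c.W (k * (q * U) + m * U + ((k0 - 1) * m * U + (j + 1) * U)))
      (Ys ((k + 1) * q + (j + 1)))) (Ys ((k + 1) * q + j))
    rw [hlev]
    exact ((yN _ (hst k hk j hj.le)).t_nest h (Nat.mul_le_mul_right U (by omega))
      (hst k hk (j + 1) hj) (hS k hk j hj).node (hS k hk j hj).sub).trans Det.snd
  · change (#(vals (fun _ => (1 : ℝ)) (Ys ((k + 1) * q + (j + 1)))
      (pr (pr (c.W (k * (q * U) + m * U + ((k0 - 1) * m * U + j * U))) (Ys ((k + 1) * q + j)))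
        (c.W (k * (q * U) + m * U + ((k0 - 1) * m * U + (j + 1) * U)))) o) : ℝ) ≤ c.S ^ (2 * U)
    rw [hlev, hlev]
    exact (hS k hk j hj).cells o
  · change LabOk (fun _ => (1 : ℝ)) (fun o => (G.pt o).1) (fun o => (G.pt o).2)
      (fun o => c.tau (c.lo (k * (q * U) + m * U + ((k0 - 1) * m * U + j * U)) o))
      (c.len (k * (q * U) + m * U + ((k0 - 1) * m * U + j * U))) c.S η
      (pr (c.W (k * (q * U) + m * U + ((k0 - 1) * m * U + j * U))) (Ys ((k + 1) * q + j)))
      (pr (c.W (k * (q * U) + m * U + ((k0 - 1) * m * U + (j + 1) * U)))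
        (Ys ((k + 1) * q + (j + 1)))) (lab ((k + 1) * q + j)) (par ((k + 1) * q + j))
    rw [hlev, hlev]
    exact (hS k hk j hj).labOk
  · rcases isEmpty_or_nonempty Ω with he | ⟨⟨o0⟩⟩
    · simp [tot]
    set T : ℝ := tot fun _ : Ω => (1 : ℝ) with hT
    have hT0 : 0 ≤ T := tot_nonneg hw
    set Ls := n * q + m with hLs
    have hLs' : Ls * U ≤ L := by
      refine le_trans (le_of_eq ?_) hL
      rw [hLs]; ring
    have hU0 : (0 : ℝ) < U := by exact_mod_cast (by omega : 0 < U)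
    have hnest : ∀ k < Ls, ∀ o, Ys (k + 1) o ⊆ Ys k o := by
      intro k hk o
      by_cases a : k % q < m
      · exact (yS k a ((Nat.mul_le_mul_right U hk).trans hLs')).sub o
      · rw [(yJ k a).1]
    have hle : ∀ k, k * U ≤ (k + 1) * U := fun k => Nat.mul_le_mul_right U (Nat.le_succ k)
    have hb := Tr.bad_gen univ (fun k => pr (c.W (k * U)) (Ys k)) (G.Psi (g + ε)) (G.t_Psi_nonneg _) bad
      (Ct := Ct) (sb := sb) (C1 := Ct) (by linarith) hsb (by linarith) Ls
      (fun o _ o' _ => by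
        refine Prod.ext ?_ ?_
        · change c.W (0 * U) o = c.W (0 * U) o'
          rw [zero_mul]; exact h0 o o'
        · change Ys 0 o = Ys 0 o'
          rw [y0])
      (fun k hk o _ o' _ e => by
        have a := (Nat.mul_le_mul_right U (Nat.succ_le_of_lt hk)).trans hLs'
        exact (yN k ((hle k).trans a)).t_nest h (hle k) a (yN _ a) (hnest k hk) o o' e)
      (fun k hk o _ => by
        have a := (Nat.mul_le_mul_right U (Nat.succ_le_of_lt hk)).trans hLs'
        by_cases b : k % q < m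
        · exact (yS k b a).share o
        · have hN := yN k ((hle k).trans a)
          have j1 := Tr.jump_share (G := G) h (hle k) a (hP _ (hN.1 o).2) hg hC hε
            (fib univ (pr (c.W (k * U)) (Ys k)) o) o
            (fun o' ho' => congrArg Prod.fst (mem_fib.1 ho').2)
          refine le_trans ?_ (j1.trans (mul_le_mul_of_nonneg_right hCt (G.t_Psi_nonneg _ _)))
          refine le_trans (sum_le_sum_of_subset_of_nonneg (t := ((fib univ (pr (c.W (k * U)) (Ys k))
            o).image (c.W ((k + 1) * U))).image fun v => (v, Ys k o)) (fun v hv => ?_)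
              fun v _ _ => G.t_Psi_nonneg _ v) (sum_image_le_of_nonneg fun v _ => G.t_Psi_nonneg _ v)
          obtain ⟨o', ho', rfl⟩ := mem_image.1 hv
          refine mem_image.2 ⟨_, mem_image_of_mem _ ho', Prod.ext rfl ?_⟩
          change Ys k o = Ys (k + 1) o'
          rw [(yJ k b).1]
          exact (congrArg Prod.snd (mem_fib.1 ho').2).symm)
      (fun k hk o _ => by
        have a := (Nat.mul_le_mul_right U (Nat.succ_le_of_lt hk)).trans hLs'
        by_cases b : k % q < m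
        · exact (yS k b a).badshare o
        · rw [filter_false_of_mem fun o' _ => (yJ k b).2 o', image_empty, sum_empty]
          exact mul_nonneg hsb.le (G.t_Psi_nonneg _ _))
      (fun o _ => by
        have hN := yN Ls hLs'
        refine (Tr.card_items hG hLs' (hP _ (hN.1 o).2) hg hC hε _ o fun o' ho' =>
          hN.t_eq_iff.1 (mem_fib.1 ho').2).trans
            (mul_le_mul_of_nonneg_right hCt (G.t_Psi_nonneg _ _)))
      (mem_univ o0)
    have e0 : pr (c.W (0 * U)) (Ys 0) o0 = (c.W 0 o0, G.x.X) := by rw [zero_mul, y0]; rfl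
    simp only [← Tr.tot_one, ← Tr.tot_one', ← hT] at hb
    rw [e0] at hb
    have hl1 : 0 < lg (Ct / sb) :=
      Real.logb_pos one_lt_two ((one_lt_div hsb).2 hsb')
    have hl2 : 0 ≤ lg (2 * Ct) := lg_nonneg (by linarith)
    have hl3 : 0 < lg c.S := Real.logb_pos one_lt_two (by linarith [h.two])
    have hLU : (Ls : ℝ) ≤ L / U := by
      rw [le_div_iff₀ hU0]; exact_mod_cast hLs'
    set B : ℝ := ∑ k ∈ range Ls, tot (res (fun _ => (1 : ℝ)) (bad k)) with hB
    set D : ℝ := δ / 2 * L / (k0 * U) with hD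
    have b1 : 3 * B ≤ D * T := by
      refine le_of_mul_le_mul_right ?_ hl1
      have a1 := n3 o0
      have a2 := mul_le_mul_of_nonneg_right hLU hl2
      have a3 := mul_le_mul_of_nonneg_left a1 hT0
      have a4 := mul_le_mul_of_nonneg_left a2 hT0
      nlinarith
    have b2 : ∑ k ∈ range L, (tot (res (fun _ => (1 : ℝ)) fun o => ¬ c.good k o) +
        tot (res (fun _ => (1 : ℝ)) fun o => ¬ c.good (k + 1) o)) ≤ D * T := by
      have a1 := (Tr.not_good_mass hw h0').trans n2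
      have a2 : ∑ k ∈ range (L + 1), tot (res (fun _ => (1 : ℝ)) fun o => ¬ c.good k o) ≤
          D / 2 * T := by
        refine le_of_mul_le_mul_right (a1.trans (le_of_eq ?_)) hl3
        rw [hD]; ring
      have a3 := a2
      rw [sum_range_succ] at a2
      rw [sum_range_succ'] at a3
      have a4 := tot_nonneg (hw.res fun o => ¬ c.good L o)
      have a5 := tot_nonneg (hw.res fun o => ¬ c.good 0 o)
      rw [sum_add_distrib]
      linarith
    let A := (range n ×ˢ range m).image fun x : ℕ × ℕ => (x.1 + 1) * q + x.2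
    have hA : ∀ s ∈ A, ∃ k < n, ∃ j < m, s = (k + 1) * q + j := by
      intro s hs'
      obtain ⟨x, hx, rfl⟩ := mem_image.1 hs'
      exact ⟨x.1, mem_range.1 (mem_product.1 hx).1, x.2, mem_range.1 (mem_product.1 hx).2, rfl⟩
    have hAc : (A.card : ℝ) ≤ n * m := by
      have := (card_image_le (s := range n ×ˢ range m)
        (f := fun x : ℕ × ℕ => (x.1 + 1) * q + x.2))
      rw [card_product, card_range, card_range] at this
      exact_mod_cast this
    have hAL : ∀ s ∈ A, (s + 1) * U ≤ L := by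
      intro s hs'
      obtain ⟨k, hk, j, hj, rfl⟩ := hA s hs'
      exact hst k hk (j + 1) hj
    have step : ∀ s ∈ A, tot (res (fun _ => (1 : ℝ)) fun o => lab s o = none) ≤
        ∑ i ∈ Ico (s * U) (s * U + u), (tot (res (fun _ => (1 : ℝ)) fun o => ¬ c.good i o) +
          tot (res (fun _ => (1 : ℝ)) fun o => ¬ c.good (i + 1) o)) +
          3 * tot (res (fun _ => (1 : ℝ)) (bad s)) + δ * T := by
      intro s hs'
      have a0 := hAL s hs'
      obtain ⟨k, hk, j, hj, rfl⟩ := hA s hs'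
      have a1 := (hS k hk j hj).miss
      set s := (k + 1) * q + j
      have a2 := Tr.unclean_mass hw h (s * U) u
      have a3 : ∑ i ∈ Ico (s * U) (s * U + u), tot (res (fun _ => (1 : ℝ)) (c.slot i)) ≤
          u * (sl * T) := by
        refine (sum_le_card_nsmul _ _ (sl * T) fun i hi => hsl i ?_).trans (le_of_eq ?_)
        · have := mem_Ico.1 hi
          rw [add_mul, one_mul] at a0
          omega
        · rw [Nat.card_Ico, Nat.add_sub_cancel_left, nsmul_eq_mul]
      have a6 := mul_le_mul_of_nonneg_right n1 hT0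
      nlinarith
    have hδ : 0 ≤ δ * T := mul_nonneg hδ0 hT0
    rw [Tr.sum_stage (fun s => tot (res (fun _ => (1 : ℝ)) fun o => lab s o = none)) hmq n]
    refine (sum_le_sum step).trans ?_
    rw [sum_add_distrib, sum_add_distrib, ← mul_sum, sum_const, nsmul_eq_mul]
    have c1 := Tr.sum_blocks (fun i => tot (res (fun _ => (1 : ℝ)) fun o => ¬ c.good i o) +
      tot (res (fun _ => (1 : ℝ)) fun o => ¬ c.good (i + 1) o))
      (fun i => add_nonneg (tot_nonneg (hw.res _)) (tot_nonneg (hw.res _))) hu A hAL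
    have c2 : ∑ s ∈ A, tot (res (fun _ => (1 : ℝ)) (bad s)) ≤ B := by
      refine sum_le_sum_of_subset_of_nonneg (fun s hs' => ?_) fun i _ _ => tot_nonneg (hw.res _)
      obtain ⟨k, hk, j, hj, rfl⟩ := hA s hs'
      have := Nat.mul_le_mul_right q (Nat.succ_le_of_lt hk)
      exact mem_range.2 (by rw [hLs]; exact Nat.add_lt_add_of_le_of_lt this hj)
    have c3 := mul_le_mul_of_nonneg_right hAc hδ
    have c4 : δ * L / (k0 * U) = 2 * D := by rw [hD]; ring
    rw [c4]
    nlinarith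

end Pool.Agent.Lib.MP_d308c3_co.K
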