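import Pool.Agent.Lib.MP_d308c3_co.K.Defs
import Pool.Agent.Lib.MP_d308c3_co.Wl
import Pool.Agent.Lib.MP_108739_an.F.Ent1

/-! Basic facts on time trees and on nodes, and the count of bad steps in a tree of nodes. -/

namespace Pool.Agent.Lib.MP_d308c3_co.K

open Finset Pool.Agent.Lib.MP_108739_an.F Pool.Agent.Lib.MP_d308c3_co.Wl
open scoped Classical

section gen
variable {Ω κ : Type}

/-- few bad steps on average in a tree with total share `Ct` and bad share `sb` -/
theorem Tr.bad_gen [inst : DecidableEq κ] (S : Finset Ω) (nd : ℕ → Ω → κ) (Ψ : κ → ℝ) (hΨ : ∀ c, 0 ≤ Ψ c)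
    (Bad : ℕ → Ω → Prop) {Ct sb C1 : ℝ} (hC : 0 < Ct) (hs : 0 < sb) (hC1 : 0 ≤ C1) (L : ℕ)
    (h0 : ∀ o ∈ S, ∀ o' ∈ S, nd 0 o = nd 0 o')
    (hn : ∀ i < L, ∀ o ∈ S, ∀ o' ∈ S, nd (i + 1) o = nd (i + 1) o' → nd i o = nd i o')
    (ht : ∀ k < L, ∀ o ∈ S, ∑ c ∈ (fib S (nd k) o).image (nd (k + 1)), Ψ c ≤ Ct * Ψ (nd k o))
    (hb : ∀ k < L, ∀ o ∈ S,
      ∑ c ∈ ((fib S (nd k) o).filter (Bad k)).image (nd (k + 1)), Ψ c ≤ sb * Ψ (nd k o))
    (hL : ∀ o ∈ S, ((fib S (nd L) o).card : ℝ) ≤ C1 * Ψ (nd L o)) {o0 : Ω} (ho0 : o0 ∈ S) :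
    (∑ k ∈ range L, ((S.filter (Bad k)).card : ℝ)) * lg (Ct / sb) ≤
      S.card * (lg (C1 * Ψ (nd 0 o0) / S.card) + L * lg (2 * Ct)) := by
  obtain rfl : inst = fun a b => Classical.propDecidable (a = b) := Subsingleton.elim _ _
  let kp : ℕ → κ → ℝ := fun k c =>
    1 / (2 * Ct) + if ∃ o ∈ S, nd k o = c ∧ Bad (k - 1) o then 1 / (2 * sb) else 0
  have hk : ∀ i c, 0 < kp i c := fun i c => by
    simp only [kp]
    split_ifs <;> positivity
  have hT : Tree S nd (fun _ => Ψ) kp L := by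
    refine ⟨h0, hn, fun i _ o _ => (hk _ _).le, fun i hi o ho => ?_⟩
    have h3 := ht i hi o ho
    have h4 : ∑ c ∈ (fib S (nd i) o).image (nd (i + 1)),
        (if ∃ o' ∈ S, nd (i + 1) o' = c ∧ Bad i o' then Ψ c else 0) ≤ sb * Ψ (nd i o) := by
      rw [← sum_filter]
      refine le_trans (sum_le_sum_of_subset_of_nonneg (fun c hc => ?_) fun c _ _ => hΨ c)
        (hb i hi o ho)
      obtain ⟨h1, o2, m2, e2, b⟩ := mem_filter.1 hc
      obtain ⟨o1, m1, e1⟩ := mem_image.1 h1
      obtain ⟨m3, e3⟩ := mem_fib.1 m1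
      exact mem_image.2 ⟨o2, mem_filter.2
        ⟨mem_fib.2 ⟨m2, (hn i hi o2 m2 o1 m3 (e2.trans e1.symm)).trans e3⟩, b⟩, e2⟩
    have e : ∀ c ∈ (fib S (nd i) o).image (nd (i + 1)), kp (i + 1) c * Ψ c =
        1 / (2 * Ct) * Ψ c + 1 / (2 * sb) *
          (if ∃ o' ∈ S, nd (i + 1) o' = c ∧ Bad i o' then Ψ c else 0) := by
      intro c _
      simp only [kp, Nat.add_sub_cancel]
      split_ifs <;> ring
    rw [sum_congr rfl e, sum_add_distrib, ← mul_sum, ← mul_sum]
    have h5 := mul_le_mul_of_nonneg_left h3 (show 0 ≤ 1 / (2 * Ct) by positivity)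
    have h6 := mul_le_mul_of_nonneg_left h4 (show 0 ≤ 1 / (2 * sb) by positivity)
    have h7 : 1 / (2 * Ct) * (Ct * Ψ (nd i o)) = Ψ (nd i o) / 2 := by field_simp
    have h8 : 1 / (2 * sb) * (sb * Ψ (nd i o)) = Ψ (nd i o) / 2 := by field_simp
    linarith
  have h1 := hT.wl_log ho0 hC1 hL fun i _ o _ => hk _ _
  have h2 : ∀ o ∈ S, ∀ k ∈ range L,
      (if Bad k o then Real.log (Ct / sb) else 0) - Real.log (2 * Ct) ≤
        Real.log (kp (k + 1) (nd (k + 1) o)) := by
    intro o ho k _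
    by_cases b : Bad k o
    · rw [if_pos b, ← Real.log_div (by positivity) (by positivity)]
      refine Real.log_le_log (by positivity) ?_
      simp only [kp, Nat.add_sub_cancel]
      rw [if_pos ⟨o, ho, rfl, b⟩]
      have : Ct / sb / (2 * Ct) = 1 / (2 * sb) := by field_simp
      rw [this]
      have : 0 ≤ 1 / (2 * Ct) := by positivity
      linarith
    · rw [if_neg b, zero_sub, ← Real.log_inv]
      refine Real.log_le_log (by positivity) ?_
      simp only [kp]
      rw [one_div]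
      split_ifs
      · have : 0 ≤ 1 / (2 * sb) := by positivity
        linarith
      · linarith
  have h3 := (sum_le_sum fun o ho => sum_le_sum (h2 o ho)).trans h1
  have h4 : ∑ o ∈ S, ∑ k ∈ range L,
      ((if Bad k o then Real.log (Ct / sb) else 0) - Real.log (2 * Ct)) =
      (∑ k ∈ range L, ((S.filter (Bad k)).card : ℝ)) * Real.log (Ct / sb) -
        S.card * (L * Real.log (2 * Ct)) := by
    simp only [sum_sub_distrib, sum_const, card_range, nsmul_eq_mul]
    rw [sum_comm, sum_mul]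
    congr 1
    refine sum_congr rfl fun k _ => ?_
    rw [← sum_filter, sum_const, nsmul_eq_mul]
  rw [h4] at h3
  have hl : 0 < Real.log 2 := Real.log_pos one_lt_two
  unfold lg Real.logb
  rw [← mul_div_assoc, ← mul_div_assoc, ← add_div, ← mul_div_assoc]
  refine div_le_div_of_nonneg_right ?_ hl.le
  linarith

theorem Tr.tot_one [Fintype Ω] (A : Ω → Prop) :
    tot (res (fun _ : Ω => (1 : ℝ)) A) = ((univ.filter A).card : ℝ) := by
  unfold tot res
  rw [← sum_filter, sum_const, nsmul_eq_mul, mul_one]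

theorem Tr.tot_one' [Fintype Ω] : tot (fun _ : Ω => (1 : ℝ)) = ((univ : Finset Ω).card : ℝ) := by
  unfold tot
  rw [sum_const, nsmul_eq_mul, mul_one]

theorem Tr.ms_one [Fintype Ω] (f : Ω → κ) (o : Ω) :
    ms (fun _ : Ω => (1 : ℝ)) f o = ((fib univ f o).card : ℝ) := by
  rw [ms_eq_tot, Tr.tot_one]
  rfl

/-- an inequality between masses that holds in every node holds globally -/
theorem Tr.tot_nodes [Fintype Ω] {w : Ω → ℝ} (hw : Nn w) (f : Ω → κ) (A B : Ω → Prop) (c d : ℝ)
    (h : ∀ o, 0 < w o → tot (res w fun o' => f o' = f o ∧ A o') ≤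
      c * tot (res w fun o' => f o' = f o ∧ B o') + d * ms w f o) :
    tot (res w A) ≤ c * tot (res w B) + d * tot w := by
  have e : ∀ D : Ω → Prop, tot (res w D) =
      E w fun o => tot (res w fun o' => f o' = f o ∧ D o') / ms w f o := by
    intro D
    rw [← E_ind, ← E_fib hw f]
    refine congrArg (E w) (funext fun o => ?_)
    rw [E_ind, res_res]
  rw [e A, e B, ← E_mul, ← E_const, ← E_add]
  refine E_mono hw fun o ho => ?_
  have h1 := ms_pos hw f ho
  rw [div_le_iff₀ h1, add_mul, mul_assoc, div_mul_cancel₀ _ h1.ne']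
  exact h o ho

end gen

namespace TT
variable {Ω : Type} {c : TT Ω} {Λ : ℝ} {L : ℕ}

theorem Ok.t_S_pos (h : c.Ok Λ L) : 0 < c.S := by linarith [h.two]

theorem Ok.t_th_pos (h : c.Ok Λ L) : 0 < c.th := by
  have h1 := h.t_S_pos
  have h2 : 0 < c.thr L := lt_of_lt_of_le (by positivity) h.big
  unfold thr at h2
  exact (div_pos_iff_of_pos_right (by positivity)).1 h2

theorem Ok.t_thr_pos (h : c.Ok Λ L) (i : ℕ) : 0 < c.thr i := by
  have h1 := h.t_S_pos
  exact div_pos h.t_th_pos (by positivity)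

theorem t_thr_add (c : TT Ω) (i j : ℕ) : c.thr (i + j) = c.thr i / (c.S ^ 2) ^ j := by
  unfold thr
  rw [pow_add, div_div]

theorem Ok.t_thr_anti (h : c.Ok Λ L) {i j : ℕ} (hij : i ≤ j) : c.thr j ≤ c.thr i := by
  obtain ⟨k, rfl⟩ := Nat.exists_eq_add_of_le hij
  rw [t_thr_add]
  exact div_le_self (h.t_thr_pos i).le (one_le_pow₀ (one_le_pow₀ (by linarith [h.two])))

theorem Ok.t_N_one (h : c.Ok Λ L) {i : ℕ} (hi : i ≤ L) (o : Ω) : 1 ≤ c.N i o := by
  unfold N
  have := h.lt i hi o
  exact_mod_cast (by omega : 1 ≤ c.hi i o - c.lo i o)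

theorem Ok.t_N_pos (h : c.Ok Λ L) {i : ℕ} (hi : i ≤ L) (o : Ω) : 0 < c.N i o :=
  lt_of_lt_of_le one_pos (h.t_N_one hi o)

theorem t_N_det (c : TT Ω) (i : ℕ) : Det (c.W i) (c.N i) := fun o o' e => by
  unfold N
  rw [show c.lo i o = c.lo i o' from congrArg Prod.fst e,
    show c.hi i o = c.hi i o' from congrArg Prod.snd e]

theorem t_N_det' (c : TT Ω) {i j : ℕ} {o o' : Ω} (e : c.W i o = c.W j o') : c.N i o = c.N j o' := by
  unfold N
  rw [show c.lo i o = c.lo j o' from congrArg Prod.fst e,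
    show c.hi i o = c.hi j o' from congrArg Prod.snd e]

theorem Ok.t_nest_le (h : c.Ok Λ L) {i j : ℕ} (hij : i ≤ j) (hj : j ≤ L) (o : Ω) :
    c.lo i o ≤ c.lo j o ∧ c.hi j o ≤ c.hi i o := by
  induction j, hij using Nat.le_induction with
  | base => exact ⟨le_rfl, le_rfl⟩
  | succ n _ ih =>
    have h1 := ih (by omega)
    have h2 := h.nest n (by omega) o
    omega

theorem Ok.t_det_W (h : c.Ok Λ L) {i j : ℕ} (hij : i ≤ j) (hj : j ≤ L) : Det (c.W j) (c.W i) := by
  intro o o' e
  have e1 : c.lo j o = c.lo j o' := congrArg Prod.fst e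
  have e2 : c.hi j o = c.hi j o' := congrArg Prod.snd e
  have a := h.t_nest_le hij hj o
  have b := h.t_nest_le hij hj o'
  have d := h.lt j hj o
  rcases h.lami i (hij.trans hj) o o' with h1 | h1 | h1
  · exact h1
  · omega
  · omega

theorem t_shift_thr (c : TT Ω) (k i : ℕ) : (c.shift k).thr i = c.thr (k + i) :=
  (c.t_thr_add k i).symm

theorem Ok.t_shift (h : c.Ok Λ L) {k L' : ℕ} (hk : k + L' ≤ L) : (c.shift k).Ok Λ L' where
  two := h.two
  big := by rw [t_shift_thr]; exact h.big.trans (h.t_thr_anti hk)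
  mono := h.mono
  lt := fun i hi o => h.lt (k + i) (by omega) o
  nest := fun i hi o => h.nest (k + i) (by omega) o
  lami := fun i hi o o' => h.lami (k + i) (by omega) o o'
  size := fun i hi o => by rw [t_shift_thr]; exact h.size (k + i) (by omega) o
  idle := fun i hi o e => h.idle (k + i) (by omega) o fun e' => e (by
    unfold spl at e' ⊢
    rw [t_shift_thr]; exact e')
  half := fun i hi o e => h.half (k + i) (by omega) o (by
    unfold spl at e ⊢
    rw [t_shift_thr] at e; exact e)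
  cls_det := fun i hi o o' => h.cls_det (k + i) (by omega) o o'
  sep := fun i hi o o' => h.sep (k + i) (by omega) o o'

/-- a step between two good levels is a split -/
theorem Ok.t_spl_of_good (h : c.Ok Λ L) {i : ℕ} {o : Ω} (g : c.good i o) : c.spl i o := by
  unfold spl
  unfold good at g
  by_contra hn
  rw [not_lt, t_thr_add, pow_one] at hn
  have h1 := h.t_S_pos
  have h2 := h.t_thr_pos i
  have h3 := h.two
  rw [le_div_iff₀ (by positivity)] at hn
  have h4 : 0 < c.N i o := by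
    by_contra h5
    nlinarith
  nlinarith [mul_pos h4 h1]

theorem Ok.t_unclean (h : c.Ok Λ L) {i : ℕ} {o : Ω} (g : ¬ c.clean i o) :
    ¬ c.good i o ∨ ¬ c.good (i + 1) o ∨ c.slot i o := by
  by_cases a : c.good i o
  · by_cases b : c.good (i + 1) o
    · exact .inr (.inr ⟨h.t_spl_of_good a, b, fun d => g ⟨a, b, d⟩⟩)
    · exact .inr (.inl b)
  · exact .inl a

theorem Ok.t_ov_nonneg (h : c.Ok Λ L) {i : ℕ} (hi : i < L) (o : Ω) : 0 ≤ c.ov i o := by
  unfold ov
  split_ifs
  · exact lg_nonneg ((one_le_div (h.t_N_pos hi o)).2 (h.size (i + 1) hi o))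
  · exact le_rfl

/-- the levels that are not good are paid by the overshoots -/
theorem Ok.t_not_good (h : c.Ok Λ L) (o : Ω) :
    (∑ i ∈ range L, if c.good i o then (0 : ℝ) else 1) * lg c.S ≤
      lg (c.thr 0 / c.N 0 o) + c.ovs L o := by
  have hS := h.t_S_pos
  have key : ∀ n ≤ L, (∑ i ∈ range n, if c.good i o then (0 : ℝ) else 1) * lg c.S +
      lg (c.thr n / c.N n o) ≤ lg (c.thr 0 / c.N 0 o) + c.ovs n o := by
    intro n
    induction n with
    | zero => intro _; simp [ovs]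
    | succ n ih =>
      intro hn
      have h1 := ih (by omega)
      have hN := h.t_N_pos (i := n) (by omega) o
      have hd : 0 ≤ lg (c.thr n / c.N n o) :=
        lg_nonneg ((one_le_div hN).2 (h.size n (by omega) o))
      have hl : 0 ≤ lg c.S := lg_nonneg (by linarith [h.two])
      unfold ovs at h1 ⊢
      rw [sum_range_succ, sum_range_succ, add_mul]
      have h2 : (if c.good n o then (0 : ℝ) else 1) * lg c.S + lg (c.thr (n + 1) / c.N (n + 1) o) ≤
          lg (c.thr n / c.N n o) + c.ov n o := by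
        by_cases sp : c.spl n o
        · unfold ov
          rw [if_pos sp]
          by_cases g : c.good n o
          · rw [if_pos g]; linarith
          · rw [if_neg g]
            have : lg c.S ≤ lg (c.thr n / c.N n o) :=
              lg_mono hS ((le_div_iff₀ hN).2 (not_le.1 g).le)
            linarith
        · unfold ov
          rw [if_neg sp, c.t_N_det' (h.idle n (by omega) o sp), t_thr_add, pow_one, div_right_comm,
            lg_div (div_pos (h.t_thr_pos n) hN) (by positivity), sq, lg_mul hS hS]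
          split_ifs <;> linarith
      linarith
  have h1 := key L le_rfl
  have hd : 0 ≤ lg (c.thr L / c.N L o) :=
    lg_nonneg ((one_le_div (h.t_N_pos le_rfl o)).2 (h.size L le_rfl o))
  linarith

end TT

end Pool.Agent.Lib.MP_d308c3_co.K
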