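import Pool.Agent.Lib.MP_d308c3_co.K.TrA

/-! Values of nodes: pure time steps and the number of items of a node. -/

namespace Pool.Agent.Lib.MP_d308c3_co.K

open Finset Pool.Agent.Lib.MP_108739_an.F Pool.Agent.Lib.MP_d308c3_co.Wl
open scoped Classical

variable {Ω : Type} {c : TT Ω} {Λ : ℝ} {L : ℕ} {G : Geo Ω}

theorem Geo.t_Ph_nonneg (G : Geo Ω) (Y : Finset Pt) (i j : ℕ) : 0 ≤ G.Ph Y i j := Nat.cast_nonneg _

theorem Geo.t_Psi_nonneg (G : Geo Ω) (g : ℝ) (q : (ℕ × ℕ) × Finset Pt) : 0 ≤ G.Psi g q :=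
  mul_nonneg (G.t_Ph_nonneg _ _ _) (Real.rpow_nonneg (Nat.cast_nonneg _) _)

/-- the windows of a later level inside one window are disjoint -/
theorem TT.Ok.t_dis (h : c.Ok Λ L) {i j : ℕ} (hij : i ≤ j) (hj : j ≤ L) (S : Finset Ω) (o : Ω)
    (hS : ∀ o' ∈ S, c.W i o' = c.W i o) :
    Ex.Dis (S.image (c.W j)) Prod.fst Prod.snd (c.lo i o) (c.hi i o) := by
  refine ⟨fun d hd => ?_, fun d hd => ?_, fun d hd => ?_, fun d hd d' hd' e => ?_⟩
  · obtain ⟨x, _, rfl⟩ := mem_image.1 hd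
    exact h.lt j hj x
  · obtain ⟨x, hx, rfl⟩ := mem_image.1 hd
    have e : c.lo i x = c.lo i o := congrArg Prod.fst (hS x hx)
    exact e ▸ (h.t_nest_le hij hj x).1
  · obtain ⟨x, hx, rfl⟩ := mem_image.1 hd
    have e : c.hi i x = c.hi i o := congrArg Prod.snd (hS x hx)
    exact e ▸ (h.t_nest_le hij hj x).2
  · obtain ⟨x, _, rfl⟩ := mem_image.1 hd
    obtain ⟨y, _, rfl⟩ := mem_image.1 hd'
    exact (h.lami j hj x y).resolve_left e

/-- a pure time step -/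
theorem Tr.jump_share (h : c.Ok Λ L) {i j : ℕ} (hij : i ≤ j) (hj : j ≤ L) {Y : Finset Pt}
    {g C ε : ℝ} (hP : Ex.PW (G.Ph Y) g C) (hg : 0 ≤ g) (hC : 0 ≤ C) (hε : 0 < ε) (S : Finset Ω)
    (o : Ω) (hS : ∀ o' ∈ S, c.W i o' = c.W i o) :
    ∑ v ∈ S.image (c.W j), G.Psi (g + ε) (v, Y) ≤
      C * 8 ^ g / (1 - 2 ^ (-ε)) * G.Psi (g + ε) (c.W i o, Y) := by
  have := hP.ly_len (G.t_Ph_nonneg Y) hg hC (h.t_dis hij hj S o hS) hε
  rw [mul_assoc] at this
  exact this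

/-- the number of items of a node -/
theorem Tr.card_items (hG : G.Ok c L) {i : ℕ} (hi : i ≤ L) {Y : Finset Pt}
    {g C ε : ℝ} (hP : Ex.PW (G.Ph Y) g C) (hg : 0 ≤ g) (hC : 0 ≤ C) (hε : 0 < ε) (S : Finset Ω)
    (o : Ω) (hS : ∀ o' ∈ S, c.W i o' = c.W i o ∧ G.pt o' ∈ Y) :
    (S.card : ℝ) ≤ C * 8 ^ g / (1 - 2 ^ (-ε)) * G.Psi (g + ε) (c.W i o, Y) := by
  have h1 := hP.ly_atoms (G.t_Ph_nonneg Y) hg hC (c.lo i o) (c.hi i o) hε
  rw [mul_assoc] at h1
  refine le_trans ?_ h1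
  have h2 : S.card ≤ ((Ico (c.lo i o) (c.hi i o)).sigma fun k =>
      Cut.Ch G.x.U Y (G.s k) (G.s (k + 1))).card := by
    refine card_le_card_of_injOn (fun o' => ⟨G.atm o', G.pt o'⟩) (fun o' ho' => ?_)
      fun o1 _ o2 _ e => ?_
    · obtain ⟨e, m⟩ := hS o' (mem_coe.1 ho')
      have e1 : c.lo i o' = c.lo i o := congrArg Prod.fst e
      have e2 : c.hi i o' = c.hi i o := congrArg Prod.snd e
      refine mem_coe.2 (mem_sigma.2 ⟨mem_Ico.2 ?_, ?_⟩)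
      · rw [← e1, ← e2]; exact hG.win i hi o'
      · exact Cut.mem_Ch.2 ⟨m, (Cut.mem_Ch.1 (hG.mem o')).2⟩
    · obtain ⟨e1, e2⟩ := Sigma.mk.inj_iff.1 e
      exact hG.inj o1 o2 e1 (eq_of_heq e2)
  rw [card_sigma] at h2
  refine le_trans (Nat.cast_le.2 h2) ?_
  rw [Nat.cast_sum]
  refine sum_le_sum fun k _ => ?_
  unfold Geo.Ph Cut.Phi
  exact_mod_cast Nat.le_add_right _ _

theorem Geo.Ok.t_pt_mem (hG : G.Ok c L) (o : Ω) : G.pt o ∈ G.x.X := Cut.Ch_subset (hG.mem o)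

/-- a node assignment stays one at later levels -/
theorem Geo.Node.t_later (h : c.Ok Λ L) {i j : ℕ} (hij : i ≤ j) (hj : j ≤ L) {Y : Ω → Finset Pt}
    (hY : G.Node c i Y) : G.Node c j Y :=
  ⟨hY.1, fun o o' e m => hY.2 o o' (h.t_det_W hij hj o' o e) m⟩

theorem Geo.Node.t_det {i : ℕ} {Y : Ω → Finset Pt} (hY : G.Node c i Y) :
    Det (pr (c.W i) G.pt) Y := fun o o' e => by
  have e2 : G.pt o = G.pt o' := congrArg Prod.snd e
  exact hY.2 o' o (congrArg Prod.fst e) (e2 ▸ (hY.1 o').1)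

theorem Geo.Node.t_eq_iff {i : ℕ} {Y : Ω → Finset Pt} (hY : G.Node c i Y) {o o' : Ω} :
    pr (c.W i) Y o' = pr (c.W i) Y o ↔ c.W i o' = c.W i o ∧ G.pt o' ∈ Y o := by
  constructor
  · intro e
    have e2 : Y o' = Y o := congrArg Prod.snd e
    exact ⟨congrArg Prod.fst e, e2 ▸ (hY.1 o').1⟩
  · rintro ⟨e, m⟩
    exact Prod.ext e (hY.2 o o' e m)

/-- a finer node determines the coarser one -/
theorem Geo.Node.t_nest (h : c.Ok Λ L) {i j : ℕ} (hij : i ≤ j) (hj : j ≤ L) {Y Y' : Ω → Finset Pt}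
    (hY : G.Node c i Y) (hY' : G.Node c j Y') (hs : ∀ o, Y' o ⊆ Y o) :
    Det (pr (c.W j) Y') (pr (c.W i) Y) := fun o o' e => by
  obtain ⟨e1, m⟩ := hY'.t_eq_iff.1 e
  exact hY.t_eq_iff.2 ⟨h.t_det_W hij hj o o' e1, hs o' m⟩

/-- mass of the items with an unclean step among `u` levels -/
theorem Tr.unclean_mass [Fintype Ω] {w : Ω → ℝ} (hw : Nn w) (h : c.Ok Λ L) (i u : ℕ) :
    tot (res w fun o => ∃ k ∈ Ico i (i + u), ¬ c.clean k o) ≤
      ∑ k ∈ Ico i (i + u), (tot (res w fun o => ¬ c.good k o) +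
        tot (res w fun o => ¬ c.good (k + 1) o)) + ∑ k ∈ Ico i (i + u), tot (res w (c.slot k)) := by
  rw [← sum_add_distrib]
  refine (tot_res_exists hw _ _).trans (sum_le_sum fun k _ => ?_)
  refine (tot_res_mono hw fun o _ e => h.t_unclean e).trans ((tot_res_or hw _ _).trans ?_)
  have := tot_res_or hw (fun o => ¬ c.good (k + 1) o) (c.slot k)
  linarith

theorem Tr.vals_one [Fintype Ω] {α β : Type} [DecidableEq α] (f : Ω → α) (g : Ω → β) (o : Ω) :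
    vals (fun _ : Ω => (1 : ℝ)) f g o = (fib univ g o).image f := by
  ext v
  simp only [mem_vals, mem_image, mem_fib, mem_univ, true_and, zero_lt_one]

theorem Tr.vals_res [Fintype Ω] {α β : Type} [DecidableEq α] (f : Ω → α) (g : Ω → β)
    (B : Ω → Prop) (o : Ω) :
    vals (res (fun _ : Ω => (1 : ℝ)) B) f g o = ((fib univ g o).filter B).image f := by
  ext v
  simp only [mem_vals, mem_image, mem_filter, mem_fib, mem_univ, true_and]
  constructor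
  · rintro ⟨o', a, b, e⟩
    exact ⟨o', ⟨b, (res_pos a).1⟩, e⟩
  · rintro ⟨o', ⟨a, b⟩, e⟩
    refine ⟨o', ?_, a, e⟩
    unfold res
    rw [if_pos b]; exact zero_lt_one

/-- total mass of the levels that are not good -/
theorem Tr.not_good_mass [Fintype Ω] {w : Ω → ℝ} (hw : Nn w)
    (h : ∀ o, (#((range (L + 1)).filter fun i => ¬ c.good i o) : ℝ) * lg c.S ≤ c.ovs L o) :
    (∑ k ∈ range (L + 1), tot (res w fun o => ¬ c.good k o)) * lg c.S ≤ E w (c.ovs L) := by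
  have e : ∑ k ∈ range (L + 1), tot (res w fun o => ¬ c.good k o) =
      E w fun o => (#((range (L + 1)).filter fun i => ¬ c.good i o) : ℝ) := by
    simp only [card_filter, Nat.cast_sum]
    rw [E_sum]
    refine sum_congr rfl fun k _ => ?_
    rw [← E_ind]
    refine congrArg (E w) (funext fun o => ?_)
    by_cases g : c.good k o <;> simp [g]
  rw [e, mul_comm, ← E_mul]
  exact E_mono hw fun o _ => by rw [mul_comm]; exact h o

end Pool.Agent.Lib.MP_d308c3_co.K
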